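import Pool.Agent.H25.EB.Defs
import Pool.Agent.H25.EA.AcBasic

/-!
# Acyclic sets and real edges
-/

set_option autoImplicit false
set_option linter.unusedSectionVars false

namespace Pool.Agent.H25.EB

open Finset Pool.Agent.H25.EA

variable {V : Type*} [DecidableEq V]

section A
variable {μ : V → V → ℕ} {S T W A : Finset V} {v y : V}

theorem rr_add_om (_hμ : MG μ) : rr μ W W y + (om μ W y).card = ee μ y W := by
  rw [rr, om, card_filter, ← sum_add_distrib, ee]
  refine sum_congr rfl fun w _ => ?_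
  rw [rm]
  by_cases h : μ y w = 1 ∧ ee μ w W = 0
  · rw [if_pos h, if_pos h, h.1]
  · rw [if_neg h, if_neg h, add_zero]

theorem rr_mono (hST : S ⊆ T) : rr μ W S y ≤ rr μ W T y :=
  sum_le_sum_of_subset hST

theorem rm_le (v w : V) : rm μ W v w ≤ μ v w := by
  rw [rm]
  split_ifs
  · exact Nat.zero_le _
  · exact le_rfl

/-- In a core of `S + y`, `S ⊆ W`, all edges at `y` are real. -/
theorem real_of_core (hμ : MG μ) (hS : S ⊆ W) (hT : T ⊆ insert y S)
    (hcore : ∀ u ∈ T, 2 ≤ ee μ u T) {w : V} (hw : w ∈ T) (_hwy : w ≠ y) :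
    rm μ W y w = μ y w := by
  rw [rm]
  split_ifs with h
  · exfalso
    have h1 := hcore w hw
    have hsub : T.erase y ⊆ W := by
      intro x hx
      rw [mem_erase] at hx
      rcases mem_insert.1 (hT hx.2) with h2 | h2
      · exact absurd h2 hx.1
      · exact hS h2
    have h2 : ee μ w (T.erase y) ≤ ee μ w W := ee_mono hsub
    have h3 := hμ.symm w y
    by_cases hyT : y ∈ T
    · have h4 : ee μ w (T.erase y) + μ w y = ee μ w T := ee_erase hyT
      omega
    · rw [erase_eq_of_notMem hyT] at h2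
      omega
  · rfl

/-- A core of `S + y` with `S` acyclic contains `y`. -/
theorem mem_of_core (hS : Ac μ S) (hT : T ⊆ insert y S) (hne : T.Nonempty)
    (hcore : ∀ u ∈ T, 2 ≤ ee μ u T) : y ∈ T := by
  by_contra hy
  obtain ⟨u, hu, hu1⟩ := hS T (fun x hx => by
    rcases mem_insert.1 (hT hx) with h | h
    · exact absurd (h ▸ hx) hy
    · exact h) hne
  have := hcore u hu
  omega

theorem exists_core (h : ¬ Ac μ S) : ∃ T ⊆ S, T.Nonempty ∧ ∀ u ∈ T, 2 ≤ ee μ u T := by
  unfold Ac at h
  push Not at h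
  obtain ⟨T, hT, hne, hc⟩ := h
  exact ⟨T, hT, hne, fun u hu => hc u hu⟩

/-- In a core of `S + y` the number of edges at `y` is a number of real edges. -/
theorem core_real_sum (hμ : MG μ) (hS : S ⊆ W) (hT : T ⊆ insert y S)
    (hcore : ∀ u ∈ T, 2 ≤ ee μ u T) (hy : y ∈ T) :
    ∑ w ∈ T.erase y, rm μ W y w = ee μ y T := by
  have h1 : ee μ y (T.erase y) + μ y y = ee μ y T := ee_erase hy
  rw [← h1, hμ.diag y, add_zero, ee]
  exact sum_congr rfl fun w hw =>
    real_of_core hμ hS hT hcore (mem_erase.1 hw).2 (mem_erase.1 hw).1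

/-- at most one real edge to a part of an acyclic set keeps acyclicity -/
theorem ac_of_rr (hμ : MG μ) (hW : Ac μ W) (hS : S ⊆ W) (h1 : rr μ W S y ≤ 1) :
    Ac μ (insert y S) := by
  by_contra hcon
  obtain ⟨T, hT, hne, hcore⟩ := exists_core hcon
  have hy := mem_of_core (hW.mono hS) hT hne hcore
  have h2 := core_real_sum hμ hS hT hcore hy
  have h3 := hcore y hy
  have h4 : ∑ w ∈ T.erase y, rm μ W y w ≤ rr μ W S y := by
    apply sum_le_sum_of_subset
    intro x hx
    rw [mem_erase] at hx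
    rcases mem_insert.1 (hT hx.2) with h | h
    · exact absurd h hx.1
    · exact h
  omega

theorem exists_solo0 (hμ : MG μ) (hW : Ac μ W) (hne : W.Nonempty) (_hy : y ∉ W)
    (h3 : rr μ W W y ≤ 3) : ∃ m ∈ W, Ac μ (insert y (W.erase m)) := by
  obtain ⟨m, hm, hmT⟩ := exists_hit hμ W.card W (rm μ W y) rfl hW hne h3
  refine ⟨m, hm, ?_⟩
  by_contra hcon
  obtain ⟨T, hT, hTne, hcore⟩ := exists_core hcon
  have hyT := mem_of_core (hW.mono (erase_subset _ _)) hT hTne hcore
  have h2 := core_real_sum hμ (erase_subset m W) hT hcore hyT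
  have h4 := hcore y hyT
  have hsub : T.erase y ⊆ W.erase m := by
    intro x hx
    rw [mem_erase] at hx
    rcases mem_insert.1 (hT hx.2) with h | h
    · exact absurd h hx.1
    · exact h
  have hm' : m ∉ T.erase y := fun h => (mem_erase.1 (hsub h)).1 rfl
  obtain ⟨v, hv, hve⟩ := hmT (T.erase y) (hsub.trans (erase_subset _ _)) hm' (by omega)
  have hvT := mem_erase.1 hv
  have h5 := real_of_core hμ (erase_subset m W) hT hcore hvT.2 hvT.1
  have h6 := hcore v hvT.2
  have h8 : ee μ v (T.erase y) + μ v y = ee μ v T := ee_erase hyT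
  have h9 := hμ.symm v y
  omega

theorem sum_ee_erase (hμ : MG μ) {S : Finset V} {v : V} (hv : v ∈ S) :
    ∑ u ∈ S, ee μ u S = 2 * ee μ v S + ∑ u ∈ S.erase v, ee μ u (S.erase v) := by
  have h1 : ∑ u ∈ S, ee μ u S = ee μ v S + ∑ u ∈ S.erase v, ee μ u S :=
    (add_sum_erase _ _ hv).symm
  have h2 : ∑ u ∈ S.erase v, ee μ u S =
      ∑ u ∈ S.erase v, ee μ u (S.erase v) + ∑ u ∈ S.erase v, μ u v := by
    rw [← sum_add_distrib]
    exact sum_congr rfl fun u _ => (ee_erase hv).symm
  have h3 : ∑ u ∈ S.erase v, μ u v = ee μ v (S.erase v) :=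
    sum_congr rfl fun u _ => hμ.symm u v
  have h4 : ee μ v (S.erase v) + μ v v = ee μ v S := ee_erase hv
  have h5 := hμ.diag v
  omega

theorem ac_sum_le (hμ : MG μ) (h : Ac μ S) (hne : S.Nonempty) :
    ∑ v ∈ S, ee μ v S + 2 ≤ 2 * S.card := by
  induction hn : S.card generalizing S with
  | zero =>
    rw [card_eq_zero] at hn
    exact absurd hn (nonempty_iff_ne_empty.1 hne)
  | succ n ih =>
    obtain ⟨v, hv, hv1⟩ := h S (Subset.refl _) hne
    have h1 := sum_ee_erase hμ hv
    have hc : (S.erase v).card = n := by rw [card_erase_of_mem hv]; omega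
    by_cases he : S.erase v = ∅
    · have h2 : ee μ v S = 0 := by
        have h3 : ee μ v (S.erase v) + μ v v = ee μ v S := ee_erase hv
        rw [he] at h3
        have h4 := hμ.diag v
        have h5 : ee μ v (∅ : Finset V) = 0 := rfl
        omega
      rw [he] at h1
      simp only [sum_empty] at h1
      omega
    · have h2 := ih (h.mono (erase_subset _ _)) (nonempty_iff_ne_empty.2 he) hc
      omega

end A

end Pool.Agent.H25.EB
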