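import Pool.Agent.H25.EB.AcX

/-!
# Uniqueness of the core, and the centre
-/

set_option autoImplicit false
set_option linter.unusedSectionVars false

namespace Pool.Agent.H25.EB

open Finset Pool.Agent.H25.EA

variable {V : Type*} [DecidableEq V]

section A
variable {μ : V → V → ℕ} {S T W A : Finset V} {v y : V}

theorem ee_union (u : V) (h : Disjoint S T) : ee μ u (S ∪ T) = ee μ u S + ee μ u T :=
  sum_union h

theorem sum_ee_comm (hμ : MG μ) (S T : Finset V) :
    ∑ u ∈ S, ee μ u T = ∑ u ∈ T, ee μ u S := by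
  simp only [ee]
  rw [sum_comm]
  exact sum_congr rfl fun u _ => sum_congr rfl fun w _ => hμ.symm w u

/-- A core of `A + y` takes all the edges of `y` if there are only two. -/
theorem core_takes (hμ : MG μ) (h2 : ee μ y A ≤ 2) {C : Finset V}
    (hC : C ⊆ insert y A) (hcore : ∀ u ∈ C, 2 ≤ ee μ u C) (hy : y ∈ C) {u : V} (hu : u ∈ A)
    (huC : u ∉ C) : μ y u = 0 := by
  have h1 := hcore y hy
  have h3 : ee μ y (C.erase y) + μ y y = ee μ y C := ee_erase hy
  have h4 := hμ.diag y
  have hsub : insert u (C.erase y) ⊆ A := by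
    intro x hx
    rcases mem_insert.1 hx with rfl | hx
    · exact hu
    · rw [mem_erase] at hx
      rcases mem_insert.1 (hC hx.2) with h | h
      · exact absurd h hx.1
      · exact h
  have h5 : ee μ y (insert u (C.erase y)) ≤ ee μ y A := ee_mono hsub
  rw [ee_insert (fun h => huC (mem_erase.1 h).2)] at h5
  omega

/-- uniqueness of the core (used for `b = 1`) -/
theorem core_unique (hμ : MG μ) (hA : Ac μ A) (hy : y ∉ A) (h2 : ee μ y A ≤ 2) {C : Finset V}
    (hC : C ⊆ insert y A) (hcore : ∀ u ∈ C, 2 ≤ ee μ u C) (hv : v ∈ C) (hvy : v ≠ y) :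
    Ac μ (insert y (A.erase v)) := by
  have hyC : y ∈ C := mem_of_core hA hC ⟨v, hv⟩ hcore
  by_contra hcon
  obtain ⟨C', hC', hne', hcore'⟩ := exists_core hcon
  have hyC' : y ∈ C' := mem_of_core (hA.mono (erase_subset _ _)) hC' hne' hcore'
  have hC'A : C' ⊆ insert y A := hC'.trans (insert_subset_insert _ (erase_subset _ _))
  have hvC' : v ∉ C' := by
    intro h
    rcases mem_insert.1 (hC' h) with h1 | h1
    · exact hvy h1
    · exact (mem_erase.1 h1).1 rfl
  set Z := C \ C' with hZ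
  set P := C'.erase y with hP
  have hZA : Z ⊆ A := by
    intro u hu
    rw [hZ, mem_sdiff] at hu
    rcases mem_insert.1 (hC hu.1) with h | h
    · exact absurd (h ▸ hyC') hu.2
    · exact h
  have hPA : P ⊆ A := by
    intro u hu
    rw [hP, mem_erase] at hu
    rcases mem_insert.1 (hC'A hu.2) with h | h
    · exact absurd h hu.1
    · exact h
  have hdisj : Disjoint P Z := by
    rw [disjoint_left]
    intro u hu hu'
    exact (mem_sdiff.1 hu').2 (mem_erase.1 hu).2
  have hvZ : v ∈ Z := mem_sdiff.2 ⟨hv, hvC'⟩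
  -- the vertices of `Z` have no edge to `y`
  have hZ0 : ∀ u ∈ Z, μ u y = 0 := by
    intro u hu
    rw [hμ.symm]
    exact core_takes hμ h2 hC'A hcore' hyC' (hZA hu) (mem_sdiff.1 hu).2
  have hZ2 : ∀ u ∈ Z, 2 ≤ ee μ u Z + ee μ u P := by
    intro u hu
    have h3 := hcore u (mem_sdiff.1 hu).1
    have h4 : ee μ u (C.erase y) + μ u y = ee μ u C := ee_erase hyC
    have h5 : C.erase y ⊆ P ∪ Z := by
      intro w hw
      rw [mem_erase] at hw
      by_cases hwC : w ∈ C'
      · exact mem_union_left _ (mem_erase.2 ⟨hw.1, hwC⟩)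
      · exact mem_union_right _ (mem_sdiff.2 ⟨hw.2, hwC⟩)
    have h6 : ee μ u (C.erase y) ≤ ee μ u (P ∪ Z) := ee_mono h5
    rw [ee_union u hdisj] at h6
    have h7 := hZ0 u hu
    omega
  have hP2 : ∀ u ∈ P, 2 ≤ ee μ u P + μ u y := by
    intro u hu
    have h3 := hcore' u (mem_erase.1 hu).2
    have h4 : ee μ u P + μ u y = ee μ u C' := ee_erase hyC'
    omega
  have hsumP : 2 * P.card ≤ ∑ u ∈ P, ee μ u P + 2 := by
    have h3 : ∑ u ∈ P, 2 ≤ ∑ u ∈ P, (ee μ u P + μ u y) := sum_le_sum hP2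
    rw [sum_const, smul_eq_mul, sum_add_distrib] at h3
    have h4 : ∑ u ∈ P, μ u y = ee μ y P := sum_congr rfl fun u _ => hμ.symm u y
    have h5 : ee μ y P ≤ ee μ y A := ee_mono hPA
    omega
  have hsumZ : 2 * Z.card ≤ ∑ u ∈ Z, ee μ u Z + ∑ u ∈ Z, ee μ u P := by
    have h3 : ∑ u ∈ Z, 2 ≤ ∑ u ∈ Z, (ee μ u Z + ee μ u P) := sum_le_sum hZ2
    rw [sum_const, smul_eq_mul, sum_add_distrib] at h3
    omega
  have hU : Ac μ (P ∪ Z) := hA.mono (union_subset hPA hZA)
  have h3 := ac_sum_le hμ hU ⟨v, mem_union_right _ hvZ⟩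
  rw [card_union_of_disjoint hdisj, sum_union hdisj] at h3
  have h4 : ∑ u ∈ P, ee μ u (P ∪ Z) = ∑ u ∈ P, ee μ u P + ∑ u ∈ P, ee μ u Z := by
    rw [← sum_add_distrib]
    exact sum_congr rfl fun u _ => ee_union u hdisj
  have h5 : ∑ u ∈ Z, ee μ u (P ∪ Z) = ∑ u ∈ Z, ee μ u P + ∑ u ∈ Z, ee μ u Z := by
    rw [← sum_add_distrib]
    exact sum_congr rfl fun u _ => ee_union u hdisj
  have h6 : ∑ u ∈ P, ee μ u Z = ∑ u ∈ Z, ee μ u P := sum_ee_comm hμ P Z
  have h7 : ∑ u ∈ Z, ee μ u P = 0 := by omega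
  obtain ⟨u, hu, hu1⟩ := hA Z hZA ⟨v, hvZ⟩
  have h8 := hZ2 u hu
  have h9 : ee μ u P = 0 := sum_eq_zero_iff.1 h7 u hu
  omega

/-- The core of `W - p + y` contains all real neighbours of `y` other than `p`. -/
theorem core_all_real (hμ : MG μ) (h3 : rr μ W W y ≤ 3) {p : V} (hp : p ∈ W)
    (hp1 : rm μ W y p = 1) {C : Finset V} (hC : C ⊆ insert y (W.erase p))
    (hcore : ∀ u ∈ C, 2 ≤ ee μ u C) (hyC : y ∈ C) {w : V} (hw : w ∈ W) (hwp : w ≠ p)
    (hw1 : rm μ W y w = 1) : w ∈ C := by
  by_contra hwC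
  have h1 := core_real_sum hμ (erase_subset p W) hC hcore hyC
  have h2 := hcore y hyC
  have hsub : insert p (insert w (C.erase y)) ⊆ W := by
    intro x hx
    rcases mem_insert.1 hx with rfl | hx
    · exact hp
    rcases mem_insert.1 hx with rfl | hx
    · exact hw
    rw [mem_erase] at hx
    rcases mem_insert.1 (hC hx.2) with h | h
    · exact absurd h hx.1
    · exact (mem_erase.1 h).2
  have h4 : rr μ W (insert p (insert w (C.erase y))) y ≤ rr μ W W y := rr_mono hsub
  have hpn : p ∉ insert w (C.erase y) := by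
    intro h
    rcases mem_insert.1 h with h | h
    · exact hwp h.symm
    · have h5 := mem_erase.1 h
      rcases mem_insert.1 (hC h5.2) with h6 | h6
      · exact h5.1 h6
      · exact (mem_erase.1 h6).1 rfl
  rw [rr, sum_insert hpn, sum_insert (fun h => hwC (mem_erase.1 h).2)] at h4
  omega

/-- the centre: `p` and `q` are real neighbours of `y` which do not meet all cycles through `y`,
and `m` meets all of them -/
theorem center (hμ : MG μ) (hW : Ac μ W) (hy : y ∉ W) (h3 : rr μ W W y ≤ 3) {p q m : V}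
    (hp : p ∈ W) (hq : q ∈ W) (hpq : p ≠ q) (hp1 : rm μ W y p = 1) (hq1 : rm μ W y q = 1)
    (hpn : ¬ Ac μ (insert y (W.erase p))) (hqn : ¬ Ac μ (insert y (W.erase q)))
    (hm : m ∈ W) (hmac : Ac μ (insert y (W.erase m))) : 3 ≤ ee μ m W + μ y m := by
  obtain ⟨Cp, hCp, hnep, hcp⟩ := exists_core hpn
  obtain ⟨Cq, hCq, hneq, hcq⟩ := exists_core hqn
  have hyp : y ∈ Cp := mem_of_core (hW.mono (erase_subset _ _)) hCp hnep hcp
  have hyq : y ∈ Cq := mem_of_core (hW.mono (erase_subset _ _)) hCq hneq hcq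
  have hsubW : ∀ {C : Finset V} {x : V}, C ⊆ insert y (W.erase x) → C ⊆ insert y W :=
    fun h => h.trans (insert_subset_insert _ (erase_subset _ _))
  have hmy : m ≠ y := fun h => hy (h ▸ hm)
  have hmC : ∀ C : Finset V, C ⊆ insert y W → C.Nonempty → (∀ u ∈ C, 2 ≤ ee μ u C) → m ∈ C := by
    intro C hC hne hc
    by_contra hmC
    obtain ⟨u, hu, hu1⟩ := hmac C (fun x hx => by
      rcases mem_insert.1 (hC hx) with h | h
      · exact mem_insert.2 (Or.inl h)
      · exact mem_insert_of_mem (mem_erase.2 ⟨fun e => hmC (e ▸ hx), h⟩)) hne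
    have := hc u hu
    omega
  have hmp : m ∈ Cp := hmC Cp (hsubW hCp) hnep hcp
  have hpCp : p ∉ Cp := by
    intro h
    rcases mem_insert.1 (hCp h) with h1 | h1
    · exact hy (h1 ▸ hp)
    · exact (mem_erase.1 h1).1 rfl
  have hpCq : p ∈ Cq := core_all_real hμ h3 hq hq1 hCq hcq hyq hp hpq hp1
  have hpy : p ≠ y := fun h => hy (h ▸ hp)
  set S := (Cp ∪ Cq).erase y with hS
  have hSW : S ⊆ W := by
    intro x hx
    rw [hS, mem_erase] at hx
    rcases mem_union.1 hx.2 with h | h
    · rcases mem_insert.1 (hsubW hCp h) with h' | h'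
      · exact absurd h' hx.1
      · exact h'
    · rcases mem_insert.1 (hsubW hCq h) with h' | h'
      · exact absurd h' hx.1
      · exact h'
  have hyS : y ∉ S := fun h => (mem_erase.1 h).1 rfl
  have hins : insert y S = Cp ∪ Cq := by
    rw [hS, insert_erase (mem_union_left _ hyp)]
  have hmS : m ∈ S := mem_erase.2 ⟨hmy, mem_union_left _ hmp⟩
  -- `y` sends at least three edges to `S`
  have hyS3 : 3 ≤ ee μ y S := by
    have h1 := hcp y hyp
    have h2 : ee μ y (Cp.erase y) + μ y y = ee μ y Cp := ee_erase hyp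
    have h4 := hμ.diag y
    have h5 : insert p (Cp.erase y) ⊆ S := by
      intro x hx
      rcases mem_insert.1 hx with rfl | hx
      · exact mem_erase.2 ⟨hpy, mem_union_right _ hpCq⟩
      · rw [mem_erase] at hx
        exact mem_erase.2 ⟨hx.1, mem_union_left _ hx.2⟩
    have h6 : ee μ y (insert p (Cp.erase y)) ≤ ee μ y S := ee_mono h5
    rw [ee_insert (fun h => hpCp (mem_erase.1 h).2)] at h6
    have h7 : rm μ W y p ≤ μ y p := rm_le y p
    omega
  have hS2 : ∀ u ∈ S, 2 ≤ ee μ u (insert y S) := by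
    intro u hu
    rw [hins]
    rw [hS, mem_erase] at hu
    rcases mem_union.1 hu.2 with h | h
    · exact (hcp u h).trans (ee_mono subset_union_left)
    · exact (hcq u h).trans (ee_mono subset_union_right)
  set A := insert y (S.erase m) with hA
  have hAac : Ac μ A := hmac.mono (insert_subset_insert _ (erase_subset_erase _ hSW))
  have hyE : y ∉ S.erase m := fun h => hyS (mem_erase.1 h).2
  have h1 := ac_sum_le hμ hAac ⟨y, mem_insert_self _ _⟩
  have hcard : A.card = S.card := by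
    rw [hA, card_insert_of_notMem hyE, card_erase_of_mem hmS]
    have := card_pos.2 ⟨m, hmS⟩
    omega
  have hcE : (S.erase m).card + 1 = S.card := card_erase_add_one hmS
  rw [hcard, hA, sum_insert hyE] at h1
  have h4 : ee μ y (insert y (S.erase m)) + μ y m = ee μ y S := by
    rw [ee_insert hyE, hμ.diag y, zero_add]
    exact ee_erase hmS
  have h5 : 2 * (S.erase m).card ≤ ∑ u ∈ S.erase m, ee μ u (insert y (S.erase m)) + ee μ m S := by
    have h6 : ∑ u ∈ S.erase m, 2 ≤
        ∑ u ∈ S.erase m, (ee μ u (insert y (S.erase m)) + μ u m) := by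
      refine sum_le_sum fun u hu => ?_
      have h7 := hS2 u (mem_erase.1 hu).2
      rw [ee_insert hyS] at h7
      rw [ee_insert hyE]
      have h8 : ee μ u (S.erase m) + μ u m = ee μ u S := ee_erase hmS
      omega
    rw [sum_const, smul_eq_mul, sum_add_distrib] at h6
    have h7 : ∑ u ∈ S.erase m, μ u m = ee μ m (S.erase m) := sum_congr rfl fun u _ => hμ.symm u m
    have h8 : ee μ m (S.erase m) ≤ ee μ m S := ee_mono (erase_subset _ _)
    omega
  have h9 : ee μ m S ≤ ee μ m W := ee_mono hSW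
  omega

end A

end Pool.Agent.H25.EB
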