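import Mathlib

/-!
# Arithmetic of the certificates
-/

set_option autoImplicit false

namespace Pool.Agent.H25.EB

/-- case (A'), rational form; `d = t - b` -/
theorem arithA_core {b d x z u E σ : ℚ} (hb : 2 ≤ b) (hd : 0 ≤ d) (hdb : d ≤ 2 * b) (hx : 0 ≤ x)
    (hz : 0 ≤ z) (hu : 0 ≤ u) (hut : u = b + d - x - z) (hE : x + 2 * z ≤ E) (hE1 : 1 ≤ E)
    (hE2 : E + 1 ≤ 2 * b) (hσ : 0 ≤ σ)
    (hz1 : z = 0 ∨ 1 ≤ z)
    (hkey : d / (2 * b + d) * z ≤ σ * x ∨ x + 1 ≤ 2 * d) :
    0 ≤ u * ((E - 1) / (2 * b + 1 - E)) + σ * x - d / (2 * b + d) * z := by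
  have hm : 0 < 2 * b + 1 - E := by linarith
  have hl : 0 ≤ (E - 1) / (2 * b + 1 - E) := div_nonneg (by linarith) hm.le
  have hul := mul_nonneg hu hl
  rcases hkey with h1 | h1
  · linarith
  · rcases hz1 with h0 | h0
    · subst h0
      have := mul_nonneg hσ hx
      simp only [mul_zero, sub_zero]
      linarith
    have hmu : 2 * b + 1 - E ≤ 2 * u := by linarith
    have h2 : (E - 1) / 2 ≤ u * ((E - 1) / (2 * b + 1 - E)) := by
      rw [mul_div_assoc', div_le_div_iff₀ (by norm_num) hm]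
      nlinarith
    have h3 : d / (2 * b + d) * z ≤ z / 2 := by
      have h4 : d / (2 * b + d) ≤ 1 / 2 := by
        rw [div_le_div_iff₀ (by linarith) (by norm_num)]
        linarith
      nlinarith
    have h5 := mul_nonneg hσ hx
    linarith

/-- case (A'): `D = 2b + 2t` -/
theorem arithA {b t x z E : ℕ} {σ : ℚ} (hb : 2 ≤ b) (ht : t ≤ 2 * b) (hxz : x + z ≤ t)
    (hE : x + 2 * z ≤ E) (hE1 : 1 ≤ E) (hE2 : E + 1 ≤ 2 * b)
    (hσ : σ = (b : ℚ) / (2 * b + 2 * t) ∨ σ = 3 * (b : ℚ) / (2 * b + 2 * 1) - 1) :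
    0 ≤ ((t : ℚ) - x - z) * (((E : ℚ) - 1) / (2 * b + 1 - E)) + σ * x -
      (1 - 4 * (b : ℚ) / (2 * b + 2 * t)) * z := by
  have hbQ : (2 : ℚ) ≤ b := by exact_mod_cast hb
  have htQ : (t : ℚ) ≤ 2 * b := by exact_mod_cast ht
  have hxzQ : (x : ℚ) + z ≤ t := by exact_mod_cast hxz
  have hEQ : (x : ℚ) + 2 * z ≤ E := by exact_mod_cast hE
  have hE1Q : (1 : ℚ) ≤ E := by exact_mod_cast hE1
  have hE2Q : (E : ℚ) + 1 ≤ 2 * b := by exact_mod_cast hE2
  have hx0 : (0 : ℚ) ≤ x := Nat.cast_nonneg x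
  have hz0 : (0 : ℚ) ≤ z := Nat.cast_nonneg z
  have ht0 : (0 : ℚ) ≤ t := Nat.cast_nonneg t
  have hm : (0 : ℚ) < 2 * b + 1 - E := by linarith
  have hσ0 : 0 ≤ σ := by
    rcases hσ with h | h
    · rw [h]; positivity
    · rw [h, sub_nonneg, le_div_iff₀ (by linarith)]; linarith
  rcases Nat.lt_or_ge b t with htb | htb
  · -- t > b
    obtain ⟨d, rfl⟩ : ∃ d, t = b + d := ⟨t - b, by omega⟩
    have hd1 : 1 ≤ d := by omega
    have hdb : d ≤ b := by omega
    have hd1Q : (1 : ℚ) ≤ d := by exact_mod_cast hd1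
    have hdbQ : (d : ℚ) ≤ b := by exact_mod_cast hdb
    have hκ : (1 : ℚ) - 4 * (b : ℚ) / (2 * b + 2 * ((b + d : ℕ) : ℚ)) = d / (2 * b + d) := by
      push_cast
      field_simp
      ring
    rw [hκ]
    have hkey : (d : ℚ) / (2 * b + d) * z ≤ σ * x ∨ (x : ℚ) + 1 ≤ 2 * d := by
      by_cases hx2 : x + 1 ≤ 2 * d
      · right; exact_mod_cast hx2
      · left
        rcases hσ with h | h
        · rw [h]
          push_cast
          rw [div_mul_eq_mul_div, div_mul_eq_mul_div, div_le_div_iff₀ (by linarith) (by linarith)]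
          have h1 : z ≤ b := by omega
          have h2 : 2 * d ≤ x := by omega
          have h1Q : (z : ℚ) ≤ b := by exact_mod_cast h1
          have h2Q : 2 * (d : ℚ) ≤ x := by exact_mod_cast h2
          have h3 : (d : ℚ) * z * 2 ≤ b * x := by nlinarith
          nlinarith
        · rw [h]
          -- either `b ≥ 5` or a finite check
          have hfin : (2 * b + 2) * (d * z) ≤ (b - 2) * x * (2 * b + d) := by
            rcases Nat.lt_or_ge b 5 with hb5 | hb5
            · have hbcases : b = 2 ∨ b = 3 ∨ b = 4 := by omega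
              have hdcases : d = 1 ∨ d = 2 ∨ d = 3 ∨ d = 4 := by omega
              rcases hbcases with rfl | rfl | rfl <;>
                rcases hdcases with rfl | rfl | rfl | rfl <;> omega
            · have h1 : z + 1 ≤ b := by omega
              have h2 : 2 * d ≤ x := by omega
              obtain ⟨c, rfl⟩ : ∃ c, b = c + 5 := ⟨b - 5, by omega⟩
              have h3 : (c + 5 - 2) = c + 3 := by omega
              rw [h3]
              have h4 : (c + 3) * (2 * d) * (2 * (c + 5) + d) ≤ (c + 3) * x * (2 * (c + 5) + d) := by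
                gcongr
              have h5 : (2 * (c + 5) + 2) * (d * z) ≤ (2 * (c + 5) + 2) * (d * (c + 5)) := by
                gcongr
                omega
              have h6 : (2 * (c + 5) + 2) * (d * (c + 5)) ≤ (c + 3) * (2 * d) * (2 * (c + 5) + d) := by
                nlinarith [Nat.zero_le (c * d), Nat.zero_le (c * c * d), Nat.zero_le (d * d)]
              omega
          have h3 : 3 * (b : ℚ) / (2 * b + 2 * 1) - 1 = (b - 2) / (2 * b + 2) := by
            field_simp
            ring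
          rw [h3, div_mul_eq_mul_div, div_mul_eq_mul_div, div_le_div_iff₀ (by linarith) (by linarith)]
          have h4 : ((b - 2 : ℕ) : ℚ) = (b : ℚ) - 2 := by
            rw [Nat.cast_sub hb]; norm_num
          have h5 : ((2 * b + 2) * (d * z) : ℚ) ≤ (b - 2) * x * (2 * b + d) := by
            rw [← h4]
            exact_mod_cast hfin
          linarith
    have := arithA_core (b := b) (d := d) (x := x) (z := z) (u := ((b + d : ℕ) : ℚ) - x - z)
      (E := E) (σ := σ) hbQ (by linarith) (by linarith) hx0 hz0 (by linarith) (by push_cast; ring)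
      hEQ hE1Q hE2Q hσ0 (by
        rcases Nat.eq_zero_or_pos z with h | h
        · left; exact_mod_cast h
        · right; exact_mod_cast h) hkey
    exact this
  · -- t ≤ b
    have htbQ : (t : ℚ) ≤ b := by exact_mod_cast htb
    have h1 : 0 ≤ ((t : ℚ) - x - z) * (((E : ℚ) - 1) / (2 * b + 1 - E)) :=
      mul_nonneg (by linarith) (div_nonneg (by linarith) hm.le)
    have h2 : 0 ≤ σ * x := mul_nonneg hσ0 hx0
    have h3 : (1 - 4 * (b : ℚ) / (2 * b + 2 * t)) * z ≤ 0 := by
      apply mul_nonpos_of_nonpos_of_nonneg _ hz0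
      rw [sub_nonpos, le_div_iff₀ (by linarith)]
      linarith
    linarith

end Pool.Agent.H25.EB
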