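import Mathlib

/-!
# Arithmetic of the certificate (B')
-/

set_option autoImplicit false

namespace Pool.Agent.H25.EB

/-- common bound `κ z ≤ z / 3` -/
theorem kappa_le {b d z : ℚ} (hd : 0 ≤ d) (hdb : d ≤ b) (hb : 0 < b) (hz : 0 ≤ z) :
    d / (2 * b + d) * z ≤ z / 3 := by
  have h1 : d / (2 * b + d) ≤ 1 / 3 := by
    rw [div_le_div_iff₀ (by linarith) (by norm_num)]
    linarith
  nlinarith

/-- the core of (B') for `σ = b/D`, `D = 2(2b+d)`, `t = b+d-1`, `u = t-x-z`, natural numbers -/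
theorem arithB_core {b d x z u E j : ℕ} (hb : 2 ≤ b) (hd : 1 ≤ d) (hdb : d + 1 ≤ b)
    (hu : u + x + z + 1 = b + d) (hE : x + 2 * z + j ≤ E) (hE1 : 2 ≤ E) (hE2 : E + 1 ≤ 2 * b)
    (hj : j ≤ 2) :
    0 ≤ ((u : ℚ) + (2 - j) / 4) * (((E : ℚ) - 1) / (2 * b + 1 - E)) +
      (b : ℚ) / (2 * (2 * b + d)) * x - (d : ℚ) / (2 * b + d) * z - j / 8 := by
  have hbQ : (2 : ℚ) ≤ b := by exact_mod_cast hb
  have hdQ : (1 : ℚ) ≤ d := by exact_mod_cast hd
  have hdbQ : (d : ℚ) + 1 ≤ b := by exact_mod_cast hdb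
  have huQ : (u : ℚ) + x + z + 1 = b + d := by exact_mod_cast hu
  have hEQ : (x : ℚ) + 2 * z + j ≤ E := by exact_mod_cast hE
  have hE1Q : (2 : ℚ) ≤ E := by exact_mod_cast hE1
  have hE2Q : (E : ℚ) + 1 ≤ 2 * b := by exact_mod_cast hE2
  have hx0 : (0 : ℚ) ≤ x := Nat.cast_nonneg x
  have hz0 : (0 : ℚ) ≤ z := Nat.cast_nonneg z
  have hu0 : (0 : ℚ) ≤ u := Nat.cast_nonneg u
  have hm : (0 : ℚ) < 2 * b + 1 - E := by linarith
  have hκ := kappa_le (b := (b : ℚ)) (d := d) (z := z) (by linarith) (by linarith) (by linarith) hz0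
  have hβx : 0 ≤ (b : ℚ) / (2 * (2 * b + d)) * x := by positivity
  set l : ℚ := ((E : ℚ) - 1) / (2 * b + 1 - E) with hl
  have hlm : l * (2 * b + 1 - E) = E - 1 := by
    rw [hl]; field_simp
  have hl0 : 0 < l := div_pos (by linarith) hm
  -- the alternative
  have hbig : 2 * d ≤ x → (d : ℚ) / (2 * b + d) * z ≤ (b : ℚ) / (2 * (2 * b + d)) * x := by
    intro h
    have h1 : z ≤ b := by omega
    have h1Q : (z : ℚ) ≤ b := by exact_mod_cast h1
    have h2Q : 2 * (d : ℚ) ≤ x := by exact_mod_cast h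
    rw [div_mul_eq_mul_div, div_mul_eq_mul_div, div_le_div_iff₀ (by linarith) (by linarith)]
    have h3 : (d : ℚ) * z * 2 ≤ b * x := by nlinarith
    nlinarith
  have hjc : j = 0 ∨ j = 1 ∨ j = 2 := by omega
  rcases hjc with rfl | rfl | rfl
  · -- j = 0
    norm_num
    rcases Nat.lt_or_ge x (2 * d) with hx | hx
    · have hxQ : (x : ℚ) + 1 ≤ 2 * d := by exact_mod_cast hx
      rcases Nat.eq_zero_or_pos z with h0 | h0
      · have : (z : ℚ) = 0 := by exact_mod_cast h0
        rw [this] at hκ ⊢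
        have := mul_nonneg (show (0 : ℚ) ≤ u + 1 / 2 by linarith) hl0.le
        norm_num at this ⊢
        linarith
      have h0Q : (1 : ℚ) ≤ z := by exact_mod_cast h0
      rcases Nat.eq_zero_or_pos u with hu1 | hu1
      · have hu2 : (u : ℚ) = 0 := by exact_mod_cast hu1
        have hEb : E + 1 = 2 * b := by omega
        have hEbQ : (E : ℚ) + 1 = 2 * b := by exact_mod_cast hEb
        have hl2 : l = b - 1 := by
          have : (2 : ℚ) * b + 1 - E = 2 := by linarith
          rw [this] at hlm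
          linarith
        have hzb : z + 1 ≤ b := by omega
        have hzbQ : (z : ℚ) + 1 ≤ b := by exact_mod_cast hzb
        rw [hu2, hl2]
        norm_num
        nlinarith
      · have hu2 : (1 : ℚ) ≤ u := by exact_mod_cast hu1
        have h1 : (2 : ℚ) * b + 1 - E ≤ 2 * u + 2 := by
          push_cast at hEQ
          linarith
        have h2 : (3 / 8) * ((E : ℚ) - 1) ≤ ((u : ℚ) + 1 / 2) * l := by
          rw [← hlm]
          nlinarith
        push_cast at hEQ
        norm_num at h2 ⊢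
        linarith
    · have h1 := hbig hx
      have := mul_nonneg (show (0 : ℚ) ≤ u + 1 / 2 by linarith) hl0.le
      norm_num at this ⊢
      linarith
  · -- j = 1
    push_cast at hEQ ⊢
    norm_num
    rcases Nat.lt_or_ge x (2 * d) with hx | hx
    · have hxQ : (x : ℚ) + 1 ≤ 2 * d := by exact_mod_cast hx
      have h1 : (2 : ℚ) * b + 1 - E ≤ 2 * u + 1 := by linarith
      have hu1 : 1 ≤ u := by omega
      have hu2 : (1 : ℚ) ≤ u := by exact_mod_cast hu1
      rcases Nat.eq_zero_or_pos (x + z) with h0 | h0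
      · have hx1 : x = 0 := by omega
        have hz1 : z = 0 := by omega
        subst hx1 hz1
        -- u = b + d - 1 ≥ b
        have h3 : (b : ℚ) ≤ u := by
          push_cast at huQ
          linarith
        have h4 : (1 : ℚ) / 2 ≤ b * l := by
          have h5 : l * (2 * b) ≥ 1 := by nlinarith
          linarith
        have h6 : (b : ℚ) * l ≤ (u + 1 / 4) * l := by nlinarith
        push_cast
        norm_num at h6 ⊢
        linarith
      · have h0Q : (1 : ℚ) ≤ x + z := by exact_mod_cast h0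
        have h3 : (1 / 3) * ((E : ℚ) - 1) ≤ ((u : ℚ) + 1 / 4) * l := by
          rw [← hlm]
          nlinarith
        norm_num at h3 ⊢
        linarith
    · have h1 := hbig hx
      have hxQ : 2 * (d : ℚ) ≤ x := by exact_mod_cast hx
      have h2 : (1 : ℚ) / 8 ≤ (u + 1 / 4) * l := by
        by_cases h3 : (1 : ℚ) / 2 ≤ l
        · nlinarith
        · push Not at h3
          have h4 : 2 * ((E : ℚ) - 1) ≤ 2 * b + 1 - E := by
            rw [← hlm]
            nlinarith
          -- u ≥ b / 3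
          have h5 : (b : ℚ) / 3 ≤ u := by linarith
          have h6 : 1 ≤ l * b := by nlinarith
          nlinarith
      norm_num at h2 ⊢
      linarith
  · -- j = 2
    push_cast at hEQ ⊢
    norm_num
    rcases Nat.lt_or_ge x (2 * d) with hx | hx
    · have hxQ : (x : ℚ) + 1 ≤ 2 * d := by exact_mod_cast hx
      have h1 : (2 : ℚ) * b + 1 - E ≤ 2 * u := by linarith
      have h3 : (1 / 2) * ((E : ℚ) - 1) ≤ (u : ℚ) * l := by
        rw [← hlm]
        nlinarith
      norm_num at h3 ⊢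
      linarith
    · have h1 := hbig hx
      have hxQ : 2 * (d : ℚ) ≤ x := by exact_mod_cast hx
      rcases Nat.eq_zero_or_pos u with hu1 | hu1
      · subst hu1
        have h2 : z + d + 2 ≤ b := by omega
        have h2Q : (z : ℚ) + d + 2 ≤ b := by exact_mod_cast h2
        have h3 : (x : ℚ) = b + d - 1 - z := by
          push_cast at huQ
          linarith
        have h4 : (1 : ℚ) / 4 ≤ (b : ℚ) / (2 * (2 * b + d)) * x - (d : ℚ) / (2 * b + d) * z := by
          rw [h3]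
          have h5 : (b : ℚ) / (2 * (2 * b + d)) * (b + d - 1 - z) - (d : ℚ) / (2 * b + d) * z =
              (b * (b + d - 1 - z) - 2 * d * z) / (2 * (2 * b + d)) := by
            field_simp
          rw [h5, div_le_div_iff₀ (by norm_num) (by linarith)]
          nlinarith
        push_cast
        norm_num at h4 ⊢
        linarith
      · have hu2 : (1 : ℚ) ≤ u := by exact_mod_cast hu1
        have h2 : (1 : ℚ) / 4 ≤ u * l := by
          by_cases h3 : (1 : ℚ) / 4 ≤ l
          · nlinarith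
          · push Not at h3
            have h4 : 4 * ((E : ℚ) - 1) ≤ 2 * b + 1 - E := by
              rw [← hlm]
              nlinarith
            have h5 : 3 * (b : ℚ) / 5 ≤ u := by linarith
            have h6 : 1 ≤ l * b := by nlinarith
            nlinarith
        norm_num at h2 ⊢
        linarith

/-- the integral form of the inequality -/
def PW (b t x z j sn sd E : ℕ) : Prop :=
    8 * (2 * b + 1 - E) * (t + 1 - b) * z * sd +
      j * (2 * b + 1 - E) * (2 * b + (t + 1 - b)) * sd ≤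
    2 * (4 * (t - x - z) + 2 - j) * (E - 1) * (2 * b + (t + 1 - b)) * sd +
      8 * (2 * b + 1 - E) * (2 * b + (t + 1 - b)) * sn * x

instance (b t x z j sn sd E : ℕ) : Decidable (PW b t x z j sn sd E) := by
  unfold PW; infer_instance

def QS (b t x z : ℕ) : Prop := x + z ≤ t → ∀ j < 3, x + 2 * z + j + 1 ≤ 2 * b →
    PW b t x z j (b - 2) (2 * b + 2) (max 2 (x + 2 * z + j))

instance (b t x z : ℕ) : Decidable (QS b t x z) := by
  unfold QS; infer_instance

def QW (b t x z : ℕ) : Prop := x + z ≤ t → ∀ j < 3, x + 2 * z + j + 1 ≤ 2 * b →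
    PW b t x z j (b - 4) (2 * b + 4) (max 2 (x + 2 * z + j))

instance (b t x z : ℕ) : Decidable (QW b t x z) := by
  unfold QW; infer_instance

/-- finite check, strong mode -/
theorem finS : ∀ b < 5, ∀ t < 7, (2 ≤ b ∧ b ≤ t ∧ t + 2 ≤ 2 * b) → ∀ x < 7, ∀ z < 4,
    QS b t x z := by
  decide +kernel

/-- finite check, weak mode -/
theorem finW : ∀ b < 9, ∀ t < 15, (4 ≤ b ∧ b + 2 ≤ t ∧ t + 2 ≤ 2 * b) → ∀ x < 15, ∀ z < 8,
    QW b t x z := by
  decide +kernel

/-- from the integral form to the rational form -/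
theorem from_fin {b d x z u j E sn sd : ℕ} (hd : 1 ≤ d) (hsd : 0 < sd) (hE1 : 1 ≤ E)
    (hE2 : E ≤ 2 * b) (hj : j ≤ 2)
    (h : 8 * (2 * b + 1 - E) * d * z * sd + j * (2 * b + 1 - E) * (2 * b + d) * sd ≤
      2 * (4 * u + 2 - j) * (E - 1) * (2 * b + d) * sd +
        8 * (2 * b + 1 - E) * (2 * b + d) * sn * x) :
    0 ≤ ((u : ℚ) + (2 - j) / 4) * (((E : ℚ) - 1) / (2 * b + 1 - E)) +
      (sn : ℚ) / sd * x - (d : ℚ) / (2 * b + d) * z - j / 8 := by
  have hdQ : (1 : ℚ) ≤ d := by exact_mod_cast hd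
  have hb0 : (0 : ℚ) ≤ b := Nat.cast_nonneg b
  have hsdQ : (0 : ℚ) < sd := by exact_mod_cast hsd
  have hE1Q : (1 : ℚ) ≤ E := by exact_mod_cast hE1
  have hE2Q : (E : ℚ) ≤ 2 * b := by exact_mod_cast hE2
  have hm : (0 : ℚ) < 2 * b + 1 - E := by linarith
  have hm' : ((2 * b + 1 - E : ℕ) : ℚ) = 2 * b + 1 - E := by
    rw [Nat.cast_sub (by omega)]; push_cast; ring
  have hv' : ((E - 1 : ℕ) : ℚ) = E - 1 := by
    rw [Nat.cast_sub hE1]; push_cast; ring
  have hu' : ((4 * u + 2 - j : ℕ) : ℚ) = 4 * u + 2 - j := by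
    rw [Nat.cast_sub (by omega)]; push_cast; ring
  have hQ : (8 * ((2 * b + 1 - E : ℕ) : ℚ) * d * z * sd +
      j * ((2 * b + 1 - E : ℕ) : ℚ) * (2 * b + d) * sd) ≤
      2 * ((4 * u + 2 - j : ℕ) : ℚ) * ((E - 1 : ℕ) : ℚ) * (2 * b + d) * sd +
        8 * ((2 * b + 1 - E : ℕ) : ℚ) * (2 * b + d) * sn * x := by
    exact_mod_cast h
  rw [hm', hv', hu'] at hQ
  have hden : (0 : ℚ) < 8 * (2 * b + 1 - E) * (2 * b + d) * sd := by positivity
  have heq : ((u : ℚ) + (2 - j) / 4) * (((E : ℚ) - 1) / (2 * b + 1 - E)) +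
      (sn : ℚ) / sd * x - (d : ℚ) / (2 * b + d) * z - j / 8 =
      (2 * (4 * (u : ℚ) + 2 - j) * (E - 1) * (2 * b + d) * sd +
        8 * (2 * b + 1 - E) * (2 * b + d) * sn * x -
        (8 * (2 * b + 1 - E) * d * z * sd + j * (2 * b + 1 - E) * (2 * b + d) * sd)) /
        (8 * (2 * b + 1 - E) * (2 * b + d) * sd) := by
    have h1 : (2 * (b : ℚ) + 1 - E) ≠ 0 := hm.ne'
    have h2 : (2 * (b : ℚ) + d) ≠ 0 := by positivity
    field_simp
    ring
  rw [heq]
  apply div_nonneg _ hden.le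
  linarith

/-- the arithmetic of the certificate (B') -/
theorem arithB {b t x z E j : ℕ} {σ : ℚ} (hb : 2 ≤ b) (hbt : b ≤ t) (ht : t + 2 ≤ 2 * b)
    (hxz : x + z ≤ t) (hE : x + 2 * z + j ≤ E) (hE1 : 2 ≤ E) (hE2 : E + 1 ≤ 2 * b) (hj : j ≤ 2)
    (hσ : σ = (b : ℚ) / (2 * b + 2 * (t + 1)) ∨ σ = 3 * (b : ℚ) / (2 * b + 2 * 1) - 1 ∨
      (b + 2 ≤ t ∧ σ = 3 * (b : ℚ) / (2 * b + 2 * 2) - 1)) :
    0 ≤ ((t : ℚ) - x - z) * (((E : ℚ) - 1) / (2 * b + 1 - E)) + σ * x -
      (1 - 4 * (b : ℚ) / (2 * b + 2 * (t + 1))) * z +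
      1 / 4 * ((2 - j) * (((E : ℚ) - 1) / (2 * b + 1 - E)) - j * (1 / 2)) := by
  obtain ⟨d, hd⟩ : ∃ d, t + 1 = b + d := ⟨t + 1 - b, by omega⟩
  obtain ⟨u, hu⟩ : ∃ u, t = u + x + z := ⟨t - x - z, by omega⟩
  have hd1 : 1 ≤ d := by omega
  have hdb : d + 1 ≤ b := by omega
  have hbQ : (2 : ℚ) ≤ b := by exact_mod_cast hb
  have hd1Q : (1 : ℚ) ≤ d := by exact_mod_cast hd1
  have hdQ : (t : ℚ) + 1 = b + d := by exact_mod_cast hd
  have huQ : (t : ℚ) = u + x + z := by exact_mod_cast hu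
  have hx0 : (0 : ℚ) ≤ x := Nat.cast_nonneg x
  have hE2Q : (E : ℚ) + 1 ≤ 2 * b := by exact_mod_cast hE2
  have hκ : (1 : ℚ) - 4 * (b : ℚ) / (2 * b + 2 * (t + 1)) = d / (2 * b + d) := by
    rw [hdQ]
    field_simp
    ring
  have hβ : (b : ℚ) / (2 * b + 2 * (t + 1)) = b / (2 * (2 * b + d)) := by
    rw [hdQ]
    congr 1
    ring
  have hu2 : (t : ℚ) - x - z = u := by linarith
  rw [hκ, hu2]
  have hcore := arithB_core (b := b) (d := d) (x := x) (z := z) (u := u) (E := E) (j := j) hb hd1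
    hdb (by omega) hE hE1 hE2 hj
  have key : ∀ σ' : ℚ, 0 ≤ ((u : ℚ) + (2 - j) / 4) * (((E : ℚ) - 1) / (2 * b + 1 - E)) +
      σ' * x - (d : ℚ) / (2 * b + d) * z - j / 8 →
      0 ≤ (u : ℚ) * (((E : ℚ) - 1) / (2 * b + 1 - E)) + σ' * x - d / (2 * b + d) * z +
      1 / 4 * ((2 - j) * (((E : ℚ) - 1) / (2 * b + 1 - E)) - j * (1 / 2)) := by
    intro σ' h
    calc (0 : ℚ) ≤ _ := h
      _ = _ := by ring
  apply key
  -- monotonicity in `σ`
  have hmono : (b : ℚ) / (2 * (2 * b + d)) ≤ σ →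
      0 ≤ ((u : ℚ) + (2 - j) / 4) * (((E : ℚ) - 1) / (2 * b + 1 - E)) +
      σ * x - (d : ℚ) / (2 * b + d) * z - j / 8 := by
    intro h
    have := mul_le_mul_of_nonneg_right h hx0
    linarith
  -- monotonicity in `E`
  set E0 := max 2 (x + 2 * z + j) with hE0
  have hE0le : E0 ≤ E := by rw [hE0]; omega
  have hE0Q : (E0 : ℚ) ≤ E := by exact_mod_cast hE0le
  have hE0b : E0 ≤ 2 * b := by omega
  have hE01 : 1 ≤ E0 := by omega
  have hE01Q : (1 : ℚ) ≤ E0 := by exact_mod_cast hE01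
  have hlam : ((E0 : ℚ) - 1) / (2 * b + 1 - E0) ≤ ((E : ℚ) - 1) / (2 * b + 1 - E) := by
    rw [div_le_div_iff₀ (by linarith) (by linarith)]
    nlinarith
  have hcoef : (0 : ℚ) ≤ (u : ℚ) + (2 - j) / 4 := by
    have : (j : ℚ) ≤ 2 := by exact_mod_cast hj
    have : (0 : ℚ) ≤ u := Nat.cast_nonneg u
    linarith
  have hE' := mul_le_mul_of_nonneg_left hlam hcoef
  rcases hσ with h | h | ⟨hbt2, h⟩
  · rw [h, hβ]; exact hcore
  · by_cases hle : (b : ℚ) / (2 * (2 * b + d)) ≤ σ
    · exact hmono hle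
    · have hb5 : b < 5 := by
        by_contra hcon
        apply hle
        rw [h]
        have h3 : 3 * (b : ℚ) / (2 * b + 2 * 1) - 1 = (b - 2) / (2 * b + 2) := by
          field_simp
          ring
        have hb5 : (5 : ℚ) ≤ b := by exact_mod_cast (by omega : 5 ≤ b)
        rw [h3, div_le_div_iff₀ (by linarith) (by linarith)]
        nlinarith
      have hfin := finS b hb5 t (by omega) ⟨hb, hbt, ht⟩ x (by omega) z (by omega)
        hxz j (by omega) (by omega)
      unfold PW at hfin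
      have e1 : t + 1 - b = d := by omega
      have e2 : t - x - z = u := by omega
      rw [e1, e2, ← hE0] at hfin
      have h4 := from_fin (b := b) (d := d) (x := x) (z := z) (u := u) (j := j) (E := E0)
        (sn := b - 2) (sd := 2 * b + 2) hd1 (by omega) hE01 hE0b hj hfin
      have h5 : ((b - 2 : ℕ) : ℚ) / ((2 * b + 2 : ℕ) : ℚ) = σ := by
        rw [h, Nat.cast_sub hb]
        push_cast
        field_simp
        ring
      rw [h5] at h4
      linarith
  · by_cases hle : (b : ℚ) / (2 * (2 * b + d)) ≤ σ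
    · exact hmono hle
    · have hb9 : b < 9 := by
        by_contra hcon
        apply hle
        rw [h]
        have h3 : 3 * (b : ℚ) / (2 * b + 2 * 2) - 1 = (b - 4) / (2 * b + 4) := by
          field_simp
          ring
        have hb9 : (9 : ℚ) ≤ b := by exact_mod_cast (by omega : 9 ≤ b)
        have hd3 : (3 : ℚ) ≤ d := by exact_mod_cast (by omega : 3 ≤ d)
        rw [h3, div_le_div_iff₀ (by linarith) (by linarith)]
        nlinarith
      have hfin := finW b hb9 t (by omega) ⟨by omega, hbt2, ht⟩ x (by omega) z (by omega)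
        hxz j (by omega) (by omega)
      unfold PW at hfin
      have e1 : t + 1 - b = d := by omega
      have e2 : t - x - z = u := by omega
      rw [e1, e2, ← hE0] at hfin
      have h4 := from_fin (b := b) (d := d) (x := x) (z := z) (u := u) (j := j) (E := E0)
        (sn := b - 4) (sd := 2 * b + 4) hd1 (by omega) hE01 hE0b hj hfin
      have h5 : ((b - 4 : ℕ) : ℚ) / ((2 * b + 4 : ℕ) : ℚ) = σ := by
        rw [h, Nat.cast_sub (by omega)]
        push_cast
        field_simp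
        ring
      rw [h5] at h4
      linarith

end Pool.Agent.H25.EB
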