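import Pool.Agent.H25.EB.Defs
import Pool.Agent.H25.EA.Exch
import Pool.Agent.H25.EB.AcX
import Pool.Agent.H25.EB.AcY

/-!
# Equitable acyclic colourings, `Δ ≤ 2k-1`: R1 and the types (module R)
-/

set_option autoImplicit false
set_option linter.unusedSectionVars false

namespace Pool.Agent.H25.EB

open Finset Pool.Agent.H25.EA

variable {V : Type*} [DecidableEq V]


section X
variable {μ : V → V → ℕ} {s b : ℕ} {U : Finset V} {f : V → ℕ} {𝒜 : Finset ℕ} {r : ℕ}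
  {J : Finset ℕ} {Q : ℕ}

section Y
open Pool.Agent.H18.EAx

theorem y_card_AA (h : Setup0 μ s b U f 𝒜 r) : (AA U f 𝒜).card + 1 = 𝒜.card * s := by
  have h1 : (AA U f 𝒜).card = ∑ c ∈ 𝒜, (cl U f c).card := by
    have := sum_AA (U := U) (f := f) (𝒜 := 𝒜) (fun _ => 1)
    simpa using this
  have h2 : ∑ c ∈ 𝒜, (cl U f c).card = (cl U f r).card + ∑ c ∈ 𝒜.erase r, (cl U f c).card :=
    (Finset.add_sum_erase 𝒜 (fun c => (cl U f c).card) h.r_mem).symm
  have h3 : ∑ c ∈ 𝒜.erase r, (cl U f c).card = ∑ _c ∈ 𝒜.erase r, s :=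
    Finset.sum_congr rfl (fun c hc => h.card_cl c (Finset.mem_of_mem_erase hc)
      (Finset.ne_of_mem_erase hc))
  rw [Finset.sum_const, smul_eq_mul] at h3
  have h4 : (𝒜.erase r).card + 1 = 𝒜.card := Finset.card_erase_add_one h.r_mem
  have h5 := h.card_r
  rw [h1, h2, h3, ← h4]
  ring_nf
  omega

theorem y_ee_cl_ge_two (h : Setup0 μ s b U f 𝒜 r) {y : V} (hy : y ∈ BB U f 𝒜) {c : ℕ}
    (hc : c ∈ 𝒜) : 2 ≤ ee μ y (cl U f c) :=
  x_two_le_of_not_ac h.mg (h.ac c hc) (h.blocked y hy c hc)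

theorem y_ee_BB_le (h : Setup0 μ s b U f 𝒜 r) {y : V} (hy : y ∈ BB U f 𝒜) :
    ee μ y (BB U f 𝒜) + 1 ≤ 2 * b := by
  have h1 := h.deg y (mem_BB.1 hy).1
  have h2 := ee_AA_add_BB (μ := μ) (U := U) (f := f) (𝒜 := 𝒜) y
  have h3 : 𝒜.card * 2 ≤ ee μ y (AA U f 𝒜) := by
    rw [ee_AA]
    have := Finset.card_nsmul_le_sum 𝒜 (fun c => ee μ y (cl U f c)) 2
      (fun c hc => y_ee_cl_ge_two h hy hc)
    simpa using this
  omega

/-- the vertex `q` can be placed outside the classes of `S`, with a shift to `r` -/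
theorem y_path_exchange (h : Setup0 μ s b U f 𝒜 r) {S : Finset ℕ} (hrS : r ∉ S)
    (hNo : NoCl (arc μ U f) 𝒜 r S) {q : V} (hq : ∃ Y ∈ 𝒜, Y ∉ S ∧ mov μ U f q Y) :
    ∃ N : ℕ → Finset V, (∀ c ∈ 𝒜, c ∉ S → (N c).card ≤ s ∧ Ac μ (N c)) ∧
      ∀ v, (v = q ∨ ∃ c ∈ 𝒜, c ∉ S ∧ v ∈ cl U f c) → ∃ c ∈ 𝒜, c ∉ S ∧ v ∈ N c := by
  classical
  obtain ⟨Y, hY, hYS, hqY⟩ := hq
  set I : Finset ℕ := (𝒜 \ S).erase r with hI
  have hIE : ∀ c, c ∈ I ∪ {r} ↔ c ∈ 𝒜 ∧ c ∉ S := by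
    intro c
    simp only [hI, Finset.mem_union, Finset.mem_erase, Finset.mem_sdiff, Finset.mem_singleton]
    constructor
    · rintro (⟨_, h1⟩ | rfl)
      · exact h1
      · exact ⟨h.r_mem, hrS⟩
    · intro h1
      by_cases hcr : c = r
      · exact Or.inr hcr
      · exact Or.inl ⟨hcr, h1⟩
  have hmI : ∀ c, c ∈ I ↔ c ≠ r ∧ c ∈ 𝒜 ∧ c ∉ S := by
    intro c
    simp only [hI, Finset.mem_erase, Finset.mem_sdiff]
  have hd : Disjoint I {r} := by
    rw [Finset.disjoint_singleton_right]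
    intro hr
    exact ((hmI r).1 hr).1 rfl
  have hall : ∀ T ⊆ I ∪ {r}, T.card ≤ (T.biUnion (src μ U f I {q})).card := by
    intro T hT
    -- T ∩ I is contained in the neighbourhood
    have hsub : (T ∩ I).map Function.Embedding.inr ⊆ T.biUnion (src μ U f I {q}) := by
      intro x hx
      obtain ⟨u, hu, rfl⟩ := Finset.mem_map.1 hx
      obtain ⟨huT, huI⟩ := Finset.mem_inter.1 hu
      exact Finset.mem_biUnion.2 ⟨u, huT, inr_mem_src.2 ⟨huI, Or.inl rfl⟩⟩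
    by_cases hrT : r ∈ T
    · -- one more element
      have hTc : T.card ≤ (T ∩ I).card + 1 := by
        have : T ⊆ insert r (T ∩ I) := by
          intro c hc
          by_cases hcr : c = r
          · exact hcr ▸ Finset.mem_insert_self _ _
          · refine Finset.mem_insert_of_mem (Finset.mem_inter.2 ⟨hc, ?_⟩)
            rcases Finset.mem_union.1 (hT hc) with h' | h'
            · exact h'
            · exact absurd (Finset.mem_singleton.1 h') hcr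
        exact (Finset.card_le_card this).trans (Finset.card_insert_le _ _)
      suffices hex : ∃ x ∈ T.biUnion (src μ U f I {q}), x ∉ (T ∩ I).map
          (Function.Embedding.inr : ℕ ↪ V ⊕ ℕ) by
        obtain ⟨x, hx, hx'⟩ := hex
        have h1 : insert x ((T ∩ I).map Function.Embedding.inr) ⊆
            T.biUnion (src μ U f I {q}) := Finset.insert_subset hx hsub
        have h2 := Finset.card_le_card h1
        rw [Finset.card_insert_of_notMem hx', Finset.card_map] at h2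
        omega
      by_cases hYT : Y ∈ T
      · refine ⟨Sum.inl q, Finset.mem_biUnion.2 ⟨Y, hYT, inl_mem_src.2
          ⟨Finset.mem_singleton_self _, hqY⟩⟩, ?_⟩
        intro hx
        obtain ⟨u, _, hu⟩ := Finset.mem_map.1 hx
        cases hu
      · set L : Finset ℕ := I \ T with hL
        have hYr : Y ≠ r := fun h' => hYT (h' ▸ hrT)
        have hYL : Y ∈ L := Finset.mem_sdiff.2 ⟨(hmI Y).2 ⟨hYr, hY, hYS⟩, hYT⟩
        obtain ⟨x, hx, y, hy, hyL, hyS, har⟩ := hNo L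
          (fun c hc => ((hmI c).1 (Finset.mem_sdiff.1 hc).1).2.1)
          (by
            rw [Finset.disjoint_left]
            intro c hc hcS
            exact ((hmI c).1 (Finset.mem_sdiff.1 hc).1).2.2 hcS)
          (fun hr => ((hmI r).1 (Finset.mem_sdiff.1 hr).1).1 rfl)
          ⟨Y, hYL⟩
        have hyT : y ∈ T := by
          by_contra hyT
          apply hyL
          have hyr : y ≠ r := fun h' => hyT (h' ▸ hrT)
          exact Finset.mem_sdiff.2 ⟨(hmI y).2 ⟨hyr, hy, hyS⟩, hyT⟩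
        obtain ⟨hxI, hxT⟩ := Finset.mem_sdiff.1 hx
        refine ⟨Sum.inr x, Finset.mem_biUnion.2 ⟨y, hyT, inr_mem_src.2
          ⟨hxI, Or.inr har⟩⟩, ?_⟩
        intro hx'
        obtain ⟨u, hu, hux⟩ := Finset.mem_map.1 hx'
        have hux' : u = x := by simpa using hux
        exact hxT (hux' ▸ (Finset.mem_inter.1 hu).1)
    · have hTI : T ⊆ T ∩ I := by
        intro c hc
        refine Finset.mem_inter.2 ⟨hc, ?_⟩
        rcases Finset.mem_union.1 (hT hc) with h' | h'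
        · exact h'
        · exact absurd ((Finset.mem_singleton.1 h') ▸ hc) hrT
      have h2 := Finset.card_le_card hsub
      rw [Finset.card_map] at h2
      exact (Finset.card_le_card hTI).trans h2
  obtain ⟨N, hN1, hN2, hN3, hN4⟩ := exchange (μ := μ) (U := U) (f := f) hd
    (P := {q}) (by simp) (fun c hc => h.ac c ((hIE c).1 hc).1) hall
  refine ⟨N, ?_, ?_⟩
  · intro c hc hcS
    refine ⟨?_, hN3 c ((hIE c).2 ⟨hc, hcS⟩)⟩
    by_cases hcr : c = r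
    · subst hcr
      have h1 := (hN2 c (Finset.mem_singleton_self _)).2
      have h2 := h.card_r
      omega
    · have h1 := hN1 c ((hmI c).2 ⟨hcr, hc, hcS⟩)
      rw [h.card_cl c hc hcr] at h1
      exact h1
  · rintro v (rfl | ⟨c, hc, hcS, hv⟩)
    · obtain ⟨c, hc, hv⟩ := hN4 v (Or.inl (Finset.mem_singleton_self _))
      exact ⟨c, ((hIE c).1 hc).1, ((hIE c).1 hc).2, hv⟩
    · by_cases hcr : c = r
      · subst hcr
        exact ⟨c, hc, hcS, (hN2 c (Finset.mem_singleton_self _)).1 hv⟩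
      · obtain ⟨c', hc', hv'⟩ := hN4 v (Or.inr ⟨c, (hmI c).2 ⟨hcr, hc, hcS⟩, hv⟩)
        exact ⟨c', ((hIE c').1 hc').1, ((hIE c').1 hc').2, hv'⟩

/-- a movable vertex of a terminal class cannot be replaced by a vertex of `B` -/
theorem R1 (h : Setup0 μ s b U f 𝒜 r) {W : ℕ} (hW : W ∈ 𝒜) (hWr : W ≠ r)
    (ht : NoCl (arc μ U f) 𝒜 r {W}) {w : V} (hw : w ∈ Fm μ U f 𝒜 W) {y : V}
    (hy : y ∈ BB U f 𝒜) : ¬ Ac μ (insert y ((cl U f W).erase w)) := by
  intro hac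
  obtain ⟨Y, hY, hYW, hmY⟩ := exists_target hw
  have hwW := (mem_Fm.1 hw).1
  obtain ⟨N, hN1, hN2⟩ := y_path_exchange h (S := {W})
    (by rw [Finset.mem_singleton]; exact fun h' => hWr h'.symm) ht
    (q := w) ⟨Y, hY, by rwa [Finset.mem_singleton], hmY⟩
  have hyA : y ∉ AA U f 𝒜 := fun h' => (mem_BB.1 hy).2 (mem_AA.1 h').2
  have hcard : (insert y (AA U f 𝒜)).card = 𝒜.card * s := by
    rw [Finset.card_insert_of_notMem hyA]; exact y_card_AA h
  refine h.noEC (insert y (AA U f 𝒜)) ?_ hcard ?_ ?_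
  · intro v hv
    rcases Finset.mem_insert.1 hv with rfl | hv
    · exact (mem_BB.1 hy).1
    · exact (mem_AA.1 hv).1
  · intro v hv
    obtain ⟨hvU, hvn⟩ := Finset.mem_sdiff.1 hv
    have hsub : U \ insert y (AA U f 𝒜) ⊆ BB U f 𝒜 := by
      intro x hx
      obtain ⟨hxU, hxn⟩ := Finset.mem_sdiff.1 hx
      refine mem_BB.2 ⟨hxU, fun hx' => hxn ?_⟩
      exact Finset.mem_insert_of_mem (mem_AA.2 ⟨hxU, hx'⟩)
    have h1 := y_ee_BB_le h (hsub hv)
    have h2 : ee μ v (U \ insert y (AA U f 𝒜)) ≤ ee μ v (BB U f 𝒜) := x_ee_mono hsub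
    omega
  · let M : ℕ → Finset V := fun c => if c = W then insert y ((cl U f W).erase w) else N c
    have hMW : M W = insert y ((cl U f W).erase w) := if_pos rfl
    have hMc : ∀ c, c ≠ W → M c = N c := fun c hc => if_neg hc
    refine EC_of_cover M ?_ ?_ ?_ hcard
    · intro c hc
      by_cases hcW : c = W
      · subst hcW
        rw [hMW]
        have h1 := Finset.card_insert_le y ((cl U f c).erase w)
        have h2 := Finset.card_erase_of_mem hwW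
        have h3 := h.card_cl c hc hWr
        have h4 : 0 < (cl U f c).card := Finset.card_pos.2 ⟨_, hwW⟩
        omega
      · rw [hMc c hcW]
        exact (hN1 c hc (by rwa [Finset.mem_singleton])).1
    · intro c hc
      by_cases hcW : c = W
      · subst hcW
        rw [hMW]; exact hac
      · rw [hMc c hcW]
        exact (hN1 c hc (by rwa [Finset.mem_singleton])).2
    · have hN2' : ∀ v, (v = w ∨ ∃ c ∈ 𝒜, c ∉ ({W} : Finset ℕ) ∧ v ∈ cl U f c) →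
          ∃ c ∈ 𝒜, v ∈ M c := by
        intro v hv
        obtain ⟨c, hc, hcS, hvc⟩ := hN2 v hv
        rw [Finset.mem_singleton] at hcS
        exact ⟨c, hc, by rw [hMc c hcS]; exact hvc⟩
      intro v hv
      rcases Finset.mem_insert.1 hv with rfl | hv
      · exact ⟨W, hW, by rw [hMW]; exact Finset.mem_insert_self _ _⟩
      · obtain ⟨hvU, hvA⟩ := mem_AA.1 hv
        by_cases hvw : v = w
        · exact hN2' v (Or.inl hvw)
        · by_cases hvW : f v = W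
          · refine ⟨W, hW, ?_⟩
            rw [hMW]
            exact Finset.mem_insert_of_mem (Finset.mem_erase.2 ⟨hvw, mem_cl.2 ⟨hvU, hvW⟩⟩)
          · exact hN2' v (Or.inr ⟨f v, hvA, by rwa [Finset.mem_singleton],
              mem_cl.2 ⟨hvU, rfl⟩⟩)

end Y

theorem rho_ge_two (h : Setup0 μ s b U f 𝒜 r) {y : V} (hy : y ∈ BB U f 𝒜) {c : ℕ}
    (hc : c ∈ 𝒜) : 2 ≤ rr μ (cl U f c) (cl U f c) y := by
  by_contra hlt
  exact h.blocked y hy c hc (ac_of_rr h.mg (h.ac c hc) subset_rfl (by omega))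

theorem rho_split (W : ℕ) (y : V) : rr μ (cl U f W) (Nm μ U f 𝒜 W) y +
    rr μ (cl U f W) (Fm μ U f 𝒜 W) y = rr μ (cl U f W) (cl U f W) y :=
  Finset.sum_filter_add_sum_filter_not (cl U f W) (fun v => tg μ U f 𝒜 v = ∅) _

theorem ep_add_two (h : Setup0 μ s b U f 𝒜 r) {y : V} (hy : y ∈ BB U f 𝒜) {c : ℕ}
    (hc : c ∈ 𝒜) : ep μ U f y c + 2 =
      rr μ (cl U f c) (cl U f c) y + (om μ (cl U f c) y).card := by
  have h1 := rr_add_om (W := cl U f c) (y := y) h.mg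
  have h2 := rho_ge_two h hy hc
  unfold ep
  omega

theorem y_rr_erase {μ : V → V → ℕ} {W S : Finset V} {y z : V} (hz : z ∈ S) :
    rr μ W (S.erase z) y + rm μ W y z = rr μ W S y := by
  unfold rr
  exact Finset.sum_erase_add S (fun w => rm μ W y w) hz

theorem y_rm_le {μ : V → V → ℕ} {W : Finset V} {y z : V} : rm μ W y z ≤ μ y z := by
  unfold rm
  split_ifs
  · exact Nat.zero_le _
  · exact le_rfl

theorem rho_two (h : Setup0 μ s b U f 𝒜 r) {W : ℕ} (hW : W ∈ 𝒜) (hWr : W ≠ r)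
    (ht : NoCl (arc μ U f) 𝒜 r {W}) {y : V} (hy : y ∈ BB U f 𝒜)
    (h2 : rr μ (cl U f W) (cl U f W) y = 2) :
    rr μ (cl U f W) (Fm μ U f 𝒜 W) y = 0 ∧
    ∀ z ∈ cl U f W, 0 < rm μ (cl U f W) y z →
      z ∈ Nm μ U f 𝒜 W ∧ Ac μ (insert y ((cl U f W).erase z)) := by
  have key : ∀ z ∈ cl U f W, 0 < rm μ (cl U f W) y z →
      z ∈ Nm μ U f 𝒜 W ∧ Ac μ (insert y ((cl U f W).erase z)) := by
    intro z hz hpos
    have h3 := y_rr_erase (μ := μ) (W := cl U f W) (y := y) hz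
    have hac : Ac μ (insert y ((cl U f W).erase z)) :=
      ac_of_rr h.mg (h.ac W hW) (Finset.erase_subset _ _) (by omega)
    refine ⟨?_, hac⟩
    rw [Pool.Agent.H18.EAx.mem_Nm]
    refine ⟨hz, ?_⟩
    by_contra hne
    exact R1 h hW hWr ht (Pool.Agent.H18.EAx.mem_Fm.2 ⟨hz, hne⟩) hy hac
  refine ⟨?_, key⟩
  unfold rr
  apply Finset.sum_eq_zero
  intro z hz
  obtain ⟨h3, h4⟩ := Pool.Agent.H18.EAx.mem_Fm.1 hz
  by_contra h0
  exact h4 (Pool.Agent.H18.EAx.mem_Nm.1 (key z h3 (Nat.pos_of_ne_zero h0)).1).2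

theorem types0 (h : Setup0 μ s b U f 𝒜 r) {W : ℕ} (hW : W ∈ 𝒜) (hWr : W ≠ r)
    (ht : NoCl (arc μ U f) 𝒜 r {W}) {y : V} (hy : y ∈ BB U f 𝒜) :
    2 ≤ rr μ (cl U f W) (Nm μ U f 𝒜 W) y ∨
    (rr μ (cl U f W) (Nm μ U f 𝒜 W) y = 1 ∧ 2 ≤ rr μ (cl U f W) (Fm μ U f 𝒜 W) y) ∨
    (rr μ (cl U f W) (Nm μ U f 𝒜 W) y = 0 ∧ 3 ≤ rr μ (cl U f W) (Fm μ U f 𝒜 W) y) := by
  have h1 := rho_ge_two h hy hW
  have h2 := rho_split (μ := μ) (U := U) (f := f) (𝒜 := 𝒜) W y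
  by_cases h3 : rr μ (cl U f W) (cl U f W) y = 2
  · have h4 := (rho_two h hW hWr ht hy h3).1
    omega
  · omega

/-- the real movable neighbours of a vertex of type `P` or `Q` -/
theorem PQ_Tn (h : Setup0 μ s b U f 𝒜 r) {W : ℕ} (hW : W ∈ 𝒜) (hWr : W ≠ r)
    (ht : NoCl (arc μ U f) 𝒜 r {W}) {y : V} (hy : y ∈ BB U f 𝒜)
    (hPQ : IsP0 μ U f 𝒜 W y ∨ IsQ0 μ U f 𝒜 W y) :
    (∀ w ∈ Tn0 μ U f 𝒜 W y, rm μ (cl U f W) y w = 1 ∧ μ y w = 1 ∧ 1 ≤ ee μ w (cl U f W)) ∧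
    (∀ p ∈ Tn0 μ U f 𝒜 W y, ∀ q ∈ Tn0 μ U f 𝒜 W y, p ≠ q →
      rr μ (cl U f W) (((cl U f W).erase p).erase q) y ≤ 1) ∧
    (IsP0 μ U f 𝒜 W y → (Tn0 μ U f 𝒜 W y).card = 3) ∧
    (IsQ0 μ U f 𝒜 W y → (Tn0 μ U f 𝒜 W y).card = 2) := by
  have h3 : rr μ (cl U f W) (cl U f W) y = 3 := by
    rw [← rho_split (𝒜 := 𝒜)]
    rcases hPQ with ⟨h1, h2⟩ | ⟨h1, h2⟩ <;> omega
  have hmem : ∀ w ∈ Tn0 μ U f 𝒜 W y, w ∈ Fm μ U f 𝒜 W ∧ w ∈ cl U f W ∧
      0 < rm μ (cl U f W) y w := by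
    intro w hw
    obtain ⟨h1, h2⟩ := Finset.mem_filter.1 hw
    exact ⟨h1, (Finset.mem_filter.1 h1).1, h2⟩
  have hone : ∀ w ∈ Tn0 μ U f 𝒜 W y, rm μ (cl U f W) y w = 1 := by
    intro w hw
    obtain ⟨hwF, hwW, hpos⟩ := hmem w hw
    by_contra hne
    apply R1 h hW hWr ht hwF hy
    apply ac_of_rr h.mg (h.ac W hW) (Finset.erase_subset _ _)
    have := y_rr_erase (μ := μ) (W := cl U f W) (y := y) hwW
    omega
  have hcard : (Tn0 μ U f 𝒜 W y).card = rr μ (cl U f W) (Fm μ U f 𝒜 W) y := by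
    have h4 : rr μ (cl U f W) (Fm μ U f 𝒜 W) y = ∑ w ∈ Tn0 μ U f 𝒜 W y, rm μ (cl U f W) y w := by
      unfold rr Tn0
      rw [Finset.sum_filter]
      apply Finset.sum_congr rfl
      intro w _
      split_ifs with h5
      · rfl
      · omega
    rw [h4, Finset.sum_congr rfl hone, Finset.sum_const, smul_eq_mul, mul_one]
  refine ⟨?_, ?_, ?_, ?_⟩
  · intro w hw
    have h4 := hone w hw
    refine ⟨h4, ?_⟩
    unfold rm at h4
    split_ifs at h4 with h5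
    refine ⟨h4, ?_⟩
    by_contra h6
    exact h5 ⟨h4, by omega⟩
  · intro p hp q hq hpq
    have h4 := y_rr_erase (μ := μ) (W := cl U f W) (y := y) (hmem p hp).2.1
    have h5 := y_rr_erase (μ := μ) (W := cl U f W) (y := y)
      (Finset.mem_erase.2 ⟨hpq.symm, (hmem q hq).2.1⟩)
    have h6 := hone p hp
    have h7 := hone q hq
    omega
  · intro hP
    rw [hcard]; exact hP.2
  · intro hQ
    rw [hcard]; exact hQ.2

/-- the centre of a vertex of type `P` or `Q` -/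
theorem PQ_center (h : Setup0 μ s b U f 𝒜 r) {W : ℕ} (hW : W ∈ 𝒜) (hWr : W ≠ r)
    (ht : NoCl (arc μ U f) 𝒜 r {W}) {y : V} (hy : y ∈ BB U f 𝒜)
    (hPQ : IsP0 μ U f 𝒜 W y ∨ IsQ0 μ U f 𝒜 W y) :
    ∃ m ∈ Nm μ U f 𝒜 W, Ac μ (insert y ((cl U f W).erase m)) ∧
      μ y m ≤ rr μ (cl U f W) (Nm μ U f 𝒜 W) y ∧ 3 ≤ ee μ m (cl U f W) + μ y m := by
  have hyW : y ∉ cl U f W := Pool.Agent.H18.EAx.notMem_cl_of_BB hy hW
  have h3 : rr μ (cl U f W) (cl U f W) y = 3 := by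
    rw [← rho_split (𝒜 := 𝒜)]
    rcases hPQ with ⟨h1, h2⟩ | ⟨h1, h2⟩ <;> omega
  obtain ⟨hT1, _, hT3, hT4⟩ := PQ_Tn h hW hWr ht hy hPQ
  have hcard : 2 ≤ (Tn0 μ U f 𝒜 W y).card := by
    rcases hPQ with hP | hQ
    · rw [hT3 hP]; omega
    · rw [hT4 hQ]
  obtain ⟨p, hp, q, hq, hpq⟩ := Finset.one_lt_card.1 (show 1 < (Tn0 μ U f 𝒜 W y).card by omega)
  have hmem : ∀ w ∈ Tn0 μ U f 𝒜 W y, w ∈ Fm μ U f 𝒜 W ∧ w ∈ cl U f W := by
    intro w hw
    obtain ⟨h1, _⟩ := Finset.mem_filter.1 hw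
    exact ⟨h1, (Finset.mem_filter.1 h1).1⟩
  obtain ⟨m, hm, hmac⟩ := exists_solo0 h.mg (h.ac W hW) ⟨p, (hmem p hp).2⟩ hyW (by omega)
  have hmN : m ∈ Nm μ U f 𝒜 W := by
    rw [Pool.Agent.H18.EAx.mem_Nm]
    refine ⟨hm, ?_⟩
    by_contra hne
    exact R1 h hW hWr ht (Pool.Agent.H18.EAx.mem_Fm.2 ⟨hm, hne⟩) hy hmac
  have hc : 3 ≤ ee μ m (cl U f W) + μ y m :=
    center h.mg (h.ac W hW) hyW (by omega) (hmem p hp).2 (hmem q hq).2 hpq (hT1 p hp).1
      (hT1 q hq).1 (R1 h hW hWr ht (hmem p hp).1 hy) (R1 h hW hWr ht (hmem q hq).1 hy) hm hmac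
  refine ⟨m, hmN, hmac, ?_, hc⟩
  have h5 : rm μ (cl U f W) y m = μ y m := by
    unfold rm
    split_ifs with h6
    · omega
    · rfl
  rw [← h5]
  exact Finset.single_le_sum (f := fun w => rm μ (cl U f W) y w) (fun _ _ => Nat.zero_le _) hmN

end X

end Pool.Agent.H25.EB
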