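import Pool.Agent.H25.EB.Defs
import Pool.Agent.H25.EA.Exch
import Pool.Agent.H25.EB.Types

/-!
# Module X: the exchange
-/

set_option autoImplicit false
set_option linter.unusedSectionVars false

namespace Pool.Agent.H25.EB

open Finset Pool.Agent.H25.EA

variable {V : Type*} [DecidableEq V]

section X
variable {μ : V → V → ℕ} {s b : ℕ} {U : Finset V} {f : V → ℕ} {𝒜 : Finset ℕ} {r : ℕ}
  {J : Finset ℕ} {Q : ℕ}


open Pool.Agent.H18.EAx in
theorem lk_card_AA (h : Setup0 μ s b U f 𝒜 r) : (AA U f 𝒜).card + 1 = 𝒜.card * s := by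
  have h1 : (AA U f 𝒜).card = ∑ c ∈ 𝒜, (cl U f c).card := by
    have := Pool.Agent.H18.EAx.sum_AA (U := U) (f := f) (𝒜 := 𝒜) (fun _ => 1)
    simpa using this
  have h2 : ∑ c ∈ 𝒜, (cl U f c).card = (cl U f r).card + ∑ c ∈ 𝒜.erase r, (cl U f c).card :=
    (Finset.add_sum_erase 𝒜 (fun c => (cl U f c).card) h.r_mem).symm
  have h3 : ∑ c ∈ 𝒜.erase r, (cl U f c).card = ∑ _c ∈ 𝒜.erase r, s :=
    Finset.sum_congr rfl (fun c hc => h.card_cl c (Finset.mem_of_mem_erase hc)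
      (Finset.ne_of_mem_erase hc))
  rw [Finset.sum_const, smul_eq_mul] at h3
  have h4 : (𝒜.erase r).card + 1 = 𝒜.card := Finset.card_erase_add_one h.r_mem
  have h5 := h.card_r
  rw [h1, h2, h3, ← h4]
  ring_nf
  omega

theorem lk_ee_BB_le (h : Setup0 μ s b U f 𝒜 r) {y : V} (hy : y ∈ BB U f 𝒜) :
    ee μ y (BB U f 𝒜) + 1 ≤ 2 * b := by
  have h1 := h.deg y (Pool.Agent.H18.EAx.mem_BB.1 hy).1
  have h2 := Pool.Agent.H18.EAx.ee_AA_add_BB (μ := μ) (U := U) (f := f) (𝒜 := 𝒜) y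
  have h3 : 𝒜.card * 2 ≤ ee μ y (AA U f 𝒜) := by
    rw [Pool.Agent.H18.EAx.ee_AA]
    have := Finset.card_nsmul_le_sum 𝒜 (fun c => ee μ y (cl U f c)) 2
      (fun c hc => Pool.Agent.H18.EAx.x_two_le_of_not_ac h.mg (h.ac c hc) (h.blocked y hy c hc))
    simpa using this
  omega

/-- the final colouring -/
theorem lk_final (h : Setup0 μ s b U f 𝒜 r) {W X : ℕ} (hW : W ∈ 𝒜) (hWr : W ≠ r)
    (hX : X ∈ 𝒜) (hXr : X ≠ r) (hXW : X ≠ W) {p q : V} (hp : p ∈ cl U f W)
    (hq : q ∈ cl U f W) (hpq : p ≠ q)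
    (hall : ∀ T ⊆ (((𝒜.erase W).erase X).erase r) ∪ {X, r}, T.card ≤
      (T.biUnion (Pool.Agent.H18.EAx.src μ U f (((𝒜.erase W).erase X).erase r) {p, q})).card)
    {x0 : V} (hx0 : x0 ∈ cl U f X) {W' A' : Finset V} (hcW : W'.card ≤ s) (hacW : Ac μ W')
    (hAU : A' ⊆ U) (hAc : A'.card = 𝒜.card * s)
    (hdeg : ∀ v ∈ U \ A', ee μ v (U \ A') + 1 ≤ 2 * b)
    (hcov : ∀ v ∈ A', v ∈ W' ∨ v = p ∨ v = q ∨ (v ∈ AA U f 𝒜 ∧ f v ≠ W ∧ v ≠ x0)) : False := by
  classical
  set I := ((𝒜.erase W).erase X).erase r with hI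
  have hmI : ∀ c, c ∈ I ↔ c ∈ 𝒜 ∧ c ≠ W ∧ c ≠ X ∧ c ≠ r := by
    intro c
    simp only [hI, Finset.mem_erase]
    tauto
  have hmU : ∀ c, c ∈ I ∪ {X, r} ↔ c ∈ 𝒜 ∧ c ≠ W := by
    intro c
    rw [Finset.mem_union, hmI, Finset.mem_insert, Finset.mem_singleton]
    constructor
    · rintro (⟨h1, h2, _⟩ | rfl | rfl)
      · exact ⟨h1, h2⟩
      · exact ⟨hX, hXW⟩
      · exact ⟨h.r_mem, hWr.symm⟩
    · rintro ⟨h1, h2⟩
      by_cases h3 : c = X
      · exact Or.inr (Or.inl h3)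
      · by_cases h4 : c = r
        · exact Or.inr (Or.inr h4)
        · exact Or.inl ⟨h1, h2, h3, h4⟩
  have hd : Disjoint I {X, r} := by
    rw [Finset.disjoint_left]
    intro c hc hc'
    obtain ⟨_, _, h3, h4⟩ := (hmI c).1 hc
    rw [Finset.mem_insert, Finset.mem_singleton] at hc'
    rcases hc' with h5 | h5
    · exact h3 h5
    · exact h4 h5
  obtain ⟨N, hN1, hN2, hN3, hN4⟩ := Pool.Agent.H18.EAx.exchange (μ := μ) (U := U) (f := f) hd
    (P := {p, q}) (by rw [Finset.card_pair hpq, Finset.card_pair hXr])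
    (fun c hc => h.ac c ((hmU c).1 hc).1) hall
  have hNX := hN2 X (Finset.mem_insert_self _ _)
  have hNr := hN2 r (Finset.mem_insert_of_mem (Finset.mem_singleton_self _))
  let M : ℕ → Finset V := fun c => if c = W then W' else if c = X then (N X).erase x0 else N c
  have hMW : M W = W' := if_pos rfl
  have hMX : M X = (N X).erase x0 := by
    simp only [M, if_neg hXW, if_true]
  have hMc : ∀ c, c ≠ W → c ≠ X → M c = N c := fun c hc hc' => by
    simp only [M, if_neg hc, if_neg hc']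
  refine h.noEC A' hAU hAc hdeg
    (Pool.Agent.H18.EAx.EC_of_cover M ?_ ?_ ?_ hAc)
  · intro c hc
    by_cases hcW' : c = W
    · rw [hcW', hMW]; exact hcW
    · by_cases hcX : c = X
      · rw [hcX, hMX, Finset.card_erase_of_mem (hNX.1 hx0)]
        have h1 := hNX.2
        have h2 := h.card_cl X hX hXr
        omega
      · rw [hMc c hcW' hcX]
        by_cases hcr : c = r
        · rw [hcr]
          have h1 := hNr.2
          have h2 := h.card_r
          omega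
        · have h1 := hN1 c ((hmI c).2 ⟨hc, hcW', hcX, hcr⟩)
          rw [h.card_cl c hc hcr] at h1
          exact h1
  · intro c hc
    by_cases hcW' : c = W
    · rw [hcW', hMW]; exact hacW
    · by_cases hcX : c = X
      · rw [hcX, hMX]
        exact Pool.Agent.H18.EAx.x_Ac_mono (hN3 X ((hmU X).2 ⟨hX, hXW⟩)) (Finset.erase_subset _ _)
      · rw [hMc c hcW' hcX]
        exact hN3 c ((hmU c).2 ⟨hc, hcW'⟩)
  · -- cover
    have key : ∀ v, v ≠ x0 → (∃ c ∈ I ∪ {X, r}, v ∈ N c) → ∃ c ∈ 𝒜, v ∈ M c := by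
      rintro v hv ⟨c, hc, hvc⟩
      obtain ⟨h1, h2⟩ := (hmU c).1 hc
      refine ⟨c, h1, ?_⟩
      by_cases hcX : c = X
      · rw [hcX, hMX]
        exact Finset.mem_erase.2 ⟨hv, hcX ▸ hvc⟩
      · rw [hMc c h2 hcX]; exact hvc
    have hfx : f x0 = X := (Pool.Agent.H18.EAx.mem_cl.1 hx0).2
    have hPx : ∀ v, v = p ∨ v = q → v ≠ x0 := by
      rintro v hv rfl
      rcases hv with rfl | rfl
      · exact hXW (hfx.symm.trans (Pool.Agent.H18.EAx.mem_cl.1 hp).2)
      · exact hXW (hfx.symm.trans (Pool.Agent.H18.EAx.mem_cl.1 hq).2)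
    intro v hv
    rcases hcov v hv with h1 | h1 | h1 | ⟨h1, h2, h3⟩
    · exact ⟨W, hW, by rw [hMW]; exact h1⟩
    · exact key v (hPx v (Or.inl h1)) (hN4 v (Or.inl (by rw [h1]; simp)))
    · exact key v (hPx v (Or.inr h1)) (hN4 v (Or.inl (by rw [h1]; simp)))
    · obtain ⟨hvU, hvA⟩ := Pool.Agent.H18.EAx.mem_AA.1 h1
      apply key v h3
      have hvc : v ∈ cl U f (f v) := Pool.Agent.H18.EAx.mem_cl.2 ⟨hvU, rfl⟩
      by_cases hX' : f v = X
      · exact ⟨X, (hmU X).2 ⟨hX, hXW⟩, hNX.1 (hX' ▸ hvc)⟩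
      · by_cases hr' : f v = r
        · exact ⟨r, (hmU r).2 ⟨h.r_mem, hWr.symm⟩, hNr.1 (hr' ▸ hvc)⟩
        · exact hN4 v (Or.inr ⟨f v, (hmI _).2 ⟨hvA, h2, hX', hr'⟩, hvc⟩)

/-- localisation of a separator -/
theorem lk_local {ar : ℕ → ℕ → Prop} (hL : Loc ar 𝒜 r J Q) {W X : ℕ} (hW : W ∈ J)
    {T : Finset ℕ} (hT : ∀ Y ∈ T, Y ∈ J ∨ Y = Q) {c : ℕ} {K : Finset ℕ} (hcW : c ≠ W)
    (hcK : c ∉ K) (hXK : X ∉ K) (hrK : r ∉ K) (hKA : K ⊆ 𝒜.erase W) (hTK : T ⊆ insert c K)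
    (hout : ∀ x ∈ K, ∀ y ∈ 𝒜, ar x y → y ∈ K ∨ y = W ∨ y = c) :
    ∃ c' K', Sep ar 𝒜 J Q W T c' K' ∧ X ∉ K' := by
  have hsub : K ∩ J ⊆ J.erase W := by
    intro x hx
    obtain ⟨h1, h2⟩ := Finset.mem_inter.1 hx
    exact Finset.mem_erase.2 ⟨(Finset.mem_erase.1 (hKA h1)).1, h2⟩
  have hXK' : X ∉ K ∩ J := fun h => hXK (Finset.mem_inter.1 h).1
  by_cases hcJ : c ∈ J
  · have hQK : Q ∉ K := by
      intro hQK
      obtain ⟨x, hx, y, hy, hyR, hyJ, har⟩ := hL.Qr (K \ J)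
        (fun x hx => Finset.mem_of_mem_erase (hKA (Finset.mem_sdiff.1 hx).1))
        (Finset.mem_sdiff.2 ⟨hQK, hL.Q_notMem⟩)
        (fun h => hrK (Finset.mem_sdiff.1 h).1)
        (Finset.sdiff_disjoint)
      rcases hout x (Finset.mem_sdiff.1 hx).1 y hy har with h1 | h1 | h1
      · exact hyR (Finset.mem_sdiff.2 ⟨h1, hyJ⟩)
      · exact hyJ (h1 ▸ hW)
      · exact hyJ (h1 ▸ hcJ)
    refine ⟨c, K ∩ J, ⟨hsub, Or.inl (Finset.mem_erase.2 ⟨hcW, hcJ⟩),
      fun h => hcK (Finset.mem_inter.1 h).1, ?_, ?_⟩, hXK'⟩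
    · intro t ht
      rcases Finset.mem_insert.1 (hTK ht) with h1 | h1
      · exact h1 ▸ Finset.mem_insert_self _ _
      · rcases hT t ht with h2 | h2
        · exact Finset.mem_insert_of_mem (Finset.mem_inter.2 ⟨h1, h2⟩)
        · exact absurd (h2 ▸ h1) hQK
    · intro x hx y hy har
      obtain ⟨h1, h2⟩ := Finset.mem_inter.1 hx
      rcases hout x h1 y hy har with h3 | h3 | h3
      · rcases hL.out x h2 y hy har with h4 | h4
        · exact Or.inl (Finset.mem_inter.2 ⟨h3, h4⟩)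
        · exact absurd (h4 ▸ h3) hQK
      · exact Or.inr (Or.inl h3)
      · exact Or.inr (Or.inr h3)
  · refine ⟨Q, K ∩ J, ⟨hsub, Or.inr rfl, fun h => hL.Q_notMem (Finset.mem_inter.1 h).2, ?_, ?_⟩,
      hXK'⟩
    · intro t ht
      rcases hT t ht with h2 | h2
      · rcases Finset.mem_insert.1 (hTK ht) with h1 | h1
        · exact absurd (h1 ▸ h2) hcJ
        · exact Finset.mem_insert_of_mem (Finset.mem_inter.2 ⟨h1, h2⟩)
      · exact h2 ▸ Finset.mem_insert_self _ _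
    · intro x hx y hy har
      obtain ⟨h1, h2⟩ := Finset.mem_inter.1 hx
      rcases hL.out x h2 y hy har with h4 | h4
      · rcases hout x h1 y hy har with h3 | h3 | h3
        · exact Or.inl (Finset.mem_inter.2 ⟨h3, h4⟩)
        · exact Or.inr (Or.inl h3)
        · exact absurd (h3 ▸ h4) hcJ
      · exact Or.inr (Or.inr h4)

/-- a violation of Hall's condition gives a separator -/
theorem lk_hall (h : Setup0 μ s b U f 𝒜 r) (hL : Loc (arc μ U f) 𝒜 r J Q) {W X : ℕ} (hW : W ∈ J)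
    (hX : X ∈ J) (hXW : X ≠ W) {p q : V} (hp : p ∈ Fm μ U f 𝒜 W) (hq : q ∈ Fm μ U f 𝒜 W)
    (hpq : p ≠ q) {T0 : Finset ℕ} (hT0 : T0 ⊆ (((𝒜.erase W).erase X).erase r) ∪ {X, r})
    (hlt : (T0.biUnion
      (Pool.Agent.H18.EAx.src μ U f (((𝒜.erase W).erase X).erase r) {p, q})).card < T0.card) :
    ∃ c K, Sep (arc μ U f) 𝒜 J Q W (tg μ U f 𝒜 p ∪ tg μ U f 𝒜 q) c K ∧ X ∉ K := by
  classical
  set I := ((𝒜.erase W).erase X).erase r with hI
  set NT := T0.biUnion (Pool.Agent.H18.EAx.src μ U f I {p, q}) with hNT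
  have hWA := hL.sub hW
  have hXA := hL.sub hX
  have hWr : W ≠ r := fun h' => hL.r_notMem (h' ▸ hW)
  have hXr : X ≠ r := fun h' => hL.r_notMem (h' ▸ hX)
  have hmI : ∀ c, c ∈ I ↔ c ∈ 𝒜 ∧ c ≠ W ∧ c ≠ X ∧ c ≠ r := by
    intro c
    simp only [hI, Finset.mem_erase]
    tauto
  have hT0' : ∀ c ∈ T0, c ∈ 𝒜 ∧ c ≠ W := by
    intro c hc
    rcases Finset.mem_union.1 (hT0 hc) with h1 | h1
    · obtain ⟨h2, h3, _⟩ := (hmI c).1 h1
      exact ⟨h2, h3⟩
    · rw [Finset.mem_insert, Finset.mem_singleton] at h1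
      rcases h1 with rfl | rfl
      · exact ⟨hXA, hXW⟩
      · exact ⟨h.r_mem, hWr.symm⟩
  -- targets
  have hfp : f p = W := (Pool.Agent.H18.EAx.mem_cl.1 (Pool.Agent.H18.EAx.mem_Fm.1 hp).1).2
  have hfq : f q = W := (Pool.Agent.H18.EAx.mem_cl.1 (Pool.Agent.H18.EAx.mem_Fm.1 hq).1).2
  have htgp : ∀ w, w ∈ Fm μ U f 𝒜 W → ∀ Y ∈ tg μ U f 𝒜 w, Y ∈ 𝒜 ∧ Y ≠ W ∧ mov μ U f w Y := by
    intro w hw Y hY
    obtain ⟨h1, h2, h3⟩ := Pool.Agent.H18.EAx.mem_tg.1 hY
    rw [(Pool.Agent.H18.EAx.mem_cl.1 (Pool.Agent.H18.EAx.mem_Fm.1 hw).1).2] at h2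
    exact ⟨h1, h2, h3⟩
  have hTJ : ∀ Y ∈ tg μ U f 𝒜 p ∪ tg μ U f 𝒜 q, Y ∈ J ∨ Y = Q := by
    intro Y hY
    have hcase : ∃ w ∈ Fm μ U f 𝒜 W, Y ∈ tg μ U f 𝒜 w := by
      rcases Finset.mem_union.1 hY with h1 | h1
      · exact ⟨p, hp, h1⟩
      · exact ⟨q, hq, h1⟩
    obtain ⟨w, hw, hYw⟩ := hcase
    obtain ⟨h1, h2, h3⟩ := htgp w hw Y hYw
    exact hL.out W hW Y h1 ⟨h2.symm, w, (Pool.Agent.H18.EAx.mem_Fm.1 hw).1, h3⟩
  -- the elements of the neighbourhood
  have hin : ((T0 ∩ I).map Function.Embedding.inr : Finset (V ⊕ ℕ)) ⊆ NT := by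
    intro x hx
    obtain ⟨u, hu, rfl⟩ := Finset.mem_map.1 hx
    obtain ⟨huT, huI⟩ := Finset.mem_inter.1 hu
    exact Finset.mem_biUnion.2 ⟨u, huT,
      Pool.Agent.H18.EAx.inr_mem_src.2 ⟨huI, Or.inl rfl⟩⟩
  set Z := NT \ ((T0 ∩ I).map Function.Embedding.inr : Finset (V ⊕ ℕ)) with hZ
  have hZcard : Z.card + (T0 ∩ I).card = NT.card := by
    rw [hZ, Finset.card_sdiff_of_subset hin, Finset.card_map]
    have := Finset.card_le_card hin
    rw [Finset.card_map] at this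
    omega
  have hTcard : T0.card ≤ (T0 ∩ I).card + (T0 ∩ {X, r}).card := by
    have h1 : T0 ⊆ (T0 ∩ I) ∪ (T0 ∩ {X, r}) := by
      intro c hc
      rcases Finset.mem_union.1 (hT0 hc) with h2 | h2
      · exact Finset.mem_union_left _ (Finset.mem_inter.2 ⟨hc, h2⟩)
      · exact Finset.mem_union_right _ (Finset.mem_inter.2 ⟨hc, h2⟩)
    exact (Finset.card_le_card h1).trans (Finset.card_union_le _ _)
  have hZlt : Z.card < (T0 ∩ {X, r}).card := by omega
  have hmovZ : ∀ w, (w = p ∨ w = q) → ∀ c ∈ T0, mov μ U f w c → (Sum.inl w : V ⊕ ℕ) ∈ Z := by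
    intro w hw c hc hm
    refine Finset.mem_sdiff.2 ⟨Finset.mem_biUnion.2 ⟨c, hc,
      Pool.Agent.H18.EAx.inl_mem_src.2 ⟨by rcases hw with rfl | rfl <;> simp, hm⟩⟩, ?_⟩
    intro h'
    obtain ⟨u, _, hu⟩ := Finset.mem_map.1 h'
    cases hu
  have harcZ : ∀ u ∈ I, u ∉ T0 → ∀ c ∈ T0, arc μ U f u c → (Sum.inr u : V ⊕ ℕ) ∈ Z := by
    intro u hu huT c hc ha
    refine Finset.mem_sdiff.2 ⟨Finset.mem_biUnion.2 ⟨c, hc,
      Pool.Agent.H18.EAx.inr_mem_src.2 ⟨hu, Or.inr ha⟩⟩, ?_⟩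
    intro h'
    obtain ⟨u', hu', hu2⟩ := Finset.mem_map.1 h'
    have : u' = u := by simpa using hu2
    exact huT (this ▸ (Finset.mem_inter.1 hu').1)
  -- the contradiction with terminality
  have hcontra : X ∈ T0 → r ∈ T0 → (∀ u : ℕ, (Sum.inr u : V ⊕ ℕ) ∉ Z) → ∀ w, (w = p ∨ w = q) →
      (Sum.inl w : V ⊕ ℕ) ∉ Z → False := by
    intro hXT hrT hno w hw hwZ
    have hwF : w ∈ Fm μ U f 𝒜 W := by
      rcases hw with rfl | rfl
      · exact hp
      · exact hq
    obtain ⟨Y, hYne⟩ := Finset.nonempty_iff_ne_empty.2 (Pool.Agent.H18.EAx.mem_Fm.1 hwF).2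
    obtain ⟨hY1, hY2, hY3⟩ := htgp w hwF Y hYne
    have hYT : Y ∉ T0 := fun h' => hwZ (hmovZ w hw Y h' hY3)
    obtain ⟨x, hx, y, hy, hyK, hyW, har⟩ := hL.term W hW ((𝒜.erase W) \ T0)
      (fun c hc => Finset.mem_of_mem_erase (Finset.mem_sdiff.1 hc).1)
      (by
        rw [Finset.disjoint_singleton_right]
        intro h'
        exact (Finset.mem_erase.1 (Finset.mem_sdiff.1 h').1).1 rfl)
      (fun h' => (Finset.mem_sdiff.1 h').2 hrT)
      ⟨Y, Finset.mem_sdiff.2 ⟨Finset.mem_erase.2 ⟨hY2, hY1⟩, hYT⟩⟩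
    rw [Finset.mem_singleton] at hyW
    have hyT : y ∈ T0 := by
      by_contra hyT
      exact hyK (Finset.mem_sdiff.2 ⟨Finset.mem_erase.2 ⟨hyW, hy⟩, hyT⟩)
    obtain ⟨hx1, hx2⟩ := Finset.mem_sdiff.1 hx
    obtain ⟨hx3, hx4⟩ := Finset.mem_erase.1 hx1
    have hxI : x ∈ I := (hmI x).2 ⟨hx4, hx3, fun h' => hx2 (h' ▸ hXT), fun h' => hx2 (h' ▸ hrT)⟩
    exact hno x (harcZ x hxI hx2 y hyT har)
  by_cases hZ0 : Z = ∅
  · have hnoZ : ∀ z : V ⊕ ℕ, z ∉ Z := by
      intro z hz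
      rw [hZ0] at hz
      simp at hz
    -- the separator consists of the inner classes outside `T0`
    have hfin : ∀ c, (c = X ∨ c = r) → c ∉ T0 → (∀ c', (c' = X ∨ c' = r) → c' ≠ c → c' ∈ T0) →
        ∃ c K, Sep (arc μ U f) 𝒜 J Q W (tg μ U f 𝒜 p ∪ tg μ U f 𝒜 q) c K ∧ X ∉ K := by
      intro c hc hcT hoth
      have hcW : c ≠ W := by
        rcases hc with rfl | rfl
        · exact hXW
        · exact hWr.symm
      have hmem : ∀ y ∈ 𝒜, y ≠ W → y ∉ T0 → y ∈ insert c (I \ T0) := by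
        intro y hy hyW hyT
        by_cases hyc : y = c
        · exact hyc ▸ Finset.mem_insert_self _ _
        · refine Finset.mem_insert_of_mem (Finset.mem_sdiff.2 ⟨(hmI y).2 ⟨hy, hyW, ?_, ?_⟩, hyT⟩)
          · intro hyX
            exact hyT (hoth y (Or.inl hyX) hyc)
          · intro hyr
            exact hyT (hoth y (Or.inr hyr) hyc)
      refine lk_local hL hW hTJ (c := c) (K := I \ T0) hcW ?_ ?_ ?_ ?_ ?_ ?_
      · intro h'
        obtain ⟨_, _, h3, h4⟩ := (hmI c).1 (Finset.mem_sdiff.1 h').1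
        rcases hc with h5 | h5
        · exact h3 h5
        · exact h4 h5
      · intro h'
        exact ((hmI X).1 (Finset.mem_sdiff.1 h').1).2.2.1 rfl
      · intro h'
        exact ((hmI r).1 (Finset.mem_sdiff.1 h').1).2.2.2 rfl
      · intro x hx
        obtain ⟨h1, h2, _⟩ := (hmI x).1 (Finset.mem_sdiff.1 hx).1
        exact Finset.mem_erase.2 ⟨h2, h1⟩
      · intro Y hY
        have hcase : ∃ w, (w = p ∨ w = q) ∧ w ∈ Fm μ U f 𝒜 W ∧ Y ∈ tg μ U f 𝒜 w := by
          rcases Finset.mem_union.1 hY with h1 | h1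
          · exact ⟨p, Or.inl rfl, hp, h1⟩
          · exact ⟨q, Or.inr rfl, hq, h1⟩
        obtain ⟨w, hw, hwF, hYw⟩ := hcase
        obtain ⟨h1, h2, h3⟩ := htgp w hwF Y hYw
        exact hmem Y h1 h2 (fun h' => hnoZ _ (hmovZ w hw Y h' h3))
      · intro x hx y hy har
        obtain ⟨hxI, hxT⟩ := Finset.mem_sdiff.1 hx
        by_cases hyW : y = W
        · exact Or.inr (Or.inl hyW)
        · have hyT : y ∉ T0 := fun h' => hnoZ _ (harcZ x hxI hxT y h' har)
          rcases Finset.mem_insert.1 (hmem y hy hyW hyT) with h1 | h1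
          · exact Or.inr (Or.inr h1)
          · exact Or.inl h1
    by_cases hXT : X ∈ T0
    · by_cases hrT : r ∈ T0
      · exact (hcontra hXT hrT (fun u => hnoZ _) p (Or.inl rfl) (hnoZ _)).elim
      · refine hfin r (Or.inr rfl) hrT ?_
        rintro c' (rfl | rfl) hne
        · exact hXT
        · exact absurd rfl hne
    · by_cases hrT : r ∈ T0
      · refine hfin X (Or.inl rfl) hXT ?_
        rintro c' (rfl | rfl) hne
        · exact absurd rfl hne
        · exact hrT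
      · exfalso
        have : T0 ∩ {X, r} = ∅ := by
          rw [Finset.eq_empty_iff_forall_notMem]
          intro c hc
          obtain ⟨h1, h2⟩ := Finset.mem_inter.1 hc
          rw [Finset.mem_insert, Finset.mem_singleton] at h2
          rcases h2 with rfl | rfl
          · exact hXT h1
          · exact hrT h1
        rw [this, Finset.card_empty] at hZlt
        omega
  · -- exactly one element
    have hZ1 : 1 ≤ Z.card := Finset.card_pos.2 (Finset.nonempty_iff_ne_empty.2 hZ0)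
    have h2 : (T0 ∩ {X, r}).card ≤ ({X, r} : Finset ℕ).card :=
      Finset.card_le_card Finset.inter_subset_right
    rw [Finset.card_pair hXr] at h2
    have hZ2 : Z.card = 1 := by omega
    have heq : T0 ∩ {X, r} = {X, r} := by
      apply Finset.eq_of_subset_of_card_le Finset.inter_subset_right
      rw [Finset.card_pair hXr]
      omega
    have hXT : X ∈ T0 := by
      have : X ∈ T0 ∩ {X, r} := by rw [heq]; simp
      exact (Finset.mem_inter.1 this).1
    have hrT : r ∈ T0 := by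
      have : r ∈ T0 ∩ {X, r} := by rw [heq]; simp
      exact (Finset.mem_inter.1 this).1
    obtain ⟨z, hz⟩ := Finset.card_eq_one.1 hZ2
    have hmemZ : ∀ z', z' ∈ Z ↔ z' = z := by
      intro z'
      rw [hz, Finset.mem_singleton]
    cases hzz : z with
    | inl v0 =>
      exfalso
      by_cases hv : v0 = p
      · have hv' : v0 ≠ q := fun hv' => hpq (hv.symm.trans hv')
        · exact hcontra hXT hrT (fun u hu => by
            have := (hmemZ _).1 hu
            rw [hzz] at this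
            cases this) q (Or.inr rfl) (fun hu => by
            have := (hmemZ _).1 hu
            rw [hzz] at this
            exact hv' (Sum.inl.inj this).symm)
      · exact hcontra hXT hrT (fun u hu => by
            have := (hmemZ _).1 hu
            rw [hzz] at this
            cases this) p (Or.inl rfl) (fun hu => by
            have := (hmemZ _).1 hu
            rw [hzz] at this
            exact hv (Sum.inl.inj this).symm)
    | inr u0 =>
      have hu0 : (Sum.inr u0 : V ⊕ ℕ) ∈ Z := (hmemZ _).2 hzz.symm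
      have huniq : ∀ u, (Sum.inr u : V ⊕ ℕ) ∈ Z → u = u0 := by
        intro u hu
        have h3 := (hmemZ _).1 hu
        rw [hzz] at h3
        exact Sum.inr.inj h3
      have hnol : ∀ w : V, (Sum.inl w : V ⊕ ℕ) ∉ Z := by
        intro w hw
        have h3 := (hmemZ _).1 hw
        rw [hzz] at h3
        cases h3
      obtain ⟨h3, h4⟩ := Finset.mem_sdiff.1 hu0
      obtain ⟨c0, hc0, h5⟩ := Finset.mem_biUnion.1 h3
      have hu0I : u0 ∈ I := (Pool.Agent.H18.EAx.inr_mem_src.1 h5).1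
      obtain ⟨hu0A, hu0W, hu0X, hu0r⟩ := (hmI u0).1 hu0I
      refine lk_local hL hW hTJ (c := u0) (K := ((𝒜.erase W) \ T0).erase u0) hu0W ?_ ?_ ?_ ?_ ?_ ?_
      · exact fun h' => (Finset.mem_erase.1 h').1 rfl
      · exact fun h' => (Finset.mem_sdiff.1 (Finset.mem_of_mem_erase h')).2 hXT
      · exact fun h' => (Finset.mem_sdiff.1 (Finset.mem_of_mem_erase h')).2 hrT
      · exact (Finset.erase_subset _ _).trans Finset.sdiff_subset
      · intro Y hY
        have hcase : ∃ w, (w = p ∨ w = q) ∧ w ∈ Fm μ U f 𝒜 W ∧ Y ∈ tg μ U f 𝒜 w := by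
          rcases Finset.mem_union.1 hY with h1 | h1
          · exact ⟨p, Or.inl rfl, hp, h1⟩
          · exact ⟨q, Or.inr rfl, hq, h1⟩
        obtain ⟨w, hw, hwF, hYw⟩ := hcase
        obtain ⟨h1, h2, h3⟩ := htgp w hwF Y hYw
        by_cases hYu : Y = u0
        · exact hYu ▸ Finset.mem_insert_self _ _
        · exact Finset.mem_insert_of_mem (Finset.mem_erase.2 ⟨hYu, Finset.mem_sdiff.2
            ⟨Finset.mem_erase.2 ⟨h2, h1⟩, fun h' => hnol _ (hmovZ w hw Y h' h3)⟩⟩)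
      · intro x hx y hy har
        obtain ⟨hxu, hx1⟩ := Finset.mem_erase.1 hx
        obtain ⟨hx2, hxT⟩ := Finset.mem_sdiff.1 hx1
        obtain ⟨hxW, hxA⟩ := Finset.mem_erase.1 hx2
        have hxI : x ∈ I := (hmI x).2 ⟨hxA, hxW, fun h' => hxT (h' ▸ hXT), fun h' => hxT (h' ▸ hrT)⟩
        have hyT : y ∉ T0 := fun h' => hxu (huniq x (harcZ x hxI hxT y h' har))
        by_cases hyW : y = W
        · exact Or.inr (Or.inl hyW)
        · by_cases hyu : y = u0
          · exact Or.inr (Or.inr hyu)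
          · exact Or.inl (Finset.mem_erase.2 ⟨hyu, Finset.mem_sdiff.2
              ⟨Finset.mem_erase.2 ⟨hyW, hy⟩, hyT⟩⟩)

/-- If one of the two exchanges is possible locally then there is a separator. -/
theorem link (h : Setup0 μ s b U f 𝒜 r) (hL : Loc (arc μ U f) 𝒜 r J Q) {W X : ℕ} (hW : W ∈ J)
    (hX : X ∈ J) (hXW : X ≠ W) {p q : V} (hp : p ∈ Fm μ U f 𝒜 W) (hq : q ∈ Fm μ U f 𝒜 W)
    (hpq : p ≠ q)
    (hex : (∃ x ∈ cl U f X, ∃ y ∈ BB U f 𝒜,
        Ac μ (insert x (insert y (((cl U f W).erase p).erase q)))) ∨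
      (∃ y ∈ BB U f 𝒜, ∃ y' ∈ BB U f 𝒜, y ≠ y' ∧
        Ac μ (insert y' (insert y (((cl U f W).erase p).erase q))) ∧
        ∃ z ∈ cl U f X, Ac μ (insert y ((cl U f X).erase z)))) :
    ∃ c K, Sep (arc μ U f) 𝒜 J Q W (tg μ U f 𝒜 p ∪ tg μ U f 𝒜 q) c K ∧ X ∉ K := by
  by_contra hno
  have hWA := hL.sub hW
  have hXA := hL.sub hX
  have hWr : W ≠ r := fun h' => hL.r_notMem (h' ▸ hW)
  have hXr : X ≠ r := fun h' => hL.r_notMem (h' ▸ hX)
  have hpW := (Pool.Agent.H18.EAx.mem_Fm.1 hp).1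
  have hqW := (Pool.Agent.H18.EAx.mem_Fm.1 hq).1
  have hall : ∀ T ⊆ (((𝒜.erase W).erase X).erase r) ∪ {X, r}, T.card ≤
      (T.biUnion (Pool.Agent.H18.EAx.src μ U f (((𝒜.erase W).erase X).erase r) {p, q})).card := by
    intro T0 hT0
    by_contra hlt
    exact hno (lk_hall h hL hW hX hXW hp hq hpq hT0 (not_le.1 hlt))
  have hWcard : (((cl U f W).erase p).erase q).card + 2 = s := by
    have e1 := Finset.card_erase_add_one (Finset.mem_erase.2 ⟨hpq.symm, hqW⟩)
    have e2 := Finset.card_erase_add_one hpW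
    have e3 := h.card_cl W hWA hWr
    omega
  have hcardW : ∀ u v : V, (insert u (insert v (((cl U f W).erase p).erase q))).card ≤ s := by
    intro u v
    have e1 := Finset.card_insert_le u (insert v (((cl U f W).erase p).erase q))
    have e2 := Finset.card_insert_le v (((cl U f W).erase p).erase q)
    omega
  have hcA := lk_card_AA h
  have hAU : AA U f 𝒜 ⊆ U := Finset.filter_subset _ _
  have hBU : BB U f 𝒜 ⊆ U := Finset.filter_subset _ _
  have hBA : ∀ {y : V}, y ∈ BB U f 𝒜 → y ∉ AA U f 𝒜 := fun hy h' =>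
    (Pool.Agent.H18.EAx.mem_BB.1 hy).2 (Pool.Agent.H18.EAx.mem_AA.1 h').2
  rcases hex with ⟨x, hx, y, hy, hac⟩ | ⟨y, hy, y', hy', hyy, hac, z, hz, hzac⟩
  · refine lk_final h hWA hWr hXA hXr hXW hpW hqW hpq hall hx (hcardW x y) hac
      (A' := insert y (AA U f 𝒜)) (Finset.insert_subset (hBU hy) hAU) ?_ ?_ ?_
    · rw [Finset.card_insert_of_notMem (hBA hy)]; exact hcA
    · intro v hv
      have hsub : U \ insert y (AA U f 𝒜) ⊆ BB U f 𝒜 := by
        intro x hx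
        obtain ⟨hxU, hxn⟩ := Finset.mem_sdiff.1 hx
        refine Pool.Agent.H18.EAx.mem_BB.2 ⟨hxU, fun hx' => hxn ?_⟩
        exact Finset.mem_insert_of_mem (Pool.Agent.H18.EAx.mem_AA.2 ⟨hxU, hx'⟩)
      have h1 := lk_ee_BB_le h (hsub hv)
      have h2 : ee μ v (U \ insert y (AA U f 𝒜)) ≤ ee μ v (BB U f 𝒜) :=
        Pool.Agent.H18.EAx.x_ee_mono hsub
      omega
    · intro v hv
      rcases Finset.mem_insert.1 hv with rfl | hv
      · left; simp
      · by_cases hvx : v = x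
        · left; simp [hvx]
        by_cases hvp : v = p
        · exact Or.inr (Or.inl hvp)
        by_cases hvq : v = q
        · exact Or.inr (Or.inr (Or.inl hvq))
        by_cases hvW : f v = W
        · left
          refine Finset.mem_insert_of_mem (Finset.mem_insert_of_mem (Finset.mem_erase.2
            ⟨hvq, Finset.mem_erase.2 ⟨hvp, Pool.Agent.H18.EAx.mem_cl.2 ⟨hAU hv, hvW⟩⟩⟩))
        · exact Or.inr (Or.inr (Or.inr ⟨hv, hvW, hvx⟩))
  · have htX := hL.term X hX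
    have hzN : ∀ c ∈ 𝒜, c ≠ X → ¬ mov μ U f z c := by
      intro c hc hcX hm
      apply R1 h hXA hXr htX (w := z) _ hy hzac
      rw [Pool.Agent.H18.EAx.mem_Fm]
      refine ⟨hz, ?_⟩
      rw [← Finset.nonempty_iff_ne_empty]
      exact ⟨c, Pool.Agent.H18.EAx.mem_tg.2
        ⟨hc, by rw [(Pool.Agent.H18.EAx.mem_cl.1 hz).2]; exact hcX, hm⟩⟩
    have hsw := (h.swap X hXA hXr htX z hz hzN y hy hzac).1
    have hzA : z ∈ AA U f 𝒜 := Pool.Agent.H18.EAx.mem_AA.2
      ⟨(Pool.Agent.H18.EAx.mem_cl.1 hz).1, by rw [(Pool.Agent.H18.EAx.mem_cl.1 hz).2]; exact hXA⟩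
    refine lk_final h hWA hWr hXA hXr hXW hpW hqW hpq hall hz (hcardW y' y) hac
      (A' := insert y' (insert y ((AA U f 𝒜).erase z)))
      (Finset.insert_subset (hBU hy') (Finset.insert_subset (hBU hy)
        ((Finset.erase_subset _ _).trans hAU))) ?_ ?_ ?_
    · have e1 : y ∉ (AA U f 𝒜).erase z := fun h' => hBA hy (Finset.mem_of_mem_erase h')
      have e2 : y' ∉ insert y ((AA U f 𝒜).erase z) := by
        intro h'
        rcases Finset.mem_insert.1 h' with h' | h'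
        · exact hyy h'.symm
        · exact hBA hy' (Finset.mem_of_mem_erase h')
      rw [Finset.card_insert_of_notMem e2, Finset.card_insert_of_notMem e1]
      have e4 := Finset.card_erase_add_one hzA
      omega
    · have hsub : U \ insert y' (insert y ((AA U f 𝒜).erase z)) ⊆
          insert z ((BB U f 𝒜).erase y) := by
        intro x hx
        obtain ⟨hxU, hxn⟩ := Finset.mem_sdiff.1 hx
        by_cases hxz : x = z
        · exact hxz ▸ Finset.mem_insert_self _ _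
        · refine Finset.mem_insert_of_mem (Finset.mem_erase.2
            ⟨?_, Pool.Agent.H18.EAx.mem_BB.2 ⟨hxU, ?_⟩⟩)
          · rintro rfl
            exact hxn (Finset.mem_insert_of_mem (Finset.mem_insert_self _ _))
          · intro hxA
            exact hxn (Finset.mem_insert_of_mem (Finset.mem_insert_of_mem
              (Finset.mem_erase.2 ⟨hxz, Pool.Agent.H18.EAx.mem_AA.2 ⟨hxU, hxA⟩⟩)))
      intro v hv
      have e1 := hsw v (hsub hv)
      have e2 : ee μ v (U \ insert y' (insert y ((AA U f 𝒜).erase z))) ≤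
        ee μ v (insert z ((BB U f 𝒜).erase y)) := Pool.Agent.H18.EAx.x_ee_mono hsub
      omega
    · intro v hv
      rcases Finset.mem_insert.1 hv with rfl | hv
      · left; simp
      rcases Finset.mem_insert.1 hv with rfl | hv
      · left; simp
      obtain ⟨hvz, hvA⟩ := Finset.mem_erase.1 hv
      by_cases hvp : v = p
      · exact Or.inr (Or.inl hvp)
      by_cases hvq : v = q
      · exact Or.inr (Or.inr (Or.inl hvq))
      by_cases hvW : f v = W
      · left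
        refine Finset.mem_insert_of_mem (Finset.mem_insert_of_mem (Finset.mem_erase.2
          ⟨hvq, Finset.mem_erase.2 ⟨hvp, Pool.Agent.H18.EAx.mem_cl.2 ⟨hAU hvA, hvW⟩⟩⟩))
      · exact Or.inr (Or.inr (Or.inr ⟨hvA, hvW, hvz⟩))

end X

end Pool.Agent.H25.EB
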