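import Pool.Agent.H25.EB.Defs
import Pool.Agent.H25.EB.Link
import Pool.Agent.H25.EB.Types

/-!
# Module E: the bottleneck lemmas
-/

set_option autoImplicit false

namespace Pool.Agent.H25.EB

open Finset Pool.Agent.H25.EA

variable {V : Type*} [DecidableEq V]


/-! ### separators in an abstract digraph -/

section Abs
variable {ar : ℕ → ℕ → Prop} {𝒜 : Finset ℕ} {r : ℕ} {J : Finset ℕ} {Q W : ℕ} {T : Finset ℕ}

/-- the trivial separator -/
theorem Sep.triv (hL : Loc ar 𝒜 r J Q) (hT : ∀ t ∈ T, t ≠ W ∧ (t ∈ J ∨ t = Q)) :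
    Sep ar 𝒜 J Q W T Q (J.erase W) := by
  refine ⟨subset_rfl, Or.inr rfl, ?_, ?_, ?_⟩
  · intro h
    exact hL.Q_notMem (mem_of_mem_erase h)
  · intro t ht
    obtain ⟨h1, h2⟩ := hT t ht
    rcases h2 with h2 | h2
    · exact mem_insert_of_mem (mem_erase.2 ⟨h1, h2⟩)
    · rw [h2]
      exact mem_insert_self _ _
  · intro x hx y hy hxy
    rcases hL.out x (mem_of_mem_erase hx) y hy hxy with h | h
    · by_cases hyW : y = W
      · exact Or.inr (Or.inl hyW)
      · exact Or.inl (mem_erase.2 ⟨hyW, h⟩)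
    · exact Or.inr (Or.inr h)

theorem Sep.K_sub {c : ℕ} {K : Finset ℕ} (hs : Sep ar 𝒜 J Q W T c K) : K ⊆ J :=
  hs.sub.trans (erase_subset _ _)

theorem Sep.W_notMem {c : ℕ} {K : Finset ℕ} (hs : Sep ar 𝒜 J Q W T c K) : W ∉ K := fun h =>
  (mem_erase.1 (hs.sub h)).1 rfl

/-- a nonempty subset of `J`, without `W`, is not closed up to a single class of `J + Q` -/
theorem Loc.not_closed (hL : Loc ar 𝒜 r J Q) (hW : W ∈ J) {K : Finset ℕ} (hK : K ⊆ J)
    (hWK : W ∉ K) (hne : K.Nonempty) {c : ℕ} (hc : c ∈ J ∨ c = Q) (hcK : c ∉ K)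
    (hout : ∀ x ∈ K, ∀ y ∈ 𝒜, ar x y → y ∈ K ∨ y = c) : False := by
  rcases hc with hc | rfl
  · obtain ⟨x, hx, y, hy, hyK, hyc, hxy⟩ := hL.term c hc K (hK.trans hL.sub)
      (disjoint_singleton_right.2 hcK) (fun h => hL.r_notMem (hK h)) hne
    rcases hout x hx y hy hxy with h | h
    · exact hyK h
    · exact hyc (mem_singleton.2 h)
  · have := hL.min K hK hne (fun x hx y hy hxy => by
      rcases hout x hx y (hL.sub hy) hxy with h | h
      · exact h
      · exact absurd (h ▸ hy) hL.Q_notMem)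
    exact hWK (this ▸ hW)

/-- a nonempty subset of `J` is not closed -/
theorem Loc.not_closed' (hL : Loc ar 𝒜 r J Q) (hW : W ∈ J) {K : Finset ℕ} (hK : K ⊆ J)
    (hWK : W ∉ K) (hne : K.Nonempty)
    (hout : ∀ x ∈ K, ∀ y ∈ 𝒜, ar x y → y ∈ K ∨ y = W) : False :=
  Loc.not_closed hL hW hK hWK hne (Or.inl hW) hWK hout

/-- a nonempty subset of `J` is not closed under all arcs -/
theorem Loc.not_closed0 (hL : Loc ar 𝒜 r J Q) (hreach : NoCl ar 𝒜 r ∅) {K : Finset ℕ}
    (hK : K ⊆ J) (hne : K.Nonempty)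
    (hout : ∀ x ∈ K, ∀ y ∈ 𝒜, ar x y → y ∈ K) : False := by
  obtain ⟨x, hx, y, hy, hyK, _, hxy⟩ := hreach K (hK.trans hL.sub)
    (disjoint_empty_right _) (fun h => hL.r_notMem (hK h)) hne
  exact hyK (hout x hx y hy hxy)

theorem Sep.nonempty {c : ℕ} {K : Finset ℕ} (hs : Sep ar 𝒜 J Q W T c K) (hT : 2 ≤ T.card) :
    K.Nonempty := by
  rw [nonempty_iff_ne_empty]
  intro h
  have h1 : T ⊆ {c} := by
    have := hs.T_sub
    rw [h] at this
    simpa using this
  have := card_le_card h1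
  simp at this
  omega

/-- some class of the separator has an arc to `W` -/
theorem Sep.exists_arc (hL : Loc ar 𝒜 r J Q) (hW : W ∈ J) {c : ℕ} {K : Finset ℕ}
    (hs : Sep ar 𝒜 J Q W T c K) (hT : 2 ≤ T.card) : ∃ X ∈ K, ar X W := by
  by_contra hcon
  push Not at hcon
  refine Loc.not_closed hL hW hs.K_sub hs.W_notMem (hs.nonempty hT) ?_ hs.c_notMem ?_
  · exact hs.c_mem.imp (fun h => mem_of_mem_erase h) id
  · intro x hx y hy hxy
    rcases hs.out x hx y hy hxy with h | h | h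
    · exact Or.inl h
    · exact absurd (h ▸ hxy) (hcon x hx)
    · exact Or.inr h

/-- the intersection of two separators is a separator -/
theorem Sep.inter (hL : Loc ar 𝒜 r J Q) (hW : W ∈ J) {c c' : ℕ} {K K' : Finset ℕ}
    (hs : Sep ar 𝒜 J Q W T c K) (hs' : Sep ar 𝒜 J Q W T c' K') (hT : T.Nonempty) :
    ∃ d, Sep ar 𝒜 J Q W T d (K ∩ K') := by
  have hsub : K ∩ K' ⊆ J.erase W := inter_subset_left.trans hs.sub
  by_cases hcc : c = c'
  · subst hcc
    refine ⟨c, hsub, hs.c_mem, fun h => hs.c_notMem (mem_inter.1 h).1, ?_, ?_⟩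
    · intro t ht
      rcases mem_insert.1 (hs.T_sub ht) with h | h
      · exact mem_insert.2 (Or.inl h)
      · rcases mem_insert.1 (hs'.T_sub ht) with h' | h'
        · exact mem_insert.2 (Or.inl h')
        · exact mem_insert.2 (Or.inr (mem_inter.2 ⟨h, h'⟩))
    · intro x hx y hy hxy
      have h1 := hs.out x (mem_inter.1 hx).1 y hy hxy
      have h2 := hs'.out x (mem_inter.1 hx).2 y hy hxy
      rw [mem_inter]
      tauto
  by_cases h1 : c ∈ K' <;> by_cases h2 : c' ∈ K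
  · exfalso
    refine Loc.not_closed' hL hW (K := K ∪ K') (union_subset hs.K_sub hs'.K_sub) ?_
      ⟨c, mem_union_right _ h1⟩ ?_
    · rw [mem_union, not_or]
      exact ⟨hs.W_notMem, hs'.W_notMem⟩
    · intro x hx y hy hxy
      rw [mem_union]
      rcases mem_union.1 hx with hx | hx
      · rcases hs.out x hx y hy hxy with h | h | h
        · exact Or.inl (Or.inl h)
        · exact Or.inr h
        · exact Or.inl (Or.inr (h ▸ h1))
      · rcases hs'.out x hx y hy hxy with h | h | h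
        · exact Or.inl (Or.inr h)
        · exact Or.inr h
        · exact Or.inl (Or.inl (h ▸ h2))
  · refine ⟨c, hsub, hs.c_mem, fun h => hs.c_notMem (mem_inter.1 h).1, ?_, ?_⟩
    · intro t ht
      rcases mem_insert.1 (hs.T_sub ht) with h | h
      · exact mem_insert.2 (Or.inl h)
      · rcases mem_insert.1 (hs'.T_sub ht) with h' | h'
        · exact absurd (h' ▸ h) h2
        · exact mem_insert.2 (Or.inr (mem_inter.2 ⟨h, h'⟩))
    · intro x hx y hy hxy
      have e1 := hs.out x (mem_inter.1 hx).1 y hy hxy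
      have e2 := hs'.out x (mem_inter.1 hx).2 y hy hxy
      rw [mem_inter]
      rcases e1 with e1 | e1 | e1
      · rcases e2 with e2 | e2 | e2
        · exact Or.inl ⟨e1, e2⟩
        · exact Or.inr (Or.inl e2)
        · exact absurd (e2 ▸ e1) h2
      · exact Or.inr (Or.inl e1)
      · exact Or.inr (Or.inr e1)
  · refine ⟨c', hsub, hs'.c_mem, fun h => hs'.c_notMem (mem_inter.1 h).2, ?_, ?_⟩
    · intro t ht
      rcases mem_insert.1 (hs'.T_sub ht) with h | h
      · exact mem_insert.2 (Or.inl h)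
      · rcases mem_insert.1 (hs.T_sub ht) with h' | h'
        · exact absurd (h' ▸ h) h1
        · exact mem_insert.2 (Or.inr (mem_inter.2 ⟨h', h⟩))
    · intro x hx y hy hxy
      have e1 := hs.out x (mem_inter.1 hx).1 y hy hxy
      have e2 := hs'.out x (mem_inter.1 hx).2 y hy hxy
      rw [mem_inter]
      rcases e2 with e2 | e2 | e2
      · rcases e1 with e1 | e1 | e1
        · exact Or.inl ⟨e1, e2⟩
        · exact Or.inr (Or.inl e1)
        · exact absurd (e1 ▸ e2) h1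
      · exact Or.inr (Or.inl e2)
      · exact Or.inr (Or.inr e2)
  · exfalso
    have hTT : T ⊆ K ∩ K' := by
      intro t ht
      rcases mem_insert.1 (hs.T_sub ht) with h | h
      · rcases mem_insert.1 (hs'.T_sub ht) with h' | h'
        · exact absurd (h.symm.trans h') hcc
        · exact absurd (h ▸ h') h1
      · rcases mem_insert.1 (hs'.T_sub ht) with h' | h'
        · exact absurd (h' ▸ h) h2
        · exact mem_inter.2 ⟨h, h'⟩
    refine Loc.not_closed' hL hW (K := K ∩ K') (inter_subset_left.trans hs.K_sub) ?_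
      (hT.mono hTT) ?_
    · exact fun h => hs.W_notMem (mem_inter.1 h).1
    · intro x hx y hy hxy
      have e1 := hs.out x (mem_inter.1 hx).1 y hy hxy
      have e2 := hs'.out x (mem_inter.1 hx).2 y hy hxy
      rw [mem_inter]
      rcases e1 with e1 | e1 | e1
      · rcases e2 with e2 | e2 | e2
        · exact Or.inl ⟨e1, e2⟩
        · exact Or.inr e2
        · exact absurd (e2 ▸ e1) h2
      · exact Or.inr e1
      · rcases e2 with e2 | e2 | e2
        · exact absurd (e1 ▸ e2) h1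
        · exact Or.inr e2
        · exact absurd (e1.symm.trans e2) hcc

/-- two separators at two classes, each of which is the only entrance of the other one -/
theorem two_seps (hL : Loc ar 𝒜 r J Q) (hreach : NoCl ar 𝒜 r ∅)
    {W' : ℕ} (hW : W ∈ J) {T' : Finset ℕ} {c c' : ℕ} {K K' : Finset ℕ}
    (hs : Sep ar 𝒜 J Q W T c K) (hs' : Sep ar 𝒜 J Q W' T' c' K') (h1 : W' ∈ K) (h1' : W ∈ K')
    (h2 : ∀ X ∈ K, ar X W → X = W') (h2' : ∀ X ∈ K', ar X W' → X = W)
    (hTA : T ⊆ 𝒜) (hTW : ∀ t ∈ T, ar W t) : T.card ≤ 2 := by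
  have hboth : ¬ (c ∈ K' ∧ c' ∈ K) := by
    rintro ⟨h3, h4⟩
    refine Loc.not_closed0 hL hreach (K := K ∪ K') (union_subset hs.K_sub hs'.K_sub)
      ⟨c, mem_union_right _ h3⟩ ?_
    intro x hx y hy hxy
    rw [mem_union]
    rcases mem_union.1 hx with hx | hx
    · rcases hs.out x hx y hy hxy with h | h | h
      · exact Or.inl h
      · exact Or.inr (h ▸ h1')
      · exact Or.inr (h ▸ h3)
    · rcases hs'.out x hx y hy hxy with h | h | h
      · exact Or.inr h
      · exact Or.inl (h ▸ h1)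
      · exact Or.inl (h ▸ h4)
  -- the arcs which leave the intersection
  have hout : ∀ x ∈ K ∩ K', ∀ y ∈ 𝒜, ar x y → (y ∈ K ∨ y = c) ∧ (y ∈ K' ∨ y = c') := by
    intro x hx y hy hxy
    obtain ⟨hxK, hxK'⟩ := mem_inter.1 hx
    constructor
    · rcases hs.out x hxK y hy hxy with h | h | h
      · exact Or.inl h
      · exfalso
        have := h2 x hxK (h ▸ hxy)
        exact hs'.W_notMem (this ▸ hxK')
      · exact Or.inr h
    · rcases hs'.out x hxK' y hy hxy with h | h | h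
      · exact Or.inl h
      · exfalso
        have := h2' x hxK' (h ▸ hxy)
        exact hs.W_notMem (this ▸ hxK)
      · exact Or.inr h
  have hcJ : c ∈ J ∨ c = Q := hs.c_mem.imp (fun h => mem_of_mem_erase h) id
  have hcJ' : c' ∈ J ∨ c' = Q := hs'.c_mem.imp (fun h => mem_of_mem_erase h) id
  have hI : K ∩ K' = ∅ := by
    by_contra hne
    have hne' := nonempty_iff_ne_empty.2 hne
    have hIJ : K ∩ K' ⊆ J := inter_subset_left.trans hs.K_sub
    have hWI : W ∉ K ∩ K' := fun h => hs.W_notMem (mem_inter.1 h).1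
    by_cases hcc : c = c'
    · refine Loc.not_closed hL hW hIJ hWI hne' hcJ (fun h => hs.c_notMem (mem_inter.1 h).1) ?_
      intro x hx y hy hxy
      obtain ⟨e1, e2⟩ := hout x hx y hy hxy
      rw [mem_inter]
      rcases e1 with e1 | e1
      · rcases e2 with e2 | e2
        · exact Or.inl ⟨e1, e2⟩
        · exact Or.inr (e2.trans hcc.symm)
      · exact Or.inr e1
    · by_cases h3 : c ∈ K'
      · have h4 : c' ∉ K := fun h => hboth ⟨h3, h⟩
        refine Loc.not_closed hL hW hIJ hWI hne' hcJ (fun h => hs.c_notMem (mem_inter.1 h).1) ?_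
        intro x hx y hy hxy
        obtain ⟨e1, e2⟩ := hout x hx y hy hxy
        rw [mem_inter]
        rcases e1 with e1 | e1
        · rcases e2 with e2 | e2
          · exact Or.inl ⟨e1, e2⟩
          · exact absurd (e2 ▸ e1) h4
        · exact Or.inr e1
      · by_cases h4 : c' ∈ K
        · refine Loc.not_closed hL hW hIJ hWI hne' hcJ'
            (fun h => hs'.c_notMem (mem_inter.1 h).2) ?_
          intro x hx y hy hxy
          obtain ⟨e1, e2⟩ := hout x hx y hy hxy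
          rw [mem_inter]
          rcases e2 with e2 | e2
          · rcases e1 with e1 | e1
            · exact Or.inl ⟨e1, e2⟩
            · exact absurd (e1 ▸ e2) h3
          · exact Or.inr e2
        · refine Loc.not_closed0 hL hreach hIJ hne' ?_
          intro x hx y hy hxy
          obtain ⟨e1, e2⟩ := hout x hx y hy hxy
          rw [mem_inter]
          rcases e1 with e1 | e1
          · rcases e2 with e2 | e2
            · exact ⟨e1, e2⟩
            · exact absurd (e2 ▸ e1) h4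
          · rcases e2 with e2 | e2
            · exact absurd (e1 ▸ e2) h3
            · exact absurd (e1.symm.trans e2) hcc
  have hT : ∀ t ∈ T, t = W' ∨ (t = c ∧ (c ∈ K' ∨ c = c')) ∨ (t = c' ∧ (c' ∈ K ∨ c = c')) := by
    intro t ht
    have e1 := hs.T_sub ht
    have e2 := hs'.out W h1' t (hTA ht) (hTW t ht)
    rcases mem_insert.1 e1 with e1 | e1
    · rcases e2 with e2 | e2 | e2
      · exact Or.inr (Or.inl ⟨e1, Or.inl (e1 ▸ e2)⟩)
      · exact Or.inl e2
      · exact Or.inr (Or.inl ⟨e1, Or.inr (e1.symm.trans e2)⟩)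
    · rcases e2 with e2 | e2 | e2
      · exfalso
        have : t ∈ K ∩ K' := mem_inter.2 ⟨e1, e2⟩
        rw [hI] at this
        exact notMem_empty _ this
      · exact Or.inl e2
      · exact Or.inr (Or.inr ⟨e2, Or.inl (e2 ▸ e1)⟩)
  by_cases hcc : c = c'
  · have : T ⊆ {W', c} := by
      intro t ht
      rw [mem_insert, mem_singleton]
      rcases hT t ht with h | ⟨h, _⟩ | ⟨h, _⟩
      · exact Or.inl h
      · exact Or.inr h
      · exact Or.inr (h.trans hcc.symm)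
    exact (card_le_card this).trans card_le_two
  · by_cases h3 : c ∈ K'
    · have h4 : c' ∉ K := fun h => hboth ⟨h3, h⟩
      have : T ⊆ {W', c} := by
        intro t ht
        rw [mem_insert, mem_singleton]
        rcases hT t ht with h | ⟨h, _⟩ | ⟨h, h5 | h5⟩
        · exact Or.inl h
        · exact Or.inr h
        · exact absurd h5 h4
        · exact absurd h5 hcc
      exact (card_le_card this).trans card_le_two
    · have : T ⊆ {W', c'} := by
        intro t ht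
        rw [mem_insert, mem_singleton]
        rcases hT t ht with h | ⟨h, h5 | h5⟩ | ⟨h, _⟩
        · exact Or.inl h
        · exact absurd h5 h3
        · exact absurd h5 hcc
        · exact Or.inr h
      exact (card_le_card this).trans card_le_two

end Abs

section X
variable {μ : V → V → ℕ} {s b : ℕ} {U : Finset V} {f : V → ℕ} {𝒜 : Finset ℕ} {r : ℕ}
  {J : Finset ℕ} {Q : ℕ}

theorem mem_tg {v : V} {c : ℕ} : c ∈ tg μ U f 𝒜 v ↔ c ∈ 𝒜 ∧ c ≠ f v ∧ mov μ U f v c := by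
  classical
  unfold tg
  rw [mem_filter]

omit [DecidableEq V] in
theorem mem_cl' {v : V} {c : ℕ} : v ∈ cl U f c ↔ v ∈ U ∧ f v = c := by
  unfold cl
  rw [mem_filter]

theorem arc_of_tg {W c : ℕ} {v : V} (hv : v ∈ cl U f W) (hc : c ∈ tg μ U f 𝒜 v) :
    c ∈ 𝒜 ∧ arc μ U f W c := by
  obtain ⟨h1, h2, h3⟩ := mem_tg.1 hc
  have hf : f v = W := (mem_cl'.1 hv).2
  exact ⟨h1, fun h => h2 (by rw [hf]; exact h.symm), v, hv, h3⟩

theorem Fm_sub {W : ℕ} {v : V} (hv : v ∈ Fm μ U f 𝒜 W) : v ∈ cl U f W := by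
  unfold Fm at hv
  exact (mem_filter.1 hv).1

/-- a separator all of whose arcs to `W` come from `X0` -/
theorem exists_min_sep (h : Setup0 μ s b U f 𝒜 r) (hL : Loc (arc μ U f) 𝒜 r J Q) {W : ℕ}
    (hW : W ∈ J) {p q : V} (hp : p ∈ Fm μ U f 𝒜 W) (hq : q ∈ Fm μ U f 𝒜 W) (hpq : p ≠ q)
    {y : V} (hy : y ∈ BB U f 𝒜) (X0 : ℕ)
    (hex : ∀ X ∈ J, X ≠ W → X ≠ X0 → ∀ x ∈ cl U f X, mov μ U f x W →
      Ac μ (insert x (insert y (((cl U f W).erase p).erase q))))
    (h2 : 2 ≤ (tg μ U f 𝒜 p ∪ tg μ U f 𝒜 q).card) :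
    ∃ c K, Sep (arc μ U f) 𝒜 J Q W (tg μ U f 𝒜 p ∪ tg μ U f 𝒜 q) c K ∧ X0 ∈ K ∧
      ∀ X ∈ K, arc μ U f X W → X = X0 := by
  classical
  set T := tg μ U f 𝒜 p ∪ tg μ U f 𝒜 q with hTdef
  have hT : ∀ t ∈ T, t ≠ W ∧ (t ∈ J ∨ t = Q) := by
    intro t ht
    have harc : t ∈ 𝒜 ∧ arc μ U f W t := by
      rcases mem_union.1 ht with ht | ht
      · exact arc_of_tg (Fm_sub hp) ht
      · exact arc_of_tg (Fm_sub hq) ht
    exact ⟨fun e => harc.2.1 e.symm, hL.out W hW t harc.1 harc.2⟩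
  -- a separator with the smallest number of classes
  have hex0 : ∃ n, ∃ c K, Sep (arc μ U f) 𝒜 J Q W T c K ∧ K.card = n :=
    ⟨_, Q, J.erase W, Sep.triv hL hT, rfl⟩
  obtain ⟨c, K, hs, hcard⟩ := Nat.find_spec hex0
  have hmin : ∀ c' K', Sep (arc μ U f) 𝒜 J Q W T c' K' → K.card ≤ K'.card := by
    intro c' K' hs'
    rw [hcard]
    exact Nat.find_min' hex0 ⟨c', K', hs', rfl⟩
  have hTne : T.Nonempty := card_pos.1 (by omega)
  have honly : ∀ X ∈ K, arc μ U f X W → X = X0 := by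
    intro X hX harc
    by_contra hne
    have hXJ : X ∈ J := hs.K_sub hX
    have hXW : X ≠ W := harc.1
    obtain ⟨x, hx, hmov⟩ := harc.2
    obtain ⟨c', K', hs', hXK'⟩ := link h hL hW hXJ hXW hp hq hpq
      (Or.inl ⟨x, hx, y, hy, hex X hXJ hXW hne x hx hmov⟩)
    obtain ⟨d, hd⟩ := Sep.inter hL hW hs hs' hTne
    have h3 := hmin d _ hd
    have h4 : (K ∩ K').card < K.card := by
      refine card_lt_card ⟨inter_subset_left, fun hsub => ?_⟩
      exact hXK' (mem_inter.1 (hsub hX)).2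
    omega
  obtain ⟨X, hX, harc⟩ := Sep.exists_arc hL hW hs h2
  exact ⟨c, K, hs, (honly X hX harc) ▸ hX, honly⟩

theorem bottleneck (h : Setup0 μ s b U f 𝒜 r) (hL : Loc (arc μ U f) 𝒜 r J Q) {W : ℕ}
    (hW : W ∈ J) {p q : V} (hp : p ∈ Fm μ U f 𝒜 W) (hq : q ∈ Fm μ U f 𝒜 W) (hpq : p ≠ q)
    {y : V} (hy : y ∈ BB U f 𝒜)
    (hex : ∀ X ∈ J, X ≠ W → ∀ x ∈ cl U f X, mov μ U f x W →
      Ac μ (insert x (insert y (((cl U f W).erase p).erase q)))) :
    (tg μ U f 𝒜 p ∪ tg μ U f 𝒜 q).card ≤ 1 := by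
  by_contra hcon
  obtain ⟨c, K, hs, hWK, _⟩ := exists_min_sep h hL hW hp hq hpq hy W
    (fun X hX hXW _ => hex X hX hXW) (by omega)
  exact hs.W_notMem hWK

/-- `W` has three real edges to a vertex of type `P` or `Q` -/
theorem rr_PQ {W : ℕ} {y : V} (hPQ : IsP0 μ U f 𝒜 W y ∨ IsQ0 μ U f 𝒜 W y) :
    rr μ (cl U f W) (cl U f W) y = 3 := by
  have h := rho_split (μ := μ) (U := U) (f := f) (𝒜 := 𝒜) W y
  rcases hPQ with ⟨h1, h2⟩ | ⟨h1, h2⟩ <;> omega

theorem ee_insert_le' (y a : V) (S : Finset V) : ee μ y (insert a S) ≤ μ y a + ee μ y S := by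
  by_cases ha : a ∈ S
  · rw [insert_eq_of_mem ha]
    exact Nat.le_add_left _ _
  · unfold ee
    rw [sum_insert ha]

omit [DecidableEq V] in
/-- if there are no wasted edges then all edges are real -/
theorem ee_eq_rr {W S : Finset V} {y : V} (hom : om μ W y = ∅) (hS : S ⊆ W) :
    ee μ y S = rr μ W S y := by
  unfold ee rr
  refine sum_congr rfl fun u hu => ?_
  unfold rm
  rw [if_neg]
  intro hcon
  have : u ∈ om μ W y := by
    unfold om
    exact mem_filter.2 ⟨hS hu, hcon⟩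
  rw [hom] at this
  exact notMem_empty _ this

/-- the exchange is acyclic -/
theorem exch_ac (h : Setup0 μ s b U f 𝒜 r) (hL : Loc (arc μ U f) 𝒜 r J Q) {W X : ℕ}
    (hW : W ∈ J) (hX : X ∈ J) (hXW : X ≠ W) {y : V} (hy : y ∈ BB U f 𝒜)
    (hPQ : IsP0 μ U f 𝒜 W y ∨ IsQ0 μ U f 𝒜 W y) (hom : om μ (cl U f W) y = ∅)
    (hep : ep μ U f y X = 0) {p q : V} (hp : p ∈ Tn0 μ U f 𝒜 W y) (hq : q ∈ Tn0 μ U f 𝒜 W y)
    (hpq : p ≠ q) {x : V} (hx : x ∈ cl U f X) (hmov : mov μ U f x W) :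
    Ac μ (insert x (insert y (((cl U f W).erase p).erase q))) := by
  have hWr : W ≠ r := fun e => hL.r_notMem (e ▸ hW)
  have hXr : X ≠ r := fun e => hL.r_notMem (e ▸ hX)
  -- `y` is not adjacent to `x`
  have hμ0 : μ y x = 0 := by
    have h1 := ep_add_two h hy (hL.sub hX)
    have h2 := rho_ge_two h hy (hL.sub hX)
    have h3 : rr μ (cl U f X) (cl U f X) y = 2 := by omega
    have h4 : om μ (cl U f X) y = ∅ := card_eq_zero.1 (by omega)
    have h5 := (rho_two h (hL.sub hX) hXr (hL.term X hX) hy h3).1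
    have hxF : x ∈ Fm μ U f 𝒜 X := by
      unfold Fm
      rw [mem_filter]
      refine ⟨hx, ?_⟩
      rw [← nonempty_iff_ne_empty]
      refine ⟨W, mem_tg.2 ⟨hL.sub hW, ?_, hmov⟩⟩
      rw [(mem_cl'.1 hx).2]
      exact hXW.symm
    have h6 : ee μ y (Fm μ U f 𝒜 X) = 0 := by
      rw [ee_eq_rr h4 (fun v hv => Fm_sub hv)]
      exact h5
    unfold ee at h6
    exact (sum_eq_zero_iff.1 h6) x hxF
  have h1 : ee μ y (((cl U f W).erase p).erase q) ≤ 1 := by
    rw [ee_eq_rr hom ((erase_subset _ _).trans (erase_subset _ _))]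
    exact (PQ_Tn h (hL.sub hW) hWr (hL.term W hW) hy hPQ).2.1 p hp q hq hpq
  intro T hT hne
  by_cases hyT : y ∈ T
  · refine ⟨y, hyT, ?_⟩
    calc ee μ y T ≤ ee μ y (insert x (insert y (((cl U f W).erase p).erase q))) := by
          unfold ee
          exact sum_le_sum_of_subset hT
      _ ≤ μ y x + (μ y y + ee μ y (((cl U f W).erase p).erase q)) :=
          (ee_insert_le' _ _ _).trans (Nat.add_le_add_left (ee_insert_le' _ _ _) _)
      _ ≤ 1 := by
          rw [hμ0, h.mg.diag]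
          omega
  · refine hmov T ?_ hne
    intro v hv
    rcases mem_insert.1 (hT hv) with e | e
    · exact mem_insert.2 (Or.inl e)
    · rcases mem_insert.1 e with e | e
      · exact absurd (e ▸ hv) hyT
      · exact mem_insert.2 (Or.inr (mem_of_mem_erase (mem_of_mem_erase e)))

theorem Tn0_sub {W : ℕ} {y v : V} (hv : v ∈ Tn0 μ U f 𝒜 W y) : v ∈ Fm μ U f 𝒜 W := by
  unfold Tn0 at hv
  exact (mem_filter.1 hv).1

/-- another vertex of `T_y` -/
theorem exists_other (h : Setup0 μ s b U f 𝒜 r) {W : ℕ} (hW : W ∈ 𝒜) (hWr : W ≠ r)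
    (ht : NoCl (arc μ U f) 𝒜 r {W}) {y : V} (hy : y ∈ BB U f 𝒜)
    (hPQ : IsP0 μ U f 𝒜 W y ∨ IsQ0 μ U f 𝒜 W y) (p : V) :
    ∃ q ∈ Tn0 μ U f 𝒜 W y, p ≠ q := by
  obtain ⟨_, _, h3, h4⟩ := PQ_Tn h hW hWr ht hy hPQ
  have hcard : 1 < (Tn0 μ U f 𝒜 W y).card := by
    rcases hPQ with hP | hQ
    · rw [h3 hP]; norm_num
    · rw [h4 hQ]; norm_num
  obtain ⟨q, hq, hne⟩ := exists_mem_ne hcard p
  exact ⟨q, hq, hne.symm⟩

theorem TS_le_one (h : Setup0 μ s b U f 𝒜 r) (hL : Loc (arc μ U f) 𝒜 r J Q) {W : ℕ}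
    (hW : W ∈ J) {y : V} (hy : y ∈ BB U f 𝒜) (hE : EE μ U f 𝒜 y = 1)
    (hPQ : IsP0 μ U f 𝒜 W y ∨ IsQ0 μ U f 𝒜 W y) : (TS0 μ U f 𝒜 W y).card ≤ 1 := by
  have hWr : W ≠ r := fun e => hL.r_notMem (e ▸ hW)
  have h1 := ep_add_two h hy (hL.sub hW)
  rw [rr_PQ hPQ] at h1
  have h2 : ep μ U f y W ≤ EE μ U f 𝒜 y := by
    unfold EE
    exact single_le_sum (f := fun c => ep μ U f y c) (fun _ _ => Nat.zero_le _) (hL.sub hW)
  have hom : om μ (cl U f W) y = ∅ := card_eq_zero.1 (by omega)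
  have hep : ∀ X ∈ 𝒜, X ≠ W → ep μ U f y X = 0 := by
    intro X hX hXW
    have h3 : ep μ U f y W + ep μ U f y X ≤ EE μ U f 𝒜 y := by
      unfold EE
      rw [← sum_pair hXW.symm]
      refine sum_le_sum_of_subset ?_
      intro c hc
      rcases mem_insert.1 hc with e | e
      · exact e ▸ hL.sub hW
      · exact (mem_singleton.1 e) ▸ hX
    omega
  have hpair : ∀ p ∈ Tn0 μ U f 𝒜 W y, ∀ q ∈ Tn0 μ U f 𝒜 W y, p ≠ q →
      (tg μ U f 𝒜 p ∪ tg μ U f 𝒜 q).card ≤ 1 := by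
    intro p hp q hq hpq
    refine bottleneck h hL hW (Tn0_sub hp) (Tn0_sub hq) hpq hy ?_
    intro X hX hXW x hx hmov
    exact exch_ac h hL hW hX hXW hy hPQ hom (hep X (hL.sub hX) hXW) hp hq hpq hx hmov
  rw [card_le_one]
  intro t ht t' ht'
  unfold TS0 at ht ht'
  obtain ⟨p, hp, htp⟩ := mem_biUnion.1 ht
  obtain ⟨q, hq, htq⟩ := mem_biUnion.1 ht'
  by_cases hpq : p = q
  · subst hpq
    obtain ⟨q', hq', hne⟩ := exists_other h (hL.sub hW) hWr (hL.term W hW) hy hPQ p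
    exact card_le_one.1 (hpair p hp q' hq' hne) t (mem_union_left _ htp) t'
      (mem_union_left _ htq)
  · exact card_le_one.1 (hpair p hp q hq hpq) t (mem_union_left _ htp) t'
      (mem_union_right _ htq)

theorem tg_le_two (h : Setup0 μ s b U f 𝒜 r) (hL : Loc (arc μ U f) 𝒜 r J Q) {W W' : ℕ}
    (hW : W ∈ J) (hW' : W' ∈ J) (hWW : W ≠ W') {y : V} (hy : y ∈ BB U f 𝒜)
    (hE : EE μ U f 𝒜 y = 2)
    (hPQ : IsP0 μ U f 𝒜 W y ∨ IsQ0 μ U f 𝒜 W y) (hPQ' : IsP0 μ U f 𝒜 W' y ∨ IsQ0 μ U f 𝒜 W' y)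
    (h2 : 2 ≤ (TS0 μ U f 𝒜 W' y).card) :
    ∀ w ∈ Tn0 μ U f 𝒜 W y, (tg μ U f 𝒜 w).card ≤ 2 := by
  intro w hw
  by_contra hcon
  have hWr : W ≠ r := fun e => hL.r_notMem (e ▸ hW)
  have hWr' : W' ≠ r := fun e => hL.r_notMem (e ▸ hW')
  have h1 := ep_add_two h hy (hL.sub hW)
  rw [rr_PQ hPQ] at h1
  have h1' := ep_add_two h hy (hL.sub hW')
  rw [rr_PQ hPQ'] at h1'
  have h3 : ep μ U f y W + ep μ U f y W' ≤ EE μ U f 𝒜 y := by
    unfold EE
    rw [← sum_pair hWW]
    refine sum_le_sum_of_subset ?_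
    intro c hc
    rcases mem_insert.1 hc with e | e
    · exact e ▸ hL.sub hW
    · exact (mem_singleton.1 e) ▸ hL.sub hW'
  have hom : om μ (cl U f W) y = ∅ := card_eq_zero.1 (by omega)
  have hom' : om μ (cl U f W') y = ∅ := card_eq_zero.1 (by omega)
  have hep : ∀ X ∈ 𝒜, X ≠ W → X ≠ W' → ep μ U f y X = 0 := by
    intro X hX hXW hXW'
    have h4 : ep μ U f y W + (ep μ U f y W' + ep μ U f y X) ≤ EE μ U f 𝒜 y := by
      unfold EE
      rw [← sum_pair hXW'.symm, ← sum_insert (by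
        rw [mem_insert, mem_singleton, not_or]
        exact ⟨hWW, hXW.symm⟩)]
      refine sum_le_sum_of_subset ?_
      intro c hc
      rcases mem_insert.1 hc with e | e
      · exact e ▸ hL.sub hW
      · rcases mem_insert.1 e with e | e
        · exact e ▸ hL.sub hW'
        · exact (mem_singleton.1 e) ▸ hX
    omega
  -- the pair at `W`
  obtain ⟨q, hq, hwq⟩ := exists_other h (hL.sub hW) hWr (hL.term W hW) hy hPQ w
  have hT3 : 3 ≤ (tg μ U f 𝒜 w ∪ tg μ U f 𝒜 q).card := by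
    have := card_le_card (subset_union_left (s₁ := tg μ U f 𝒜 w) (s₂ := tg μ U f 𝒜 q))
    omega
  -- the pair at `W'`
  obtain ⟨p', hp', q', hq', hpq', hT2⟩ : ∃ p' ∈ Tn0 μ U f 𝒜 W' y, ∃ q' ∈ Tn0 μ U f 𝒜 W' y,
      p' ≠ q' ∧ 2 ≤ (tg μ U f 𝒜 p' ∪ tg μ U f 𝒜 q').card := by
    obtain ⟨t, ht, t', ht', htt⟩ := one_lt_card.1 (show 1 < (TS0 μ U f 𝒜 W' y).card by omega)
    unfold TS0 at ht ht'
    obtain ⟨p', hp', htp⟩ := mem_biUnion.1 ht
    obtain ⟨q', hq', htq⟩ := mem_biUnion.1 ht'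
    by_cases hpq : p' = q'
    · subst hpq
      obtain ⟨q'', hq'', hne⟩ := exists_other h (hL.sub hW') hWr' (hL.term W' hW') hy hPQ' p'
      exact ⟨p', hp', q'', hq'', hne, one_lt_card.2
        ⟨t, mem_union_left _ htp, t', mem_union_left _ htq, htt⟩⟩
    · exact ⟨p', hp', q', hq', hpq, one_lt_card.2
        ⟨t, mem_union_left _ htp, t', mem_union_right _ htq, htt⟩⟩
  obtain ⟨c, K, hs, hWK, hK⟩ := exists_min_sep h hL hW (Tn0_sub hw) (Tn0_sub hq) hwq hy W'
    (fun X hX hXW hXW' x hx hmov => exch_ac h hL hW hX hXW hy hPQ hom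
      (hep X (hL.sub hX) hXW hXW') hw hq hwq hx hmov) (by omega)
  obtain ⟨c', K', hs', hWK', hK'⟩ := exists_min_sep h hL hW' (Tn0_sub hp') (Tn0_sub hq') hpq'
    hy W (fun X hX hXW' hXW x hx hmov => exch_ac h hL hW' hX hXW' hy hPQ' hom'
      (hep X (hL.sub hX) hXW hXW') hp' hq' hpq' hx hmov) hT2
  have hTarc : ∀ t ∈ tg μ U f 𝒜 w ∪ tg μ U f 𝒜 q, t ∈ 𝒜 ∧ arc μ U f W t := by
    intro t ht
    rcases mem_union.1 ht with ht | ht
    · exact arc_of_tg (Fm_sub (Tn0_sub hw)) ht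
    · exact arc_of_tg (Fm_sub (Tn0_sub hq)) ht
  have := two_seps hL h.reach hW hs hs' hWK hWK' hK hK'
    (fun t ht => (hTarc t ht).1) (fun t ht => (hTarc t ht).2)
  omega

end X

end Pool.Agent.H25.EB
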