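import Pool.Agent.H25.EB.Defs
import Pool.Agent.H25.EA.AcBasic

/-!
# Equitable acyclic colourings, `Δ ≤ 2k-1`: basic inequalities (module B1)
-/

set_option autoImplicit false
set_option linter.unusedSectionVars false

namespace Pool.Agent.H25.EB

open Finset Pool.Agent.H25.EA

variable {V : Type*} [DecidableEq V]

section X
variable {μ : V → V → ℕ} {s b : ℕ} {U : Finset V} {f : V → ℕ} {𝒜 : Finset ℕ} {r : ℕ}
  {J : Finset ℕ} {Q : ℕ}

theorem b1_memCl {v : V} {c : ℕ} : v ∈ cl U f c ↔ v ∈ U ∧ f v = c := by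
  simp [cl]

theorem b1_eeAA (v : V) : ee μ v (AA U f 𝒜) = ∑ c ∈ 𝒜, ee μ v (cl U f c) := by
  unfold ee
  rw [← Finset.sum_fiberwise_of_maps_to (s := AA U f 𝒜) (t := 𝒜) (g := f)
    (fun x hx => by simpa [AA] using (Finset.mem_filter.1 hx).2)]
  refine Finset.sum_congr rfl fun c hc => ?_
  refine Finset.sum_congr ?_ fun _ _ => rfl
  ext u
  simp only [AA, cl, Finset.mem_filter]
  constructor
  · rintro ⟨⟨h1, _⟩, h3⟩; exact ⟨h1, h3⟩
  · rintro ⟨h1, h3⟩; exact ⟨⟨h1, h3 ▸ hc⟩, h3⟩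

theorem b1_eeAAaddBB (v : V) : ee μ v (AA U f 𝒜) + ee μ v (BB U f 𝒜) = ee μ v U := by
  unfold ee AA BB
  exact Finset.sum_filter_add_sum_filter_not U (fun v => f v ∈ 𝒜) (fun u => μ v u)

theorem b1_ee_cl_ge_two (h : Setup0 μ s b U f 𝒜 r) {y : V} (hy : y ∈ BB U f 𝒜) {c : ℕ}
    (hc : c ∈ 𝒜) : 2 ≤ ee μ y (cl U f c) :=
  two_le_of_not_ac h.mg (h.ac c hc) (h.blocked y hy c hc)

theorem b1_ep_add_two (h : Setup0 μ s b U f 𝒜 r) {y : V} (hy : y ∈ BB U f 𝒜) {c : ℕ}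
    (hc : c ∈ 𝒜) : ep μ U f y c + 2 = ee μ y (cl U f c) := by
  have := b1_ee_cl_ge_two h hy hc
  unfold ep
  omega

theorem b1_eeAA_of_mem_BB (h : Setup0 μ s b U f 𝒜 r) {y : V} (hy : y ∈ BB U f 𝒜) :
    ee μ y (AA U f 𝒜) = EE μ U f 𝒜 y + 2 * 𝒜.card := by
  rw [b1_eeAA, EE, ← Finset.sum_congr rfl (fun c hc => b1_ep_add_two h hy hc),
    Finset.sum_add_distrib, Finset.sum_const, smul_eq_mul, mul_comm]

theorem EE_bound (h : Setup0 μ s b U f 𝒜 r) {y : V} (hy : y ∈ BB U f 𝒜) :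
    ee μ y (BB U f 𝒜) + EE μ U f 𝒜 y + 1 ≤ 2 * b := by
  have h1 := h.deg y (Finset.mem_filter.1 hy).1
  have h2 := b1_eeAAaddBB (μ := μ) (U := U) (f := f) (𝒜 := 𝒜) y
  have h3 := b1_eeAA_of_mem_BB h hy
  omega

theorem swap_bound (h : Setup0 μ s b U f 𝒜 r) {W : ℕ} (hW : W ∈ 𝒜) (hWr : W ≠ r)
    (ht : NoCl (arc μ U f) 𝒜 r {W}) {z : V} (hz : z ∈ Nm μ U f 𝒜 W) {y : V}
    (hy : y ∈ BB U f 𝒜) (hac : Ac μ (insert y ((cl U f W).erase z))) :
    ee μ z (BB U f 𝒜) + EE μ U f 𝒜 y + 1 ≤ 2 * b + μ y z := by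
  classical
  obtain ⟨hz1, hz2⟩ := Finset.mem_filter.1 hz
  have h1 := (h.swap W hW hWr ht z hz1 (fun c hc hcW hm => by
    have : c ∈ tg μ U f 𝒜 z := Finset.mem_filter.2 ⟨hc, by rw [(b1_memCl.1 hz1).2]; exact hcW, hm⟩
    rw [hz2] at this
    exact Finset.notMem_empty _ this) y hy hac).2
  have h2 := h.deg z (b1_memCl.1 hz1).1
  have h3 := b1_eeAAaddBB (μ := μ) (U := U) (f := f) (𝒜 := 𝒜) z
  have h4 := b1_eeAA_of_mem_BB h hy
  omega

theorem dl_le_two (W : ℕ) (w : V) (X : ℕ) : dl μ U f 𝒜 W w X ≤ 2 := by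
  unfold dl
  split_ifs with hc
  · have := hc.2
    omega
  · omega

/-- a vertex sends two edges to every class which is not a target -/
theorem b1_ee_ge_two (h : Setup0 μ s b U f 𝒜 r) {w : V} {c : ℕ}
    (hc : c ∈ 𝒜) (hcw : c ≠ f w) (hn : c ∉ tg μ U f 𝒜 w) : 2 ≤ ee μ w (cl U f c) := by
  classical
  refine two_le_of_not_ac h.mg (h.ac c hc) fun hac => hn ?_
  exact Finset.mem_filter.2 ⟨hc, hcw, hac⟩

theorem dl_nonpos (h : Setup0 μ s b U f 𝒜 r) {W X : ℕ} (hX : X ∈ 𝒜) (hXW : X ≠ W) {w : V}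
    (hw : w ∈ cl U f W) (hn : X ∉ tg μ U f 𝒜 w) : dl μ U f 𝒜 W w X ≤ 0 := by
  have h2 := b1_ee_ge_two h hX (by rw [(b1_memCl.1 hw).2]; exact hXW) hn
  unfold dl
  split_ifs with hc
  · have := hc.2
    omega
  · omega

theorem Dl_nonpos (h : Setup0 μ s b U f 𝒜 r) {W : ℕ} {w : V} (hw : w ∈ Nm μ U f 𝒜 W) :
    Dl μ U f 𝒜 W w ≤ 0 := by
  classical
  obtain ⟨hw1, hw2⟩ := Finset.mem_filter.1 hw
  unfold Dl
  refine Finset.sum_nonpos fun X hX => ?_
  obtain ⟨hXW, hXA⟩ := Finset.mem_erase.1 hX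
  exact dl_nonpos h hXA hXW hw1 (by rw [hw2]; exact Finset.notMem_empty _)

theorem b1_dl_le_ite (h : Setup0 μ s b U f 𝒜 r) {W X : ℕ} (hX : X ∈ 𝒜) (hXW : X ≠ W) {w : V}
    (hw : w ∈ cl U f W) :
    dl μ U f 𝒜 W w X ≤ if X ∈ tg μ U f 𝒜 w then 2 else 0 := by
  split_ifs with hc
  · exact dl_le_two W w X
  · exact dl_nonpos h hX hXW hw hc

theorem Dl_le (h : Setup0 μ s b U f 𝒜 r) {W : ℕ} {w : V} (hw : w ∈ cl U f W) :
    Dl μ U f 𝒜 W w ≤ 2 * (tg μ U f 𝒜 w).card := by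
  classical
  have h1 : Dl μ U f 𝒜 W w ≤ ∑ X ∈ 𝒜.erase W, if X ∈ tg μ U f 𝒜 w then (2 : ℤ) else 0 := by
    unfold Dl
    refine Finset.sum_le_sum fun X hX => ?_
    obtain ⟨hXW, hXA⟩ := Finset.mem_erase.1 hX
    exact b1_dl_le_ite h hXA hXW hw
  refine h1.trans ?_
  rw [← Finset.sum_filter, Finset.sum_const, nsmul_eq_mul, mul_comm]
  have h2 : ((𝒜.erase W).filter (fun X => X ∈ tg μ U f 𝒜 w)).card ≤ (tg μ U f 𝒜 w).card := by
    apply Finset.card_le_card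
    intro X hX
    exact (Finset.mem_filter.1 hX).2
  have h3 : (((𝒜.erase W).filter (fun X => X ∈ tg μ U f 𝒜 w)).card : ℤ) ≤
      ((tg μ U f 𝒜 w).card : ℤ) := by exact_mod_cast h2
  linarith

theorem sum_Dl (W : ℕ) : ∑ w ∈ cl U f W, Dl μ U f 𝒜 W w = ∑ X ∈ 𝒜.erase W, hh μ U f 𝒜 W X := by
  unfold Dl hh
  exact Finset.sum_comm

theorem hh_le_tg (h : Setup0 μ s b U f 𝒜 r) {W X : ℕ} (hX : X ∈ 𝒜) (hXW : X ≠ W) :
    hh μ U f 𝒜 W X ≤ 2 * ((Fm μ U f 𝒜 W).filter (fun w => X ∈ tg μ U f 𝒜 w)).card := by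
  classical
  have h1 : hh μ U f 𝒜 W X ≤ ∑ w ∈ cl U f W, if X ∈ tg μ U f 𝒜 w then (2 : ℤ) else 0 := by
    unfold hh
    exact Finset.sum_le_sum fun w hw => b1_dl_le_ite h hX hXW hw
  refine h1.trans ?_
  rw [← Finset.sum_filter, Finset.sum_const, nsmul_eq_mul, mul_comm]
  have h2 : ((cl U f W).filter (fun w => X ∈ tg μ U f 𝒜 w)).card ≤
      ((Fm μ U f 𝒜 W).filter (fun w => X ∈ tg μ U f 𝒜 w)).card := by
    apply Finset.card_le_card
    intro w hw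
    obtain ⟨hw1, hw2⟩ := Finset.mem_filter.1 hw
    refine Finset.mem_filter.2 ⟨Finset.mem_filter.2 ⟨hw1, ?_⟩, hw2⟩
    intro he
    rw [he] at hw2
    exact Finset.notMem_empty _ hw2
  have h3 : (((cl U f W).filter (fun w => X ∈ tg μ U f 𝒜 w)).card : ℤ) ≤
      (((Fm μ U f 𝒜 W).filter (fun w => X ∈ tg μ U f 𝒜 w)).card : ℤ) := by exact_mod_cast h2
  linarith

/-- the degree bound with the exact deficiencies -/
theorem b1_ee_B (h : Setup0 μ s b U f 𝒜 r) {W : ℕ} (hW : W ∈ 𝒜) {w : V}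
    (hw : w ∈ cl U f W) : (ee μ w (BB U f 𝒜) : ℤ) ≤
      2 * b + 1 - ee μ w (cl U f W) + ∑ c ∈ 𝒜.erase W, (2 - (ee μ w (cl U f c) : ℤ)) := by
  have h1 := h.deg w (b1_memCl.1 hw).1
  have h2 := b1_eeAAaddBB (μ := μ) (U := U) (f := f) (𝒜 := 𝒜) w
  have h3 := b1_eeAA (μ := μ) (U := U) (f := f) (𝒜 := 𝒜) w
  have h4 := Finset.add_sum_erase 𝒜 (fun c => ee μ w (cl U f c)) hW
  have h5 := Finset.card_erase_add_one hW
  rw [Finset.sum_sub_distrib, Finset.sum_const, nsmul_eq_mul]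
  have h6 : (∑ c ∈ 𝒜.erase W, (ee μ w (cl U f c) : ℤ)) =
      ((∑ c ∈ 𝒜.erase W, ee μ w (cl U f c) : ℕ) : ℤ) := by push_cast; rfl
  rw [h6]
  omega

theorem b1_two_sub_le_dl (W : ℕ) (w : V) (X : ℕ) :
    2 - (ee μ w (cl U f X) : ℤ) ≤ dl μ U f 𝒜 W w X := by
  unfold dl
  split_ifs <;> omega

theorem b1_sum_le_Dl (W : ℕ) (w : V) :
    ∑ c ∈ 𝒜.erase W, (2 - (ee μ w (cl U f c) : ℤ)) ≤ Dl μ U f 𝒜 W w := by
  unfold Dl
  exact Finset.sum_le_sum fun X _ => b1_two_sub_le_dl W w X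

/-- degree bound for `w ∈ A` -/
theorem cap_deg (h : Setup0 μ s b U f 𝒜 r) {W : ℕ} (hW : W ∈ 𝒜) {w : V}
    (hw : w ∈ cl U f W) : (ee μ w (BB U f 𝒜) : ℤ) ≤
      2 * b + 1 - ee μ w (cl U f W) + Dl μ U f 𝒜 W w := by
  have h1 := b1_ee_B h hW hw
  have h2 := b1_sum_le_Dl (μ := μ) (U := U) (f := f) (𝒜 := 𝒜) W w
  linarith

theorem b1_rm_le (W : Finset V) (v w : V) : rm μ W v w ≤ μ v w := by
  unfold rm; split_ifs <;> omega

theorem rB_le_ee (hμ : MG μ) (W : Finset V) (w : V) (B : Finset V) : rB μ W B w ≤ ee μ w B := by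
  unfold rB ee
  refine Finset.sum_le_sum fun y _ => ?_
  rw [hμ.symm w y]
  exact b1_rm_le W y w

/-- for an isolated vertex the wasted edges are the simple edges -/
theorem b1_rB_add (hμ : MG μ) (W : Finset V) (w : V) (B : Finset V) (h0 : ee μ w W = 0) :
    rB μ W B w + (B.filter (fun y => μ y w = 1)).card = ee μ w B := by
  classical
  unfold rB ee
  rw [Finset.card_filter, ← Finset.sum_add_distrib]
  refine Finset.sum_congr rfl fun y _ => ?_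
  rw [hμ.symm w y]
  unfold rm
  by_cases h1 : μ y w = 1
  · rw [if_pos ⟨h1, h0⟩, if_pos h1, h1]
  · rw [if_neg (fun h => h1 h.1), if_neg h1]
    omega

/-- the capacity of an isolated vertex with wasted edges -/
theorem cap_wasted (h : Setup0 μ s b U f 𝒜 r) {W : ℕ} (hW : W ∈ 𝒜) {w : V}
    (hw : w ∈ cl U f W) (h0 : ee μ w (cl U f W) = 0) :
    (rB μ (cl U f W) (BB U f 𝒜) w : ℤ) + ((BB U f 𝒜).filter (fun y => μ y w = 1)).card ≤
      2 * b + 1 + Dl μ U f 𝒜 W w := by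
  have h1 := cap_deg h hW hw
  have h2 := b1_rB_add h.mg (cl U f W) w (BB U f 𝒜) h0
  rw [h0] at h1
  have h3 : (rB μ (cl U f W) (BB U f 𝒜) w : ℤ) + ((BB U f 𝒜).filter (fun y => μ y w = 1)).card =
      (ee μ w (BB U f 𝒜) : ℤ) := by exact_mod_cast h2
  rw [h3]
  push_cast at h1
  linarith

/-- the capacity for real edges -/
theorem cap (h : Setup0 μ s b U f 𝒜 r) {W : ℕ} (hW : W ∈ 𝒜) {w : V} (hw : w ∈ cl U f W) :
    (rB μ (cl U f W) (BB U f 𝒜) w : ℤ) ≤ 2 * b + Dl μ U f 𝒜 W w := by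
  classical
  have hle := rB_le_ee h.mg (cl U f W) w (BB U f 𝒜)
  have hle' : (rB μ (cl U f W) (BB U f 𝒜) w : ℤ) ≤ ee μ w (BB U f 𝒜) := by exact_mod_cast hle
  by_cases h0 : ee μ w (cl U f W) = 0
  · by_cases hF : w ∈ Fu μ U f 𝒜 W
    · have hF' := (Finset.mem_filter.1 hF).2
      have h1 := b1_ee_B h hW hw
      rw [h0] at h1
      -- the number of edges to `B` is even
      have heven : Even (ee μ w (BB U f 𝒜)) := by
        unfold ee
        refine Finset.sum_induction _ Even (fun _ _ => Even.add) Even.zero fun y hy => ?_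
        have h2 := hF'.2 y hy
        have h3 := h.mg.le_two w y
        have : μ w y = 0 ∨ μ w y = 2 := by omega
        rcases this with h4 | h4 <;> rw [h4] <;> decide
      by_cases hodd : ∃ X ∈ 𝒜.erase W, ee μ w (cl U f X) % 2 = 1
      · obtain ⟨X, hX, hXo⟩ := hodd
        have h4 : ∑ c ∈ 𝒜.erase W, (2 - (ee μ w (cl U f c) : ℤ)) + 1 ≤ Dl μ U f 𝒜 W w := by
          unfold Dl
          rw [← Finset.add_sum_erase _ _ hX, ← Finset.add_sum_erase (𝒜.erase W)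
            (fun X => dl μ U f 𝒜 W w X) hX]
          have h5 : ∑ c ∈ (𝒜.erase W).erase X, (2 - (ee μ w (cl U f c) : ℤ)) ≤
              ∑ c ∈ (𝒜.erase W).erase X, dl μ U f 𝒜 W w c :=
            Finset.sum_le_sum fun c _ => b1_two_sub_le_dl W w c
          have h6 : dl μ U f 𝒜 W w X = 2 - (ee μ w (cl U f X) : ℤ) + 1 := by
            unfold dl
            rw [if_pos ⟨hF, hXo⟩]
          rw [h6]
          linarith
        push_cast at h1
        linarith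
      · push Not at hodd
        have h4 := b1_sum_le_Dl (μ := μ) (U := U) (f := f) (𝒜 := 𝒜) W w
        have h5 : Even (∑ c ∈ 𝒜.erase W, (2 - (ee μ w (cl U f c) : ℤ))) := by
          refine Finset.sum_induction _ Even (fun _ _ => Even.add) Even.zero fun c hc => ?_
          have h6 := hodd c hc
          refine Even.sub (by decide) ?_
          rw [Int.even_coe_nat, Nat.even_iff]
          omega
        obtain ⟨p, hp⟩ := heven
        obtain ⟨q, hq⟩ := h5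
        rw [hp] at h1 hle'
        rw [hq] at h1 h4
        push_cast at h1 hle'
        omega
    · -- there is a wasted edge
      have hex : ∃ y ∈ BB U f 𝒜, μ w y = 1 := by
        by_contra hcon
        push Not at hcon
        exact hF (Finset.mem_filter.2 ⟨hw, h0, hcon⟩)
      obtain ⟨y, hy, hy1⟩ := hex
      have h1 := cap_wasted h hW hw h0
      have h2 : 1 ≤ ((BB U f 𝒜).filter (fun y => μ y w = 1)).card := by
        apply Finset.card_pos.2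
        exact ⟨y, Finset.mem_filter.2 ⟨hy, by rw [h.mg.symm y w]; exact hy1⟩⟩
      have h3 : (1 : ℤ) ≤ (((BB U f 𝒜).filter (fun y => μ y w = 1)).card : ℤ) := by
        exact_mod_cast h2
      linarith
  · have h1 := cap_deg h hW hw
    have h2 : (1 : ℤ) ≤ (ee μ w (cl U f W) : ℤ) := by
      have : 1 ≤ ee μ w (cl U f W) := Nat.one_le_iff_ne_zero.2 h0
      exact_mod_cast this
    linarith

/-- double counting of the real edges -/
theorem sum_rr (W S B : Finset V) : ∑ y ∈ B, rr μ W S y = ∑ w ∈ S, rB μ W B w := by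
  unfold rr rB
  exact Finset.sum_comm

end X

end Pool.Agent.H25.EB
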