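import Pool.Agent.H25.EB.AcY
import Pool.Agent.H25.EB.Bottleneck
import Pool.Agent.H25.EB.Ineq1
import Pool.Agent.H25.EB.Types

/-!
# The case `b = 1`
-/

set_option autoImplicit false
set_option linter.unusedSectionVars false

namespace Pool.Agent.H25.EB

open Finset Pool.Agent.H25.EA

variable {V : Type*} [DecidableEq V]

section X
variable {μ : V → V → ℕ} {s b : ℕ} {U : Finset V} {f : V → ℕ} {𝒜 : Finset ℕ} {r : ℕ}
  {J : Finset ℕ} {Q : ℕ}


theorem mem_W_of_Nm {W : ℕ} {w : V} (hw : w ∈ Nm μ U f 𝒜 W) : w ∈ cl U f W :=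
  (mem_filter.1 hw).1

theorem mem_W_of_Fm {W : ℕ} {w : V} (hw : w ∈ Fm μ U f 𝒜 W) : w ∈ cl U f W :=
  (mem_filter.1 hw).1

theorem Nm_or_Fm {W : ℕ} {w : V} (hw : w ∈ cl U f W) :
    w ∈ Nm μ U f 𝒜 W ∨ w ∈ Fm μ U f 𝒜 W := by
  by_cases h : tg μ U f 𝒜 w = ∅
  · exact Or.inl (mem_filter.2 ⟨hw, h⟩)
  · exact Or.inr (mem_filter.2 ⟨hw, h⟩)

theorem not_Nm_of_Fm {W : ℕ} {w : V} (hw : w ∈ Fm μ U f 𝒜 W) : w ∉ Nm μ U f 𝒜 W := by
  intro h
  exact (mem_filter.1 hw).2 (mem_filter.1 h).2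

/-- the vertices of `W` in a core of `W + y` which misses a real movable neighbour of `y` -/
noncomputable def SS (μ : V → V → ℕ) (U : Finset V) (f : V → ℕ) (𝒜 : Finset ℕ) (W : ℕ) (y : V) :
    Finset V :=
  open Classical in
  (cl U f W).filter (fun v => ∃ C ⊆ insert y (cl U f W), (∀ u ∈ C, 2 ≤ ee μ u C) ∧ v ∈ C ∧
    ∃ w ∈ Tn0 μ U f 𝒜 W y, w ∉ C)

theorem mem_SS {W : ℕ} {y v : V} : v ∈ SS μ U f 𝒜 W y ↔ v ∈ cl U f W ∧
    ∃ C ⊆ insert y (cl U f W), (∀ u ∈ C, 2 ≤ ee μ u C) ∧ v ∈ C ∧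
      ∃ w ∈ Tn0 μ U f 𝒜 W y, w ∉ C := by
  classical
  unfold SS
  rw [mem_filter]

/-- In the set `𝒯` the sum of the degrees is large. -/
theorem sum_deg_large (hμ : MG μ) {Wc T C PP : Finset V} (SSf : V → Finset V) (mf : V → V)
    (hW : Ac μ Wc) (hT : T = PP.biUnion SSf) (hC : C = PP.image mf)
    (hSW : ∀ y ∈ PP, SSf y ⊆ Wc) (hyW : ∀ y ∈ PP, y ∉ Wc)
    (hm : ∀ y ∈ PP, mf y ∈ SSf y) (hmac : ∀ y ∈ PP, Ac μ (insert y (Wc.erase (mf y))))
    (hcore : ∀ y ∈ PP, ∀ u ∈ SSf y, 2 ≤ ee μ u (insert y (SSf y))) :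
    2 * T.card ≤ ∑ v ∈ T, ee μ v T + 2 * C.card := by
  classical
  have hCT : C ⊆ T := by
    intro x hx
    rw [hC, mem_image] at hx
    obtain ⟨y, hy, rfl⟩ := hx
    rw [hT]
    exact mem_biUnion.2 ⟨y, hy, hm y hy⟩
  -- a maximal good set
  obtain ⟨A, hA, hmax⟩ := exists_max_image
    (T.powerset.filter (fun A => C ⊆ A ∧ 2 * A.card ≤ ∑ v ∈ A, ee μ v A + 2 * C.card))
    (fun A => A.card) ⟨C, mem_filter.2 ⟨mem_powerset.2 hCT, Subset.refl _, by omega⟩⟩
  rw [mem_filter, mem_powerset] at hA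
  obtain ⟨hAT, hCA, hA2⟩ := hA
  by_cases hAT' : A = T
  · rw [← hAT']; exact hA2
  exfalso
  -- no edges between `A` and `T \ A`
  have hno : ∀ u ∈ T, u ∉ A → ee μ u A = 0 := by
    intro u hu huA
    by_contra h0
    have h1 : insert u A ∈ T.powerset.filter
        (fun A => C ⊆ A ∧ 2 * A.card ≤ ∑ v ∈ A, ee μ v A + 2 * C.card) := by
      refine mem_filter.2 ⟨mem_powerset.2 (insert_subset hu hAT),
        hCA.trans (subset_insert _ _), ?_⟩
      have h2 := sum_ee_erase hμ (mem_insert_self u A)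
      rw [erase_insert huA] at h2
      have h3 : ee μ u (insert u A) = ee μ u A := by rw [ee_insert huA, hμ.diag u, zero_add]
      rw [h2, h3, card_insert_of_notMem huA]
      omega
    have h4 := hmax _ h1
    rw [card_insert_of_notMem huA] at h4
    omega
  obtain ⟨v, hvT, hvA⟩ : ∃ v ∈ T, v ∉ A := by
    by_contra hcon
    push Not at hcon
    exact hAT' (Subset.antisymm hAT hcon)
  rw [hT, mem_biUnion] at hvT
  obtain ⟨y, hy, hvS⟩ := hvT
  set A1 := SSf y \ A with hA1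
  have hv1 : v ∈ A1 := mem_sdiff.2 ⟨hvS, hvA⟩
  have hST : SSf y ⊆ T := by
    rw [hT]
    exact subset_biUnion_of_mem SSf hy
  have hyS : y ∉ SSf y := fun h => hyW y hy (hSW y hy h)
  have hyA1 : y ∉ A1 := fun h => hyS (mem_sdiff.1 h).1
  have hA1W : A1 ⊆ Wc := sdiff_subset.trans (hSW y hy)
  have h2 : ∀ u ∈ A1, 2 ≤ ee μ u A1 + μ u y := by
    intro u hu
    have hu' := mem_sdiff.1 hu
    have h3 := hcore y hy u hu'.1
    rw [ee_insert hyS] at h3
    have h4 : SSf y ⊆ A1 ∪ A := by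
      intro w hw
      by_cases hwA : w ∈ A
      · exact mem_union_right _ hwA
      · exact mem_union_left _ (mem_sdiff.2 ⟨hw, hwA⟩)
    have h5 : ee μ u (SSf y) ≤ ee μ u (A1 ∪ A) := ee_mono h4
    have hd : Disjoint A1 A := sdiff_disjoint
    rw [ee_union u hd, hno u (hST hu'.1) hu'.2] at h5
    omega
  have hmA1 : mf y ∉ A1 := fun h => (mem_sdiff.1 h).2 (hCA (by
    rw [hC]; exact mem_image_of_mem _ hy))
  by_cases hy2 : 2 ≤ ee μ y A1
  · -- a core in `W - m + y`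
    have hsub : insert y A1 ⊆ insert y (Wc.erase (mf y)) := by
      apply insert_subset_insert
      intro x hx
      exact mem_erase.2 ⟨fun e => hmA1 (e ▸ hx), hA1W hx⟩
    obtain ⟨u, hu, hu1⟩ := hmac y hy (insert y A1) hsub ⟨y, mem_insert_self _ _⟩
    rw [ee_insert hyA1] at hu1
    rcases mem_insert.1 hu with rfl | hu
    · omega
    · have h3 := h2 u hu
      omega
  · have h3 : ∑ u ∈ A1, 2 ≤ ∑ u ∈ A1, (ee μ u A1 + μ u y) := sum_le_sum h2
    rw [sum_const, smul_eq_mul, sum_add_distrib] at h3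
    have h4 : ∑ u ∈ A1, μ u y = ee μ y A1 := sum_congr rfl fun u _ => hμ.symm u y
    have h5 := ac_sum_le hμ (hW.mono hA1W) ⟨v, hv1⟩
    omega

/-- facts about a vertex of `B` with three real edges at `W` -/
theorem three_facts (h : Setup0 μ s 1 U f 𝒜 r) {W : ℕ} (hW : W ∈ 𝒜) {y : V}
    (hy : y ∈ BB U f 𝒜) :
    rr μ (cl U f W) (cl U f W) y + (om μ (cl U f W) y).card ≤ 3 ∧
    (3 ≤ rr μ (cl U f W) (cl U f W) y → EE μ U f 𝒜 y = 1 ∧ ee μ y (cl U f W) = 3 ∧
      ∀ X ∈ 𝒜, X ≠ W → ep μ U f y X = 0) := by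
  have h1 := EE_bound h hy
  have h2 := ep_add_two h hy hW
  have h3 : ep μ U f y W ≤ EE μ U f 𝒜 y :=
    single_le_sum (f := fun c => ep μ U f y c) (fun _ _ => Nat.zero_le _) hW
  have h4 := rr_add_om (W := cl U f W) (y := y) h.mg
  refine ⟨by omega, fun h5 => ⟨by omega, by omega, fun X hX hXW => ?_⟩⟩
  have h6 : ep μ U f y W + ep μ U f y X ≤ EE μ U f 𝒜 y := by
    have h7 : ∑ c ∈ ({W, X} : Finset ℕ), ep μ U f y c ≤ ∑ c ∈ 𝒜, ep μ U f y c := by
      apply sum_le_sum_of_subset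
      intro c hc
      rw [mem_insert, mem_singleton] at hc
      rcases hc with rfl | rfl
      · exact hW
      · exact hX
    rw [sum_pair hXW.symm] at h7
    exact h7
  omega

/-- a vertex which can be moved to `W` is not adjacent to `y` -/
theorem no_edge_of_mov (h : Setup0 μ s b U f 𝒜 r) {W X : ℕ} (hW : W ∈ 𝒜)
    (hX : X ∈ 𝒜) (hXr : X ≠ r) (htX : NoCl (arc μ U f) 𝒜 r {X}) (hXW : X ≠ W) {y : V}
    (hy : y ∈ BB U f 𝒜) (hep : ep μ U f y X = 0) {x : V} (hx : x ∈ cl U f X)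
    (hmov : mov μ U f x W) : μ y x = 0 := by
  classical
  have h2 := ep_add_two h hy hX
  have h3 := rho_ge_two h hy hX
  have hr2 : rr μ (cl U f X) (cl U f X) y = 2 := by omega
  have hom : (om μ (cl U f X) y).card = 0 := by omega
  obtain ⟨h4, -⟩ := rho_two h hX hXr htX hy hr2
  have hxF : x ∈ Fm μ U f 𝒜 X := by
    refine mem_filter.2 ⟨hx, ?_⟩
    rw [← nonempty_iff_ne_empty]
    refine ⟨W, mem_filter.2 ⟨hW, ?_, hmov⟩⟩
    have := (mem_filter.1 hx).2
    rw [this]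
    exact hXW.symm
  have h5 : rm μ (cl U f X) y x = 0 := sum_eq_zero_iff.1 h4 x hxF
  by_contra h6
  rw [rm] at h5
  split_ifs at h5 with h7
  · rw [card_eq_zero] at hom
    have : x ∈ om μ (cl U f X) y := mem_filter.2 ⟨hx, h7⟩
    rw [hom] at this
    exact absurd this (notMem_empty x)
  · exact h6 h5

/-- the case `b = 1` -/
theorem b_one (h : Setup0 μ s 1 U f 𝒜 r) (hL : Loc (arc μ U f) 𝒜 r J Q) : False := by
  classical
  obtain ⟨W, hWJ⟩ := hL.nonempty
  have hWA : W ∈ 𝒜 := hL.sub hWJ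
  have hWr : W ≠ r := fun e => hL.r_notMem (e ▸ hWJ)
  have ht := hL.term W hWJ
  have hμ := h.mg
  have hWac := h.ac W hWA
  have hBW : ∀ y ∈ BB U f 𝒜, y ∉ cl U f W := by
    intro y hy hyW
    have h1 := (mem_filter.1 hy).2
    rw [(mem_filter.1 hyW).2] at h1
    exact h1 hWA
  set PP : Finset V := (BB U f 𝒜).filter (fun y => IsP0 μ U f 𝒜 W y) with hPP
  set QQ : Finset V := (BB U f 𝒜).filter (fun y => IsQ0 μ U f 𝒜 W y) with hQQ
  have hPPB : ∀ y ∈ PP, y ∈ BB U f 𝒜 ∧ IsP0 μ U f 𝒜 W y := fun y hy => mem_filter.1 hy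
  have hrho3 : ∀ y, IsP0 μ U f 𝒜 W y ∨ IsQ0 μ U f 𝒜 W y →
      rr μ (cl U f W) (cl U f W) y = 3 := by
    intro y hy
    have h1 := rho_split (μ := μ) (U := U) (f := f) (𝒜 := 𝒜) W y
    rcases hy with hy | hy
    · rw [hy.1, hy.2] at h1; omega
    · rw [hy.1, hy.2] at h1; omega
  -- the centres
  have hcen : ∀ y ∈ PP, ∃ m ∈ Nm μ U f 𝒜 W, Ac μ (insert y ((cl U f W).erase m)) ∧ μ y m = 0 := by
    intro y hy
    obtain ⟨hyB, hyP⟩ := hPPB y hy
    obtain ⟨m, hm, hmac, hym, -⟩ := PQ_center h hWA hWr ht hyB (Or.inl hyP)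
    exact ⟨m, hm, hmac, by have := hyP.1; omega⟩
  choose! mf hmN hmac hm0 using hcen
  -- cores which miss a neighbour
  have hcoreex : ∀ y ∈ PP, ∀ w ∈ Tn0 μ U f 𝒜 W y, ∃ C ⊆ insert y ((cl U f W).erase w),
      (∀ u ∈ C, 2 ≤ ee μ u C) ∧ y ∈ C := by
    intro y hy w hw
    obtain ⟨hyB, hyP⟩ := hPPB y hy
    have hwF : w ∈ Fm μ U f 𝒜 W := (mem_filter.1 hw).1
    obtain ⟨C, hC, hne, hc⟩ := exists_core (R1 h hWA hWr ht hwF hyB)
    exact ⟨C, hC, hc, mem_of_core (hWac.mono (erase_subset _ _)) hC hne hc⟩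
  have hersub : ∀ (y w : V), insert y ((cl U f W).erase w) ⊆ insert y (cl U f W) :=
    fun y w => insert_subset_insert _ (erase_subset _ _)
  have hnotC : ∀ {y w : V} {C : Finset V}, y ∈ BB U f 𝒜 → w ∈ cl U f W →
      C ⊆ insert y ((cl U f W).erase w) → w ∉ C := by
    intro y w C hy hw hC hwC
    rcases mem_insert.1 (hC hwC) with h1 | h1
    · exact hBW y hy (h1 ▸ hw)
    · exact (mem_erase.1 h1).1 rfl
  -- `T_y ⊆ S_y`
  have hTS : ∀ y ∈ PP, Tn0 μ U f 𝒜 W y ⊆ SS μ U f 𝒜 W y := by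
    intro y hy w hw
    obtain ⟨hyB, hyP⟩ := hPPB y hy
    obtain ⟨hT1, -, hT3, -⟩ := PQ_Tn h hWA hWr ht hyB (Or.inl hyP)
    have hcard := hT3 hyP
    obtain ⟨w', hw', hww⟩ : ∃ w' ∈ Tn0 μ U f 𝒜 W y, w' ≠ w := by
      have : 1 < (Tn0 μ U f 𝒜 W y).card := by omega
      obtain ⟨w', hw', hne⟩ := exists_mem_ne this w
      exact ⟨w', hw', hne⟩
    obtain ⟨C, hC, hc, hyC⟩ := hcoreex y hy w' hw'
    have hw'W : w' ∈ cl U f W := mem_W_of_Fm (mem_filter.1 hw').1
    have hwW : w ∈ cl U f W := mem_W_of_Fm (mem_filter.1 hw).1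
    have hwC : w ∈ C := core_all_real hμ (by rw [hrho3 y (Or.inl hyP)]) hw'W (hT1 w' hw').1 hC hc
      hyC hwW (Ne.symm hww) (hT1 w hw).1
    exact mem_SS.2 ⟨hwW, C, hC.trans (hersub y w'), hc, hwC, w', hw', hnotC hyB hw'W hC⟩
  -- `m_y ∈ S_y`
  have hmS : ∀ y ∈ PP, mf y ∈ SS μ U f 𝒜 W y := by
    intro y hy
    obtain ⟨hyB, hyP⟩ := hPPB y hy
    obtain ⟨hT1, -, hT3, -⟩ := PQ_Tn h hWA hWr ht hyB (Or.inl hyP)
    have hcard := hT3 hyP
    obtain ⟨w, hw⟩ : (Tn0 μ U f 𝒜 W y).Nonempty := card_pos.1 (by omega)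
    obtain ⟨C, hC, hc, hyC⟩ := hcoreex y hy w hw
    have hwW : w ∈ cl U f W := mem_W_of_Fm (mem_filter.1 hw).1
    have hmC : mf y ∈ C := by
      by_contra hmC
      obtain ⟨u, hu, hu1⟩ := hmac y hy C (fun x hx => by
        rcases mem_insert.1 (hC hx) with h1 | h1
        · exact mem_insert.2 (Or.inl h1)
        · exact mem_insert_of_mem (mem_erase.2 ⟨fun e => hmC (e ▸ hx), (mem_erase.1 h1).2⟩))
        ⟨y, hyC⟩
      have := hc u hu
      omega
    exact mem_SS.2 ⟨mem_W_of_Nm (hmN y hy), C, hC.trans (hersub y w), hc, hmC, w, hw,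
      hnotC hyB hwW hC⟩
  have hSW : ∀ y ∈ PP, SS μ U f 𝒜 W y ⊆ cl U f W := fun y _ v hv => (mem_SS.1 hv).1
  -- every vertex of `S_y` has two edges to `S_y + y`
  have hScore : ∀ y ∈ PP, ∀ u ∈ SS μ U f 𝒜 W y, 2 ≤ ee μ u (insert y (SS μ U f 𝒜 W y)) := by
    intro y hy u hu
    obtain ⟨huW, C, hC, hc, huC, w, hw, hwC⟩ := mem_SS.1 hu
    refine (hc u huC).trans (ee_mono ?_)
    intro x hx
    by_cases hxy : x = y
    · exact mem_insert.2 (Or.inl hxy)
    · refine mem_insert_of_mem (mem_SS.2 ⟨?_, C, hC, hc, hx, w, hw, hwC⟩)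
      rcases mem_insert.1 (hC hx) with h1 | h1
      · exact absurd h1 hxy
      · exact h1
  set T : Finset V := PP.biUnion (fun y => SS μ U f 𝒜 W y) with hT
  set C : Finset V := PP.image mf with hC
  have hTW : T ⊆ cl U f W := by
    intro v hv
    obtain ⟨y, hy, hvy⟩ := mem_biUnion.1 hv
    exact hSW y hy hvy
  have hdeg := sum_deg_large hμ (fun y => SS μ U f 𝒜 W y) mf hWac hT hC hSW
    (fun y hy => hBW y (hPPB y hy).1) hmS hmac hScore
  have hCT : C ⊆ T := by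
    intro x hx
    obtain ⟨y, hy, rfl⟩ := mem_image.1 hx
    exact mem_biUnion.2 ⟨y, hy, hmS y hy⟩
  -- the movable vertices of `T` have at most one target
  have htg : ∀ v ∈ T, v ∈ Fm μ U f 𝒜 W → (tg μ U f 𝒜 v).card ≤ 1 := by
    intro v hv hvF
    obtain ⟨y, hy, hvS⟩ := mem_biUnion.1 hv
    obtain ⟨hyB, hyP⟩ := hPPB y hy
    obtain ⟨hvW, C', hC', hc', hvC', w, hw, hwC'⟩ := mem_SS.1 hvS
    obtain ⟨hT1, -, -, -⟩ := PQ_Tn h hWA hWr ht hyB (Or.inl hyP)
    have hwF : w ∈ Fm μ U f 𝒜 W := (mem_filter.1 hw).1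
    have hwW : w ∈ cl U f W := mem_W_of_Fm hwF
    have hwv : w ≠ v := fun e => hwC' (e ▸ hvC')
    obtain ⟨hE1, he3, hep0⟩ := (three_facts h hWA hyB).2 (by rw [hrho3 y (Or.inl hyP)])
    have hyC' : y ∈ C' := mem_of_core hWac hC' ⟨v, hvC'⟩ hc'
    have hb := bottleneck h hL hWJ hwF hvF hwv hyB (by
      intro X hXJ hXW x hx hmov
      have hXA := hL.sub hXJ
      have hXr : X ≠ r := fun e => hL.r_notMem (e ▸ hXJ)
      have hyx : μ y x = 0 := no_edge_of_mov h hWA hXA hXr (hL.term X hXJ) hXW hyB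
        (hep0 X hXA hXW) hx hmov
      have hxW : x ∉ cl U f W := by
        intro h1
        have h2 := (mem_filter.1 hx).2
        rw [(mem_filter.1 h1).2] at h2
        exact hXW h2.symm
      have hxv : x ≠ v := fun e => hxW (e ▸ hvW)
      have hyx' : y ≠ x := by
        intro e
        have h1 := (mem_filter.1 hyB).2
        rw [e, (mem_filter.1 hx).2] at h1
        exact h1 hXA
      set A := insert x ((cl U f W).erase w) with hA
      have hAac : Ac μ A := Ac.mono hmov (insert_subset_insert _ (erase_subset _ _))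
      have hyA : y ∉ A := by
        intro h1
        rcases mem_insert.1 h1 with h2 | h2
        · exact hyx' h2
        · exact hBW y hyB (mem_erase.1 h2).2
      have h2 : ee μ y A ≤ 2 := by
        have h3 : ee μ y ((cl U f W).erase w) + μ y w = ee μ y (cl U f W) := ee_erase hwW
        have h4 : ee μ y A ≤ μ y x + ee μ y ((cl U f W).erase w) := ee_insert_le
        have h5 := (hT1 w hw).2.1
        omega
      have hC'A : C' ⊆ insert y A := by
        intro z hz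
        rcases mem_insert.1 (hC' hz) with h1 | h1
        · exact mem_insert.2 (Or.inl h1)
        · exact mem_insert_of_mem (mem_insert_of_mem
            (mem_erase.2 ⟨fun e => hwC' (e ▸ hz), h1⟩))
      have hvy : v ≠ y := fun e => hBW y hyB (e ▸ hvW)
      have h3 := core_unique hμ hAac hyA h2 hC'A hc' hvC' hvy
      have h4 : A.erase v = insert x (((cl U f W).erase w).erase v) := by
        rw [hA, erase_insert_of_ne hxv]
      rw [h4, Finset.insert_comm] at h3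
      exact h3)
    exact (card_le_card subset_union_right).trans hb
  -- prices
  set L : Finset V := PP.biUnion (fun y => Tn0 μ U f 𝒜 W y) with hLdef
  set O : Finset V := QQ.biUnion (fun y => Tn0 μ U f 𝒜 W y) with hOdef
  have hLT : L ⊆ T := by
    intro w hw
    obtain ⟨y, hy, hwy⟩ := mem_biUnion.1 hw
    exact mem_biUnion.2 ⟨y, hy, hTS y hy hwy⟩
  have htgO : ∀ w ∈ O, (tg μ U f 𝒜 w).card ≤ 1 := by
    intro w hw
    obtain ⟨y, hy, hwy⟩ := mem_biUnion.1 hw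
    obtain ⟨hyB, hyQ⟩ := mem_filter.1 hy
    have hE1 := ((three_facts h hWA hyB).2 (by rw [hrho3 y (Or.inr hyQ)])).1
    have h1 := TS_le_one h hL hWJ hyB hE1 (Or.inr hyQ)
    refine (card_le_card ?_).trans h1
    exact subset_biUnion_of_mem (tg μ U f 𝒜) hwy
  set p : V → ℤ := fun w => if w ∈ Nm μ U f 𝒜 W then 6 else if w ∈ L then 4 else
    if w ∈ O then 3 else 0 with hp
  have hp0 : ∀ w, 0 ≤ p w := by
    intro w
    simp only [hp]
    split_ifs <;> norm_num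
  -- every vertex of `B` pays at least 12
  have hpay : ∀ y ∈ BB U f 𝒜, (12 : ℤ) ≤ ∑ w ∈ cl U f W, p w * (rm μ (cl U f W) y w : ℤ) := by
    intro y hy
    have hsplit : ∑ w ∈ cl U f W, p w * (rm μ (cl U f W) y w : ℤ) =
        ∑ w ∈ Nm μ U f 𝒜 W, p w * (rm μ (cl U f W) y w : ℤ) +
          ∑ w ∈ Fm μ U f 𝒜 W, p w * (rm μ (cl U f W) y w : ℤ) :=
      (sum_filter_add_sum_filter_not (cl U f W) (fun v => tg μ U f 𝒜 v = ∅) _).symm
    have hN : ∑ w ∈ Nm μ U f 𝒜 W, p w * (rm μ (cl U f W) y w : ℤ) =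
        6 * (rr μ (cl U f W) (Nm μ U f 𝒜 W) y : ℤ) := by
      rw [rr, Nat.cast_sum, mul_sum]
      exact sum_congr rfl fun w hw => by simp only [hp, if_pos hw]
    have hF0 : 0 ≤ ∑ w ∈ Fm μ U f 𝒜 W, p w * (rm μ (cl U f W) y w : ℤ) :=
      sum_nonneg fun w _ => mul_nonneg (hp0 w) (by positivity)
    have hFc : ∀ c : ℤ, (∀ w ∈ Tn0 μ U f 𝒜 W y, c ≤ p w) →
        c * (rr μ (cl U f W) (Fm μ U f 𝒜 W) y : ℤ) ≤
          ∑ w ∈ Fm μ U f 𝒜 W, p w * (rm μ (cl U f W) y w : ℤ) := by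
      intro c hc
      rw [rr, Nat.cast_sum, mul_sum]
      refine sum_le_sum fun w hw => ?_
      rcases Nat.eq_zero_or_pos (rm μ (cl U f W) y w) with h0 | h0
      · rw [h0]; simp
      · exact mul_le_mul_of_nonneg_right (hc w (mem_filter.2 ⟨hw, h0⟩)) (by positivity)
    rw [hsplit, hN]
    rcases types0 h hWA hWr ht hy with h1 | ⟨h1, h2⟩ | ⟨h1, h2⟩
    · have : (2 : ℤ) ≤ (rr μ (cl U f W) (Nm μ U f 𝒜 W) y : ℤ) := by exact_mod_cast h1
      linarith
    · -- type Q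
      have h3 := (three_facts h hWA hy).1
      have h4 := rho_split (μ := μ) (U := U) (f := f) (𝒜 := 𝒜) W y
      have hQ : IsQ0 μ U f 𝒜 W y := ⟨h1, by omega⟩
      have hyQ : y ∈ QQ := mem_filter.2 ⟨hy, hQ⟩
      have h5 := hFc 3 (by
        intro w hw
        have hwO : w ∈ O := mem_biUnion.2 ⟨y, hyQ, hw⟩
        have hwN : w ∉ Nm μ U f 𝒜 W := not_Nm_of_Fm (mem_filter.1 hw).1
        simp only [hp, if_neg hwN, if_pos hwO]
        split_ifs <;> norm_num)
      have h6 : (2 : ℤ) ≤ (rr μ (cl U f W) (Fm μ U f 𝒜 W) y : ℤ) := by exact_mod_cast h2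
      rw [h1]
      push_cast
      linarith
    · have h3 := (three_facts h hWA hy).1
      have h4 := rho_split (μ := μ) (U := U) (f := f) (𝒜 := 𝒜) W y
      have hP : IsP0 μ U f 𝒜 W y := ⟨h1, by omega⟩
      have hyP : y ∈ PP := mem_filter.2 ⟨hy, hP⟩
      have h5 := hFc 4 (by
        intro w hw
        have hwL : w ∈ L := mem_biUnion.2 ⟨y, hyP, hw⟩
        have hwN : w ∉ Nm μ U f 𝒜 W := not_Nm_of_Fm (mem_filter.1 hw).1
        simp only [hp, if_neg hwN, if_pos hwL]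
        norm_num)
      have h6 : (3 : ℤ) ≤ (rr μ (cl U f W) (Fm μ U f 𝒜 W) y : ℤ) := by exact_mod_cast h2
      rw [h1]
      push_cast
      linarith
  have htotal : (12 : ℤ) * (BB U f 𝒜).card ≤
      ∑ w ∈ cl U f W, p w * (rB μ (cl U f W) (BB U f 𝒜) w : ℤ) := by
    calc (12 : ℤ) * (BB U f 𝒜).card = ∑ y ∈ BB U f 𝒜, (12 : ℤ) := by
          rw [sum_const, nsmul_eq_mul, mul_comm]
      _ ≤ ∑ y ∈ BB U f 𝒜, ∑ w ∈ cl U f W, p w * (rm μ (cl U f W) y w : ℤ) := sum_le_sum hpay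
      _ = ∑ w ∈ cl U f W, p w * (rB μ (cl U f W) (BB U f 𝒜) w : ℤ) := by
          rw [sum_comm]
          refine sum_congr rfl fun w _ => ?_
          rw [rB, Nat.cast_sum, mul_sum]
  -- the upper bound
  have hupper : ∀ w ∈ cl U f W, p w * (rB μ (cl U f W) (BB U f 𝒜) w : ℤ) ≤
      12 + (if w ∈ T then 8 - 4 * (ee μ w T : ℤ) else 0) - (if w ∈ C then 8 else 0) := by
    intro w hw
    have hcap := cap h hWA hw
    have hcapd := cap_deg h hWA hw
    have hrBe : (rB μ (cl U f W) (BB U f 𝒜) w : ℤ) ≤ ee μ w (BB U f 𝒜) := by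
      exact_mod_cast rB_le_ee hμ (cl U f W) w (BB U f 𝒜)
    have hrB0 : (0 : ℤ) ≤ rB μ (cl U f W) (BB U f 𝒜) w := by positivity
    have hdT : (ee μ w T : ℤ) ≤ ee μ w (cl U f W) := by exact_mod_cast (ee_mono hTW)
    have hd0 : (0 : ℤ) ≤ ee μ w T := by positivity
    push_cast at hcap hcapd
    by_cases hwN : w ∈ Nm μ U f 𝒜 W
    · have hpw : p w = 6 := by simp only [hp, if_pos hwN]
      have hDl := Dl_nonpos h hwN
      rw [hpw]
      by_cases hwC : w ∈ C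
      · rw [if_pos hwC, if_pos (hCT hwC)]
        obtain ⟨y, hy, hyw⟩ := mem_image.1 hwC
        obtain ⟨hyB, hyP⟩ := hPPB y hy
        have hE1 := ((three_facts h hWA hyB).2 (by rw [hrho3 y (Or.inl hyP)])).1
        have h1 := swap_bound h hWA hWr ht (hmN y hy) hyB (hmac y hy)
        rw [hm0 y hy, hE1, hyw] at h1
        have h2 : ee μ w (BB U f 𝒜) = 0 := by omega
        rw [h2] at hrBe hcapd
        push_cast at hrBe hcapd
        have h3 : (rB μ (cl U f W) (BB U f 𝒜) w : ℤ) = 0 := le_antisymm hrBe hrB0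
        rw [h3]
        linarith
      · rw [if_neg hwC]
        by_cases hwT : w ∈ T
        · rw [if_pos hwT]
          linarith
        · rw [if_neg hwT]
          linarith
    · have hwF : w ∈ Fm μ U f 𝒜 W := (Nm_or_Fm hw).resolve_left hwN
      have hwC : w ∉ C := by
        intro hwC
        obtain ⟨y, hy, hyw⟩ := mem_image.1 hwC
        exact hwN (hyw ▸ hmN y hy)
      rw [if_neg hwC]
      have hDl := Dl_le h hw
      by_cases hwT : w ∈ T
      · rw [if_pos hwT]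
        have h1 : ((tg μ U f 𝒜 w).card : ℤ) ≤ 1 := by exact_mod_cast htg w hwT hwF
        have h2 : p w ≤ 4 := by
          simp only [hp, if_neg hwN]
          split_ifs <;> norm_num
        have h3 : p w * (rB μ (cl U f W) (BB U f 𝒜) w : ℤ) ≤
            4 * (rB μ (cl U f W) (BB U f 𝒜) w : ℤ) := mul_le_mul_of_nonneg_right h2 hrB0
        linarith
      · rw [if_neg hwT]
        have hwL : w ∉ L := fun h1 => hwT (hLT h1)
        by_cases hwO : w ∈ O
        · have hpw : p w = 3 := by simp only [hp, if_neg hwN, if_neg hwL, if_pos hwO]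
          have h1 : ((tg μ U f 𝒜 w).card : ℤ) ≤ 1 := by exact_mod_cast htgO w hwO
          rw [hpw]
          linarith
        · have hpw : p w = 0 := by simp only [hp, if_neg hwN, if_neg hwL, if_neg hwO]
          rw [hpw]
          linarith
  have hsum := sum_le_sum hupper
  rw [sum_sub_distrib, sum_add_distrib, sum_const, nsmul_eq_mul] at hsum
  have h1 : ∑ w ∈ cl U f W, (if w ∈ T then 8 - 4 * (ee μ w T : ℤ) else 0) =
      8 * T.card - 4 * ∑ w ∈ T, (ee μ w T : ℤ) := by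
    rw [← sum_filter, filter_mem_eq_inter, inter_eq_right.2 hTW, sum_sub_distrib, sum_const,
      nsmul_eq_mul, mul_sum]
    ring
  have h2 : ∑ w ∈ cl U f W, (if w ∈ C then (8 : ℤ) else 0) = 8 * C.card := by
    rw [← sum_filter, filter_mem_eq_inter, inter_eq_right.2 (hCT.trans hTW), sum_const,
      nsmul_eq_mul]
    ring
  rw [h1, h2] at hsum
  have h3 : (2 : ℤ) * T.card ≤ ∑ w ∈ T, (ee μ w T : ℤ) + 2 * C.card := by exact_mod_cast hdeg
  have h4 : ((cl U f W).card : ℤ) = s := by exact_mod_cast h.card_cl W hWA hWr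
  have h5 : ((BB U f 𝒜).card : ℤ) = s + 1 := by
    have := h.card_B
    push_cast [this]
    ring
  rw [h5] at htotal
  rw [h4] at hsum
  linarith

end X

end Pool.Agent.H25.EB
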