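import Pool.Agent.H25.EB.Defs
import Pool.Agent.H25.EB.Ineq1
import Pool.Agent.H25.EA.AcBasic
import Pool.Agent.H25.EB.Types

/-!
# Equitable acyclic colourings, `Δ ≤ 2k-1`: the values (module V)
-/

set_option autoImplicit false
set_option linter.unusedSectionVars false

namespace Pool.Agent.H25.EB

open Finset Pool.Agent.H25.EA

variable {V : Type*} [DecidableEq V]


section X
variable {μ : V → V → ℕ} {s b : ℕ} {U : Finset V} {f : V → ℕ} {𝒜 : Finset ℕ} {r : ℕ}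
  {J : Finset ℕ} {Q : ℕ}

variable (μ b U f 𝒜) in
/-- `s_W(y) = b · val_W(y) - 1` -/
noncomputable def sv (W : ℕ) (y : V) : ℚ :=
  b * ∑ w ∈ cl U f W, (rm μ (cl U f W) y w : ℚ) / rB μ (cl U f W) (BB U f 𝒜) w - 1

theorem sum_sv_le (h : Setup0 μ s b U f 𝒜 r) {W : ℕ} (hW : W ∈ 𝒜) (hWr : W ≠ r) :
    ∑ y ∈ BB U f 𝒜, sv μ b U f 𝒜 W y ≤ -1 := by
  unfold sv
  rw [Finset.sum_sub_distrib, Finset.sum_const, nsmul_eq_mul, mul_one, h.card_B,
    ← Finset.mul_sum, Finset.sum_comm]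
  have h1 : ∑ w ∈ cl U f W, ∑ y ∈ BB U f 𝒜, (rm μ (cl U f W) y w : ℚ) /
      rB μ (cl U f W) (BB U f 𝒜) w ≤ s := by
    have h2 : ∀ w ∈ cl U f W, ∑ y ∈ BB U f 𝒜, (rm μ (cl U f W) y w : ℚ) /
        rB μ (cl U f W) (BB U f 𝒜) w ≤ 1 := by
      intro w _
      rw [← Finset.sum_div]
      have h3 : (∑ y ∈ BB U f 𝒜, (rm μ (cl U f W) y w : ℚ)) =
          rB μ (cl U f W) (BB U f 𝒜) w := by
        unfold rB
        push_cast
        rfl
      rw [h3]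
      exact div_self_le_one _
    refine (Finset.sum_le_sum h2).trans ?_
    rw [Finset.sum_const, nsmul_eq_mul, mul_one, h.card_cl W hW hWr]
  have hb : (0 : ℚ) ≤ b := Nat.cast_nonneg b
  have h2 := mul_le_mul_of_nonneg_left h1 hb
  push_cast
  linarith

theorem v_rB_pos {W : ℕ} {y w : V} (hy : y ∈ BB U f 𝒜) (hp : 0 < rm μ (cl U f W) y w) :
    0 < rB μ (cl U f W) (BB U f 𝒜) w := by
  unfold rB
  exact hp.trans_le (Finset.single_le_sum (f := fun y => rm μ (cl U f W) y w)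
    (fun _ _ => Nat.zero_le _) hy)

theorem v_div_ge {W : ℕ} {y w : V} (hy : y ∈ BB U f 𝒜) {D : ℚ}
    (hcap : 0 < rm μ (cl U f W) y w → (rB μ (cl U f W) (BB U f 𝒜) w : ℚ) ≤ D) :
    (rm μ (cl U f W) y w : ℚ) / D ≤
      (rm μ (cl U f W) y w : ℚ) / rB μ (cl U f W) (BB U f 𝒜) w := by
  rcases Nat.eq_zero_or_pos (rm μ (cl U f W) y w) with h0 | hp
  · rw [h0]
    simp
  · have h1 : (0 : ℚ) < rB μ (cl U f W) (BB U f 𝒜) w := by exact_mod_cast v_rB_pos hy hp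
    exact div_le_div_of_nonneg_left (Nat.cast_nonneg _) h1 (hcap hp)

/-- general lower bound for the value; `D` bounds the capacities of the real movable
neighbours of `y` -/
theorem sv_ge (h : Setup0 μ s b U f 𝒜 r) {W : ℕ} (hW : W ∈ 𝒜) {y : V} (hy : y ∈ BB U f 𝒜)
    (hb : 1 ≤ b) {D : ℚ} (hD : 0 < D)
    (hcap : ∀ w ∈ Tn0 μ U f 𝒜 W y, (rB μ (cl U f W) (BB U f 𝒜) w : ℚ) ≤ D) :
    (rr μ (cl U f W) (Nm μ U f 𝒜 W) y : ℚ) / 2 +
      (rr μ (cl U f W) (Fm μ U f 𝒜 W) y : ℚ) * b / D - 1 ≤ sv μ b U f 𝒜 W y := by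
  classical
  have hb0 : (0 : ℚ) < b := by exact_mod_cast hb
  have h1 : (∑ w ∈ cl U f W, (rm μ (cl U f W) y w : ℚ) / rB μ (cl U f W) (BB U f 𝒜) w) =
      (∑ w ∈ Nm μ U f 𝒜 W, (rm μ (cl U f W) y w : ℚ) / rB μ (cl U f W) (BB U f 𝒜) w) +
      ∑ w ∈ Fm μ U f 𝒜 W, (rm μ (cl U f W) y w : ℚ) / rB μ (cl U f W) (BB U f 𝒜) w := by
    unfold Nm Fm
    exact (Finset.sum_filter_add_sum_filter_not _ _ _).symm
  have h2 : (rr μ (cl U f W) (Nm μ U f 𝒜 W) y : ℚ) / (2 * b) ≤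
      ∑ w ∈ Nm μ U f 𝒜 W, (rm μ (cl U f W) y w : ℚ) / rB μ (cl U f W) (BB U f 𝒜) w := by
    unfold rr
    push_cast
    rw [Finset.sum_div]
    refine Finset.sum_le_sum fun w hw => v_div_ge hy fun _ => ?_
    have h3 := cap h hW (Finset.filter_subset _ _ hw)
    have h4 := Dl_nonpos h hw
    have h5 : (rB μ (cl U f W) (BB U f 𝒜) w : ℤ) ≤ 2 * b := by linarith
    exact_mod_cast h5
  have h3 : (rr μ (cl U f W) (Fm μ U f 𝒜 W) y : ℚ) / D ≤
      ∑ w ∈ Fm μ U f 𝒜 W, (rm μ (cl U f W) y w : ℚ) / rB μ (cl U f W) (BB U f 𝒜) w := by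
    unfold rr
    push_cast
    rw [Finset.sum_div]
    exact Finset.sum_le_sum fun w hw => v_div_ge hy fun hp =>
      hcap w (Finset.mem_filter.2 ⟨hw, hp⟩)
  unfold sv
  rw [h1]
  have h4 := mul_le_mul_of_nonneg_left (add_le_add h2 h3) hb0.le
  have h5 : (b : ℚ) * ((rr μ (cl U f W) (Nm μ U f 𝒜 W) y : ℚ) / (2 * b) +
      (rr μ (cl U f W) (Fm μ U f 𝒜 W) y : ℚ) / D) =
      (rr μ (cl U f W) (Nm μ U f 𝒜 W) y : ℚ) / 2 +
      (rr μ (cl U f W) (Fm μ U f 𝒜 W) y : ℚ) * b / D := by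
    field_simp
  rw [h5] at h4
  linarith

/-- a uniform bound for the capacities of all real neighbours -/
theorem v_sv_ge {W : ℕ} {y : V} (hy : y ∈ BB U f 𝒜) {D : ℚ}
    (hcap : ∀ w ∈ cl U f W, 0 < rm μ (cl U f W) y w →
      (rB μ (cl U f W) (BB U f 𝒜) w : ℚ) ≤ D) :
    (b : ℚ) * ((rr μ (cl U f W) (cl U f W) y : ℚ) / D) - 1 ≤ sv μ b U f 𝒜 W y := by
  have h1 : (rr μ (cl U f W) (cl U f W) y : ℚ) / D ≤
      ∑ w ∈ cl U f W, (rm μ (cl U f W) y w : ℚ) / rB μ (cl U f W) (BB U f 𝒜) w := by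
    unfold rr
    push_cast
    rw [Finset.sum_div]
    exact Finset.sum_le_sum fun w hw => v_div_ge hy (hcap w hw)
  unfold sv
  have h2 := mul_le_mul_of_nonneg_left h1 (Nat.cast_nonneg b : (0 : ℚ) ≤ b)
  linarith

/-- two real edges -/
theorem sv_two (h : Setup0 μ s b U f 𝒜 r) {W : ℕ} (hW : W ∈ 𝒜) (hWr : W ≠ r)
    (ht : NoCl (arc μ U f) 𝒜 r {W}) {y : V} (hy : y ∈ BB U f 𝒜)
    (h2 : rr μ (cl U f W) (cl U f W) y = 2) :
    0 ≤ sv μ b U f 𝒜 W y ∧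
    ((EE μ U f 𝒜 y : ℚ) - 1) / (2 * b + 1 - EE μ U f 𝒜 y) ≤ sv μ b U f 𝒜 W y := by
  have hE := EE_bound h hy
  have hb : 1 ≤ b := by omega
  have hb0 : (0 : ℚ) < b := by exact_mod_cast hb
  have hz := (rho_two h hW hWr ht hy h2).2
  have hD : (0 : ℚ) < 2 * b + 1 - EE μ U f 𝒜 y := by
    have : EE μ U f 𝒜 y + 1 ≤ 2 * b := by omega
    have h3 : (EE μ U f 𝒜 y : ℚ) + 1 ≤ 2 * b := by exact_mod_cast this
    linarith
  constructor
  · have h3 := v_sv_ge (μ := μ) (b := b) (W := W) hy (D := 2 * b) (fun w hw hp => by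
      have h4 := cap h hW hw
      have h5 := Dl_nonpos h (hz w hw hp).1
      have h6 : (rB μ (cl U f W) (BB U f 𝒜) w : ℤ) ≤ 2 * b := by linarith
      exact_mod_cast h6)
    rw [h2] at h3
    refine le_trans (le_of_eq ?_) h3
    push_cast
    field_simp
    ring
  · have h3 := v_sv_ge (μ := μ) (b := b) (W := W) hy (D := 2 * b + 1 - EE μ U f 𝒜 y)
      (fun w hw hp => by
        have h4 := swap_bound h hW hWr ht (hz w hw hp).1 hy (hz w hw hp).2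
        have h5 := rB_le_ee h.mg (cl U f W) w (BB U f 𝒜)
        have h6 := h.mg.le_two y w
        have h7 : rB μ (cl U f W) (BB U f 𝒜) w + EE μ U f 𝒜 y ≤ 2 * b + 1 := by omega
        have h8 : (rB μ (cl U f W) (BB U f 𝒜) w : ℚ) + EE μ U f 𝒜 y ≤ 2 * b + 1 := by
          exact_mod_cast h7
        linarith)
    rw [h2] at h3
    refine le_trans (le_of_eq ?_) h3
    push_cast
    field_simp
    ring

end X

end Pool.Agent.H25.EB
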