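import Pool.Agent.H25.EB.Types
import Pool.Agent.H25.EB.Ineq1
import Pool.Agent.H25.EB.Bottleneck
import Pool.Agent.H25.EB.Val
import Pool.Agent.H25.EB.Arith
import Pool.Agent.H25.EB.ArithB

/-!
# Modules CA, CB: the certificates (A') and (B')
-/

set_option autoImplicit false
set_option linter.unusedSectionVars false

namespace Pool.Agent.H25.EB

open Finset Pool.Agent.H25.EA

variable {V : Type*} [DecidableEq V] {μ : V → V → ℕ} {s b : ℕ} {U : Finset V} {f : V → ℕ}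
  {𝒜 : Finset ℕ} {r : ℕ} {J : Finset ℕ} {Q : ℕ}

theorem k_mem_cl {W : ℕ} {y w : V} (hw : w ∈ Tn0 μ U f 𝒜 W y) : w ∈ cl U f W :=
  (mem_filter.1 (mem_filter.1 hw).1).1

theorem k_cap (h : Setup0 μ s b U f 𝒜 r) {W : ℕ} (hW : W ∈ 𝒜) {w : V} (hw : w ∈ cl U f W)
    {τ : ℕ} (hτ : (tg μ U f 𝒜 w).card ≤ τ) :
    (rB μ (cl U f W) (BB U f 𝒜) w : ℚ) ≤ 2 * b + 2 * τ := by
  have h1 := cap h hW hw
  have h2 := Dl_le h (μ := μ) hw
  have h3 : (rB μ (cl U f W) (BB U f 𝒜) w : ℤ) ≤ 2 * b + 2 * τ := by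
    have : ((tg μ U f 𝒜 w).card : ℤ) ≤ τ := by exact_mod_cast hτ
    linarith
  exact_mod_cast h3

theorem k_sv (h : Setup0 μ s b U f 𝒜 r) (hb : 1 ≤ b) {W : ℕ} (hW : W ∈ 𝒜) {y : V}
    (hy : y ∈ BB U f 𝒜) {τ : ℕ}
    (hτ : ∀ w ∈ Tn0 μ U f 𝒜 W y, (tg μ U f 𝒜 w).card ≤ τ) :
    (rr μ (cl U f W) (Nm μ U f 𝒜 W) y : ℚ) / 2 +
      (rr μ (cl U f W) (Fm μ U f 𝒜 W) y : ℚ) * b / (2 * b + 2 * τ) - 1 ≤ sv μ b U f 𝒜 W y := by
  have hb' : (1 : ℚ) ≤ b := by exact_mod_cast hb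
  exact sv_ge h hW hy hb (by positivity) (fun w hw => k_cap h hW (k_mem_cl hw) (hτ w hw))

theorem k_rho (h : Setup0 μ s b U f 𝒜 r) (hb : 1 ≤ b) {W : ℕ} (hW : W ∈ 𝒜) {y : V}
    (hy : y ∈ BB U f 𝒜) {τ : ℕ}
    (hτ : ∀ w ∈ Tn0 μ U f 𝒜 W y, (tg μ U f 𝒜 w).card ≤ τ) {n : ℕ}
    (hn : n ≤ rr μ (cl U f W) (cl U f W) y) :
    (n : ℚ) * b / (2 * b + 2 * τ) - 1 ≤ sv μ b U f 𝒜 W y := by
  have hb' : (1 : ℚ) ≤ b := by exact_mod_cast hb
  have hτ0 : (0 : ℚ) ≤ τ := Nat.cast_nonneg τ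
  have h1 := k_sv h hb hW hy hτ
  have h2 := rho_split (μ := μ) (U := U) (f := f) (𝒜 := 𝒜) W y
  have h3 : (n : ℚ) ≤ rr μ (cl U f W) (Nm μ U f 𝒜 W) y + rr μ (cl U f W) (Fm μ U f 𝒜 W) y := by
    exact_mod_cast (by omega : n ≤ rr μ (cl U f W) (Nm μ U f 𝒜 W) y +
      rr μ (cl U f W) (Fm μ U f 𝒜 W) y)
  have hD : (0 : ℚ) < 2 * b + 2 * τ := by linarith
  have h4 : (rr μ (cl U f W) (Nm μ U f 𝒜 W) y : ℚ) * b / (2 * b + 2 * τ) ≤
      (rr μ (cl U f W) (Nm μ U f 𝒜 W) y : ℚ) / 2 := by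
    rw [div_le_div_iff₀ hD (by norm_num)]
    have h0 : (0 : ℚ) ≤ rr μ (cl U f W) (Nm μ U f 𝒜 W) y := Nat.cast_nonneg _
    nlinarith [mul_nonneg h0 hτ0]
  have h5 : (n : ℚ) * b / (2 * b + 2 * τ) ≤
      (rr μ (cl U f W) (Nm μ U f 𝒜 W) y : ℚ) * b / (2 * b + 2 * τ) +
      (rr μ (cl U f W) (Fm μ U f 𝒜 W) y : ℚ) * b / (2 * b + 2 * τ) := by
    rw [← add_div, ← add_mul]
    apply div_le_div_of_nonneg_right _ hD.le
    exact mul_le_mul_of_nonneg_right h3 (by linarith)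
  linarith

/-- a class with three real edges -/
theorem k_three (h : Setup0 μ s b U f 𝒜 r) (hb : 1 ≤ b) {W : ℕ} (hW : W ∈ 𝒜) (hWr : W ≠ r)
    (ht : NoCl (arc μ U f) 𝒜 r {W}) {y : V} (hy : y ∈ BB U f 𝒜) {k τ : ℕ}
    (hk : ∀ w ∈ Tn0 μ U f 𝒜 W y, (tg μ U f 𝒜 w).card ≤ k)
    (hτ : IsP0 μ U f 𝒜 W y ∨ IsQ0 μ U f 𝒜 W y →
      ∀ w ∈ Tn0 μ U f 𝒜 W y, (tg μ U f 𝒜 w).card ≤ τ)
    (h3 : rr μ (cl U f W) (cl U f W) y = 3) :
    min ((b : ℚ) / (2 * b + 2 * k)) (3 * (b : ℚ) / (2 * b + 2 * τ) - 1) ≤ sv μ b U f 𝒜 W y := by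
  have hb' : (1 : ℚ) ≤ b := by exact_mod_cast hb
  have hk0 : (0 : ℚ) ≤ k := Nat.cast_nonneg k
  have hτ0 : (0 : ℚ) ≤ τ := Nat.cast_nonneg τ
  have hsp := rho_split (μ := μ) (U := U) (f := f) (𝒜 := 𝒜) W y
  have hty := types0 h hW hWr ht hy
  by_cases hn : 2 ≤ rr μ (cl U f W) (Nm μ U f 𝒜 W) y
  · refine (min_le_left _ _).trans ?_
    have h1 := k_sv h hb hW hy hk
    have hD : (0 : ℚ) < 2 * b + 2 * k := by linarith
    have hhalf : (b : ℚ) / (2 * b + 2 * k) ≤ 1 / 2 := by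
      rw [div_le_div_iff₀ hD (by norm_num)]
      linarith
    have hnc : rr μ (cl U f W) (Nm μ U f 𝒜 W) y = 2 ∨ rr μ (cl U f W) (Nm μ U f 𝒜 W) y = 3 := by
      omega
    rcases hnc with h2 | h2
    · have h4 : rr μ (cl U f W) (Fm μ U f 𝒜 W) y = 1 := by omega
      rw [h2, h4] at h1
      push_cast at h1
      norm_num at h1
      linarith
    · have h4 : rr μ (cl U f W) (Fm μ U f 𝒜 W) y = 0 := by omega
      rw [h2, h4] at h1
      push_cast at h1
      norm_num at h1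
      linarith
  · refine (min_le_right _ _).trans ?_
    have hPQ : IsP0 μ U f 𝒜 W y ∨ IsQ0 μ U f 𝒜 W y := by
      unfold IsP0 IsQ0
      omega
    have := k_rho h hb hW hy (hτ hPQ) (n := 3) (by omega)
    push_cast at this
    exact this

/-- the sum over a region -/
theorem k_sum (R : Finset ℕ) (ρ : ℕ → ℕ) (v : ℕ → ℚ) (lam σ κ : ℚ)
    (h2 : ∀ W ∈ R, ρ W = 2 → lam ≤ v W) (h3 : ∀ W ∈ R, ρ W = 3 → σ ≤ v W)
    (h4 : ∀ W ∈ R, 4 ≤ ρ W → -κ ≤ v W) (hρ : ∀ W ∈ R, 2 ≤ ρ W) :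
    ((R.card : ℚ) - (R.filter (fun W => ρ W = 3)).card - (R.filter (fun W => 4 ≤ ρ W)).card) *
      lam + σ * (R.filter (fun W => ρ W = 3)).card - κ * (R.filter (fun W => 4 ≤ ρ W)).card ≤
      ∑ W ∈ R, v W := by
  have h1 : ∀ W ∈ R, lam + (if ρ W = 3 then σ - lam else 0) + (if 4 ≤ ρ W then -κ - lam else 0) ≤
      v W := by
    intro W hW
    have := hρ W hW
    rcases Nat.lt_or_ge (ρ W) 3 with h | h
    · have e : ρ W = 2 := by omega
      rw [if_neg (by omega), if_neg (by omega)]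
      have := h2 W hW e
      linarith
    · rcases Nat.lt_or_ge (ρ W) 4 with h' | h'
      · have e : ρ W = 3 := by omega
        rw [if_pos e, if_neg (by omega)]
        have := h3 W hW e
        linarith
      · rw [if_neg (by omega), if_pos h']
        have := h4 W hW h'
        linarith
  have h5 := sum_le_sum h1
  rw [sum_add_distrib, sum_add_distrib, sum_const, nsmul_eq_mul, ← sum_filter, ← sum_filter,
    sum_const, sum_const, nsmul_eq_mul, nsmul_eq_mul] at h5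
  calc _ = _ := by ring
    _ ≤ _ := h5

/-- the excess of a region -/
theorem k_EE (h : Setup0 μ s b U f 𝒜 r) {R : Finset ℕ} (hR : R ⊆ 𝒜) {y : V}
    (hy : y ∈ BB U f 𝒜) :
    (R.filter (fun W => rr μ (cl U f W) (cl U f W) y = 3)).card +
      2 * (R.filter (fun W => 4 ≤ rr μ (cl U f W) (cl U f W) y)).card ≤
      ∑ W ∈ R, ep μ U f y W := by
  have h1 : ∀ W ∈ R, (if rr μ (cl U f W) (cl U f W) y = 3 then 1 else 0) +
      (if 4 ≤ rr μ (cl U f W) (cl U f W) y then 2 else 0) ≤ ep μ U f y W := by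
    intro W hW
    have := ep_add_two h hy (hR hW)
    split_ifs <;> omega
  have h5 := sum_le_sum h1
  rw [sum_add_distrib, ← sum_filter, ← sum_filter, sum_const, sum_const] at h5
  simp only [smul_eq_mul] at h5
  omega

theorem k_tgJ (hL : Loc (arc μ U f) 𝒜 r J Q) {W : ℕ} (hW : W ∈ J) {w : V} (hw : w ∈ cl U f W) :
    (tg μ U f 𝒜 w).card ≤ J.card := by
  classical
  have hfw : f w = W := (mem_filter.1 hw).2
  have hsub : tg μ U f 𝒜 w ⊆ insert Q (J.erase W) := by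
    intro c hc
    unfold tg at hc
    rw [mem_filter] at hc
    obtain ⟨hc1, hc2, hc3⟩ := hc
    have harc : arc μ U f W c := ⟨fun e => hc2 (by rw [hfw, e]), w, hw, hc3⟩
    rw [mem_insert, mem_erase]
    rcases hL.out W hW c hc1 harc with h1 | h1
    · right
      exact ⟨fun e => hc2 (by rw [hfw, e]), h1⟩
    · left
      exact h1
  calc (tg μ U f 𝒜 w).card ≤ (insert Q (J.erase W)).card := card_le_card hsub
    _ ≤ (J.erase W).card + 1 := card_insert_le _ _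
    _ = J.card := by
      rw [card_erase_of_mem hW]
      have : 0 < J.card := card_pos.2 ⟨W, hW⟩
      omega

theorem k_tgI {I S : Finset ℕ} (hR : Reg (arc μ U f) 𝒜 J I S) {W : ℕ} (hW : W ∈ I) {w : V}
    (hw : w ∈ cl U f W) : tg μ U f 𝒜 w ⊆ (I ∪ S).erase W := by
  classical
  have hfw : f w = W := (mem_filter.1 hw).2
  intro c hc
  unfold tg at hc
  rw [mem_filter] at hc
  obtain ⟨hc1, hc2, hc3⟩ := hc
  have harc : arc μ U f W c := ⟨fun e => hc2 (by rw [hfw, e]), w, hw, hc3⟩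
  exact mem_erase.2 ⟨fun e => hc2 (by rw [hfw, e]), mem_union.2 (hR.out W hW c hc1 harc)⟩

theorem k_tgI_card {I S : Finset ℕ} (hR : Reg (arc μ U f) 𝒜 J I S) {W : ℕ} (hW : W ∈ I) {w : V}
    (hw : w ∈ cl U f W) : (tg μ U f 𝒜 w).card ≤ I.card + 1 := by
  have h1 := card_le_card (k_tgI hR hW hw)
  rw [card_erase_of_mem (mem_union_left _ hW), card_union_of_disjoint hR.disj, hR.cardS] at h1
  omega

theorem k_TS {W : ℕ} {y w : V} (hw : w ∈ Tn0 μ U f 𝒜 W y) :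
    tg μ U f 𝒜 w ⊆ TS0 μ U f 𝒜 W y := fun c hc => mem_biUnion.2 ⟨w, hw, hc⟩

/-- the values for total excess zero -/
theorem k_zero (h : Setup0 μ s b U f 𝒜 r) (hL : Loc (arc μ U f) 𝒜 r J Q) {y : V}
    (hy : y ∈ BB U f 𝒜) (hE : EE μ U f 𝒜 y = 0) {W : ℕ} (hW : W ∈ J) :
    0 ≤ sv μ b U f 𝒜 W y := by
  have h1 := ep_add_two h hy (hL.sub hW)
  have h2 : ep μ U f y W ≤ EE μ U f 𝒜 y :=
    single_le_sum (f := fun W => ep μ U f y W) (fun _ _ => Nat.zero_le _) (hL.sub hW)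
  have h3 := rho_ge_two h hy (hL.sub hW)
  exact (sv_two h (hL.sub hW) (fun e => hL.r_notMem (e ▸ hW)) (hL.term W hW) hy (by omega)).1

/-- the values for total excess one -/
theorem k_one (h : Setup0 μ s b U f 𝒜 r) (hb : 2 ≤ b) (hL : Loc (arc μ U f) 𝒜 r J Q) {y : V}
    (hy : y ∈ BB U f 𝒜) (hE : EE μ U f 𝒜 y = 1) {W : ℕ} (hW : W ∈ J) :
    0 ≤ sv μ b U f 𝒜 W y := by
  have hb' : (2 : ℚ) ≤ b := by exact_mod_cast hb
  have h1 := ep_add_two h hy (hL.sub hW)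
  have h2 : ep μ U f y W ≤ EE μ U f 𝒜 y :=
    single_le_sum (f := fun W => ep μ U f y W) (fun _ _ => Nat.zero_le _) (hL.sub hW)
  have h3 := rho_ge_two h hy (hL.sub hW)
  have hne : W ≠ r := fun e => hL.r_notMem (e ▸ hW)
  rcases Nat.lt_or_ge (rr μ (cl U f W) (cl U f W) y) 3 with h4 | h4
  · exact (sv_two h (hL.sub hW) hne (hL.term W hW) hy (by omega)).1
  · have h5 := k_three h (by omega) (hL.sub hW) hne (hL.term W hW) hy
      (fun w hw => k_tgJ hL hW (k_mem_cl hw)) (τ := 1)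
      (fun hPQ w hw => (card_le_card (k_TS hw)).trans (TS_le_one h hL hW hy hE hPQ)) (by omega)
    refine le_trans ?_ h5
    apply le_min
    · positivity
    · rw [sub_nonneg, le_div_iff₀ (by positivity)]
      push_cast
      linarith

theorem min_choice' (a c : ℚ) : min a c = a ∨ min a c = c := min_choice a c

/-- case (A') -/
theorem certA (h : Setup0 μ s b U f 𝒜 r) (hb : 2 ≤ b) (hL : Loc (arc μ U f) 𝒜 r J Q)
    (hJ : J.card ≤ 2 * b)
    (hclean : ∀ W ∈ J, ∀ y ∈ BB U f 𝒜, IsP0 μ U f 𝒜 W y ∨ IsQ0 μ U f 𝒜 W y →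
      (TS0 μ U f 𝒜 W y).card ≤ 1) : False := by
  have hb' : (2 : ℚ) ≤ b := by exact_mod_cast hb
  have hne : ∀ W ∈ J, W ≠ r := fun W hW e => hL.r_notMem (e ▸ hW)
  have key : ∀ y ∈ BB U f 𝒜, 0 ≤ ∑ W ∈ J, sv μ b U f 𝒜 W y := by
    intro y hy
    rcases Nat.eq_zero_or_pos (EE μ U f 𝒜 y) with hE | hE
    · exact sum_nonneg fun W hW => k_zero h hL hy hE hW
    · have hEb := EE_bound h hy
      have h1 := k_sum J (fun W => rr μ (cl U f W) (cl U f W) y) (fun W => sv μ b U f 𝒜 W y)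
        (((EE μ U f 𝒜 y : ℚ) - 1) / (2 * b + 1 - EE μ U f 𝒜 y))
        (min ((b : ℚ) / (2 * b + 2 * J.card)) (3 * (b : ℚ) / (2 * b + 2 * ((1 : ℕ) : ℚ)) - 1))
        (1 - 4 * (b : ℚ) / (2 * b + 2 * J.card))
        (fun W hW h2 => (sv_two h (hL.sub hW) (hne W hW) (hL.term W hW) hy h2).2)
        (fun W hW h3 => k_three h (by omega) (hL.sub hW) (hne W hW) (hL.term W hW) hy
          (fun w hw => k_tgJ hL hW (k_mem_cl hw)) (τ := 1)
          (fun hPQ w hw => (card_le_card (k_TS hw)).trans (hclean W hW y hy hPQ)) h3)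
        (fun W hW h4 => by
          have := k_rho h (by omega) (hL.sub hW) hy
            (fun w hw => k_tgJ hL hW (k_mem_cl hw)) (n := 4) h4
          push_cast at this
          linarith)
        (fun W hW => rho_ge_two h hy (hL.sub hW))
      refine le_trans ?_ h1
      have h2 := k_EE h hL.sub hy
      have h3 : ∑ W ∈ J, ep μ U f y W ≤ EE μ U f 𝒜 y := by
        unfold EE
        exact sum_le_sum_of_subset hL.sub
      have h4 : (J.filter (fun W => rr μ (cl U f W) (cl U f W) y = 3)).card +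
          (J.filter (fun W => 4 ≤ rr μ (cl U f W) (cl U f W) y)).card ≤ J.card := by
        rw [← card_union_of_disjoint]
        · exact card_le_card (union_subset (filter_subset _ _) (filter_subset _ _))
        · rw [disjoint_left]
          intro W h1 h2
          have := (mem_filter.1 h1).2
          have := (mem_filter.1 h2).2
          omega
      apply arithA hb hJ h4 (h2.trans h3) hE (by omega)
      rcases min_choice' ((b : ℚ) / (2 * b + 2 * J.card))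
        (3 * (b : ℚ) / (2 * b + 2 * ((1 : ℕ) : ℚ)) - 1) with h5 | h5
      · left; rw [h5]
      · right; rw [h5]; push_cast; rfl
  have h1 : 0 ≤ ∑ y ∈ BB U f 𝒜, ∑ W ∈ J, sv μ b U f 𝒜 W y := sum_nonneg key
  rw [sum_comm] at h1
  have h2 : ∑ W ∈ J, ∑ y ∈ BB U f 𝒜, sv μ b U f 𝒜 W y ≤ ∑ W ∈ J, (-1 : ℚ) :=
    sum_le_sum fun W hW => sum_sv_le h (hL.sub hW) (hne W hW)
  rw [sum_const, nsmul_eq_mul] at h2
  have h3 : (1 : ℚ) ≤ J.card := by
    exact_mod_cast card_pos.2 hL.nonempty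
  linarith

/-- case (B') -/
theorem certB (h : Setup0 μ s b U f 𝒜 r) (hb : 2 ≤ b) (hL : Loc (arc μ U f) 𝒜 r J Q)
    (hJ : J.card ≤ 2 * b) {I S : Finset ℕ} (hR : Reg (arc μ U f) 𝒜 J I S) (hI : b ≤ I.card)
    (hclean : (∀ W ∈ I, ∀ y ∈ BB U f 𝒜, IsP0 μ U f 𝒜 W y ∨ IsQ0 μ U f 𝒜 W y →
      (TS0 μ U f 𝒜 W y).card ≤ 1) ∨
      (b + 2 ≤ I.card ∧ ∀ W ∈ I, ∀ y ∈ BB U f 𝒜, IsP0 μ U f 𝒜 W y ∨ IsQ0 μ U f 𝒜 W y →
      (TS0 μ U f 𝒜 W y).card ≤ 1 ∨ TS0 μ U f 𝒜 W y ⊆ S)) : False := by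
  have hb' : (2 : ℚ) ≤ b := by exact_mod_cast hb
  have hne : ∀ W ∈ J, W ≠ r := fun W hW e => hL.r_notMem (e ▸ hW)
  have hIS : I.card + 2 ≤ J.card := by
    rw [← hR.cardS, ← card_union_of_disjoint hR.disj]
    exact card_le_card (union_subset hR.I_sub hR.S_sub)
  -- the parameter tau
  obtain ⟨τ, hτ, hτc⟩ : ∃ τ : ℕ, (τ = 1 ∨ (b + 2 ≤ I.card ∧ τ = 2)) ∧
      ∀ W ∈ I, ∀ y ∈ BB U f 𝒜, IsP0 μ U f 𝒜 W y ∨ IsQ0 μ U f 𝒜 W y →
        ∀ w ∈ Tn0 μ U f 𝒜 W y, (tg μ U f 𝒜 w).card ≤ τ := by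
    rcases hclean with hc | ⟨hI2, hc⟩
    · exact ⟨1, Or.inl rfl, fun W hW y hy hPQ w hw =>
        (card_le_card (k_TS hw)).trans (hc W hW y hy hPQ)⟩
    · refine ⟨2, Or.inr ⟨hI2, rfl⟩, fun W hW y hy hPQ w hw => ?_⟩
      rcases hc W hW y hy hPQ with h1 | h1
      · exact (card_le_card (k_TS hw)).trans (h1.trans (by omega))
      · exact (card_le_card ((k_TS hw).trans h1)).trans hR.cardS.le
  have key : ∀ y ∈ BB U f 𝒜, 0 ≤ ∑ W ∈ I, sv μ b U f 𝒜 W y +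
      1 / 4 * ∑ W ∈ S, sv μ b U f 𝒜 W y := by
    intro y hy
    have hEb := EE_bound h hy
    have hEcase : EE μ U f 𝒜 y = 0 ∨ EE μ U f 𝒜 y = 1 ∨ 2 ≤ EE μ U f 𝒜 y := by omega
    rcases hEcase with hE | hE | hE
    · have h1 : 0 ≤ ∑ W ∈ I, sv μ b U f 𝒜 W y :=
        sum_nonneg fun W hW => k_zero h hL hy hE (hR.I_sub hW)
      have h2 : 0 ≤ ∑ W ∈ S, sv μ b U f 𝒜 W y :=
        sum_nonneg fun W hW => k_zero h hL hy hE (hR.S_sub hW)
      linarith
    · have h1 : 0 ≤ ∑ W ∈ I, sv μ b U f 𝒜 W y :=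
        sum_nonneg fun W hW => k_one h hb hL hy hE (hR.I_sub hW)
      have h2 : 0 ≤ ∑ W ∈ S, sv μ b U f 𝒜 W y :=
        sum_nonneg fun W hW => k_one h hb hL hy hE (hR.S_sub hW)
      linarith
    · set l : ℚ := ((EE μ U f 𝒜 y : ℚ) - 1) / (2 * b + 1 - EE μ U f 𝒜 y) with hl
      have h1 := k_sum I (fun W => rr μ (cl U f W) (cl U f W) y) (fun W => sv μ b U f 𝒜 W y)
        l (min ((b : ℚ) / (2 * b + 2 * ((I.card + 1 : ℕ) : ℚ)))
          (3 * (b : ℚ) / (2 * b + 2 * (τ : ℚ)) - 1))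
        (1 - 4 * (b : ℚ) / (2 * b + 2 * ((I.card + 1 : ℕ) : ℚ)))
        (fun W hW h2 => (sv_two h (hL.sub (hR.I_sub hW)) (hne W (hR.I_sub hW))
          (hL.term W (hR.I_sub hW)) hy h2).2)
        (fun W hW h3 => k_three h (by omega) (hL.sub (hR.I_sub hW)) (hne W (hR.I_sub hW))
          (hL.term W (hR.I_sub hW)) hy (fun w hw => k_tgI_card hR hW (k_mem_cl hw))
          (fun hPQ w hw => hτc W hW y hy hPQ w hw) h3)
        (fun W hW h4 => by
          have := k_rho h (by omega) (hL.sub (hR.I_sub hW)) hy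
            (fun w hw => k_tgI_card hR hW (k_mem_cl hw)) (n := 4) h4
          push_cast at this ⊢
          linarith)
        (fun W hW => rho_ge_two h hy (hL.sub (hR.I_sub hW)))
      -- the classes of S
      have hS1 : ∀ W ∈ S, (if 3 ≤ rr μ (cl U f W) (cl U f W) y then (-(1 / 2) : ℚ) else l) ≤
          sv μ b U f 𝒜 W y := by
        intro W hW
        have hWJ := hR.S_sub hW
        split_ifs with h3
        · have h5 := k_rho h (by omega) (hL.sub hWJ) hy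
            (fun w hw => (k_tgJ hL hWJ (k_mem_cl hw)).trans hJ) (n := 3) h3
          have h6 : (((3 : ℕ) : ℚ) * b / (2 * b + 2 * ((2 * b : ℕ) : ℚ))) = 1 / 2 := by
            push_cast
            field_simp
            ring
          rw [h6] at h5
          linarith
        · have h4 := rho_ge_two h hy (hL.sub hWJ)
          exact (sv_two h (hL.sub hWJ) (hne W hWJ) (hL.term W hWJ) hy (by omega)).2
      have hS2 := sum_le_sum hS1
      set j : ℕ := (S.filter (fun W => 3 ≤ rr μ (cl U f W) (cl U f W) y)).card with hj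
      have hS3 : ∑ W ∈ S, (if 3 ≤ rr μ (cl U f W) (cl U f W) y then (-(1 / 2) : ℚ) else l) =
          (2 - j) * l - j * (1 / 2) := by
        rw [sum_ite, sum_const, sum_const, nsmul_eq_mul, nsmul_eq_mul, ← hj]
        have h5 : (S.filter (fun W => ¬ 3 ≤ rr μ (cl U f W) (cl U f W) y)).card + j = 2 := by
          rw [hj, ← hR.cardS, add_comm]
          exact card_filter_add_card_filter_not _
        have h6 : ((S.filter (fun W => ¬ 3 ≤ rr μ (cl U f W) (cl U f W) y)).card : ℚ) = 2 - j := by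
          rw [eq_sub_iff_add_eq]
          exact_mod_cast h5
        rw [h6]
        ring
      rw [hS3] at hS2
      -- excess
      have hEI := k_EE h (hR.I_sub.trans hL.sub) hy
      have hES : j ≤ ∑ W ∈ S, ep μ U f y W := by
        rw [hj, card_eq_sum_ones, sum_filter]
        apply sum_le_sum
        intro W hW
        have := ep_add_two h hy (hL.sub (hR.S_sub hW))
        split_ifs <;> omega
      have hEsum : ∑ W ∈ I, ep μ U f y W + ∑ W ∈ S, ep μ U f y W ≤ EE μ U f 𝒜 y := by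
        rw [← sum_union hR.disj]
        unfold EE
        exact sum_le_sum_of_subset (union_subset (hR.I_sub.trans hL.sub) (hR.S_sub.trans hL.sub))
      have h4 : (I.filter (fun W => rr μ (cl U f W) (cl U f W) y = 3)).card +
          (I.filter (fun W => 4 ≤ rr μ (cl U f W) (cl U f W) y)).card ≤ I.card := by
        rw [← card_union_of_disjoint]
        · exact card_le_card (union_subset (filter_subset _ _) (filter_subset _ _))
        · rw [disjoint_left]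
          intro W h1 h2
          have := (mem_filter.1 h1).2
          have := (mem_filter.1 h2).2
          omega
      have hj2 : j ≤ 2 := by
        rw [hj, ← hR.cardS]
        exact card_le_card (filter_subset _ _)
      have h7 := arithB (b := b) (t := I.card)
        (x := (I.filter (fun W => rr μ (cl U f W) (cl U f W) y = 3)).card)
        (z := (I.filter (fun W => 4 ≤ rr μ (cl U f W) (cl U f W) y)).card)
        (E := EE μ U f 𝒜 y) (j := j)
        (σ := min ((b : ℚ) / (2 * b + 2 * ((I.card + 1 : ℕ) : ℚ)))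
          (3 * (b : ℚ) / (2 * b + 2 * (τ : ℚ)) - 1))
        hb hI (by omega) h4 (by omega) hE (by omega) hj2 (by
          rcases min_choice' ((b : ℚ) / (2 * b + 2 * ((I.card + 1 : ℕ) : ℚ)))
            (3 * (b : ℚ) / (2 * b + 2 * (τ : ℚ)) - 1) with h5 | h5
          · left; rw [h5]; push_cast; rfl
          · right
            rw [h5]
            rcases hτ with h6 | ⟨h6, h8⟩
            · left; rw [h6]; push_cast; rfl
            · right; refine ⟨h6, ?_⟩; rw [h8]; push_cast; rfl)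
      rw [← hl] at h7
      push_cast at h7 h1 ⊢
      linarith
  have h1 : 0 ≤ ∑ y ∈ BB U f 𝒜, (∑ W ∈ I, sv μ b U f 𝒜 W y +
      1 / 4 * ∑ W ∈ S, sv μ b U f 𝒜 W y) := sum_nonneg key
  rw [sum_add_distrib, ← mul_sum, sum_comm, sum_comm (s := BB U f 𝒜) (t := S)] at h1
  have h2 : ∑ W ∈ I, ∑ y ∈ BB U f 𝒜, sv μ b U f 𝒜 W y ≤ ∑ W ∈ I, (-1 : ℚ) :=
    sum_le_sum fun W hW => sum_sv_le h (hL.sub (hR.I_sub hW)) (hne W (hR.I_sub hW))
  have h3 : ∑ W ∈ S, ∑ y ∈ BB U f 𝒜, sv μ b U f 𝒜 W y ≤ ∑ W ∈ S, (-1 : ℚ) :=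
    sum_le_sum fun W hW => sum_sv_le h (hL.sub (hR.S_sub hW)) (hne W (hR.S_sub hW))
  rw [sum_const, nsmul_eq_mul] at h2 h3
  have h4 : (1 : ℚ) ≤ I.card := by
    exact_mod_cast card_pos.2 hR.nonempty
  rw [hR.cardS] at h3
  push_cast at h3
  linarith

end Pool.Agent.H25.EB
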