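import Pool.Agent.H25.EB.Defs
import Pool.Agent.H25.EB.Bottleneck
import Pool.Agent.H25.EB.Ineq1
import Pool.Agent.H25.EB.Types
import Pool.Agent.H25.EB.Val

/-!
# Module CL: the certificate in case (L): many classes
-/

set_option autoImplicit false

namespace Pool.Agent.H25.EB

open Finset Pool.Agent.H25.EA

variable {V : Type*} [DecidableEq V]

section X
variable {μ : V → V → ℕ} {s b : ℕ} {U : Finset V} {f : V → ℕ} {𝒜 : Finset ℕ} {r : ℕ}
  {J : Finset ℕ} {Q : ℕ}


/-- the arithmetic of `certL` for `E ≥ 3` -/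
theorem certL_arith {b t E m : ℚ} (hb : 2 ≤ b) (ht : 2 * b + 1 ≤ t) (hE : 3 ≤ E)
    (hE2 : E + 1 ≤ 2 * b) (hm0 : 0 ≤ m) (hm : m ≤ E) :
    0 ≤ (t - m) * ((E - 1) / (2 * b + 1 - E)) + m * (3 * b / (2 * b + 2 * t) - 1) := by
  have hu : 0 < 2 * b + 1 - E := by linarith
  have hD : 0 < 2 * b + 2 * t := by linarith
  have hbase : 0 ≤ (t - E) * ((E - 1) / (2 * b + 1 - E)) + E * (3 * b / (2 * b + 2 * t) - 1) := by
    have e1 : (t - E) * ((E - 1) / (2 * b + 1 - E)) + E * (3 * b / (2 * b + 2 * t) - 1) =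
        ((t - E) * (E - 1) * (2 * b + 2 * t) - E * (2 * t - b) * (2 * b + 1 - E)) /
          ((2 * b + 1 - E) * (2 * b + 2 * t)) := by
      have hne : (2 * b + 1 - E) * (2 * b + 2 * t) ≠ 0 := mul_ne_zero hu.ne' hD.ne'
      rw [eq_div_iff hne]
      have a1 : (E - 1) / (2 * b + 1 - E) * (2 * b + 1 - E) = E - 1 := div_mul_cancel₀ _ hu.ne'
      have a2 : 3 * b / (2 * b + 2 * t) * (2 * b + 2 * t) = 3 * b := div_mul_cancel₀ _ hD.ne'
      linear_combination (t - E) * (2 * b + 2 * t) * a1 + E * (2 * b + 1 - E) * a2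
    rw [e1]
    apply div_nonneg _ (by positivity)
    set d : ℚ := t - (2 * b + 1) with hd
    set u : ℚ := 2 * b + 1 - E with hu'
    have hd0 : 0 ≤ d := by linarith
    have e2 : (t - E) * (E - 1) * (2 * b + 2 * t) - E * (2 * t - b) * u =
        u * (3 * b * E - 6 * b - 2) + d * ((E - 1) * (6 * b + 2) - 2 * u)
          + 2 * d ^ 2 * (E - 1) := by
      have : t = d + (2 * b + 1) := by rw [hd]; ring
      rw [this, hu']
      ring
    rw [e2]
    have h1 : 0 ≤ 3 * b * E - 6 * b - 2 := by nlinarith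
    have h2 : 0 ≤ (E - 1) * (6 * b + 2) - 2 * u := by
      have : 2 * (6 * b + 2) ≤ (E - 1) * (6 * b + 2) := by
        apply mul_le_mul_of_nonneg_right <;> linarith
      linarith
    have h3 : 0 ≤ u * (3 * b * E - 6 * b - 2) := mul_nonneg hu.le h1
    have h4 : 0 ≤ d * ((E - 1) * (6 * b + 2) - 2 * u) := mul_nonneg hd0 h2
    have h5 : 0 ≤ 2 * d ^ 2 * (E - 1) := mul_nonneg (by positivity) (by linarith)
    linarith
  have hlam : 0 ≤ (E - 1) / (2 * b + 1 - E) := div_nonneg (by linarith) hu.le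
  have hneg : 3 * b / (2 * b + 2 * t) - 1 ≤ 0 := by
    rw [sub_nonpos, div_le_one hD]
    linarith
  have e3 : (t - m) * ((E - 1) / (2 * b + 1 - E)) + m * (3 * b / (2 * b + 2 * t) - 1) =
      (t - E) * ((E - 1) / (2 * b + 1 - E)) + E * (3 * b / (2 * b + 2 * t) - 1) +
      (E - m) * ((E - 1) / (2 * b + 1 - E) + -(3 * b / (2 * b + 2 * t) - 1)) := by ring
  rw [e3]
  have : 0 ≤ (E - m) * ((E - 1) / (2 * b + 1 - E) + -(3 * b / (2 * b + 2 * t) - 1)) :=
    mul_nonneg (by linarith) (by linarith)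
  linarith

/-- case (L): many classes -/
theorem certL (h : Setup0 μ s b U f 𝒜 r) (hb : 2 ≤ b) (hL : Loc (arc μ U f) 𝒜 r J Q)
    (hJ : 2 * b + 1 ≤ J.card) : False := by
  classical
  have hbq : (2 : ℚ) ≤ b := by exact_mod_cast hb
  have hJq : 2 * (b : ℚ) + 1 ≤ (J.card : ℚ) := by exact_mod_cast hJ
  have hne : ∀ W ∈ J, W ≠ r := fun W hW e => hL.r_notMem (e ▸ hW)
  -- targets
  have htg : ∀ W ∈ J, ∀ w ∈ cl U f W, (tg μ U f 𝒜 w).card ≤ J.card := by
    intro W hW w hw
    have hfw : f w = W := (mem_filter.1 hw).2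
    have hsub : tg μ U f 𝒜 w ⊆ insert Q (J.erase W) := by
      intro c hc
      unfold tg at hc
      rw [mem_filter] at hc
      obtain ⟨hc1, hc2, hc3⟩ := hc
      have harc : arc μ U f W c := ⟨fun e => hc2 (by rw [hfw, e]), w, hw, hc3⟩
      rw [mem_insert, mem_erase]
      rcases hL.out W hW c hc1 harc with h1 | h1
      · right
        exact ⟨fun e => hc2 (by rw [hfw, e]), h1⟩
      · left
        exact h1
    calc (tg μ U f 𝒜 w).card ≤ (insert Q (J.erase W)).card := card_le_card hsub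
      _ ≤ (J.erase W).card + 1 := card_insert_le _ _
      _ = J.card := by
        rw [card_erase_of_mem hW]
        have : 0 < J.card := card_pos.2 ⟨W, hW⟩
        omega
  have hcapτ : ∀ W ∈ J, ∀ w ∈ cl U f W, ∀ τ : ℕ, (tg μ U f 𝒜 w).card ≤ τ →
      (rB μ (cl U f W) (BB U f 𝒜) w : ℚ) ≤ 2 * b + 2 * τ := by
    intro W hW w hw τ hτ
    have h1 := cap h (hL.sub hW) hw
    have h2 := Dl_le h (μ := μ) hw
    have h3 : (rB μ (cl U f W) (BB U f 𝒜) w : ℤ) ≤ 2 * b + 2 * τ := by
      have : ((tg μ U f 𝒜 w).card : ℤ) ≤ τ := by exact_mod_cast hτ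
      linarith
    exact_mod_cast h3
  have hTn : ∀ W y, ∀ w ∈ Tn0 μ U f 𝒜 W y, w ∈ cl U f W := by
    intro W y w hw
    exact (mem_filter.1 (mem_filter.1 hw).1).1
  -- general lower bounds
  have hsvτ : ∀ W ∈ J, ∀ y ∈ BB U f 𝒜, ∀ τ : ℕ,
      (∀ w ∈ Tn0 μ U f 𝒜 W y, (tg μ U f 𝒜 w).card ≤ τ) →
      (rr μ (cl U f W) (Nm μ U f 𝒜 W) y : ℚ) / 2 +
      (rr μ (cl U f W) (Fm μ U f 𝒜 W) y : ℚ) * b / (2 * b + 2 * τ) - 1
        ≤ sv μ b U f 𝒜 W y := by
    intro W hW y hy τ hτ
    apply sv_ge h (hL.sub hW) hy (by omega) (by positivity)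
    intro w hw
    exact hcapτ W hW w (hTn W y w hw) τ (hτ w hw)
  have hsvJ : ∀ W ∈ J, ∀ y ∈ BB U f 𝒜, (rr μ (cl U f W) (cl U f W) y : ℚ) * b /
      (2 * b + 2 * J.card) - 1 ≤ sv μ b U f 𝒜 W y := by
    intro W hW y hy
    have h1 := hsvτ W hW y hy J.card (fun w hw => htg W hW w (hTn W y w hw))
    have h2 := rho_split (μ := μ) (U := U) (f := f) (𝒜 := 𝒜) W y
    have h3 : (rr μ (cl U f W) (cl U f W) y : ℚ) = rr μ (cl U f W) (Nm μ U f 𝒜 W) y +
      rr μ (cl U f W) (Fm μ U f 𝒜 W) y := by exact_mod_cast h2.symm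
    have hD : (0 : ℚ) < 2 * b + 2 * J.card := by linarith
    have h4 : (rr μ (cl U f W) (Nm μ U f 𝒜 W) y : ℚ) * b / (2 * b + 2 * J.card) ≤
        (rr μ (cl U f W) (Nm μ U f 𝒜 W) y : ℚ) / 2 := by
      rw [div_le_div_iff₀ hD (by norm_num)]
      have h0 : (0 : ℚ) ≤ rr μ (cl U f W) (Nm μ U f 𝒜 W) y := Nat.cast_nonneg _
      have h00 : (0 : ℚ) ≤ J.card := Nat.cast_nonneg _
      nlinarith [mul_nonneg h0 h00]
    rw [h3, add_mul, add_div]
    linarith
  have hsvneg : ∀ W ∈ J, ∀ y ∈ BB U f 𝒜, -1 ≤ sv μ b U f 𝒜 W y := by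
    intro W hW y hy
    have h1 := hsvJ W hW y hy
    have h2 : (0 : ℚ) ≤ (rr μ (cl U f W) (cl U f W) y : ℚ) * b / (2 * b + 2 * J.card) := by
      positivity
    linarith
  have hsvn : ∀ W ∈ J, ∀ y ∈ BB U f 𝒜, 2 ≤ rr μ (cl U f W) (Nm μ U f 𝒜 W) y →
      0 ≤ sv μ b U f 𝒜 W y := by
    intro W hW y hy hn
    have h1 := hsvτ W hW y hy J.card (fun w hw => htg W hW w (hTn W y w hw))
    have h2 : (0 : ℚ) ≤ (rr μ (cl U f W) (Fm μ U f 𝒜 W) y : ℚ) * b / (2 * b + 2 * J.card) := by
      positivity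
    have h3 : (2 : ℚ) ≤ rr μ (cl U f W) (Nm μ U f 𝒜 W) y := by exact_mod_cast hn
    linarith
  have hPQ1 : ∀ W ∈ J, ∀ y ∈ BB U f 𝒜, (IsP0 μ U f 𝒜 W y ∨ IsQ0 μ U f 𝒜 W y) →
      (TS0 μ U f 𝒜 W y).card ≤ 1 → 0 ≤ sv μ b U f 𝒜 W y := by
    intro W hW y hy hPQ hTS
    have h1 := hsvτ W hW y hy 1 (fun w hw => by
      refine (card_le_card ?_).trans hTS
      intro c hc
      unfold TS0
      rw [mem_biUnion]
      exact ⟨w, hw, hc⟩)
    rcases hPQ with hP | hQ
    · unfold IsP0 at hP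
      rw [hP.1, hP.2] at h1
      have h2 : (1 : ℚ) ≤ 3 * b / (2 * b + 2) := by
        rw [le_div_iff₀ (by linarith)]
        linarith
      push_cast at h1
      norm_num at h1
      linarith
    · unfold IsQ0 at hQ
      rw [hQ.1, hQ.2] at h1
      have h2 : (1 / 2 : ℚ) ≤ 2 * b / (2 * b + 2) := by
        rw [le_div_iff₀ (by linarith)]
        linarith
      push_cast at h1
      norm_num at h1
      linarith
  have hPQ2 : ∀ W ∈ J, ∀ y ∈ BB U f 𝒜, (IsP0 μ U f 𝒜 W y ∨ IsQ0 μ U f 𝒜 W y) →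
      (∀ w ∈ Tn0 μ U f 𝒜 W y, (tg μ U f 𝒜 w).card ≤ 2) → -(1 / 2) ≤ sv μ b U f 𝒜 W y := by
    intro W hW y hy hPQ hT
    have h1 := hsvτ W hW y hy 2 hT
    rcases hPQ with hP | hQ
    · unfold IsP0 at hP
      rw [hP.1, hP.2] at h1
      have h2 : (1 / 2 : ℚ) ≤ 3 * b / (2 * b + 4) := by
        rw [le_div_iff₀ (by linarith)]
        linarith
      push_cast at h1
      norm_num at h1
      linarith
    · unfold IsQ0 at hQ
      rw [hQ.1, hQ.2] at h1
      have h2 : (0 : ℚ) ≤ 2 * b / (2 * b + 4) := by positivity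
      push_cast at h1
      norm_num at h1
      linarith
  have htypes : ∀ W ∈ J, ∀ y ∈ BB U f 𝒜, rr μ (cl U f W) (cl U f W) y = 3 →
      2 ≤ rr μ (cl U f W) (Nm μ U f 𝒜 W) y ∨ (IsP0 μ U f 𝒜 W y ∨ IsQ0 μ U f 𝒜 W y) := by
    intro W hW y hy h3
    have h1 := types0 h (hL.sub hW) (hne W hW) (hL.term W hW) hy
    have h2 := rho_split (μ := μ) (U := U) (f := f) (𝒜 := 𝒜) W y
    unfold IsP0 IsQ0
    omega
  -- the key inequality
  have key : ∀ y ∈ BB U f 𝒜, 0 ≤ ∑ W ∈ J, sv μ b U f 𝒜 W y := by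
    intro y hy
    have hEb := EE_bound h hy
    set E : ℕ := EE μ U f 𝒜 y with hE
    set M : Finset ℕ := J.filter (fun W => 3 ≤ rr μ (cl U f W) (cl U f W) y) with hM
    have hMep : ∀ W ∈ M, 1 ≤ ep μ U f y W := by
      intro W hW
      rw [hM, mem_filter] at hW
      have h1 := ep_add_two h hy (hL.sub hW.1)
      omega
    have hMsum : ∑ W ∈ M, ep μ U f y W ≤ E := by
      rw [hE]
      unfold EE
      apply sum_le_sum_of_subset
      exact (filter_subset _ _).trans hL.sub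
    have hMcard : M.card ≤ E := by
      calc M.card = ∑ W ∈ M, 1 := by simp
        _ ≤ ∑ W ∈ M, ep μ U f y W := sum_le_sum hMep
        _ ≤ E := hMsum
    have hother : ∀ W ∈ J, W ∉ M → rr μ (cl U f W) (cl U f W) y = 2 := by
      intro W hW hWM
      have h1 := rho_ge_two h hy (hL.sub hW)
      rw [hM, mem_filter, not_and, not_le] at hWM
      have h2 := hWM hW
      omega
    have hMJ : M ⊆ J := filter_subset _ _
    have hsplit : ∑ W ∈ J, sv μ b U f 𝒜 W y =
        ∑ W ∈ J \ M, sv μ b U f 𝒜 W y + ∑ W ∈ M, sv μ b U f 𝒜 W y :=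
      (sum_sdiff hMJ).symm
    have hcardq : ((J \ M).card : ℚ) = J.card - M.card := by
      rw [card_sdiff_of_subset hMJ, Nat.cast_sub (card_le_card hMJ)]
    have hout : ((J.card : ℚ) - M.card) * (((E : ℚ) - 1) / (2 * b + 1 - E)) ≤
        ∑ W ∈ J \ M, sv μ b U f 𝒜 W y := by
      rw [← hcardq, ← nsmul_eq_mul]
      apply card_nsmul_le_sum
      intro W hW
      rw [mem_sdiff] at hW
      exact (sv_two h (hL.sub hW.1) (hne W hW.1) (hL.term W hW.1) hy (hother W hW.1 hW.2)).2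
    have hEq : (E : ℚ) + 1 ≤ 2 * b := by
      have : E + 1 ≤ 2 * b := by omega
      exact_mod_cast this
    rcases Nat.lt_or_ge E 3 with hE3 | hE3
    · interval_cases hEv : E
      · -- E = 0
        have hM0 : M = ∅ := card_eq_zero.1 (by omega)
        apply sum_nonneg
        intro W hW
        exact (sv_two h (hL.sub hW) (hne W hW) (hL.term W hW) hy
          (hother W hW (by rw [hM0]; exact notMem_empty _))).1
      · -- E = 1
        apply sum_nonneg
        intro W hW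
        by_cases hWM : W ∈ M
        · have h1 := ep_add_two h hy (hL.sub hW)
          have h2 : ep μ U f y W ≤ 1 :=
            (single_le_sum (f := fun W => ep μ U f y W) (fun _ _ => Nat.zero_le _) hWM).trans hMsum
          have h3 : rr μ (cl U f W) (cl U f W) y = 3 := by
            rw [hM, mem_filter] at hWM
            omega
          rcases htypes W hW y hy h3 with h4 | h4
          · exact hsvn W hW y hy h4
          · exact hPQ1 W hW y hy h4 (TS_le_one h hL hW hy hE.symm h4)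
        · exact (sv_two h (hL.sub hW) (hne W hW) (hL.term W hW) hy (hother W hW hWM)).1
      · -- E = 2
        have hlam : (((2 : ℕ) : ℚ) - 1) / (2 * b + 1 - ((2 : ℕ) : ℚ)) = 1 / (2 * b - 1) := by
          push_cast
          congr 1 <;> ring
        rw [hlam] at hout
        have hpos : (0 : ℚ) < 2 * b - 1 := by linarith
        -- it is enough to bound the sum over M by -1
        have hfin : -1 ≤ ∑ W ∈ M, sv μ b U f 𝒜 W y → 0 ≤ ∑ W ∈ J, sv μ b U f 𝒜 W y := by
          intro hm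
          rw [hsplit]
          have h1 : (1 : ℚ) ≤ ((J.card : ℚ) - M.card) * (1 / (2 * b - 1)) := by
            rw [mul_one_div, le_div_iff₀ hpos]
            have : (M.card : ℚ) ≤ 2 := by exact_mod_cast hMcard
            linarith
          linarith
        apply hfin
        rcases Nat.lt_or_ge M.card 2 with hm | hm
        · have h1 : (M.card : ℚ) * (-1) ≤ ∑ W ∈ M, sv μ b U f 𝒜 W y := by
            rw [← nsmul_eq_mul]
            exact card_nsmul_le_sum _ _ _ (fun W hW => hsvneg W (hMJ hW) y hy)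
          have h2 : (M.card : ℚ) ≤ 1 := by
            have : M.card ≤ 1 := by omega
            exact_mod_cast this
          linarith
        · have hm2 : M.card = 2 := by omega
          obtain ⟨W₁, W₂, h12, hM12⟩ := card_eq_two.1 hm2
          have hW1 : W₁ ∈ M := by rw [hM12]; simp
          have hW2 : W₂ ∈ M := by rw [hM12]; simp
          have hs : ep μ U f y W₁ + ep μ U f y W₂ ≤ 2 := by
            have := hMsum
            rw [hM12, sum_pair h12] at this
            exact this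
          have g1 := hMep W₁ hW1
          have g2 := hMep W₂ hW2
          have r1 : rr μ (cl U f W₁) (cl U f W₁) y = 3 := by
            have e1 := ep_add_two h hy (hL.sub (hMJ hW1))
            have e2 := (mem_filter.1 hW1).2
            omega
          have r2 : rr μ (cl U f W₂) (cl U f W₂) y = 3 := by
            have e1 := ep_add_two h hy (hL.sub (hMJ hW2))
            have e2 := (mem_filter.1 hW2).2
            omega
          rw [hM12, sum_pair h12]
          have n1 := hsvneg W₁ (hMJ hW1) y hy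
          have n2 := hsvneg W₂ (hMJ hW2) y hy
          rcases htypes W₁ (hMJ hW1) y hy r1 with t1 | t1
          · have := hsvn W₁ (hMJ hW1) y hy t1
            linarith
          rcases htypes W₂ (hMJ hW2) y hy r2 with t2 | t2
          · have := hsvn W₂ (hMJ hW2) y hy t2
            linarith
          rcases Nat.lt_or_ge (TS0 μ U f 𝒜 W₁ y).card 2 with c1 | c1
          · have := hPQ1 W₁ (hMJ hW1) y hy t1 (by omega)
            linarith
          rcases Nat.lt_or_ge (TS0 μ U f 𝒜 W₂ y).card 2 with c2 | c2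
          · have := hPQ1 W₂ (hMJ hW2) y hy t2 (by omega)
            linarith
          have v1 := hPQ2 W₁ (hMJ hW1) y hy t1
            (tg_le_two h hL (hMJ hW1) (hMJ hW2) h12 hy hE.symm t1 t2 c2)
          have v2 := hPQ2 W₂ (hMJ hW2) y hy t2
            (tg_le_two h hL (hMJ hW2) (hMJ hW1) h12.symm hy hE.symm t2 t1 c1)
          linarith
    · -- E ≥ 3
      have hin : (M.card : ℚ) * (3 * b / (2 * b + 2 * J.card) - 1) ≤
          ∑ W ∈ M, sv μ b U f 𝒜 W y := by
        rw [← nsmul_eq_mul]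
        apply card_nsmul_le_sum
        intro W hW
        refine le_trans ?_ (hsvJ W (hMJ hW) y hy)
        have h3 : (3 : ℚ) ≤ rr μ (cl U f W) (cl U f W) y := by
          exact_mod_cast (mem_filter.1 hW).2
        have hD : (0 : ℚ) < 2 * b + 2 * J.card := by linarith
        have hb0 : (0 : ℚ) ≤ b := by linarith
        have : 3 * (b : ℚ) / (2 * b + 2 * J.card) ≤
            (rr μ (cl U f W) (cl U f W) y : ℚ) * b / (2 * b + 2 * J.card) := by
          apply div_le_div_of_nonneg_right _ hD.le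
          exact mul_le_mul_of_nonneg_right h3 hb0
        linarith
      have harith := certL_arith (b := b) (t := J.card) (E := E) (m := M.card) hbq hJq
        (by exact_mod_cast hE3) hEq (Nat.cast_nonneg _) (by exact_mod_cast hMcard)
      rw [hsplit]
      linarith
  -- summation
  have h1 : ∑ W ∈ J, ∑ y ∈ BB U f 𝒜, sv μ b U f 𝒜 W y ≤ ∑ W ∈ J, (-1 : ℚ) :=
    sum_le_sum (fun W hW => sum_sv_le h (hL.sub hW) (hne W hW))
  rw [sum_comm] at h1
  have h2 : 0 ≤ ∑ y ∈ BB U f 𝒜, ∑ W ∈ J, sv μ b U f 𝒜 W y := sum_nonneg key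
  rw [sum_const, nsmul_eq_mul] at h1
  linarith

end X

end Pool.Agent.H25.EB
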