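import Pool.Agent.H25.EB.Defs
import Pool.Agent.H25.EA.Clean

/-!
# Module L: the clean lemmas
-/

set_option autoImplicit false

namespace Pool.Agent.H25.EB

open Finset Pool.Agent.H25.EA

theorem clean_lemma_part2' (ar : ℕ → ℕ → Prop) (J : Finset ℕ) (part : ℕ → ℕ → Prop)
    [∀ a, DecidablePred (part a)] (clean : ℕ → Prop) (β : ℕ)
    (hmin : ∀ K ⊆ J, K.Nonempty → (∀ W ∈ K, ∀ Y ∈ J, ar W Y → Y ∈ K) → K = J)
    (hsymm : ∀ W ∈ J, ∀ X ∈ J, part W X → part X W)
    (harc : ∀ W ∈ J, ∀ X ∈ J, part W X → W ≠ X ∧ ar W X)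
    (hβ : J.card ≤ 2 * β)
    (h1 : ∀ W ∈ J, clean W → β ≤ (J.filter (part W)).card)
    (h2 : ∀ W ∈ J, ¬ clean W → ∃ T ⊆ J.erase W, T.Nonempty ∧ (∀ Y ∈ T, ar W Y) ∧
      ∃ X ∈ J, part W X ∧ ∃ R ⊆ J.erase W, T ⊆ R ∧ X ∉ R ∧
        ∀ Y ∈ R, ∀ Y' ∈ J.erase W, ar Y Y' → Y' ∈ R) :
    ∀ n : ℕ, ∀ W ∈ J, ∀ R : Finset ℕ, ClosedIn ar J W R → R.Nonempty →
      ((J.erase W) \ R).card = n → ((J.erase W) \ R).Nonempty → False := by
  classical
  have hp1 := clean_lemma_part1 ar J part clean β hmin harc h1 h2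
  intro n
  induction n using Nat.strong_induction_on with
  | _ n ih =>
  intro W hW R hR hRne hQn hQne
  obtain ⟨V, hVQ⟩ := hQne
  obtain ⟨hVJW, hVR⟩ := Finset.mem_sdiff.1 hVQ
  obtain ⟨hVW, hVJ⟩ := Finset.mem_erase.1 hVJW
  have hβR : β ≤ R.card := hp1 _ W hW R hR hRne rfl
  have hcardQ : ((J.erase W) \ R).card + R.card + 1 = J.card := by
    rw [Finset.card_sdiff_of_subset hR.1, Finset.card_erase_of_mem hW]
    have h3 := Finset.card_le_card hR.1
    rw [Finset.card_erase_of_mem hW] at h3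
    have h4 : 0 < J.card := Finset.card_pos.2 ⟨W, hW⟩
    omega
  -- partners of V
  have hpart : ∀ X ∈ J, part V X → X = W ∨ X ∈ (J.erase W) \ R := by
    intro X hXJ hp
    by_cases hXW : X = W
    · exact Or.inl hXW
    · right
      refine Finset.mem_sdiff.2 ⟨Finset.mem_erase.2 ⟨hXW, hXJ⟩, fun hXR => hVR ?_⟩
      exact hR.2 X hXR V hVJW (harc X hXJ V hVJ (hsymm V hVJ X hXJ hp)).2
  have hncl : ¬ clean V := by
    intro hc
    have h3 := h1 V hVJ hc
    have hsub : J.filter (part V) ⊆ (insert W ((J.erase W) \ R)).erase V := by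
      intro X hX
      obtain ⟨hXJ, hp⟩ := Finset.mem_filter.1 hX
      refine Finset.mem_erase.2 ⟨fun h => (harc V hVJ X hXJ hp).1 h.symm, ?_⟩
      exact Finset.mem_insert.2 (hpart X hXJ hp)
    have h4 := Finset.card_le_card hsub
    have hWn : W ∉ (J.erase W) \ R := fun h => (Finset.mem_erase.1 (Finset.mem_sdiff.1 h).1).1 rfl
    rw [Finset.card_erase_of_mem (Finset.mem_insert_of_mem hVQ),
      Finset.card_insert_of_notMem hWn] at h4
    omega
  obtain ⟨T, hTJ, hTne, hTar, X, hXJ, hpX, RV, hRVJ, hTR, hXR, hRVc⟩ := h2 V hVJ hncl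
  have hVRV : V ∉ RV := fun h => (Finset.mem_erase.1 (hRVJ h)).1 rfl
  have hRV : ClosedIn ar J V RV := ⟨hRVJ, hRVc⟩
  have hRVne : RV.Nonempty := hTne.mono hTR
  have hβRV : β ≤ RV.card := hp1 _ V hVJ RV hRV hRVne rfl
  have hint : (R ∩ RV).Nonempty := by
    by_contra hemp
    rw [Finset.not_nonempty_iff_eq_empty] at hemp
    have hdisj : Disjoint R RV := Finset.disjoint_iff_inter_eq_empty.2 hemp
    have h5 := Finset.card_union_of_disjoint hdisj
    have h6 : (R ∪ RV).card ≤ (J.erase V).card := Finset.card_le_card (Finset.union_subset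
      (fun Y hY => Finset.mem_erase.2 ⟨fun h => hVR (h ▸ hY),
        Finset.mem_of_mem_erase (hR.1 hY)⟩) hRVJ)
    rw [Finset.card_erase_of_mem hVJ] at h6
    have h7 : 0 < J.card := Finset.card_pos.2 ⟨V, hVJ⟩
    omega
  have hWRV : W ∈ RV := by
    by_contra hWn
    have hJ : R ∩ RV = J := by
      apply hmin _ _ hint
      · intro Y hY Y' hY' hYY'
        obtain ⟨hYR, hYRV⟩ := Finset.mem_inter.1 hY
        have hY'W : Y' ≠ W := by
          intro h
          subst h
          exact hWn (hRVc Y hYRV Y' (Finset.mem_erase.2 ⟨fun h => hVW h.symm, hY'⟩) hYY')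
        have hY'R : Y' ∈ R := hR.2 Y hYR Y' (Finset.mem_erase.2 ⟨hY'W, hY'⟩) hYY'
        have hY'V : Y' ≠ V := fun h => hVR (h ▸ hY'R)
        exact Finset.mem_inter.2 ⟨hY'R, hRVc Y hYRV Y' (Finset.mem_erase.2 ⟨hY'V, hY'⟩) hYY'⟩
      · exact fun Y hY => Finset.mem_of_mem_erase (hRVJ (Finset.mem_inter.1 hY).2)
    exact hVRV (Finset.mem_inter.1 (hJ.symm ▸ hVJ : V ∈ R ∩ RV)).2
  have hXW : X ≠ W := fun h => hXR (h ▸ hWRV)
  have hXQ : X ∈ (J.erase W) \ R := (hpart X hXJ hpX).resolve_left hXW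
  obtain ⟨hVX, _⟩ := harc V hVJ X hXJ hpX
  have hcl : ClosedIn ar J V (R ∪ RV) := by
    refine ⟨?_, ?_⟩
    · intro Y hY
      rcases Finset.mem_union.1 hY with h | h
      · exact Finset.mem_erase.2 ⟨fun h' => hVR (h' ▸ h), Finset.mem_of_mem_erase (hR.1 h)⟩
      · exact hRVJ h
    · intro Y hY Y' hY' hYY'
      rcases Finset.mem_union.1 hY with h | h
      · by_cases hY'W : Y' = W
        · exact Finset.mem_union_right _ (hY'W ▸ hWRV)
        · exact Finset.mem_union_left _ (hR.2 Y h Y'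
            (Finset.mem_erase.2 ⟨hY'W, Finset.mem_of_mem_erase hY'⟩) hYY')
      · exact Finset.mem_union_right _ (hRVc Y h Y' hY' hYY')
  have hss : (J.erase V) \ (R ∪ RV) ⊂ (J.erase W) \ R := by
    refine ⟨?_, fun h => ?_⟩
    · intro Y hY
      obtain ⟨hY1, hY2⟩ := Finset.mem_sdiff.1 hY
      obtain ⟨hYV, hYJ⟩ := Finset.mem_erase.1 hY1
      rw [Finset.mem_union, not_or] at hY2
      refine Finset.mem_sdiff.2 ⟨Finset.mem_erase.2 ⟨fun h' => hY2.2 (h' ▸ hWRV), hYJ⟩, hY2.1⟩
    · have := h hVQ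
      exact (Finset.mem_erase.1 (Finset.mem_sdiff.1 this).1).1 rfl
  refine ih _ (by have := Finset.card_lt_card hss; omega) V hVJ (R ∪ RV) hcl
    (hRVne.mono Finset.subset_union_right) rfl ?_
  refine ⟨X, Finset.mem_sdiff.2 ⟨Finset.mem_erase.2 ⟨fun h => hVX h.symm, hXJ⟩, ?_⟩⟩
  rw [Finset.mem_union, not_or]
  exact ⟨(Finset.mem_sdiff.1 hXQ).2, hXR⟩

theorem clean_lemma0 (ar : ℕ → ℕ → Prop) (J : Finset ℕ) (part : ℕ → ℕ → Prop)
    [∀ a, DecidablePred (part a)] (clean : ℕ → Prop) (β : ℕ)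
    (hmin : ∀ K ⊆ J, K.Nonempty → (∀ W ∈ K, ∀ Y ∈ J, ar W Y → Y ∈ K) → K = J)
    (hsymm : ∀ W ∈ J, ∀ X ∈ J, part W X → part X W)
    (harc : ∀ W ∈ J, ∀ X ∈ J, part W X → W ≠ X ∧ ar W X)
    (hβ : J.card ≤ 2 * β)
    (h1 : ∀ W ∈ J, clean W → β ≤ (J.filter (part W)).card)
    (h2 : ∀ W ∈ J, ¬ clean W → ∃ T ⊆ J.erase W, T.Nonempty ∧ (∀ Y ∈ T, ar W Y) ∧
      ∃ X ∈ J, part W X ∧ ∃ R ⊆ J.erase W, T ⊆ R ∧ X ∉ R ∧
        ∀ Y ∈ R, ∀ Y' ∈ J.erase W, ar Y Y' → Y' ∈ R) :
    ∀ W ∈ J, clean W := by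
  classical
  intro W hW
  by_contra hc
  obtain ⟨T, hTJ, hTne, hTar, X, hXJ, hpX, R, hRJ, hTR, hXR, hRc⟩ := h2 W hW hc
  refine clean_lemma_part2' ar J part clean β hmin hsymm harc hβ h1 h2 _ W hW R ⟨hRJ, hRc⟩
    (hTne.mono hTR) rfl ⟨X, Finset.mem_sdiff.2 ⟨Finset.mem_erase.2 ⟨?_, hXJ⟩, hXR⟩⟩
  exact fun h => (harc W hW X hXJ hpX).1 h.symm

/-- a nonempty part of `J` which is closed up to one class is `J` -/
theorem eq_of_one_sep {ar : ℕ → ℕ → Prop} {𝒜 : Finset ℕ} {r : ℕ} {J : Finset ℕ} {Q : ℕ}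
    (hL : Loc ar 𝒜 r J Q) {L : Finset ℕ} {d : ℕ} (hLJ : L ⊆ J) (hne : L.Nonempty) (hd : d ∉ L)
    (hdm : d ∈ J ∨ d = Q) (hout : ∀ x ∈ L, ∀ y ∈ 𝒜, ar x y → y ∈ L ∨ y = d) :
    d = Q ∧ L = J := by
  by_cases hdJ : d ∈ J
  · exfalso
    obtain ⟨x, hx, y, hy, hyL, hyd, hxy⟩ := hL.term d hdJ L (hLJ.trans hL.sub)
      (disjoint_singleton_right.2 hd) (fun h => hL.r_notMem (hLJ h)) hne
    rcases hout x hx y hy hxy with h | h
    · exact hyL h
    · exact hyd (by simp [h])
  · have hdQ : d = Q := hdm.resolve_left hdJ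
    refine ⟨hdQ, hL.min L hLJ hne ?_⟩
    intro x hx y hy hxy
    rcases hout x hx y (hL.sub hy) hxy with h | h
    · exact h
    · exact absurd (hdQ ▸ h ▸ hy) hL.Q_notMem

/-- structure of the separators in a region (used in Module Z and in `strong_clean`) -/
theorem sep_in_reg {ar : ℕ → ℕ → Prop} {𝒜 : Finset ℕ} {r : ℕ} {J I S : Finset ℕ} {Q : ℕ}
    (hL : Loc ar 𝒜 r J Q) (hR : Reg ar 𝒜 J I S) {W : ℕ} (hW : W ∈ I) {T : Finset ℕ} {c : ℕ}
    {K : Finset ℕ} (hs : Sep ar 𝒜 J Q W T c K) (hT : 2 ≤ T.card) (hTa : ∀ Y ∈ T, ar W Y)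
    (hTA : T ⊆ 𝒜) : c ∉ I ∪ S ∧ S ⊆ K ∧ T ⊆ K := by
  classical
  have hKJ : K ⊆ J := hs.sub.trans (erase_subset _ _)
  have hWK : W ∉ K := fun h => (mem_erase.1 (hs.sub h)).1 rfl
  have hKne : K.Nonempty := by
    by_contra hne
    rw [not_nonempty_iff_eq_empty] at hne
    have h1 := card_le_card hs.T_sub
    rw [hne] at h1
    simp at h1
    omega
  have hc : c ∉ I ∪ S := by
    intro hc
    obtain ⟨x, hx, y, hy, hyK, hyW, hyc, hxy⟩ := hR.pt W hW c hc K hKJ hWK hs.c_notMem hKne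
    rcases hs.out x hx y hy hxy with h | h | h
    · exact hyK h
    · exact hyW h
    · exact hyc h
  have hTIS : ∀ Y ∈ T, Y ∈ I ∪ S := by
    intro Y hY
    rw [mem_union]
    exact hR.out W hW Y (hTA hY) (hTa Y hY)
  have hTK : T ⊆ K := by
    intro Y hY
    rcases mem_insert.1 (hs.T_sub hY) with h | h
    · exact absurd (h ▸ hTIS Y hY) hc
    · exact h
  refine ⟨hc, ?_, hTK⟩
  by_contra hSK
  -- arcs of `K ∩ I`
  have hout : ∀ x ∈ K ∩ I, ∀ y ∈ 𝒜, ar x y → y ∈ K ∩ I ∨ y = W ∨ y ∈ K ∩ S := by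
    intro x hx y hy hxy
    obtain ⟨hxK, hxI⟩ := mem_inter.1 hx
    have h1 := hR.out x hxI y hy hxy
    rcases hs.out x hxK y hy hxy with h | h | h
    · rcases h1 with h1 | h1
      · exact Or.inl (mem_inter.2 ⟨h, h1⟩)
      · exact Or.inr (Or.inr (mem_inter.2 ⟨h, h1⟩))
    · exact Or.inr (Or.inl h)
    · exact absurd (h ▸ mem_union.2 h1) hc
  have hcard : (K ∩ S).card ≤ 1 := by
    have h1 : K ∩ S ⊂ S := ⟨inter_subset_right, fun h => hSK fun z hz => (mem_inter.1 (h hz)).1⟩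
    have := card_lt_card h1
    rw [hR.cardS] at this
    omega
  have hKI : K ∩ I = ∅ := by
    by_contra hne
    have hne' := nonempty_iff_ne_empty.2 hne
    rcases (K ∩ S).eq_empty_or_nonempty with h0 | ⟨z, hz⟩
    · obtain ⟨x, hx, y, hy, hyK, hyW, -, hxy⟩ := hR.pt W hW W (mem_union_left _ hW) (K ∩ I)
        (inter_subset_left.trans hKJ) (fun h => hWK (mem_inter.1 h).1)
        (fun h => hWK (mem_inter.1 h).1) hne'
      rcases hout x hx y hy hxy with h | h | h
      · exact hyK h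
      · exact hyW h
      · rw [h0] at h; simp at h
    · have hzS : z ∈ S := (mem_inter.1 hz).2
      have hall : ∀ z' ∈ K ∩ S, z' = z := by
        intro z' hz'
        exact card_le_one.1 hcard z' hz' z hz
      have hzI : z ∉ I := fun h => (disjoint_left.1 hR.disj) h hzS
      obtain ⟨x, hx, y, hy, hyK, hyW, hyz, hxy⟩ := hR.pt W hW z (mem_union_right _ hzS) (K ∩ I)
        (inter_subset_left.trans hKJ) (fun h => hWK (mem_inter.1 h).1)
        (fun h => hzI (mem_inter.1 h).2) hne'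
      rcases hout x hx y hy hxy with h | h | h
      · exact hyK h
      · exact hyW h
      · exact hyz (hall y h)
  have hTS : T ⊆ K ∩ S := by
    intro Y hY
    rcases mem_union.1 (hTIS Y hY) with h | h
    · have : Y ∈ K ∩ I := mem_inter.2 ⟨hTK hY, h⟩
      rw [hKI] at this
      simp at this
    · exact mem_inter.2 ⟨hTK hY, h⟩
  have := card_le_card hTS
  omega

/-- the strong clean lemma (case (B') with `|I| ≤ b + 1`) -/
theorem strong_clean {ar : ℕ → ℕ → Prop} {𝒜 : Finset ℕ} {r : ℕ} {J I S : Finset ℕ} {Q : ℕ}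
    (hL : Loc ar 𝒜 r J Q) (hR : Reg ar 𝒜 J I S) (part : ℕ → ℕ → Prop)
    [∀ a, DecidablePred (part a)] (clean : ℕ → Prop) (b : ℕ) (hI : I.card ≤ b + 1)
    (harc : ∀ W ∈ I, ∀ X ∈ I ∪ S, part W X → W ≠ X ∧ ar W X ∧ ar X W)
    (h1 : ∀ W ∈ I, clean W → b + 1 ≤ ((I ∪ S).filter (part W)).card)
    (h2 : ∀ W ∈ I, ¬ clean W → ∃ X ∈ I ∪ S, part W X ∧ ∃ T c K, Sep ar 𝒜 J Q W T c K ∧
      2 ≤ T.card ∧ (∀ Y ∈ T, ar W Y) ∧ T ⊆ 𝒜 ∧ X ∉ K) :
    ∀ W ∈ I, clean W := by
  classical
  have hSne : S.Nonempty := by rw [← card_pos, hR.cardS]; omega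
  -- no triple exists
  have main : ∀ n : ℕ, ∀ W ∈ I, ∀ (c : ℕ) (K : Finset ℕ), K ⊆ J.erase W → S ⊆ K →
      (c ∈ J ∨ c = Q) → c ∉ K → c ∉ I ∪ S →
      (∀ x ∈ K, ∀ y ∈ 𝒜, ar x y → y ∈ K ∨ y = W ∨ y = c) →
      ((I.erase W) \ K).Nonempty → ((I.erase W) \ K).card = n → False := by
    intro n
    induction n using Nat.strong_induction_on with
    | _ n ih =>
    intro W hW c K hK hSK hcm hcK hcIS hout hYne hYn
    have hKJ : K ⊆ J := hK.trans (erase_subset _ _)
    have hWK : W ∉ K := fun h => (mem_erase.1 (hK h)).1 rfl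
    have hWJ : W ∈ J := hR.I_sub hW
    obtain ⟨V, hV⟩ := hYne
    obtain ⟨hV1, hVK⟩ := mem_sdiff.1 hV
    obtain ⟨hVW, hVI⟩ := mem_erase.1 hV1
    have hVJ : V ∈ J := hR.I_sub hVI
    have hcI : c ∉ I := fun h => hcIS (mem_union_left _ h)
    have hVc : V ≠ c := fun h => hcI (h ▸ hVI)
    -- partners of `V`
    have hpart : ∀ X ∈ I ∪ S, part V X → X ≠ V ∧ X ∈ I ∧ (X = W ∨ X ∈ (I.erase W) \ K) := by
      intro X hX hp
      obtain ⟨hne, -, hXV⟩ := harc V hVI X hX hp
      have hXK : X ∉ K := by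
        intro hXK
        rcases hout X hXK V (hL.sub hVJ) hXV with h | h | h
        · exact hVK h
        · exact hVW h
        · exact hVc h
      have hXI : X ∈ I := by
        rcases mem_union.1 hX with h | h
        · exact h
        · exact absurd (hSK h) hXK
      refine ⟨fun h => hne h.symm, hXI, ?_⟩
      by_cases hXW : X = W
      · exact Or.inl hXW
      · exact Or.inr (mem_sdiff.2 ⟨mem_erase.2 ⟨hXW, hXI⟩, hXK⟩)
    have hncl : ¬ clean V := by
      intro hc
      have h3 := h1 V hVI hc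
      have hsub : (I ∪ S).filter (part V) ⊆ I.erase V := by
        intro X hX
        obtain ⟨hX1, hX2⟩ := mem_filter.1 hX
        obtain ⟨h4, h5, -⟩ := hpart X hX1 hX2
        exact mem_erase.2 ⟨h4, h5⟩
      have h4 := card_le_card hsub
      rw [card_erase_of_mem hVI] at h4
      have h5 : 0 < I.card := card_pos.2 ⟨V, hVI⟩
      omega
    obtain ⟨X', hX', hpX', T', c', K', hs', hT', hTa', hTA', hX'K'⟩ := h2 V hVI hncl
    obtain ⟨hc'IS, hSK', hTK'⟩ := sep_in_reg hL hR hVI hs' hT' hTa' hTA'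
    obtain ⟨hX'V, hX'I, hX'Y⟩ := hpart X' hX' hpX'
    have hK'J : K' ⊆ J := hs'.sub.trans (erase_subset _ _)
    have hVK' : V ∉ K' := fun h => (mem_erase.1 (hs'.sub h)).1 rfl
    have hc'I : c' ∉ I := fun h => hc'IS (mem_union_left _ h)
    have hWc' : W ≠ c' := fun h => hc'I (h ▸ hW)
    have hc'm : c' ∈ J ∨ c' = Q := hs'.c_mem.imp_left (fun h => mem_of_mem_erase h)
    have hKKne : (K ∩ K').Nonempty := by
      obtain ⟨z, hz⟩ := hSne
      exact ⟨z, mem_inter.2 ⟨hSK hz, hSK' hz⟩⟩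
    have hWK' : W ∈ K' := by
      by_contra hWK'
      by_cases hcc : c ∈ K' ∧ c' ∈ K
      · obtain ⟨x, hx, y, hy, hyK, hyW, hyV, hxy⟩ := hR.pt W hW V (mem_union_left _ hVI) (K ∪ K')
          (union_subset hKJ hK'J) (by simp [hWK, hWK']) (by simp [hVK, hVK'])
          (hKKne.mono (inter_subset_left.trans subset_union_left))
        apply hyK
        rcases mem_union.1 hx with hx | hx
        · rcases hout x hx y hy hxy with h | h | h
          · exact mem_union_left _ h
          · exact absurd h hyW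
          · rw [h]; exact mem_union_right _ hcc.1
        · rcases hs'.out x hx y hy hxy with h | h | h
          · exact mem_union_right _ h
          · exact absurd h hyV
          · rw [h]; exact mem_union_left _ hcc.2
      · -- closed up to one class
        have hfin : ∀ d, (d ∈ J ∨ d = Q) → d ∉ K ∩ K' →
            (∀ x ∈ K ∩ K', ∀ y ∈ 𝒜, ar x y → y ∈ K ∩ K' ∨ y = d) → False := by
          intro d hd hdn ho
          have := (eq_of_one_sep hL (inter_subset_left.trans hKJ) hKKne hdn hd ho).2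
          exact hVK (mem_inter.1 (this.symm ▸ hVJ : V ∈ K ∩ K')).1
        have harcs : ∀ x ∈ K ∩ K', ∀ y ∈ 𝒜, ar x y → (y ∈ K ∨ y = c) ∧ (y ∈ K' ∨ y = c') := by
          intro x hx y hy hxy
          obtain ⟨hxK, hxK'⟩ := mem_inter.1 hx
          have e1 := hout x hxK y hy hxy
          have e2 := hs'.out x hxK' y hy hxy
          have hyV : y ≠ V := by
            rintro rfl
            rcases e1 with h | h | h
            · exact hVK h
            · exact hVW h
            · exact hVc h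
          have hyW : y ≠ W := by
            rintro rfl
            rcases e2 with h | h | h
            · exact hWK' h
            · exact hVW h.symm
            · exact hWc' h
          exact ⟨e1.imp_right (fun h => h.resolve_left hyW),
            e2.imp_right (fun h => h.resolve_left hyV)⟩
        rw [not_and_or] at hcc
        rcases hcc with hcc | hcc
        · -- `c ∉ K'`: closed up to `c'`
          apply hfin c' hc'm (fun h => hs'.c_notMem (mem_inter.1 h).2)
          intro x hx y hy hxy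
          obtain ⟨e1, e2⟩ := harcs x hx y hy hxy
          rcases e2 with e2 | e2
          · rcases e1 with e1 | e1
            · exact Or.inl (mem_inter.2 ⟨e1, e2⟩)
            · exact absurd (e1 ▸ e2) hcc
          · exact Or.inr e2
        · apply hfin c hcm (fun h => hcK (mem_inter.1 h).1)
          intro x hx y hy hxy
          obtain ⟨e1, e2⟩ := harcs x hx y hy hxy
          rcases e1 with e1 | e1
          · rcases e2 with e2 | e2
            · exact Or.inl (mem_inter.2 ⟨e1, e2⟩)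
            · exact absurd (e2 ▸ e1) hcc
          · exact Or.inr e1
    -- arcs of the union
    have houtU : ∀ x ∈ K ∪ K', ∀ y ∈ 𝒜, ar x y → y ∈ K ∪ K' ∨ y = V ∨ y = c ∨ y = c' := by
      intro x hx y hy hxy
      rcases mem_union.1 hx with hx | hx
      · rcases hout x hx y hy hxy with h | h | h
        · exact Or.inl (mem_union_left _ h)
        · exact Or.inl (h ▸ mem_union_right _ hWK')
        · exact Or.inr (Or.inr (Or.inl h))
      · rcases hs'.out x hx y hy hxy with h | h | h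
        · exact Or.inl (mem_union_right _ h)
        · exact Or.inr (Or.inl h)
        · exact Or.inr (Or.inr (Or.inr h))
    have hUV : V ∉ K ∪ K' := by simp [hVK, hVK']
    have hUsub : K ∪ K' ⊆ J.erase V := by
      intro z hz
      refine mem_erase.2 ⟨fun h => hUV (h ▸ hz), ?_⟩
      exact union_subset hKJ hK'J hz
    have hUne : (K ∪ K').Nonempty := hKKne.mono (inter_subset_left.trans subset_union_left)
    -- a smaller triple
    have hsmall : ∀ d, (d ∈ J ∨ d = Q) → d ∉ K ∪ K' → d ∉ I ∪ S →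
        (∀ x ∈ K ∪ K', ∀ y ∈ 𝒜, ar x y → y ∈ K ∪ K' ∨ y = V ∨ y = d) → False := by
      intro d hd hdU hdIS ho
      have hX'W : X' ≠ W := fun h => hX'K' (h ▸ hWK')
      have hX'K : X' ∉ K := (mem_sdiff.1 (hX'Y.resolve_left hX'W)).2
      have hss : (I.erase V) \ (K ∪ K') ⊂ (I.erase W) \ K := by
        refine ⟨?_, fun h => ?_⟩
        · intro z hz
          obtain ⟨hz1, hz2⟩ := mem_sdiff.1 hz
          rw [mem_union, not_or] at hz2
          refine mem_sdiff.2 ⟨mem_erase.2 ⟨fun h => hz2.2 (h ▸ hWK'), mem_of_mem_erase hz1⟩, hz2.1⟩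
        · exact (mem_erase.1 (mem_sdiff.1 (h hV)).1).1 rfl
      refine ih _ (by have := card_lt_card hss; omega) V hVI d (K ∪ K') hUsub
        (hSK.trans subset_union_left) hd hdU hdIS ho ?_ rfl
      exact ⟨X', mem_sdiff.2 ⟨mem_erase.2 ⟨hX'V, hX'I⟩, by simp [hX'K, hX'K']⟩⟩
    by_cases hcU : c ∈ K ∪ K'
    · by_cases hc'U : c' ∈ K ∪ K'
      · -- closed up to `V`
        have := (eq_of_one_sep hL (hUsub.trans (erase_subset _ _)) hUne hUV (Or.inl hVJ)
          (fun x hx y hy hxy => by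
            rcases houtU x hx y hy hxy with h | h | h | h
            · exact Or.inl h
            · exact Or.inr h
            · exact Or.inl (h ▸ hcU)
            · exact Or.inl (h ▸ hc'U))).2
        exact hUV (this.symm ▸ hVJ)
      · apply hsmall c' hc'm hc'U hc'IS
        intro x hx y hy hxy
        rcases houtU x hx y hy hxy with h | h | h | h
        · exact Or.inl h
        · exact Or.inr (Or.inl h)
        · exact Or.inl (h ▸ hcU)
        · exact Or.inr (Or.inr h)
    · by_cases hc'U : c' ∈ K ∪ K'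
      · apply hsmall c hcm hcU hcIS
        intro x hx y hy hxy
        rcases houtU x hx y hy hxy with h | h | h | h
        · exact Or.inl h
        · exact Or.inr (Or.inl h)
        · exact Or.inr (Or.inr h)
        · exact Or.inl (h ▸ hc'U)
      · by_cases hcc : c = c'
        · apply hsmall c hcm hcU hcIS
          intro x hx y hy hxy
          rcases houtU x hx y hy hxy with h | h | h | h
          · exact Or.inl h
          · exact Or.inr (Or.inl h)
          · exact Or.inr (Or.inr h)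
          · exact Or.inr (Or.inr (h.trans hcc.symm))
        · -- the intersection is closed up to `W`
          have hWn : W ∉ K ∩ K' := fun h => hWK (mem_inter.1 h).1
          have := (eq_of_one_sep hL (inter_subset_left.trans hKJ) hKKne hWn (Or.inl hWJ)
            (fun x hx y hy hxy => by
              obtain ⟨hxK, hxK'⟩ := mem_inter.1 hx
              rcases hout x hxK y hy hxy with h | h | h
              · rcases hs'.out x hxK' y hy hxy with h' | h' | h'
                · exact Or.inl (mem_inter.2 ⟨h, h'⟩)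
                · exact absurd (h' ▸ h) hVK
                · exact absurd (mem_union_left _ (h' ▸ h)) hc'U
              · exact Or.inr h
              · rcases hs'.out x hxK' y hy hxy with h' | h' | h'
                · exact absurd (mem_union_right _ (h ▸ h')) hcU
                · exact absurd (h'.symm.trans h) hVc
                · exact absurd (h.symm.trans h') hcc)).2
          exact hWn (this.symm ▸ hWJ)
  intro W hW
  by_contra hc
  obtain ⟨X, hX, hpX, T, c, K, hs, hT, hTa, hTA, hXK⟩ := h2 W hW hc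
  obtain ⟨hcIS, hSK, -⟩ := sep_in_reg hL hR hW hs hT hTa hTA
  have hXI : X ∈ I := by
    rcases mem_union.1 hX with h | h
    · exact h
    · exact absurd (hSK h) hXK
  have hXW : X ≠ W := fun h => (harc W hW X hX hpX).1 h.symm
  exact main _ W hW c K hs.sub hSK (hs.c_mem.imp_left (fun h => mem_of_mem_erase h)) hs.c_notMem
    hcIS hs.out ⟨X, mem_sdiff.2 ⟨mem_erase.2 ⟨hXW, hXI⟩, hXK⟩⟩ rfl

end Pool.Agent.H25.EB
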