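import Pool.Agent.H25.EB.Defs
import Pool.Agent.H25.EB.Ineq1
import Pool.Agent.H25.EA.AcBasic
import Pool.Agent.H25.EB.AcX
import Pool.Agent.H25.EB.Types

/-!
# Equitable acyclic colourings, `Δ ≤ 2k-1`: consequences of `hh > 0` (module B2)
-/

set_option autoImplicit false
set_option linter.unusedSectionVars false

namespace Pool.Agent.H25.EB

open Finset Pool.Agent.H25.EA

variable {V : Type*} [DecidableEq V]


section X
variable {μ : V → V → ℕ} {s b : ℕ} {U : Finset V} {f : V → ℕ} {𝒜 : Finset ℕ} {r : ℕ}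
  {J : Finset ℕ} {Q : ℕ}

theorem arc_of_hh_pos (h : Setup0 μ s b U f 𝒜 r) {W X : ℕ} (hX : X ∈ 𝒜) (hXW : X ≠ W)
    (hpos : 0 < hh μ U f 𝒜 W X) : arc μ U f W X := by
  classical
  unfold hh at hpos
  obtain ⟨w, hw, hwp⟩ := Finset.exists_lt_of_sum_lt (s := cl U f W) (f := fun _ => (0 : ℤ))
    (g := fun w => dl μ U f 𝒜 W w X) (by simpa using hpos)
  refine ⟨hXW.symm, w, hw, ?_⟩
  by_contra hn
  have h1 := dl_nonpos h hX hXW hw (fun ht => hn (Finset.mem_filter.1 ht).2.2)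
  exact absurd hwp (not_lt.2 h1)

/-- `ρ ≤ ρ*` -/
theorem b2_rr_le_rst (W : ℕ) (x : V) :
    rr μ (cl U f W) (cl U f W) x ≤ rst μ U f 𝒜 W x := by
  unfold rr rst
  refine Finset.sum_le_sum fun w _ => ?_
  unfold rm
  by_cases h1 : w ∈ Fu μ U f 𝒜 W ∧ μ x w = 1
  · rw [if_pos h1, if_pos ⟨h1.2, (Finset.mem_filter.1 h1.1).2.1⟩]
  · rw [if_neg h1]
    split_ifs <;> omega

/-- the edges from `x` to `W`, split -/
theorem b2_rst_add (W : ℕ) (x : V) :
    rst μ U f 𝒜 W x + ((Fu μ U f 𝒜 W).filter (fun w => μ x w = 1)).card =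
      ee μ x (cl U f W) := by
  classical
  have h1 : ((Fu μ U f 𝒜 W).filter (fun w => μ x w = 1)) =
      (cl U f W).filter (fun w => w ∈ Fu μ U f 𝒜 W ∧ μ x w = 1) := by
    ext w
    simp only [Finset.mem_filter]
    constructor
    · rintro ⟨h1, h2⟩
      exact ⟨(Finset.mem_filter.1 h1).1, h1, h2⟩
    · rintro ⟨_, h1, h2⟩
      exact ⟨h1, h2⟩
  rw [h1, Finset.card_filter]
  unfold rst ee
  rw [← Finset.sum_add_distrib]
  refine Finset.sum_congr rfl fun w _ => ?_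
  by_cases h2 : w ∈ Fu μ U f 𝒜 W ∧ μ x w = 1
  · rw [if_pos h2, if_pos h2, h2.2]
  · rw [if_neg h2, if_neg h2]
    omega

/-- `h(W,X) ≤ ∑ (2 - ρ*(x))` -/
theorem b2_hh_le (hμ : MG μ) {W X : ℕ} (hc : (cl U f W).card = (cl U f X).card) :
    hh μ U f 𝒜 W X ≤ ∑ x ∈ cl U f X, (2 - (rst μ U f 𝒜 W x : ℤ)) := by
  classical
  -- both sides minus `2 s` plus the number of edges
  have h1 : hh μ U f 𝒜 W X = 2 * ((cl U f W).card : ℤ) -
      (∑ w ∈ cl U f W, (ee μ w (cl U f X) : ℤ)) +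
      ((cl U f W).filter (fun w => w ∈ Fu μ U f 𝒜 W ∧ ee μ w (cl U f X) % 2 = 1)).card := by
    unfold hh dl
    rw [Finset.sum_add_distrib, Finset.sum_sub_distrib, Finset.sum_const, Finset.card_filter]
    push_cast
    rw [nsmul_eq_mul]
    ring
  have h2 : ∑ x ∈ cl U f X, (2 - (rst μ U f 𝒜 W x : ℤ)) = 2 * ((cl U f X).card : ℤ) -
      (∑ x ∈ cl U f X, (ee μ x (cl U f W) : ℤ)) +
      ∑ x ∈ cl U f X, (((Fu μ U f 𝒜 W).filter (fun w => μ x w = 1)).card : ℤ) := by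
    have h3 : ∀ x ∈ cl U f X, (2 - (rst μ U f 𝒜 W x : ℤ)) =
        2 - (ee μ x (cl U f W) : ℤ) +
          (((Fu μ U f 𝒜 W).filter (fun w => μ x w = 1)).card : ℤ) := by
      intro x _
      have h4 := b2_rst_add (μ := μ) (U := U) (f := f) (𝒜 := 𝒜) W x
      rw [← h4]
      push_cast
      ring
    rw [Finset.sum_congr rfl h3, Finset.sum_add_distrib, Finset.sum_sub_distrib,
      Finset.sum_const, nsmul_eq_mul]
    ring
  have h3 : ∑ w ∈ cl U f W, (ee μ w (cl U f X) : ℤ) = ∑ x ∈ cl U f X, (ee μ x (cl U f W) : ℤ) := by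
    have h4 : ∑ w ∈ cl U f W, ee μ w (cl U f X) = ∑ x ∈ cl U f X, ee μ x (cl U f W) := by
      unfold ee
      rw [Finset.sum_comm]
      exact Finset.sum_congr rfl fun x _ => Finset.sum_congr rfl fun w _ => hμ.symm w x
    exact_mod_cast h4
  have h5 : (((cl U f W).filter
      (fun w => w ∈ Fu μ U f 𝒜 W ∧ ee μ w (cl U f X) % 2 = 1)).card : ℤ) ≤
      ∑ x ∈ cl U f X, (((Fu μ U f 𝒜 W).filter (fun w => μ x w = 1)).card : ℤ) := by
    have h6 : ((cl U f W).filter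
        (fun w => w ∈ Fu μ U f 𝒜 W ∧ ee μ w (cl U f X) % 2 = 1)).card ≤
        ∑ x ∈ cl U f X, ((Fu μ U f 𝒜 W).filter (fun w => μ x w = 1)).card := by
      refine (Finset.card_le_card (t := (cl U f X).biUnion
        (fun x => (Fu μ U f 𝒜 W).filter (fun w => μ x w = 1))) ?_).trans Finset.card_biUnion_le
      intro w hw
      obtain ⟨_, hw1, hw2⟩ := Finset.mem_filter.1 hw
      rw [Finset.mem_biUnion]
      by_contra hcon
      push Not at hcon
      have h7 : Even (ee μ w (cl U f X)) := by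
        unfold ee
        refine Finset.sum_induction _ Even (fun _ _ => Even.add) Even.zero fun x hx => ?_
        have h8 : μ x w ≠ 1 := fun h9 => hcon x hx (Finset.mem_filter.2 ⟨hw1, h9⟩)
        have h9 := hμ.le_two x w
        rw [hμ.symm w x]
        have : μ x w = 0 ∨ μ x w = 2 := by omega
        rcases this with h10 | h10 <;> rw [h10] <;> decide
      rw [Nat.even_iff] at h7
      omega
    exact_mod_cast h6
  rw [h1, h2, h3, hc]
  linarith

/-- an element of `X` with `ρ* ≤ 1` can be moved to `W` -/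
theorem b2_mov (h : Setup0 μ s b U f 𝒜 r) {W : ℕ} (hW : W ∈ 𝒜) {x : V}
    (h1 : rst μ U f 𝒜 W x ≤ 1) : mov μ U f x W :=
  ac_of_rr h.mg (h.ac W hW) Finset.Subset.rfl ((b2_rr_le_rst W x).trans h1)

theorem arc_of_hh_pos' (h : Setup0 μ s b U f 𝒜 r) {W X : ℕ} (hW : W ∈ 𝒜) (hWr : W ≠ r)
    (hX : X ∈ 𝒜) (hXr : X ≠ r) (hXW : X ≠ W)
    (hpos : 0 < hh μ U f 𝒜 W X) : arc μ U f X W := by
  classical
  have h1 := b2_hh_le (𝒜 := 𝒜) h.mg (W := W) (X := X)
    ((h.card_cl W hW hWr).trans (h.card_cl X hX hXr).symm)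
  obtain ⟨x, hx, hxp⟩ := Finset.exists_lt_of_sum_lt (s := cl U f X) (f := fun _ => (0 : ℤ))
    (g := fun x => (2 - (rst μ U f 𝒜 W x : ℤ))) (by simpa using hpos.trans_le h1)
  refine ⟨hXW, x, hx, b2_mov h hW ?_⟩
  have : (rst μ U f 𝒜 W x : ℤ) < 2 := by linarith
  omega

/-- consequence of the exchange -/
theorem hh_le_of_rst (h : Setup0 μ s b U f 𝒜 r) {W X : ℕ} (hW : W ∈ 𝒜) (hWr : W ≠ r)
    (hX : X ∈ 𝒜) (hXr : X ≠ r) (hXW : X ≠ W) (htX : NoCl (arc μ U f) 𝒜 r {X}) {y : V}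
    (hy : y ∈ BB U f 𝒜) (hTT : ∀ x ∈ cl U f X, 2 ≤ rst μ U f 𝒜 W x + μ x y)
    (hpos : 0 < hh μ U f 𝒜 W X) :
    1 ≤ ep μ U f y X ∧ hh μ U f 𝒜 W X ≤ 2 + ep μ U f y X := by
  classical
  have h1 := b2_hh_le (𝒜 := 𝒜) h.mg (W := W) (X := X)
    ((h.card_cl W hW hWr).trans (h.card_cl X hX hXr).symm)
  have h2 : ∑ x ∈ cl U f X, (2 - (rst μ U f 𝒜 W x : ℤ)) ≤
      (ee μ y (Fm μ U f 𝒜 X) : ℤ) := by
    unfold ee Fm
    rw [Finset.sum_filter]
    push_cast
    refine Finset.sum_le_sum fun x hx => ?_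
    split_ifs with hF
    · have h3 := hTT x hx
      rw [h.mg.symm x y] at h3
      omega
    · have h3 : 2 ≤ rst μ U f 𝒜 W x := by
        by_contra hcon
        have h4 := b2_mov h hW (x := x) (by omega)
        apply hF
        have h5 : W ∈ tg μ U f 𝒜 x := Finset.mem_filter.2
          ⟨hW, by rw [(b1_memCl.1 hx).2]; exact hXW.symm, h4⟩
        exact fun h6 => Finset.notMem_empty W (h6 ▸ h5)
      omega
  have h3 : ee μ y (Fm μ U f 𝒜 X) ≤ ee μ y (cl U f X) :=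
    ee_mono (Finset.filter_subset _ _)
  have h4 := b1_ep_add_two h hy hX
  refine ⟨?_, ?_⟩
  · by_contra hcon
    have h5 : ee μ y (cl U f X) = 2 := by omega
    have h6 : rr μ (cl U f X) (cl U f X) y ≤ ee μ y (cl U f X) := by
      unfold rr ee
      exact Finset.sum_le_sum fun w _ => b1_rm_le _ y w
    have h7 : rr μ (cl U f X) (cl U f X) y = 2 := le_antisymm (h6.trans h5.le)
      (rho_ge_two h hy hX)
    have h8 := (rho_two h hX hXr htX hy h7).1
    have h9 : ∀ w ∈ cl U f X, rm μ (cl U f X) y w = μ y w := by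
      have h10 : ∑ w ∈ cl U f X, rm μ (cl U f X) y w = ∑ w ∈ cl U f X, μ y w := by
        have h11 : rr μ (cl U f X) (cl U f X) y = ee μ y (cl U f X) := by omega
        exact h11
      exact (Finset.sum_eq_sum_iff_of_le fun w _ => b1_rm_le _ y w).1 h10
    have h10 : ee μ y (Fm μ U f 𝒜 X) = 0 := by
      rw [← h8]
      unfold ee rr
      exact (Finset.sum_congr rfl fun w hw => h9 w (Finset.filter_subset _ _ hw)).symm
    rw [h10] at h2
    push_cast at h2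
    linarith
  · have h5 : (ee μ y (Fm μ U f 𝒜 X) : ℤ) ≤ 2 + ep μ U f y X := by
      have : ee μ y (Fm μ U f 𝒜 X) ≤ 2 + ep μ U f y X := by omega
      exact_mod_cast this
    linarith

end X

end Pool.Agent.H25.EB
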