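import Pool.Agent.H25.EB.Defs
import Pool.Agent.H25.EB.Ineq1
import Pool.Agent.H25.EB.Types

/-!
# Counting at one class (modules K1 and K2)
-/

set_option autoImplicit false
set_option linter.unusedSectionVars false

namespace Pool.Agent.H25.EB

open Finset Pool.Agent.H25.EA

variable {V : Type*} [DecidableEq V]


/-! ### abstract counting -/

/-- first weights -/
theorem k1_abs1 {N F B : Finset V} {n g R : V → ℕ} {D : V → ℤ} {b s : ℕ} {E : ℤ} {m : V}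
    (hn : ∑ y ∈ B, n y = ∑ w ∈ N, R w) (hg : ∑ y ∈ B, g y = ∑ w ∈ F, R w)
    (hty : ∀ y ∈ B, 2 ≤ n y ∨ (n y = 1 ∧ 2 ≤ g y) ∨ (n y = 0 ∧ 3 ≤ g y))
    (hcN : ∀ w ∈ N, (R w : ℤ) ≤ 2 * b + D w) (hcF : ∀ w ∈ F, (R w : ℤ) ≤ 2 * b + D w)
    (hD : ∀ w ∈ N, D w ≤ 0)
    (hm : m ∈ N) (hm1 : (R m : ℤ) ≤ 2 * b - 1 - E) (hm2 : (R m : ℤ) ≤ 2 * b - 2 + D m)
    (hB : B.card = b * s + 1) (hs : N.card + F.card = s) :
    2 * (b : ℤ) * F.card + 11 + E ≤ 2 * (∑ w ∈ N, D w + ∑ w ∈ F, D w) := by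
  have h1 : ∀ y ∈ B, (6 : ℤ) ≤ 3 * (n y : ℤ) + 2 * (g y : ℤ) := by
    intro y hy
    have := hty y hy
    omega
  have h2 := card_nsmul_le_sum B _ 6 h1
  rw [nsmul_eq_mul, sum_add_distrib, ← mul_sum, ← mul_sum] at h2
  have e1 : ∑ y ∈ B, (n y : ℤ) = ∑ w ∈ N, (R w : ℤ) := by exact_mod_cast hn
  have e2 : ∑ y ∈ B, (g y : ℤ) = ∑ w ∈ F, (R w : ℤ) := by exact_mod_cast hg
  rw [e1, e2] at h2
  have h3 : ∀ z ∈ N, 3 * (R z : ℤ) ≤ 6 * b + 2 * D z - if z = m then 5 + E else 0 := by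
    intro z hz
    have hb := hcN z hz
    have hn := hD z hz
    split_ifs with hzm
    · subst hzm
      omega
    · omega
  have h4 : ∀ w ∈ F, 2 * (R w : ℤ) ≤ 4 * b + 2 * D w := by
    intro w hw
    have hb := hcF w hw
    omega
  have h5 := sum_le_sum h3
  have h6 := sum_le_sum h4
  rw [← mul_sum, sum_sub_distrib, sum_add_distrib, ← mul_sum, sum_const, nsmul_eq_mul,
    sum_ite_eq' N m, if_pos hm] at h5
  rw [← mul_sum, sum_add_distrib, ← mul_sum, sum_const, nsmul_eq_mul] at h6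
  have h10 : (B.card : ℤ) = b * s + 1 := by exact_mod_cast hB
  have h9 : (N.card : ℤ) + F.card = s := by exact_mod_cast hs
  rw [h10] at h2
  have h11 : (b : ℤ) * s = N.card * b + F.card * b := by rw [← h9]; ring
  have eD : ∀ P : Finset V, ∑ x ∈ P, 2 * D x = 2 * ∑ x ∈ P, D x :=
    fun P => (mul_sum _ _ _).symm
  rw [eD] at h5 h6
  linarith

/-- second weights -/
theorem k1_abs2 {N F B Om P : Finset V} {n g R : V → ℕ} {D κ : V → ℤ} {b s : ℕ} {E : ℤ} {m : V}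
    (hn : ∑ y ∈ B, n y = ∑ w ∈ N, R w) (hg : ∑ y ∈ B, g y = ∑ w ∈ F, R w)
    (hty : ∀ y ∈ B, y ∉ P → 4 ≤ 2 * n y + g y) (hty3 : ∀ y ∈ B, 3 ≤ 2 * n y + g y)
    (hPB : P ⊆ B)
    (hcN : ∀ w ∈ N, (R w : ℤ) ≤ 2 * b + D w) (hcF : ∀ w ∈ F, (R w : ℤ) ≤ 2 * b + D w)
    (hD : ∀ w ∈ N, D w ≤ 0)
    (hON : ∀ w ∈ N, w ∈ Om → (R w : ℤ) ≤ 2 * b + D w - κ w)
    (hOF : ∀ w ∈ F, w ∈ Om → (R w : ℤ) ≤ 2 * b + D w - κ w)
    (hm : m ∈ N) (hmO : m ∉ Om) (hm1 : (R m : ℤ) ≤ 2 * b - 1 - E)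
    (hm2 : (R m : ℤ) ≤ 2 * b - 2 + D m)
    (hB : B.card = b * s + 1) (hs : N.card + F.card = s) :
    7 + 2 * (b : ℤ) * F.card + E + (2 * (∑ w ∈ N, if w ∈ Om then κ w else 0) +
      ∑ w ∈ F, if w ∈ Om then κ w else 0) ≤ P.card + (∑ w ∈ N, D w + ∑ w ∈ F, D w) := by
  have h1 : ∀ y ∈ B, (4 : ℤ) ≤ 2 * (n y : ℤ) + (g y : ℤ) + if y ∈ P then 1 else 0 := by
    intro y hy
    have h3 := hty3 y hy
    split_ifs with hyP
    · omega
    · have := hty y hy hyP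
      omega
  have h2 := card_nsmul_le_sum B _ 4 h1
  rw [nsmul_eq_mul, sum_add_distrib, sum_add_distrib, ← mul_sum, sum_ite_mem, sum_const,
    nsmul_eq_mul, mul_one, inter_eq_right.2 hPB] at h2
  have e1 : ∑ y ∈ B, (n y : ℤ) = ∑ w ∈ N, (R w : ℤ) := by exact_mod_cast hn
  have e2 : ∑ y ∈ B, (g y : ℤ) = ∑ w ∈ F, (R w : ℤ) := by exact_mod_cast hg
  rw [e1, e2] at h2
  have h3 : ∀ z ∈ N, 2 * (R z : ℤ) ≤ 4 * b + D z - (if z = m then 3 + E else 0) -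
      2 * (if z ∈ Om then κ z else 0) := by
    intro z hz
    have hb := hcN z hz
    have hn := hD z hz
    by_cases hzm : z = m
    · subst hzm
      rw [if_pos rfl, if_neg hmO]
      omega
    · rw [if_neg hzm]
      split_ifs with hO
      · have := hON z hz hO
        omega
      · omega
  have h4 : ∀ w ∈ F, (R w : ℤ) ≤ 2 * b + D w - (if w ∈ Om then κ w else 0) := by
    intro w hw
    have hb := hcF w hw
    split_ifs with hO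
    · have := hOF w hw hO
      omega
    · omega
  have h5 := sum_le_sum h3
  have h6 := sum_le_sum h4
  rw [← mul_sum, sum_sub_distrib, sum_sub_distrib, sum_add_distrib, sum_const, nsmul_eq_mul,
    sum_ite_eq' N m, if_pos hm, ← mul_sum] at h5
  rw [sum_sub_distrib, sum_add_distrib, sum_const, nsmul_eq_mul] at h6
  have h10 : (B.card : ℤ) = b * s + 1 := by exact_mod_cast hB
  have h9 : (N.card : ℤ) + F.card = s := by exact_mod_cast hs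
  rw [h10] at h2
  have h11 : (b : ℤ) * s = N.card * b + F.card * b := by rw [← h9]; ring
  linarith

/-- third weights -/
theorem k1_abs3 {N L O B : Finset V} {n l o R : V → ℕ} {D : V → ℤ} {b s τ : ℕ} {sv : ℤ}
    (hn : ∑ y ∈ B, n y = ∑ w ∈ N, R w) (hl : ∑ y ∈ B, l y = ∑ w ∈ L, R w)
    (ho : ∑ y ∈ B, o y = ∑ w ∈ O, R w)
    (hty : ∀ y ∈ B, 12 ≤ 6 * n y + 4 * l y + 3 * o y)
    (hcN : ∀ w ∈ N, (R w : ℤ) ≤ 2 * b + D w) (hcL : ∀ w ∈ L, (R w : ℤ) ≤ 2 * b + D w)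
    (hcO : ∀ w ∈ O, (R w : ℤ) ≤ 2 * b + D w)
    (hD : ∀ w ∈ N, D w ≤ 0) (hDL : ∀ w ∈ L, D w ≤ 2 * τ)
    (hsv : (∃ m ∈ N, 6 * (R m : ℤ) ≤ 12 * b + 3 * D m - sv) ∨ sv = 0)
    (hB : B.card = b * s + 1) (hs : N.card + (L.card + O.card) = s) :
    12 + sv + (4 * (b : ℤ) - 2 * τ) * L.card + 6 * b * O.card ≤
      3 * (∑ w ∈ N, D w + (∑ w ∈ L, D w + ∑ w ∈ O, D w)) := by
  have h1 : ∀ y ∈ B, (12 : ℤ) ≤ 6 * (n y : ℤ) + 4 * (l y : ℤ) + 3 * (o y : ℤ) := by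
    intro y hy
    have := hty y hy
    omega
  have h2 := card_nsmul_le_sum B _ 12 h1
  rw [nsmul_eq_mul, sum_add_distrib, sum_add_distrib, ← mul_sum, ← mul_sum, ← mul_sum] at h2
  have e1 : ∑ y ∈ B, (n y : ℤ) = ∑ w ∈ N, (R w : ℤ) := by exact_mod_cast hn
  have e2 : ∑ y ∈ B, (l y : ℤ) = ∑ w ∈ L, (R w : ℤ) := by exact_mod_cast hl
  have e3 : ∑ y ∈ B, (o y : ℤ) = ∑ w ∈ O, (R w : ℤ) := by exact_mod_cast ho
  rw [e1, e2, e3] at h2
  have eD : ∀ P : Finset V, ∑ x ∈ P, 3 * D x = 3 * ∑ x ∈ P, D x :=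
    fun P => (mul_sum _ _ _).symm
  have h3 : 6 * ∑ z ∈ N, (R z : ℤ) ≤ 12 * b * N.card + 3 * ∑ z ∈ N, D z - sv := by
    have hgen : ∀ z ∈ N, 6 * (R z : ℤ) ≤ 12 * b + 3 * D z := by
      intro z hz
      have hb := hcN z hz
      have hn := hD z hz
      omega
    rcases hsv with ⟨m, hmN, hm⟩ | hsv
    · have hgen' : ∀ z ∈ N, 6 * (R z : ℤ) ≤ 12 * b + 3 * D z - if z = m then sv else 0 := by
        intro z hz
        split_ifs with hzm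
        · rw [hzm]; exact hm
        · have := hgen z hz
          linarith
      have h5 := sum_le_sum hgen'
      rw [sum_sub_distrib, sum_add_distrib, ← mul_sum, sum_const, nsmul_eq_mul,
        sum_ite_eq' N m, if_pos hmN, eD] at h5
      linarith
    · have h5 := sum_le_sum hgen
      rw [sum_add_distrib, ← mul_sum, sum_const, nsmul_eq_mul, eD] at h5
      linarith
  have h4 : 4 * ∑ w ∈ L, (R w : ℤ) ≤ (8 * b + 2 * τ) * L.card + 3 * ∑ w ∈ L, D w := by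
    have hgen : ∀ w ∈ L, 4 * (R w : ℤ) ≤ (8 * b + 2 * τ) + 3 * D w := by
      intro w hw
      have hb := hcL w hw
      have hb2 := hDL w hw
      linarith
    have h5 := sum_le_sum hgen
    rw [sum_add_distrib, ← mul_sum, sum_const, nsmul_eq_mul, eD] at h5
    linarith
  have h5 : 3 * ∑ w ∈ O, (R w : ℤ) ≤ 6 * b * O.card + 3 * ∑ w ∈ O, D w := by
    have hgen : ∀ w ∈ O, 3 * (R w : ℤ) ≤ 6 * b + 3 * D w := by
      intro w hw
      have hb := hcO w hw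
      linarith
    have h5 := sum_le_sum hgen
    rw [sum_add_distrib, ← mul_sum, sum_const, nsmul_eq_mul, eD] at h5
    linarith
  have h10 : (B.card : ℤ) = b * s + 1 := by exact_mod_cast hB
  have h9 : (N.card : ℤ) + (L.card + O.card) = s := by exact_mod_cast hs
  rw [h10] at h2
  have h11 : (b : ℤ) * s = b * N.card + b * L.card + b * O.card := by rw [← h9]; ring
  linarith

/-! ### the counting inequalities -/

section Main
variable {μ : V → V → ℕ} {s b : ℕ} {U : Finset V} {f : V → ℕ} {𝒜 : Finset ℕ} {r : ℕ}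

theorem k1_Nm_sub {W : ℕ} : Nm μ U f 𝒜 W ⊆ cl U f W := filter_subset _ _

theorem k1_Fm_sub {W : ℕ} : Fm μ U f 𝒜 W ⊆ cl U f W := filter_subset _ _

theorem k1_Tn_sub {W : ℕ} {y : V} : Tn0 μ U f 𝒜 W y ⊆ Fm μ U f 𝒜 W := filter_subset _ _

theorem k1_sum_split {M : Type*} [AddCommMonoid M] (W : ℕ) (g : V → M) :
    ∑ w ∈ cl U f W, g w = ∑ w ∈ Nm μ U f 𝒜 W, g w + ∑ w ∈ Fm μ U f 𝒜 W, g w := by
  unfold Nm Fm
  exact (sum_filter_add_sum_filter_not _ _ _).symm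

theorem k1_card_split (h : Setup0 μ s b U f 𝒜 r) {W : ℕ} (hW : W ∈ 𝒜) (hWr : W ≠ r) :
    (Nm μ U f 𝒜 W).card + (Fm μ U f 𝒜 W).card = s := by
  rw [← h.card_cl W hW hWr]
  unfold Nm Fm
  exact card_filter_add_card_filter_not _

theorem k1_mem_om {C : Finset V} {y u : V} :
    u ∈ om μ C y ↔ u ∈ C ∧ μ y u = 1 ∧ ee μ u C = 0 := by
  unfold om
  rw [mem_filter]

/-- the number of the vertices of `B` with a simple edge to `u`, minus one -/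
def k1w (μ : V → V → ℕ) (B : Finset V) (u : V) : ℤ :=
  ((B.filter (fun y => μ y u = 1)).card : ℤ) - 1

theorem k1w_nonneg {B C : Finset V} {y u : V} (hy : y ∈ B) (hu : u ∈ om μ C y) :
    0 ≤ k1w μ B u := by
  unfold k1w
  have h1 := (k1_mem_om.1 hu).2.1
  have : 0 < (B.filter (fun y => μ y u = 1)).card := card_pos.2 ⟨y, mem_filter.2 ⟨hy, h1⟩⟩
  omega

/-- first counting inequality -/
theorem k1_P1 (h : Setup0 μ s b U f 𝒜 r) {W : ℕ} (hW : W ∈ 𝒜) (hWr : W ≠ r)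
    (ht : NoCl (arc μ U f) 𝒜 r {W}) {y : V} (hy : y ∈ BB U f 𝒜) (hP : IsP0 μ U f 𝒜 W y) :
    2 * (b : ℤ) * (Fm μ U f 𝒜 W).card + 11 + (EE μ U f 𝒜 y : ℤ) ≤
      2 * ∑ X ∈ 𝒜.erase W, hh μ U f 𝒜 W X := by
  obtain ⟨m, hmN, hmac, hmu, hmd⟩ := PQ_center h hW hWr ht hy (Or.inl hP)
  rw [hP.1] at hmu
  have hsw := swap_bound h hW hWr ht hmN hy hmac
  have hrm := rB_le_ee h.mg (cl U f W) m (BB U f 𝒜)
  have hcd := cap_deg h hW (k1_Nm_sub hmN)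
  rw [← sum_Dl, k1_sum_split (μ := μ) (𝒜 := 𝒜)]
  exact k1_abs1 (sum_rr _ _ _) (sum_rr _ _ _) (fun y' hy' => types0 h hW hWr ht hy')
    (fun w hw => cap h hW (k1_Nm_sub hw)) (fun w hw => cap h hW (k1_Fm_sub hw))
    (fun w hw => Dl_nonpos h hw) hmN (by omega) (by omega) h.card_B (k1_card_split h hW hWr)

open Classical in
/-- second counting inequality -/
theorem k1_P2 (h : Setup0 μ s b U f 𝒜 r) {W : ℕ} (hW : W ∈ 𝒜) (hWr : W ≠ r)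
    (ht : NoCl (arc μ U f) 𝒜 r {W}) {y : V} (hy : y ∈ BB U f 𝒜) (hP : IsP0 μ U f 𝒜 W y) :
    7 + 2 * (b : ℤ) * (Fm μ U f 𝒜 W).card + (EE μ U f 𝒜 y : ℤ) +
      (2 * (∑ w ∈ Nm μ U f 𝒜 W, if w ∈ om μ (cl U f W) y then k1w μ (BB U f 𝒜) w else 0) +
      ∑ w ∈ Fm μ U f 𝒜 W, if w ∈ om μ (cl U f W) y then k1w μ (BB U f 𝒜) w else 0) ≤
      ((BB U f 𝒜).filter (fun y' => IsP0 μ U f 𝒜 W y')).card +
        ∑ X ∈ 𝒜.erase W, hh μ U f 𝒜 W X := by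
  obtain ⟨m, hmN, hmac, hmu, hmd⟩ := PQ_center h hW hWr ht hy (Or.inl hP)
  rw [hP.1] at hmu
  have hsw := swap_bound h hW hWr ht hmN hy hmac
  have hrm := rB_le_ee h.mg (cl U f W) m (BB U f 𝒜)
  have hcd := cap_deg h hW (k1_Nm_sub hmN)
  rw [← sum_Dl, k1_sum_split (μ := μ) (𝒜 := 𝒜)]
  have hOm : ∀ w ∈ cl U f W, w ∈ om μ (cl U f W) y →
      (rB μ (cl U f W) (BB U f 𝒜) w : ℤ) ≤ 2 * b + Dl μ U f 𝒜 W w - k1w μ (BB U f 𝒜) w := by
    intro w hw hwO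
    have h1 := cap_wasted h hW hw (k1_mem_om.1 hwO).2.2
    unfold k1w
    omega
  refine k1_abs2 (m := m) (sum_rr _ _ _) (sum_rr _ _ _) ?_ ?_ (filter_subset _ _)
    (fun w hw => cap h hW (k1_Nm_sub hw)) (fun w hw => cap h hW (k1_Fm_sub hw))
    (fun w hw => Dl_nonpos h hw) (fun w hw => hOm w (k1_Nm_sub hw))
    (fun w hw => hOm w (k1_Fm_sub hw)) hmN ?_ (by omega) (by omega) h.card_B
    (k1_card_split h hW hWr)
  · intro y' hy' hnP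
    have hty := types0 h hW hWr ht hy'
    have hnP' : ¬ IsP0 μ U f 𝒜 W y' := fun hP' => hnP (mem_filter.2 ⟨hy', hP'⟩)
    unfold IsP0 at hnP'
    omega
  · intro y' hy'
    have hty := types0 h hW hWr ht hy'
    omega
  · intro hmO
    have := (k1_mem_om.1 hmO).2.2
    omega

theorem k1_kappa (W : ℕ) (y : V) (g : V → ℤ) :
    ∑ u ∈ om μ (cl U f W) y, g u =
      (∑ w ∈ Nm μ U f 𝒜 W, if w ∈ om μ (cl U f W) y then g w else 0) +
      ∑ w ∈ Fm μ U f 𝒜 W, if w ∈ om μ (cl U f W) y then g w else 0 := by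
  rw [← k1_sum_split, sum_ite_mem, inter_eq_right.2]
  exact filter_subset _ _

open Classical in
/-- the number of vertices of type `P` which are adjacent to `y` or share a wasted neighbour -/
theorem k1_count {W : ℕ} {y i : V} (hy : y ∈ BB U f 𝒜)
    (hadj : ∀ y' ∈ BB U f 𝒜, y ≠ y' → IsP0 μ U f 𝒜 W y' → i ∈ Tn0 μ U f 𝒜 W y' →
      μ y y' = 0 → ¬ Disjoint (om μ (cl U f W) y) (om μ (cl U f W) y')) :
    (((BB U f 𝒜).filter (fun y' => IsP0 μ U f 𝒜 W y' ∧ i ∈ Tn0 μ U f 𝒜 W y')).card : ℤ) ≤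
      1 + ee μ y (BB U f 𝒜) + ∑ u ∈ om μ (cl U f W) y, k1w μ (BB U f 𝒜) u := by
  set B := BB U f 𝒜 with hB
  have hsub : B.filter (fun y' => IsP0 μ U f 𝒜 W y' ∧ i ∈ Tn0 μ U f 𝒜 W y') ⊆
      insert y (B.filter (fun y' => 0 < μ y y') ∪
        (om μ (cl U f W) y).biUnion (fun u => (B.filter (fun y' => μ y' u = 1)).erase y)) := by
    intro y' hy'
    rw [mem_filter] at hy'
    by_cases he : y' = y
    · rw [he]; exact mem_insert_self _ _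
    · apply mem_insert_of_mem
      rw [mem_union, mem_filter, mem_biUnion]
      by_cases h0 : μ y y' = 0
      · right
        have hd := hadj y' hy'.1 (Ne.symm he) hy'.2.1 hy'.2.2 h0
        rw [not_disjoint_iff] at hd
        obtain ⟨u, hu, hu'⟩ := hd
        exact ⟨u, hu, mem_erase.2 ⟨he, mem_filter.2 ⟨hy'.1, (k1_mem_om.1 hu').2.1⟩⟩⟩
      · left
        exact ⟨hy'.1, Nat.pos_of_ne_zero h0⟩
  have h2 := card_le_card hsub
  have h3 := card_insert_le y (B.filter (fun y' => 0 < μ y y') ∪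
        (om μ (cl U f W) y).biUnion (fun u => (B.filter (fun y' => μ y' u = 1)).erase y))
  have h3' := card_union_le (B.filter (fun y' => 0 < μ y y'))
        ((om μ (cl U f W) y).biUnion (fun u => (B.filter (fun y' => μ y' u = 1)).erase y))
  have h4 : (B.filter (fun y' => 0 < μ y y')).card ≤ ee μ y B := by
    unfold ee
    rw [card_eq_sum_ones, sum_filter]
    apply sum_le_sum
    intro y' _
    split_ifs <;> omega
  have h5 : (((om μ (cl U f W) y).biUnion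
      (fun u => (B.filter (fun y' => μ y' u = 1)).erase y)).card : ℤ) ≤
      ∑ u ∈ om μ (cl U f W) y, k1w μ B u := by
    have h6 := card_biUnion_le (s := om μ (cl U f W) y)
      (t := fun u => (B.filter (fun y' => μ y' u = 1)).erase y)
    have h7 : ((∑ u ∈ om μ (cl U f W) y,
        ((B.filter (fun y' => μ y' u = 1)).erase y).card : ℕ) : ℤ) =
        ∑ u ∈ om μ (cl U f W) y, k1w μ B u := by
      push_cast
      apply sum_congr rfl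
      intro u hu
      have hyu : y ∈ B.filter (fun y' => μ y' u = 1) :=
        mem_filter.2 ⟨hy, (k1_mem_om.1 hu).2.1⟩
      rw [card_erase_of_mem hyu]
      unfold k1w
      have : 0 < (B.filter (fun y' => μ y' u = 1)).card := card_pos.2 ⟨y, hyu⟩
      omega
    rw [← h7]
    exact_mod_cast h6
  omega

/-- the part of the excess outside `W` -/
theorem k1_EE_erase {W : ℕ} (hW : W ∈ 𝒜) (y : V) :
    EE μ U f 𝒜 y = ep μ U f y W + ∑ c ∈ 𝒜.erase W, ep μ U f y c := by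
  unfold EE
  rw [add_sum_erase _ _ hW]

theorem k1_ep {W : ℕ} (h : Setup0 μ s b U f 𝒜 r) (hW : W ∈ 𝒜) {y : V} (hy : y ∈ BB U f 𝒜)
    (hPQ : IsP0 μ U f 𝒜 W y ∨ IsQ0 μ U f 𝒜 W y) :
    ep μ U f y W = 1 + (om μ (cl U f W) y).card := by
  have h1 := ep_add_two h hy hW
  have h2 := rho_split (μ := μ) (U := U) (f := f) (𝒜 := 𝒜) W y
  rcases hPQ with ⟨h3, h4⟩ | ⟨h3, h4⟩ <;> omega

/-- `H ≤ 3 E' + 2 θ φ` -/
theorem k1_H_le {W : ℕ} {I' : Finset ℕ} {θ : ℕ} (hI : I' ⊆ 𝒜.erase W)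
    (hH : ∑ X ∈ 𝒜.erase W, hh μ U f 𝒜 W X ≤
      ∑ X ∈ I' with 0 < hh μ U f 𝒜 W X, hh μ U f 𝒜 W X + 2 * θ * (Fm μ U f 𝒜 W).card)
    {y : V} (hc : ∀ X ∈ I', 0 < hh μ U f 𝒜 W X →
      1 ≤ ep μ U f y X ∧ hh μ U f 𝒜 W X ≤ 2 + ep μ U f y X) :
    ∑ X ∈ 𝒜.erase W, hh μ U f 𝒜 W X ≤
      3 * ((∑ c ∈ 𝒜.erase W, ep μ U f y c : ℕ) : ℤ) + 2 * θ * (Fm μ U f 𝒜 W).card := by
  refine hH.trans ?_
  have h1 : ∑ X ∈ I' with 0 < hh μ U f 𝒜 W X, hh μ U f 𝒜 W X ≤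
      ∑ X ∈ I' with 0 < hh μ U f 𝒜 W X, 3 * (ep μ U f y X : ℤ) := by
    apply sum_le_sum
    intro X hX
    rw [mem_filter] at hX
    have := hc X hX.1 hX.2
    omega
  have h2 : ∑ X ∈ I' with 0 < hh μ U f 𝒜 W X, 3 * (ep μ U f y X : ℤ) ≤
      ∑ X ∈ 𝒜.erase W, 3 * (ep μ U f y X : ℤ) := by
    apply sum_le_sum_of_subset_of_nonneg
    · exact (filter_subset _ _).trans hI
    · intro X _ _
      positivity
  rw [← mul_sum] at h1
  rw [← mul_sum, ← mul_sum] at h2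
  push_cast
  linarith

/-- `H ≤ 2 E' + |Ex| + 2 θ φ` -/
theorem k1_H_le' {W : ℕ} {I' : Finset ℕ} {θ : ℕ} (hI : I' ⊆ 𝒜.erase W)
    (hH : ∑ X ∈ 𝒜.erase W, hh μ U f 𝒜 W X ≤
      ∑ X ∈ I' with 0 < hh μ U f 𝒜 W X, hh μ U f 𝒜 W X + 2 * θ * (Fm μ U f 𝒜 W).card)
    {y : V} (hc : ∀ X ∈ I', 0 < hh μ U f 𝒜 W X →
      1 ≤ ep μ U f y X ∧ hh μ U f 𝒜 W X ≤ 2 + ep μ U f y X) :
    ∑ X ∈ 𝒜.erase W, hh μ U f 𝒜 W X ≤
      2 * ((∑ c ∈ 𝒜.erase W, ep μ U f y c : ℕ) : ℤ) +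
      ((I'.filter (fun X => hh μ U f 𝒜 W X = 3 ∧ ep μ U f y X = 1)).card : ℤ) +
      2 * θ * (Fm μ U f 𝒜 W).card := by
  refine hH.trans ?_
  have h1 : ∑ X ∈ I' with 0 < hh μ U f 𝒜 W X, hh μ U f 𝒜 W X ≤
      ∑ X ∈ I' with 0 < hh μ U f 𝒜 W X, (2 * (ep μ U f y X : ℤ) +
        if hh μ U f 𝒜 W X = 3 ∧ ep μ U f y X = 1 then 1 else 0) := by
    apply sum_le_sum
    intro X hX
    rw [mem_filter] at hX
    have := hc X hX.1 hX.2
    split_ifs with h3 <;> omega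
  have h2 : ∑ X ∈ I' with 0 < hh μ U f 𝒜 W X, 2 * (ep μ U f y X : ℤ) ≤
      ∑ X ∈ 𝒜.erase W, 2 * (ep μ U f y X : ℤ) := by
    apply sum_le_sum_of_subset_of_nonneg
    · exact (filter_subset _ _).trans hI
    · intro X _ _
      positivity
  have h3 : ∑ X ∈ I' with 0 < hh μ U f 𝒜 W X,
      (if hh μ U f 𝒜 W X = 3 ∧ ep μ U f y X = 1 then (1 : ℤ) else 0) ≤
      ∑ X ∈ I', (if hh μ U f 𝒜 W X = 3 ∧ ep μ U f y X = 1 then (1 : ℤ) else 0) := by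
    apply sum_le_sum_of_subset_of_nonneg (filter_subset _ _)
    intro X _ _
    split_ifs <;> norm_num
  have h4 : ∑ X ∈ I', (if hh μ U f 𝒜 W X = 3 ∧ ep μ U f y X = 1 then (1 : ℤ) else 0) =
      ((I'.filter (fun X => hh μ U f 𝒜 W X = 3 ∧ ep μ U f y X = 1)).card : ℤ) := by
    rw [← sum_filter, sum_const, nsmul_eq_mul, mul_one]
  rw [sum_add_distrib, ← mul_sum] at h1
  rw [← mul_sum, ← mul_sum] at h2
  push_cast
  linarith

/-- the set of the exceptional partners is small -/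
theorem k1_Ex (h : Setup0 μ s b U f 𝒜 r) {W : ℕ} {I' : Finset ℕ} (hI : I' ⊆ 𝒜.erase W) {y : V}
    (hT : (Tn0 μ U f 𝒜 W y).card = 3)
    (hno : ∀ X ∈ I', 0 < hh μ U f 𝒜 W X → ep μ U f y X ≤ 1 → ∀ i ∈ Tn0 μ U f 𝒜 W y,
      X ∈ tg μ U f 𝒜 i → (tg μ U f 𝒜 i).card ≤ 1) :
    ((Fm μ U f 𝒜 W).card = 3 →
      (I'.filter (fun X => hh μ U f 𝒜 W X = 3 ∧ ep μ U f y X = 1)).card ≤ 1) ∧
    ((Fm μ U f 𝒜 W).card = 4 →
      (I'.filter (fun X => hh μ U f 𝒜 W X = 3 ∧ ep μ U f y X = 1)).card ≤ 3) := by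
  have key : ∀ X ∈ I'.filter (fun X => hh μ U f 𝒜 W X = 3 ∧ ep μ U f y X = 1),
      2 ≤ ((Fm μ U f 𝒜 W).filter (fun w => X ∈ tg μ U f 𝒜 w)).card ∧
      ∀ i ∈ Tn0 μ U f 𝒜 W y, X ∈ tg μ U f 𝒜 i → (tg μ U f 𝒜 i).card ≤ 1 := by
    intro X hX
    rw [mem_filter] at hX
    have hXe := mem_erase.1 (hI hX.1)
    have h1 := hh_le_tg h (W := W) hXe.2 hXe.1
    refine ⟨by omega, hno X hX.1 (by omega) (by omega)⟩
  constructor
  · intro h3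
    have hTF : Tn0 μ U f 𝒜 W y = Fm μ U f 𝒜 W :=
      eq_of_subset_of_card_le k1_Tn_sub (by omega)
    rw [card_le_one]
    intro X hX Y hY
    by_contra hXY
    have h1 := key X hX
    have h2 := key Y hY
    have hdis : Disjoint ((Fm μ U f 𝒜 W).filter (fun w => X ∈ tg μ U f 𝒜 w))
        ((Fm μ U f 𝒜 W).filter (fun w => Y ∈ tg μ U f 𝒜 w)) := by
      rw [disjoint_left]
      intro w hw hw'
      rw [mem_filter] at hw hw'
      have h5 := h1.2 w (hTF ▸ hw.1) hw.2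
      rw [card_le_one] at h5
      exact hXY (h5 X hw.2 Y hw'.2)
    have h6 := card_union_of_disjoint hdis
    have h7 : ((Fm μ U f 𝒜 W).filter (fun w => X ∈ tg μ U f 𝒜 w) ∪
        (Fm μ U f 𝒜 W).filter (fun w => Y ∈ tg μ U f 𝒜 w)).card ≤ (Fm μ U f 𝒜 W).card :=
      card_le_card (union_subset (filter_subset _ _) (filter_subset _ _))
    omega
  · intro h4
    have hsub : I'.filter (fun X => hh μ U f 𝒜 W X = 3 ∧ ep μ U f y X = 1) ⊆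
        (Tn0 μ U f 𝒜 W y).biUnion
          (fun i => if (tg μ U f 𝒜 i).card ≤ 1 then tg μ U f 𝒜 i else ∅) := by
      intro X hX
      have h1 := key X hX
      have h2 : ∃ i ∈ Tn0 μ U f 𝒜 W y, X ∈ tg μ U f 𝒜 i := by
        by_contra hcon
        push Not at hcon
        have h5 : (Fm μ U f 𝒜 W).filter (fun w => X ∈ tg μ U f 𝒜 w) ⊆
            Fm μ U f 𝒜 W \ Tn0 μ U f 𝒜 W y := by
          intro w hw
          rw [mem_filter] at hw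
          rw [mem_sdiff]
          exact ⟨hw.1, fun hwT => hcon w hwT hw.2⟩
        have h6 := card_le_card h5
        rw [card_sdiff_of_subset k1_Tn_sub] at h6
        omega
      obtain ⟨i, hi, hXi⟩ := h2
      rw [mem_biUnion]
      refine ⟨i, hi, ?_⟩
      rw [if_pos (h1.2 i hi hXi)]
      exact hXi
    have h1 := card_le_card hsub
    have h2 : ((Tn0 μ U f 𝒜 W y).biUnion
        (fun i => if (tg μ U f 𝒜 i).card ≤ 1 then tg μ U f 𝒜 i else ∅)).card ≤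
        (Tn0 μ U f 𝒜 W y).card * 1 := by
      apply card_biUnion_le_card_mul
      intro i _
      split_ifs with h1
      · omega
      · simp
    omega

/-- a heavy vertex of type `P` forces `3 ≤ |F| ≤ 4` and `b ≥ 3` -/
theorem k1_phi (h : Setup0 μ s b U f 𝒜 r) (hb : 2 ≤ b) {W : ℕ} (hW : W ∈ 𝒜) (hWr : W ≠ r)
    (ht : NoCl (arc μ U f) 𝒜 r {W}) {I' : Finset ℕ} {θ : ℕ} (hI : I' ⊆ 𝒜.erase W)
    (hθ : θ ≤ 1)
    (hH : ∑ X ∈ 𝒜.erase W, hh μ U f 𝒜 W X ≤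
      ∑ X ∈ I' with 0 < hh μ U f 𝒜 W X, hh μ U f 𝒜 W X + 2 * θ * (Fm μ U f 𝒜 W).card)
    {y : V} (hy : y ∈ BB U f 𝒜) (hP : IsP0 μ U f 𝒜 W y)
    (hc : ∀ X ∈ I', 0 < hh μ U f 𝒜 W X →
      1 ≤ ep μ U f y X ∧ hh μ U f 𝒜 W X ≤ 2 + ep μ U f y X) :
    3 ≤ b ∧ ((Fm μ U f 𝒜 W).card = 3 ∨ (Fm μ U f 𝒜 W).card = 4) := by
  have h1 := k1_P1 h hW hWr ht hy hP
  have h2 := k1_H_le hI hH hc
  have h3 := k1_EE_erase (μ := μ) (U := U) (f := f) hW y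
  have h4 := k1_ep h hW hy (Or.inl hP)
  have h5 := EE_bound h hy
  have h6 := (PQ_Tn h hW hWr ht hy (Or.inl hP)).2.2.1 hP
  have h7 := card_le_card (k1_Tn_sub (μ := μ) (U := U) (f := f) (𝒜 := 𝒜) (W := W) (y := y))
  generalize hφ : (Fm μ U f 𝒜 W).card = φ at *
  generalize ∑ X ∈ 𝒜.erase W, hh μ U f 𝒜 W X = H at *
  generalize ∑ c ∈ 𝒜.erase W, ep μ U f y c = E' at *
  have hb' : (2 : ℤ) ≤ b := by exact_mod_cast hb
  have hφ3 : 3 ≤ φ := by omega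
  have hφ3' : (3 : ℤ) ≤ φ := by exact_mod_cast hφ3
  have hEE : (EE μ U f 𝒜 y : ℤ) = 1 + ((om μ (cl U f W) y).card : ℤ) + E' := by
    rw [h3, h4]; push_cast; ring
  have hEb : (ee μ y (BB U f 𝒜) : ℤ) + EE μ U f 𝒜 y + 1 ≤ 2 * b := by exact_mod_cast h5
  have he0 : (0 : ℤ) ≤ ee μ y (BB U f 𝒜) := by positivity
  have ho0 : (0 : ℤ) ≤ (om μ (cl U f W) y).card := by positivity
  have hθφ : (θ : ℤ) * φ ≤ φ := by
    have : (θ : ℤ) ≤ 1 := by exact_mod_cast hθ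
    nlinarith
  have main : (2 * (b : ℤ) - 4) * φ ≤ 10 * b - 22 := by nlinarith
  have hb3 : 3 ≤ b := by
    by_contra hcon
    have : b = 2 := by omega
    subst this
    push_cast at main
    omega
  refine ⟨hb3, ?_⟩
  by_contra hcon
  have h5φ : (5 : ℤ) ≤ φ := by
    have : 5 ≤ φ := by omega
    exact_mod_cast this
  nlinarith [mul_nonneg (sub_nonneg.2 hb') (sub_nonneg.2 h5φ)]

/-- a heavy vertex of type `P` has a rich movable neighbour -/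
theorem k1_rich (h : Setup0 μ s b U f 𝒜 r) (hb : 2 ≤ b) {W : ℕ} (hW : W ∈ 𝒜) (hWr : W ≠ r)
    (ht : NoCl (arc μ U f) 𝒜 r {W}) {I' : Finset ℕ} {θ : ℕ} (hI : I' ⊆ 𝒜.erase W)
    (hθ : θ ≤ 1)
    (hH : ∑ X ∈ 𝒜.erase W, hh μ U f 𝒜 W X ≤
      ∑ X ∈ I' with 0 < hh μ U f 𝒜 W X, hh μ U f 𝒜 W X + 2 * θ * (Fm μ U f 𝒜 W).card)
    {y : V} (hy : y ∈ BB U f 𝒜) (hP : IsP0 μ U f 𝒜 W y)
    (hc : ∀ X ∈ I', 0 < hh μ U f 𝒜 W X →
      1 ≤ ep μ U f y X ∧ hh μ U f 𝒜 W X ≤ 2 + ep μ U f y X) :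
    ∃ X ∈ I', 0 < hh μ U f 𝒜 W X ∧ ep μ U f y X ≤ 1 ∧ ∃ i ∈ Tn0 μ U f 𝒜 W y,
      X ∈ tg μ U f 𝒜 i ∧ 2 ≤ (tg μ U f 𝒜 i).card := by
  by_contra hcon
  push Not at hcon
  have h6 := (PQ_Tn h hW hWr ht hy (Or.inl hP)).2.2.1 hP
  have hEx := k1_Ex h hI h6 (fun X hX hpos hep i hi hXi => by
    have := hcon X hX hpos hep i hi hXi
    omega)
  obtain ⟨hb3, hφ34⟩ := k1_phi h hb hW hWr ht hI hθ hH hy hP hc
  have h1 := k1_P1 h hW hWr ht hy hP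
  have h2 := k1_H_le' hI hH hc
  have h3 := k1_EE_erase (μ := μ) (U := U) (f := f) hW y
  have h4 := k1_ep h hW hy (Or.inl hP)
  have h5 := EE_bound h hy
  generalize hφ : (Fm μ U f 𝒜 W).card = φ at *
  generalize ∑ X ∈ 𝒜.erase W, hh μ U f 𝒜 W X = H at *
  generalize ∑ c ∈ 𝒜.erase W, ep μ U f y c = E' at *
  generalize (I'.filter (fun X => hh μ U f 𝒜 W X = 3 ∧ ep μ U f y X = 1)).card = c at *
  have hθ' : θ = 0 ∨ θ = 1 := by omega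
  obtain ⟨hE1, hE2⟩ := hEx
  rcases hφ34 with hφe | hφe
  · have hc1 := hE1 hφe
    subst hφe
    rcases hθ' with rfl | rfl <;> push_cast at * <;> omega
  · have hc1 := hE2 hφe
    subst hφe
    rcases hθ' with rfl | rfl <;> push_cast at * <;> omega

/-- adjacency plus wasted neighbours of `y` -/
def k1v (μ : V → V → ℕ) (U : Finset V) (f : V → ℕ) (𝒜 : Finset ℕ) (W : ℕ) (y : V) : ℤ :=
  ee μ y (BB U f 𝒜) + ∑ u ∈ om μ (cl U f W) y, k1w μ (BB U f 𝒜) u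

open Classical in
/-- there is no heavy vertex of type `P` -/
theorem k1_no_heavy_P (h : Setup0 μ s b U f 𝒜 r) (hb : 2 ≤ b) {W : ℕ} (hW : W ∈ 𝒜)
    (hWr : W ≠ r)
    (ht : NoCl (arc μ U f) 𝒜 r {W}) (Hv : V → Prop) (I' : Finset ℕ) (θ τ : ℕ)
    (hI : I' ⊆ 𝒜.erase W) (hθ : θ ≤ 1) (hτ : τ ≤ 2) (hθτ : θ = 1 → τ ≤ 1)
    (hlight : ∀ y ∈ BB U f 𝒜, ¬ Hv y → IsP0 μ U f 𝒜 W y →
      ∀ w ∈ Tn0 μ U f 𝒜 W y, (tg μ U f 𝒜 w).card ≤ τ)
    (hH : ∑ X ∈ 𝒜.erase W, hh μ U f 𝒜 W X ≤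
      ∑ X ∈ I' with 0 < hh μ U f 𝒜 W X, hh μ U f 𝒜 W X + 2 * θ * (Fm μ U f 𝒜 W).card)
    (hc : ∀ y ∈ BB U f 𝒜, Hv y → ∀ X ∈ I', 0 < hh μ U f 𝒜 W X →
      1 ≤ ep μ U f y X ∧ hh μ U f 𝒜 W X ≤ 2 + ep μ U f y X)
    (hrich : ∀ y ∈ BB U f 𝒜, Hv y → IsP0 μ U f 𝒜 W y → ∀ X ∈ I', 0 < hh μ U f 𝒜 W X →
      ep μ U f y X ≤ 1 → ∀ i ∈ Tn0 μ U f 𝒜 W y, X ∈ tg μ U f 𝒜 i → 2 ≤ (tg μ U f 𝒜 i).card →
      ∀ y' ∈ BB U f 𝒜, y ≠ y' → IsP0 μ U f 𝒜 W y' → i ∈ Tn0 μ U f 𝒜 W y' →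
      ∀ j ∈ Tn0 μ U f 𝒜 W y, j ∈ Tn0 μ U f 𝒜 W y' → i ≠ j → μ y y' = 0 →
      ¬ Disjoint (om μ (cl U f W) y) (om μ (cl U f W) y')) :
    ∀ y ∈ BB U f 𝒜, Hv y → ¬ IsP0 μ U f 𝒜 W y := by
  intro y0 hy0 hH0 hP0
  -- number of vertices of type `P` through a rich vertex
  have hbound : ∀ y ∈ BB U f 𝒜, Hv y → IsP0 μ U f 𝒜 W y → ∃ i ∈ Tn0 μ U f 𝒜 W y,
      (((BB U f 𝒜).filter (fun y' => IsP0 μ U f 𝒜 W y' ∧ i ∈ Tn0 μ U f 𝒜 W y')).card : ℤ) ≤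
        1 + k1v μ U f 𝒜 W y := by
    intro y hy hHy hP
    obtain ⟨X, hX, hpos, hep, i, hi, hXi, hi2⟩ :=
      k1_rich h hb hW hWr ht hI hθ hH hy hP (hc y hy hHy)
    obtain ⟨_, hφ34⟩ := k1_phi h hb hW hWr ht hI hθ hH hy hP (hc y hy hHy)
    refine ⟨i, hi, ?_⟩
    have hcnt := k1_count (i := i) (W := W) (μ := μ) hy (fun y' hy' hne hP' hi' h0 => by
      have hT := (PQ_Tn h hW hWr ht hy (Or.inl hP)).2.2.1 hP
      have hT' := (PQ_Tn h hW hWr ht hy' (Or.inl hP')).2.2.1 hP'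
      obtain ⟨j, hjT, hjT', hji⟩ : ∃ j ∈ Tn0 μ U f 𝒜 W y, j ∈ Tn0 μ U f 𝒜 W y' ∧ j ≠ i := by
        by_contra hno
        push Not at hno
        have h1 : (Tn0 μ U f 𝒜 W y) ∩ (Tn0 μ U f 𝒜 W y') ⊆ {i} := by
          intro j hj
          rw [mem_inter] at hj
          exact mem_singleton.2 (hno j hj.1 hj.2)
        have h2 := card_le_card h1
        rw [card_singleton] at h2
        have h3 := card_union_add_card_inter (Tn0 μ U f 𝒜 W y) (Tn0 μ U f 𝒜 W y')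
        have h4 : ((Tn0 μ U f 𝒜 W y) ∪ (Tn0 μ U f 𝒜 W y')).card ≤ (Fm μ U f 𝒜 W).card :=
          card_le_card (union_subset k1_Tn_sub k1_Tn_sub)
        omega
      exact hrich y hy hHy hP X hX hpos hep i hi hXi hi2 y' hy' hne hP' hi' j hjT hjT'
        (Ne.symm hji) h0)
    unfold k1v
    linarith
  have hne : ((BB U f 𝒜).filter (fun y => Hv y ∧ IsP0 μ U f 𝒜 W y)).Nonempty :=
    ⟨y0, mem_filter.2 ⟨hy0, hH0, hP0⟩⟩
  obtain ⟨y, hyf, hmax⟩ := exists_max_image _ (fun y => k1v μ U f 𝒜 W y) hne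
  rw [mem_filter] at hyf
  obtain ⟨hy, hHy, hP⟩ := hyf
  obtain ⟨hb3, hφ34⟩ := k1_phi h hb hW hWr ht hI hθ hH hy hP (hc y hy hHy)
  obtain ⟨i, hiT, hi⟩ := hbound y hy hHy hP
  have hcT := (PQ_Tn h hW hWr ht hy (Or.inl hP)).2.2.1 hP
  have hP2 := k1_P2 h hW hWr ht hy hP
  have hHle := k1_H_le hI hH (hc y hy hHy)
  have hE := k1_EE_erase (μ := μ) (U := U) (f := f) hW y
  have hep := k1_ep h hW hy (Or.inl hP)
  have hEb := EE_bound h hy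
  generalize ∑ c ∈ 𝒜.erase W, ep μ U f y c = E' at hHle hE
  have hkap := k1_kappa (μ := μ) (U := U) (f := f) (𝒜 := 𝒜) W y (k1w μ (BB U f 𝒜))
  have hKN : 0 ≤ ∑ w ∈ Nm μ U f 𝒜 W,
      if w ∈ om μ (cl U f W) y then k1w μ (BB U f 𝒜) w else 0 := by
    apply sum_nonneg
    intro w _
    split_ifs with hw
    · exact k1w_nonneg hy hw
    · exact le_rfl
  have hKF : 0 ≤ ∑ w ∈ Fm μ U f 𝒜 W,
      if w ∈ om μ (cl U f W) y then k1w μ (BB U f 𝒜) w else 0 := by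
    apply sum_nonneg
    intro w _
    split_ifs with hw
    · exact k1w_nonneg hy hw
    · exact le_rfl
  have hθ' : θ = 0 ∨ θ = 1 := by omega
  -- split
  have hsplit : ((BB U f 𝒜).filter (fun y' => IsP0 μ U f 𝒜 W y')).card =
      ((BB U f 𝒜).filter (fun y' => IsP0 μ U f 𝒜 W y' ∧ i ∈ Tn0 μ U f 𝒜 W y')).card +
      ((BB U f 𝒜).filter (fun y' => IsP0 μ U f 𝒜 W y' ∧ ¬ i ∈ Tn0 μ U f 𝒜 W y')).card := by
    rw [← filter_filter, ← filter_filter]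
    exact (card_filter_add_card_filter_not _).symm
  have hTeq : ∀ y' ∈ BB U f 𝒜, IsP0 μ U f 𝒜 W y' → ¬ i ∈ Tn0 μ U f 𝒜 W y' →
      Tn0 μ U f 𝒜 W y' = (Fm μ U f 𝒜 W).erase i ∧ (Fm μ U f 𝒜 W).card = 4 := by
    intro y' hy' hP' hi'
    have hcT' := (PQ_Tn h hW hWr ht hy' (Or.inl hP')).2.2.1 hP'
    have hsub : Tn0 μ U f 𝒜 W y' ⊆ (Fm μ U f 𝒜 W).erase i := by
      intro w hw
      rw [mem_erase]
      exact ⟨fun e => hi' (e ▸ hw), k1_Tn_sub hw⟩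
    have hce : ((Fm μ U f 𝒜 W).erase i).card = (Fm μ U f 𝒜 W).card - 1 :=
      card_erase_of_mem (k1_Tn_sub hiT)
    have hle := card_le_card hsub
    refine ⟨eq_of_subset_of_card_le hsub (by omega), by omega⟩
  have hv : k1v μ U f 𝒜 W y = ee μ y (BB U f 𝒜) +
    ∑ u ∈ om μ (cl U f W) y, k1w μ (BB U f 𝒜) u := rfl
  rcases hφ34 with hφ | hφ
  · -- `φ = 3`
    have h0 : ((BB U f 𝒜).filter
        (fun y' => IsP0 μ U f 𝒜 W y' ∧ ¬ i ∈ Tn0 μ U f 𝒜 W y')).card = 0 := by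
      rw [card_eq_zero, filter_eq_empty_iff]
      intro y' hy' hcon
      have := (hTeq y' hy' hcon.1 hcon.2).2
      omega
    rw [h0] at hsplit
    rw [hφ] at hP2 hHle
    rcases hθ' with rfl | rfl <;> push_cast at * <;> omega
  · -- `φ = 4`
    by_cases hex : ∃ y2 ∈ BB U f 𝒜, IsP0 μ U f 𝒜 W y2 ∧ ¬ i ∈ Tn0 μ U f 𝒜 W y2 ∧ Hv y2
    · obtain ⟨y2, hy2, hP2', hi2, hHv2⟩ := hex
      obtain ⟨i2, hi2T, hi2b⟩ := hbound y2 hy2 hHv2 hP2'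
      have hT2 := (hTeq y2 hy2 hP2' hi2).1
      have hsub : (BB U f 𝒜).filter
          (fun y' => IsP0 μ U f 𝒜 W y' ∧ ¬ i ∈ Tn0 μ U f 𝒜 W y') ⊆
          (BB U f 𝒜).filter (fun y' => IsP0 μ U f 𝒜 W y' ∧ i2 ∈ Tn0 μ U f 𝒜 W y') := by
        intro y' hy'
        rw [mem_filter] at hy' ⊢
        refine ⟨hy'.1, hy'.2.1, ?_⟩
        rw [(hTeq y' hy'.1 hy'.2.1 hy'.2.2).1]
        rw [hT2] at hi2T
        exact hi2T
      have h1 := card_le_card hsub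
      have h2 := hmax y2 (mem_filter.2 ⟨hy2, hHv2, hP2'⟩)
      have h3 : k1v μ U f 𝒜 W y2 ≤ k1v μ U f 𝒜 W y := h2
      have hKF0 : ∑ w ∈ Fm μ U f 𝒜 W,
          (if w ∈ om μ (cl U f W) y then k1w μ (BB U f 𝒜) w else 0) = 0 := by
        apply sum_eq_zero
        intro w hw
        rw [if_neg]
        intro hwO
        have hw0 := (k1_mem_om.1 hwO).2.2
        by_cases hwi : w = i
        · subst hwi
          have := ((PQ_Tn h hW hWr ht hy (Or.inl hP)).1 w hiT).2.2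
          omega
        · have hwT : w ∈ Tn0 μ U f 𝒜 W y2 := by
            rw [hT2]; exact mem_erase.2 ⟨hwi, hw⟩
          have := ((PQ_Tn h hW hWr ht hy2 (Or.inl hP2')).1 w hwT).2.2
          omega
      rw [hφ] at hP2 hHle
      rw [hKF0] at hP2 hkap
      have h1' : ((((BB U f 𝒜).filter
          (fun y' => IsP0 μ U f 𝒜 W y' ∧ ¬ i ∈ Tn0 μ U f 𝒜 W y')).card : ℕ) : ℤ) ≤
          1 + k1v μ U f 𝒜 W y := by
        have : ((((BB U f 𝒜).filter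
          (fun y' => IsP0 μ U f 𝒜 W y' ∧ ¬ i ∈ Tn0 μ U f 𝒜 W y')).card : ℕ) : ℤ) ≤
          (((BB U f 𝒜).filter (fun y' => IsP0 μ U f 𝒜 W y' ∧ i2 ∈ Tn0 μ U f 𝒜 W y')).card : ℕ) :=
          by exact_mod_cast h1
        linarith
      rcases hθ' with rfl | rfl <;> push_cast at * <;> omega
    · push Not at hex
      by_cases hex2 : ∃ y2 ∈ BB U f 𝒜, IsP0 μ U f 𝒜 W y2 ∧ ¬ i ∈ Tn0 μ U f 𝒜 W y2
      · obtain ⟨y2, hy2, hP2', hi2⟩ := hex2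
        have hnH := hex y2 hy2 hP2' hi2
        have hcT2 := (PQ_Tn h hW hWr ht hy2 (Or.inl hP2')).2.2.1 hP2'
        obtain ⟨w, hw⟩ : (Tn0 μ U f 𝒜 W y2).Nonempty := card_pos.1 (by omega)
        have hwcl : w ∈ cl U f W := k1_Fm_sub (k1_Tn_sub hw)
        have htgw := hlight y2 hy2 hnH hP2' w hw
        have hDl := Dl_le h hwcl
        have hcap := cap h hW hwcl
        have hsub : (BB U f 𝒜).filter
            (fun y' => IsP0 μ U f 𝒜 W y' ∧ ¬ i ∈ Tn0 μ U f 𝒜 W y') ⊆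
            (BB U f 𝒜).filter (fun y' => 0 < rm μ (cl U f W) y' w) := by
          intro y' hy'
          rw [mem_filter] at hy' ⊢
          refine ⟨hy'.1, ?_⟩
          have h1 := (hTeq y' hy'.1 hy'.2.1 hy'.2.2).1
          have h2 := (hTeq y2 hy2 hP2' hi2).1
          rw [h2, ← h1] at hw
          exact (mem_filter.1 hw).2
        have h4 : ((BB U f 𝒜).filter (fun y' => 0 < rm μ (cl U f W) y' w)).card ≤
            rB μ (cl U f W) (BB U f 𝒜) w := by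
          unfold rB
          rw [card_eq_sum_ones, sum_filter]
          apply sum_le_sum
          intro y' _
          split_ifs <;> omega
        have h5 := card_le_card hsub
        rw [hφ] at hP2 hHle
        rcases hθ' with rfl | rfl
        · push_cast at *
          omega
        · have := hθτ rfl
          push_cast at *
          omega
      · have h0 : ((BB U f 𝒜).filter
            (fun y' => IsP0 μ U f 𝒜 W y' ∧ ¬ i ∈ Tn0 μ U f 𝒜 W y')).card = 0 := by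
          rw [card_eq_zero, filter_eq_empty_iff]
          intro y' hy' hcon
          exact hex2 ⟨y', hy', hcon.1, hcon.2⟩
        rw [h0] at hsplit
        rw [hφ] at hP2 hHle
        rcases hθ' with rfl | rfl <;> push_cast at * <;> omega

open Classical in
/-- the real movable neighbours of the vertices of type `P` -/
noncomputable def k1L (μ : V → V → ℕ) (U : Finset V) (f : V → ℕ) (𝒜 : Finset ℕ) (W : ℕ) :
    Finset V :=
  ((BB U f 𝒜).filter (fun y => IsP0 μ U f 𝒜 W y)).biUnion (Tn0 μ U f 𝒜 W)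

theorem k1L_sub {W : ℕ} : k1L μ U f 𝒜 W ⊆ Fm μ U f 𝒜 W := by
  intro w hw
  obtain ⟨y, _, hy⟩ := mem_biUnion.1 hw
  exact k1_Tn_sub hy

theorem mem_k1L {W : ℕ} {w : V} : w ∈ k1L μ U f 𝒜 W ↔
    ∃ y ∈ BB U f 𝒜, IsP0 μ U f 𝒜 W y ∧ w ∈ Tn0 μ U f 𝒜 W y := by
  classical
  unfold k1L
  rw [mem_biUnion]
  constructor
  · rintro ⟨y, hy, hw⟩
    rw [mem_filter] at hy
    exact ⟨y, hy.1, hy.2, hw⟩
  · rintro ⟨y, hy, hP, hw⟩
    exact ⟨y, mem_filter.2 ⟨hy, hP⟩, hw⟩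

/-- third counting inequality -/
theorem k1_LO (h : Setup0 μ s b U f 𝒜 r) {W : ℕ} (hW : W ∈ 𝒜) (hWr : W ≠ r)
    (ht : NoCl (arc μ U f) 𝒜 r {W}) (τ : ℕ)
    (hlight : ∀ y ∈ BB U f 𝒜, IsP0 μ U f 𝒜 W y →
      ∀ w ∈ Tn0 μ U f 𝒜 W y, (tg μ U f 𝒜 w).card ≤ τ) (sv : ℤ)
    (hsv : (∃ m ∈ Nm μ U f 𝒜 W, 6 * (rB μ (cl U f W) (BB U f 𝒜) m : ℤ) ≤
      12 * b + 3 * Dl μ U f 𝒜 W m - sv) ∨ sv = 0) :
    12 + sv + (4 * (b : ℤ) - 2 * τ) * (k1L μ U f 𝒜 W).card +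
      6 * b * (Fm μ U f 𝒜 W \ k1L μ U f 𝒜 W).card ≤
      3 * ∑ X ∈ 𝒜.erase W, hh μ U f 𝒜 W X := by
  have hsplit : ∀ g : V → ℤ, ∑ w ∈ Fm μ U f 𝒜 W, g w =
      ∑ w ∈ k1L μ U f 𝒜 W, g w + ∑ w ∈ Fm μ U f 𝒜 W \ k1L μ U f 𝒜 W, g w := by
    intro g
    rw [add_comm]
    exact (sum_sdiff k1L_sub).symm
  have hsplit' : ∀ y', rr μ (cl U f W) (Fm μ U f 𝒜 W) y' =
      rr μ (cl U f W) (k1L μ U f 𝒜 W) y' +
        rr μ (cl U f W) (Fm μ U f 𝒜 W \ k1L μ U f 𝒜 W) y' := by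
    intro y'
    unfold rr
    rw [add_comm]
    exact (sum_sdiff k1L_sub).symm
  rw [← sum_Dl, k1_sum_split (μ := μ) (𝒜 := 𝒜), hsplit]
  refine k1_abs3 (sum_rr _ _ _) (sum_rr _ _ _) (sum_rr _ _ _) ?_
    (fun w hw => cap h hW (k1_Nm_sub hw))
    (fun w hw => cap h hW (k1_Fm_sub (k1L_sub hw)))
    (fun w hw => cap h hW (k1_Fm_sub (mem_sdiff.1 hw).1))
    (fun w hw => Dl_nonpos h hw) ?_ hsv h.card_B ?_
  · intro y' hy'
    have hty := types0 h hW hWr ht hy'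
    have hsp := hsplit' y'
    by_cases hP' : IsP0 μ U f 𝒜 W y'
    · have hTL : Tn0 μ U f 𝒜 W y' ⊆ k1L μ U f 𝒜 W := fun w hw => mem_k1L.2 ⟨y', hy', hP', hw⟩
      have hO0 : rr μ (cl U f W) (Fm μ U f 𝒜 W \ k1L μ U f 𝒜 W) y' = 0 := by
        unfold rr
        apply sum_eq_zero
        intro w hw
        rw [mem_sdiff] at hw
        by_contra hne
        exact hw.2 (hTL (mem_filter.2 ⟨hw.1, Nat.pos_of_ne_zero hne⟩))
      have := hP'.1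
      have := hP'.2
      omega
    · unfold IsP0 at hP'
      omega
  · intro w hw
    obtain ⟨y, hy, hP, hwT⟩ := mem_k1L.1 hw
    have h6 := hlight y hy hP w hwT
    have h7 := Dl_le h (k1_Fm_sub (k1L_sub hw))
    omega
  · have h1 := k1_card_split h hW hWr
    have h2 := card_sdiff_of_subset (k1L_sub (μ := μ) (U := U) (f := f) (𝒜 := 𝒜) (W := W))
    have h3 := card_le_card (k1L_sub (μ := μ) (U := U) (f := f) (𝒜 := 𝒜) (W := W))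
    omega

/-- Module K1. `Hv` is the set of the heavy vertices, `I'` the set of the possible partners. -/
theorem no_heavy (h : Setup0 μ s b U f 𝒜 r) (hb : 2 ≤ b) {W : ℕ} (hW : W ∈ 𝒜) (hWr : W ≠ r)
    (ht : NoCl (arc μ U f) 𝒜 r {W}) (Hv : V → Prop) (I' : Finset ℕ) (θ τ : ℕ)
    (hI : I' ⊆ 𝒜.erase W) (hθ : θ ≤ 1) (hτ : τ ≤ 2) (hθτ : θ = 1 → τ ≤ 1)
    (hHv : ∀ y ∈ BB U f 𝒜, Hv y → IsP0 μ U f 𝒜 W y ∨ IsQ0 μ U f 𝒜 W y)
    (hlight : ∀ y ∈ BB U f 𝒜, ¬ Hv y → IsP0 μ U f 𝒜 W y →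
      ∀ w ∈ Tn0 μ U f 𝒜 W y, (tg μ U f 𝒜 w).card ≤ τ)
    (hH : ∑ X ∈ 𝒜.erase W, hh μ U f 𝒜 W X ≤
      ∑ X ∈ I' with 0 < hh μ U f 𝒜 W X, hh μ U f 𝒜 W X + 2 * θ * (Fm μ U f 𝒜 W).card)
    (hc : ∀ y ∈ BB U f 𝒜, Hv y → ∀ X ∈ I', 0 < hh μ U f 𝒜 W X →
      1 ≤ ep μ U f y X ∧ hh μ U f 𝒜 W X ≤ 2 + ep μ U f y X)
    (hrich : ∀ y ∈ BB U f 𝒜, Hv y → IsP0 μ U f 𝒜 W y → ∀ X ∈ I', 0 < hh μ U f 𝒜 W X →
      ep μ U f y X ≤ 1 → ∀ i ∈ Tn0 μ U f 𝒜 W y, X ∈ tg μ U f 𝒜 i → 2 ≤ (tg μ U f 𝒜 i).card →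
      ∀ y' ∈ BB U f 𝒜, y ≠ y' → IsP0 μ U f 𝒜 W y' → i ∈ Tn0 μ U f 𝒜 W y' →
      ∀ j ∈ Tn0 μ U f 𝒜 W y, j ∈ Tn0 μ U f 𝒜 W y' → i ≠ j → μ y y' = 0 →
      ¬ Disjoint (om μ (cl U f W) y) (om μ (cl U f W) y')) :
    ∀ y ∈ BB U f 𝒜, ¬ Hv y := by
  have hnP := k1_no_heavy_P h hb hW hWr ht Hv I' θ τ hI hθ hτ hθτ hlight hH hc hrich
  intro y hy hHy
  have hQ : IsQ0 μ U f 𝒜 W y := by
    rcases hHv y hy hHy with hP | hQ
    · exact absurd hP (hnP y hy hHy)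
    · exact hQ
  obtain ⟨m, hmN, hmac, hmu, hmd⟩ := PQ_center h hW hWr ht hy (Or.inr hQ)
  rw [hQ.1] at hmu
  have hsw := swap_bound h hW hWr ht hmN hy hmac
  have hrm := rB_le_ee h.mg (cl U f W) m (BB U f 𝒜)
  have hcd := cap_deg h hW (k1_Nm_sub hmN)
  have hcT := (PQ_Tn h hW hWr ht hy (Or.inr hQ)).2.2.2 hQ
  have hLO := k1_LO h hW hWr ht τ
    (fun y' hy' hP' => hlight y' hy' (fun hH' => hnP y' hy' hH' hP') hP')
    (3 * (1 + (EE μ U f 𝒜 y : ℤ))) (Or.inl ⟨m, hmN, by omega⟩)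
  have hHle := k1_H_le hI hH (hc y hy hHy)
  have hE := k1_EE_erase (μ := μ) (U := U) (f := f) hW y
  have hep := k1_ep h hW hy (Or.inr hQ)
  have hEb := EE_bound h hy
  have hcard : (k1L μ U f 𝒜 W).card + (Fm μ U f 𝒜 W \ k1L μ U f 𝒜 W).card =
      (Fm μ U f 𝒜 W).card := by
    rw [card_sdiff_of_subset k1L_sub]
    have := card_le_card (k1L_sub (μ := μ) (U := U) (f := f) (𝒜 := 𝒜) (W := W))
    omega
  have hbig : 3 ≤ (k1L μ U f 𝒜 W).card ∨ 2 ≤ (Fm μ U f 𝒜 W \ k1L μ U f 𝒜 W).card := by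
    by_cases hex : ∃ w ∈ Tn0 μ U f 𝒜 W y, w ∈ k1L μ U f 𝒜 W
    · left
      obtain ⟨w, _, hwL⟩ := hex
      obtain ⟨y', hy', hP', _⟩ := mem_k1L.1 hwL
      have hcT' := (PQ_Tn h hW hWr ht hy' (Or.inl hP')).2.2.1 hP'
      rw [← hcT']
      apply card_le_card
      intro w' hw'
      exact mem_k1L.2 ⟨y', hy', hP', hw'⟩
    · right
      push Not at hex
      rw [← hcT]
      apply card_le_card
      intro w' hw'
      exact mem_sdiff.2 ⟨k1_Tn_sub hw', hex w' hw'⟩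
  generalize ∑ c ∈ 𝒜.erase W, ep μ U f y c = E' at *
  generalize ∑ X ∈ 𝒜.erase W, hh μ U f 𝒜 W X = H at *
  generalize (Fm μ U f 𝒜 W).card = φ at *
  generalize (k1L μ U f 𝒜 W).card = lc at *
  generalize (Fm μ U f 𝒜 W \ k1L μ U f 𝒜 W).card = oc at *
  have hb2' : (2 : ℤ) ≤ b := by exact_mod_cast hb
  have hcard' : (φ : ℤ) = lc + oc := by omega
  have hlc0 : (0 : ℤ) ≤ lc := by positivity
  have hoc0 : (0 : ℤ) ≤ oc := by positivity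
  have hEE : (EE μ U f 𝒜 y : ℤ) = 1 + ((om μ (cl U f W) y).card : ℤ) + E' := by
    rw [hE, hep]; push_cast; ring
  have ho0 : (0 : ℤ) ≤ (om μ (cl U f W) y).card := by positivity
  have he0 : (0 : ℤ) ≤ ee μ y (BB U f 𝒜) := by positivity
  have hEb' : (ee μ y (BB U f 𝒜) : ℤ) + EE μ U f 𝒜 y + 1 ≤ 2 * b := by exact_mod_cast hEb
  rw [hcard'] at hHle
  have hθ' : θ = 0 ∨ θ = 1 := by omega
  have hτlc : (τ : ℤ) * lc ≤ 2 * lc := by
    have : (τ : ℤ) ≤ 2 := by exact_mod_cast hτ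
    nlinarith
  rcases hθ' with rfl | rfl <;> push_cast at hHle
  · rcases hbig with hbig | hbig
    · have hbig' : (3 : ℤ) ≤ lc := by exact_mod_cast hbig
      nlinarith [mul_nonneg (sub_nonneg.2 hb2') (sub_nonneg.2 hbig'),
        mul_nonneg (sub_nonneg.2 hb2') hoc0]
    · have hbig' : (2 : ℤ) ≤ oc := by exact_mod_cast hbig
      nlinarith [mul_nonneg (sub_nonneg.2 hb2') (sub_nonneg.2 hbig'),
        mul_nonneg (sub_nonneg.2 hb2') hlc0]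
  · have hτ1 : (τ : ℤ) * lc ≤ lc := by
      have : (τ : ℤ) ≤ 1 := by exact_mod_cast hθτ rfl
      nlinarith
    rcases hbig with hbig | hbig
    · have hbig' : (3 : ℤ) ≤ lc := by exact_mod_cast hbig
      nlinarith [mul_nonneg (sub_nonneg.2 hb2') (sub_nonneg.2 hbig'),
        mul_nonneg (sub_nonneg.2 hb2') hoc0]
    · have hbig' : (2 : ℤ) ≤ oc := by exact_mod_cast hbig
      nlinarith [mul_nonneg (sub_nonneg.2 hb2') (sub_nonneg.2 hbig'),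
        mul_nonneg (sub_nonneg.2 hb2') hlc0]

open Classical in
/-- Module K2: a class without heavy vertices has many partners. -/
theorem many_partners (h : Setup0 μ s b U f 𝒜 r) (hb : 2 ≤ b) {W : ℕ} (hW : W ∈ 𝒜)
    (hWr : W ≠ r) (ht : NoCl (arc μ U f) 𝒜 r {W}) (τ : ℕ) (hτ : τ ≤ 1 ∨ (τ ≤ 2 ∧ 4 ≤ b))
    (hlight : ∀ y ∈ BB U f 𝒜, IsP0 μ U f 𝒜 W y →
      ∀ w ∈ Tn0 μ U f 𝒜 W y, (tg μ U f 𝒜 w).card ≤ τ) :
    b + 1 ≤ ((𝒜.erase W).filter (fun X => 0 < hh μ U f 𝒜 W X)).card := by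
  have hLO := k1_LO h hW hWr ht τ hlight 0 (Or.inr rfl)
  set Pt := (𝒜.erase W).filter (fun X => 0 < hh μ U f 𝒜 W X) with hPt
  set L := k1L μ U f 𝒜 W with hL
  set O := Fm μ U f 𝒜 W \ L with hO
  have hG1 : ∑ X ∈ 𝒜.erase W, hh μ U f 𝒜 W X ≤ ∑ X ∈ Pt, hh μ U f 𝒜 W X := by
    rw [hPt, sum_filter]
    apply sum_le_sum
    intro X _
    split_ifs with hX
    · exact le_rfl
    · omega
  have hG2 : ∀ X ∈ Pt, hh μ U f 𝒜 W X ≤
      2 * ((L.filter (fun w => X ∈ tg μ U f 𝒜 w)).card : ℤ) + 2 * O.card := by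
    intro X hX
    rw [hPt, mem_filter, mem_erase] at hX
    have h1 := hh_le_tg h (W := W) hX.1.2 hX.1.1
    have h2 : (Fm μ U f 𝒜 W).filter (fun w => X ∈ tg μ U f 𝒜 w) ⊆
        (L.filter (fun w => X ∈ tg μ U f 𝒜 w)) ∪ O := by
      intro w hw
      rw [mem_filter] at hw
      by_cases hwL : w ∈ L
      · exact mem_union_left _ (mem_filter.2 ⟨hwL, hw.2⟩)
      · exact mem_union_right _ (mem_sdiff.2 ⟨hw.1, hwL⟩)
    have h3 := (card_le_card h2).trans (card_union_le _ _)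
    have h4 : (((Fm μ U f 𝒜 W).filter (fun w => X ∈ tg μ U f 𝒜 w)).card : ℤ) ≤
        ((L.filter (fun w => X ∈ tg μ U f 𝒜 w)).card : ℤ) + O.card := by exact_mod_cast h3
    linarith
  have hG3 := sum_le_sum hG2
  rw [sum_add_distrib, ← mul_sum, sum_const, nsmul_eq_mul] at hG3
  have hG4 : ∑ X ∈ Pt, ((L.filter (fun w => X ∈ tg μ U f 𝒜 w)).card : ℤ) ≤ τ * L.card := by
    have e1 : ∑ X ∈ Pt, (L.filter (fun w => X ∈ tg μ U f 𝒜 w)).card =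
        ∑ w ∈ L, (Pt.filter (fun X => X ∈ tg μ U f 𝒜 w)).card := by
      simp only [card_filter]
      exact sum_comm
    have e2 : ∑ w ∈ L, (Pt.filter (fun X => X ∈ tg μ U f 𝒜 w)).card ≤ ∑ w ∈ L, τ := by
      apply sum_le_sum
      intro w hw
      obtain ⟨y, hy, hP, hwT⟩ := mem_k1L.1 hw
      have h6 := hlight y hy hP w hwT
      refine le_trans (card_le_card ?_) h6
      intro X hX
      exact (mem_filter.1 hX).2
    rw [sum_const, smul_eq_mul] at e2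
    have : ∑ X ∈ Pt, (L.filter (fun w => X ∈ tg μ U f 𝒜 w)).card ≤ L.card * τ := by
      rw [e1]; exact e2
    have h' : ((∑ X ∈ Pt, (L.filter (fun w => X ∈ tg μ U f 𝒜 w)).card : ℕ) : ℤ) ≤
        ((L.card * τ : ℕ) : ℤ) := by exact_mod_cast this
    push_cast at h'
    linarith
  by_contra hcon
  have hpb : (Pt.card : ℤ) ≤ b := by
    have : Pt.card ≤ b := by omega
    exact_mod_cast this
  have hb2' : (2 : ℤ) ≤ b := by exact_mod_cast hb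
  have hlc0 : (0 : ℤ) ≤ L.card := by positivity
  have hoc0 : (0 : ℤ) ≤ O.card := by positivity
  have hfin : 12 + (4 * (b : ℤ) - 8 * τ) * L.card ≤ 6 * (Pt.card - b) * O.card := by
    nlinarith
  have h5 : 6 * ((Pt.card : ℤ) - b) * O.card ≤ 0 := by nlinarith
  have h6 : (0 : ℤ) ≤ (4 * (b : ℤ) - 8 * τ) * L.card := by
    apply mul_nonneg _ hlc0
    rcases hτ with hτ | ⟨hτ, h4⟩
    · have : (τ : ℤ) ≤ 1 := by exact_mod_cast hτ
      linarith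
    · have h4' : (4 : ℤ) ≤ b := by exact_mod_cast h4
      have : (τ : ℤ) ≤ 2 := by exact_mod_cast hτ
      linarith
  linarith

end Main

end Pool.Agent.H25.EB
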