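import Pool.Agent.H25.EB.Defs
import Pool.Agent.H25.EA.Exch
import Pool.Agent.H25.EB.AcX
import Pool.Agent.H25.EB.Ineq2
import Pool.Agent.H25.EB.Link
import Pool.Agent.H25.EB.Types

/-!
# Module T: consequences of the exchange
-/

set_option autoImplicit false
set_option linter.unusedSectionVars false

namespace Pool.Agent.H25.EB

open Finset Pool.Agent.H25.EA Pool.Agent.H18.EAx

variable {V : Type*} [DecidableEq V]


section X
variable {μ : V → V → ℕ} {s b : ℕ} {U : Finset V} {f : V → ℕ} {𝒜 : Finset ℕ} {r : ℕ}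
  {J : Finset ℕ} {Q : ℕ}

theorem t_rm_le_rr {W S : Finset V} {v w : V} (hw : w ∈ S) : rm μ W v w ≤ rr μ W S v :=
  single_le_sum (f := fun w => rm μ W v w) (fun _ _ => Nat.zero_le _) hw

theorem t_mem_Tn0 {W : ℕ} {y v : V} : v ∈ Tn0 μ U f 𝒜 W y ↔
    v ∈ Fm μ U f 𝒜 W ∧ 0 < rm μ (cl U f W) y v := mem_filter

theorem t_notMem_cl {y : V} (hy : y ∈ BB U f 𝒜) {c : ℕ} (hc : c ∈ 𝒜) : y ∉ cl U f c := by
  intro h
  apply (mem_BB.1 hy).2
  rw [(mem_cl.1 h).2]
  exact hc

theorem TTp (h : Setup0 μ s b U f 𝒜 r) (hL : Loc (arc μ U f) 𝒜 r J Q) {W X : ℕ} (hW : W ∈ J)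
    (hX : X ∈ J) (hXW : X ≠ W) {y : V} (hy : y ∈ BB U f 𝒜)
    (hPQ : IsP0 μ U f 𝒜 W y ∨ IsQ0 μ U f 𝒜 W y) {p q : V} (hp : p ∈ Tn0 μ U f 𝒜 W y)
    (hq : q ∈ Tn0 μ U f 𝒜 W y) (hpq : p ≠ q)
    (hno : ∀ c K, Sep (arc μ U f) 𝒜 J Q W (tg μ U f 𝒜 p ∪ tg μ U f 𝒜 q) c K → X ∈ K)
    (hpos : 0 < hh μ U f 𝒜 W X) :
    1 ≤ ep μ U f y X ∧ hh μ U f 𝒜 W X ≤ 2 + ep μ U f y X := by
  have hWA := hL.sub hW
  have hXA := hL.sub hX
  have hWr : W ≠ r := fun e => hL.r_notMem (e ▸ hW)
  have hXr : X ≠ r := fun e => hL.r_notMem (e ▸ hX)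
  obtain ⟨_, hPQ2, _, _⟩ := PQ_Tn h hWA hWr (hL.term W hW) hy hPQ
  have hrr := hPQ2 p hp q hq hpq
  refine hh_le_of_rst h hWA hWr hXA hXr hXW (hL.term X hX) hy ?_ hpos
  intro x hx
  by_contra hcon
  push Not at hcon
  have hxW : x ∉ cl U f W := by
    intro hxW
    exact hXW ((mem_cl.1 hx).2.symm.trans (mem_cl.1 hxW).2)
  have hxB : x ∉ BB U f 𝒜 := fun hxB => (mem_BB.1 hxB).2 ((mem_cl.1 hx).2.symm ▸ hXA)
  have hxy : x ≠ y := fun e => hxB (e ▸ hy)
  have hyW := t_notMem_cl hy hWA
  set W' := ((cl U f W).erase p).erase q with hW'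
  have hW'W : W' ⊆ cl U f W := (erase_subset _ _).trans (erase_subset _ _)
  have hac : Ac μ (insert x (insert y W')) := by
    intro T hT hne
    by_contra hdeg
    push Not at hdeg
    by_cases hxT : x ∈ T
    · -- the degree of `x` in `T` is small
      have h1 := hdeg x hxT
      have hT' : T ⊆ insert y (insert x (T ∩ W')) := by
        intro u hu
        rcases mem_insert.1 (hT hu) with h' | h'
        · exact mem_insert_of_mem (h' ▸ mem_insert_self _ _)
        · rcases mem_insert.1 h' with h'' | h''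
          · exact h'' ▸ mem_insert_self _ _
          · exact mem_insert_of_mem (mem_insert_of_mem (mem_inter.2 ⟨hu, h''⟩))
      have h2 : ee μ x T ≤ μ x y + ee μ x (T ∩ W') := by
        have a1 : ee μ x T ≤ ee μ x (insert y (insert x (T ∩ W'))) := ee_mono hT'
        have a2 := ee_insert_le (μ := μ) (v := x) (y := y) (S := insert x (T ∩ W'))
        have a3 := ee_insert_le (μ := μ) (v := x) (y := x) (S := T ∩ W')
        have a4 := h.mg.diag x
        omega
      have h3 : ee μ x (T ∩ W') ≤ rst μ U f 𝒜 W x := by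
        unfold rst
        refine le_trans ?_ (sum_le_sum_of_subset ((inter_subset_right (s₁ := T) (s₂ := W')).trans hW'W))
        refine sum_le_sum fun w hw => ?_
        obtain ⟨hwT, hwW'⟩ := mem_inter.1 hw
        split_ifs with hw2
        · exfalso
          obtain ⟨hwF, hxw⟩ := hw2
          obtain ⟨_, hw0, hwB⟩ := mem_filter.1 hwF
          have b1 := hdeg w hwT
          have b2 : ee μ w T ≤ μ w y + (μ w x + ee μ w (T ∩ W')) := by
            have a1 : ee μ w T ≤ ee μ w (insert y (insert x (T ∩ W'))) := ee_mono hT'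
            have a2 := ee_insert_le (μ := μ) (v := w) (y := y) (S := insert x (T ∩ W'))
            have a3 := ee_insert_le (μ := μ) (v := w) (y := x) (S := T ∩ W')
            omega
          have b3 : ee μ w (T ∩ W') = 0 := by
            have : ee μ w (T ∩ W') ≤ ee μ w (cl U f W) :=
              ee_mono (inter_subset_right.trans hW'W)
            omega
          have b4 : μ w x = 1 := by rw [h.mg.symm]; exact hxw
          have b5 := hwB y hy
          have b6 := h.mg.le_two w y
          have b7 : μ w y = 2 := by omega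
          have b8 : rm μ (cl U f W) y w = 2 := by
            unfold rm
            rw [h.mg.symm y w, b7]
            simp
          have b9 := t_rm_le_rr (μ := μ) (W := cl U f W) (v := y) hwW'
          omega
        · exact le_rfl
      omega
    · have hTy : T ⊆ insert y W' := by
        intro u hu
        rcases mem_insert.1 (hT hu) with h' | h'
        · exact absurd (h' ▸ hu) hxT
        · exact h'
      obtain ⟨v, hv, hv1⟩ := ac_of_rr h.mg (h.ac W hWA) hW'W hrr T hTy hne
      have := hdeg v hv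
      omega
  obtain ⟨c, K, hS, hXK⟩ := link h hL hW hX hXW (t_mem_Tn0.1 hp).1 (t_mem_Tn0.1 hq).1 hpq
    (Or.inl ⟨x, hx, y, hy, hac⟩)
  exact hXK (hno c K hS)

/-- the exchange with two vertices of `B` excludes rich vertices -/
theorem rich_excl (h : Setup0 μ s b U f 𝒜 r) (hL : Loc (arc μ U f) 𝒜 r J Q) {W X : ℕ}
    (hW : W ∈ J) (hX : X ∈ J) (hXW : X ≠ W) (hPT : PT (arc μ U f) 𝒜 J W X) {y y' : V}
    (hy : y ∈ BB U f 𝒜) (hy' : y' ∈ BB U f 𝒜) (hyy : y ≠ y') (hP : IsP0 μ U f 𝒜 W y)
    (hP' : IsP0 μ U f 𝒜 W y') {i j : V} (hi : i ∈ Tn0 μ U f 𝒜 W y)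
    (hi' : i ∈ Tn0 μ U f 𝒜 W y') (hj : j ∈ Tn0 μ U f 𝒜 W y) (hj' : j ∈ Tn0 μ U f 𝒜 W y')
    (hij : i ≠ j) (hadj : μ y y' = 0) (hsh : Disjoint (om μ (cl U f W) y) (om μ (cl U f W) y'))
    (hXi : X ∈ tg μ U f 𝒜 i) (h2 : 2 ≤ (tg μ U f 𝒜 i).card) (hep : ep μ U f y X ≤ 1) :
    False := by
  have hWA := hL.sub hW
  have hXA := hL.sub hX
  have hWr : W ≠ r := fun e => hL.r_notMem (e ▸ hW)
  have hXr : X ≠ r := fun e => hL.r_notMem (e ▸ hX)
  have hrr := (PQ_Tn h hWA hWr (hL.term W hW) hy (Or.inl hP)).2.1 i hi j hj hij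
  have hrr' := (PQ_Tn h hWA hWr (hL.term W hW) hy' (Or.inl hP')).2.1 i hi' j hj' hij
  set W' := ((cl U f W).erase i).erase j with hW'
  have hW'W : W' ⊆ cl U f W := (erase_subset _ _).trans (erase_subset _ _)
  have hac : Ac μ (insert y' (insert y W')) := by
    intro T hT hne
    by_contra hdeg
    push Not at hdeg
    by_cases hyT' : y' ∈ T
    · by_cases hyT : y ∈ T
      · have h1 := hdeg y hyT
        have hT' : T ⊆ insert y' (insert y (T ∩ W')) := by
          intro u hu
          rcases mem_insert.1 (hT hu) with h' | h'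
          · exact h' ▸ mem_insert_self _ _
          · rcases mem_insert.1 h' with h'' | h''
            · exact mem_insert_of_mem (h'' ▸ mem_insert_self _ _)
            · exact mem_insert_of_mem (mem_insert_of_mem (mem_inter.2 ⟨hu, h''⟩))
        have h3 : ee μ y T ≤ μ y y' + ee μ y (T ∩ W') := by
          have a1 : ee μ y T ≤ ee μ y (insert y' (insert y (T ∩ W'))) := ee_mono hT'
          have a2 := ee_insert_le (μ := μ) (v := y) (y := y') (S := insert y (T ∩ W'))
          have a3 := ee_insert_le (μ := μ) (v := y) (y := y) (S := T ∩ W')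
          have a4 := h.mg.diag y
          omega
        have h4 : ee μ y (T ∩ W') ≤ rr μ (cl U f W) W' y := by
          unfold rr
          refine le_trans ?_ (sum_le_sum_of_subset (inter_subset_right (s₁ := T) (s₂ := W')))
          refine sum_le_sum fun w hw => ?_
          obtain ⟨hwT, hwW'⟩ := mem_inter.1 hw
          unfold rm
          split_ifs with hw2
          · exfalso
            obtain ⟨hyw, hw0⟩ := hw2
            have b1 := hdeg w hwT
            have b2 : ee μ w T ≤ μ w y' + (μ w y + ee μ w (T ∩ W')) := by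
              have a1 : ee μ w T ≤ ee μ w (insert y' (insert y (T ∩ W'))) := ee_mono hT'
              have a2 := ee_insert_le (μ := μ) (v := w) (y := y') (S := insert y (T ∩ W'))
              have a3 := ee_insert_le (μ := μ) (v := w) (y := y) (S := T ∩ W')
              omega
            have b3 : ee μ w (T ∩ W') = 0 := by
              have : ee μ w (T ∩ W') ≤ ee μ w (cl U f W) :=
                ee_mono (inter_subset_right.trans hW'W)
              omega
            have b4 : μ w y = 1 := by rw [h.mg.symm]; exact hyw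
            have b6 := h.mg.le_two w y'
            have b7 : μ w y' = 1 ∨ μ w y' = 2 := by omega
            rcases b7 with b7 | b7
            · have c1 : w ∈ om μ (cl U f W) y := mem_filter.2 ⟨hW'W hwW', hyw, hw0⟩
              have c2 : w ∈ om μ (cl U f W) y' :=
                mem_filter.2 ⟨hW'W hwW', by rw [h.mg.symm]; exact b7, hw0⟩
              exact disjoint_left.1 hsh c1 c2
            · have b8 : rm μ (cl U f W) y' w = 2 := by
                unfold rm
                rw [h.mg.symm y' w, b7]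
                simp
              have b9 := t_rm_le_rr (μ := μ) (W := cl U f W) (v := y') hwW'
              omega
          · exact le_rfl
        omega
      · have hTy : T ⊆ insert y' W' := by
          intro u hu
          rcases mem_insert.1 (hT hu) with h' | h'
          · exact h' ▸ mem_insert_self _ _
          · rcases mem_insert.1 h' with h'' | h''
            · exact absurd (h'' ▸ hu) hyT
            · exact mem_insert_of_mem h''
        obtain ⟨v, hv, hv1⟩ := ac_of_rr h.mg (h.ac W hWA) hW'W hrr' T hTy hne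
        have := hdeg v hv
        omega
    · have hTy : T ⊆ insert y W' := by
        intro u hu
        rcases mem_insert.1 (hT hu) with h' | h'
        · exact absurd (h' ▸ hu) hyT'
        · exact h'
      obtain ⟨v, hv, hv1⟩ := ac_of_rr h.mg (h.ac W hWA) hW'W hrr T hTy hne
      have := hdeg v hv
      omega
  have hz : ∃ z ∈ cl U f X, Ac μ (insert y ((cl U f X).erase z)) := by
    have h5 := ep_add_two h hy hXA
    refine exists_solo0 h.mg (h.ac X hXA) ?_ (t_notMem_cl hy hXA) (by omega)
    rw [← card_pos, h.card_cl X hXA hXr]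
    have := h.card_r
    omega
  obtain ⟨c, K, hS, hXK⟩ := link h hL hW hX hXW (t_mem_Tn0.1 hi).1 (t_mem_Tn0.1 hj).1 hij
    (Or.inr ⟨y, hy, y', hy', hyy, hac, hz⟩)
  have hXc : X = c := by
    rcases mem_insert.1 (hS.T_sub (mem_union_left _ hXi)) with h' | h'
    · exact h'
    · exact absurd h' hXK
  have hKne : K.Nonempty := by
    rw [nonempty_iff_ne_empty]
    rintro rfl
    have h6 : tg μ U f 𝒜 i ⊆ {c} := subset_union_left.trans hS.T_sub
    have := card_le_card h6
    rw [card_singleton] at this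
    omega
  obtain ⟨x, hx, Y, hYA, hYK, hYW, hYX, har⟩ := hPT K (hS.sub.trans (erase_subset _ _))
    (fun h' => (mem_erase.1 (hS.sub h')).1 rfl) hXK hKne
  rcases hS.out x hx Y hYA har with h' | h' | h'
  · exact hYK h'
  · exact hYW h'
  · exact hYX (h'.trans hXc.symm)

end X

end Pool.Agent.H25.EB
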