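import Pool.Agent.H25.EB.Choice
import Pool.Agent.H25.EB.Clean
import Pool.Agent.H25.EB.Types
import Pool.Agent.H25.EB.Ineq1
import Pool.Agent.H25.EB.Ineq2
import Pool.Agent.H25.EB.TT
import Pool.Agent.H25.EB.K1
import Pool.Agent.H25.EB.CertL
import Pool.Agent.H25.EB.CertAB
import Pool.Agent.H25.EB.BOne

/-!
# Assembly
-/

set_option autoImplicit false
set_option linter.unusedSectionVars false

namespace Pool.Agent.H25.EB

open Finset Pool.Agent.H25.EA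

variable {V : Type*} [DecidableEq V] {μ : V → V → ℕ} {s b : ℕ} {U : Finset V} {f : V → ℕ}
  {𝒜 : Finset ℕ} {r : ℕ} {J : Finset ℕ} {Q : ℕ}

theorem two_le_card (h : Setup0 μ s b U f 𝒜 r) : 2 ≤ 𝒜.card := by
  by_contra hcon
  have h1 : 𝒜.card = 1 := by
    have := card_pos.2 ⟨r, h.r_mem⟩
    omega
  have hA : 𝒜 = {r} := by
    obtain ⟨c, hc⟩ := card_eq_one.1 h1
    rw [hc]
    have := h.r_mem
    rw [hc, mem_singleton] at this
    rw [this]
  -- edges between `B` and the class `r`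
  have h2 : ∀ y ∈ BB U f 𝒜, 2 ≤ rr μ (cl U f r) (cl U f r) y := fun y hy =>
    rho_ge_two h hy h.r_mem
  have h3 : ∀ w ∈ cl U f r, rB μ (cl U f r) (BB U f 𝒜) w ≤ 2 * b := by
    intro w hw
    have h4 := cap h h.r_mem hw
    have h5 : Dl μ U f 𝒜 r w = 0 := by
      unfold Dl
      rw [hA]
      simp
    rw [h5] at h4
    omega
  have h5 := card_nsmul_le_sum _ _ _ h2
  rw [sum_rr] at h5
  have h6 : ∑ w ∈ cl U f r, rB μ (cl U f r) (BB U f 𝒜) w ≤ (cl U f r).card • (2 * b) :=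
    sum_le_card_nsmul _ _ _ h3
  rw [h.card_B, smul_eq_mul] at h5
  rw [smul_eq_mul] at h6
  have h7 := h.card_r
  have h8 : (cl U f r).card * (2 * b) ≤ s * (2 * b) := Nat.mul_le_mul_right _ (by omega)
  have h9 : (b * s + 1) * 2 = s * (2 * b) + 2 := by ring
  omega

theorem z_mem_cl {c : ℕ} {v : V} : v ∈ cl U f c ↔ v ∈ U ∧ f v = c := by
  unfold cl
  rw [mem_filter]

theorem z_mem_tg {v : V} {c : ℕ} :
    c ∈ tg μ U f 𝒜 v ↔ c ∈ 𝒜 ∧ c ≠ f v ∧ mov μ U f v c := by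
  classical
  unfold tg
  rw [mem_filter]

theorem z_arc_of_tg {W : ℕ} {w : V} (hw : w ∈ cl U f W) {c : ℕ} (hc : c ∈ tg μ U f 𝒜 w) :
    arc μ U f W c := by
  have h1 := z_mem_tg.1 hc
  have h2 := (z_mem_cl.1 hw).2
  exact ⟨by rw [← h2]; exact h1.2.1.symm, w, hw, h1.2.2⟩

/-- two vertices with two targets -/
theorem pair_of_TS {Tn : Finset V} {g : V → Finset ℕ} (hc : 2 ≤ Tn.card)
    (h2 : 2 ≤ (Tn.biUnion g).card) (P : ℕ → Prop) (hP : ∃ c ∈ Tn.biUnion g, P c) :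
    ∃ p ∈ Tn, ∃ q ∈ Tn, p ≠ q ∧ 2 ≤ (g p ∪ g q).card ∧ ∃ c ∈ g p ∪ g q, P c := by
  obtain ⟨c0, hc0, hP0⟩ := hP
  obtain ⟨p, hp, hcp⟩ := mem_biUnion.1 hc0
  obtain ⟨c1, hc1, hne⟩ : ∃ c1 ∈ Tn.biUnion g, c1 ≠ c0 := by
    by_contra hcon
    push Not at hcon
    have : Tn.biUnion g ⊆ {c0} := fun c hc => mem_singleton.2 (hcon c hc)
    have := card_le_card this
    rw [card_singleton] at this
    omega
  obtain ⟨q', hq', hcq'⟩ := mem_biUnion.1 hc1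
  obtain ⟨q, hq, hqp, hq1⟩ : ∃ q ∈ Tn, q ≠ p ∧ c1 ∈ g p ∪ g q := by
    by_cases hqp : q' = p
    · obtain ⟨q, hq, hne'⟩ : ∃ q ∈ Tn, q ≠ p := by
        by_contra hcon
        push Not at hcon
        have : Tn ⊆ {p} := fun c hc => mem_singleton.2 (hcon c hc)
        have := card_le_card this
        rw [card_singleton] at this
        omega
      exact ⟨q, hq, hne', mem_union_left _ (hqp ▸ hcq')⟩
    · exact ⟨q', hq', hqp, mem_union_right _ hcq'⟩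
  refine ⟨p, hp, q, hq, hqp.symm, ?_, c0, mem_union_left _ hcp, hP0⟩
  have : ({c0, c1} : Finset ℕ) ⊆ g p ∪ g q := by
    intro c hc
    rcases mem_insert.1 hc with rfl | hc
    · exact mem_union_left _ hcp
    · rw [mem_singleton.1 hc]; exact hq1
  have h3 := card_le_card this
  rwa [card_pair hne.symm] at h3

theorem tn_card_ge (h : Setup0 μ s b U f 𝒜 r) {W : ℕ} (hW : W ∈ 𝒜) (hWr : W ≠ r)
    (ht : NoCl (arc μ U f) 𝒜 r {W}) {y : V} (hy : y ∈ BB U f 𝒜)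
    (hPQ : IsP0 μ U f 𝒜 W y ∨ IsQ0 μ U f 𝒜 W y) : 2 ≤ (Tn0 μ U f 𝒜 W y).card := by
  obtain ⟨_, _, h3, h4⟩ := PQ_Tn h hW hWr ht hy hPQ
  rcases hPQ with hP | hQ
  · have := h3 hP; omega
  · have := h4 hQ; omega

theorem tn_mem {W : ℕ} {y w : V} (hw : w ∈ Tn0 μ U f 𝒜 W y) : w ∈ Fm μ U f 𝒜 W :=
  (mem_filter.1 hw).1

theorem fm_mem {W : ℕ} {w : V} (hw : w ∈ Fm μ U f 𝒜 W) : w ∈ cl U f W :=
  (mem_filter.1 hw).1

theorem Loc.ne_r (hL : Loc (arc μ U f) 𝒜 r J Q) {W : ℕ} (hW : W ∈ J) : W ≠ r :=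
  fun h => hL.r_notMem (h ▸ hW)

/-- an unclean class has an unlinked partner -/
theorem witness (h : Setup0 μ s b U f 𝒜 r) (hb : 2 ≤ b) (hL : Loc (arc μ U f) 𝒜 r J Q) {W : ℕ}
    (hW : W ∈ J) (Hv : V → Prop) (I' : Finset ℕ) (θ τ : ℕ) (hI : I' ⊆ J.erase W) (hθ : θ ≤ 1)
    (hτ : τ ≤ 2) (hθτ : θ = 1 → τ ≤ 1) (Φ : Finset ℕ → Prop)
    (hΦ : ∀ T, Φ T → 2 ≤ T.card)
    (hHv : ∀ y ∈ BB U f 𝒜, Hv y → (IsP0 μ U f 𝒜 W y ∨ IsQ0 μ U f 𝒜 W y) ∧
      ∃ p ∈ Tn0 μ U f 𝒜 W y, ∃ q ∈ Tn0 μ U f 𝒜 W y, p ≠ q ∧ Φ (tg μ U f 𝒜 p ∪ tg μ U f 𝒜 q))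
    (hlight : ∀ y ∈ BB U f 𝒜, ¬ Hv y → IsP0 μ U f 𝒜 W y →
      ∀ w ∈ Tn0 μ U f 𝒜 W y, (tg μ U f 𝒜 w).card ≤ τ)
    (hH : ∑ X ∈ 𝒜.erase W, hh μ U f 𝒜 W X ≤
      ∑ X ∈ I' with 0 < hh μ U f 𝒜 W X, hh μ U f 𝒜 W X + 2 * θ * (Fm μ U f 𝒜 W).card)
    (hPT : ∀ X ∈ I', PT (arc μ U f) 𝒜 J W X) (hn : ¬ ∀ y ∈ BB U f 𝒜, ¬ Hv y) :
    ∃ X ∈ I', 0 < hh μ U f 𝒜 W X ∧ ∃ T c K, Sep (arc μ U f) 𝒜 J Q W T c K ∧ Φ T ∧
      (∀ Y ∈ T, arc μ U f W Y) ∧ T ⊆ 𝒜 ∧ X ∉ K := by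
  by_contra hcon
  push Not at hcon
  have hWA := hL.sub hW
  have hWr := hL.ne_r hW
  have ht := hL.term W hW
  apply hn
  apply no_heavy h hb hWA hWr ht Hv I' θ τ
    (hI.trans (Finset.erase_subset_erase _ hL.sub)) hθ hτ hθτ (fun y hy hv => (hHv y hy hv).1)
    hlight hH
  · intro y hy hv X hX hpos
    obtain ⟨hPQ, p, hp, q, hq, hpq, hΦT⟩ := hHv y hy hv
    obtain ⟨hXW, hXJ⟩ := mem_erase.1 (hI hX)
    apply TTp h hL hW hXJ hXW hy hPQ hp hq hpq _ hpos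
    intro c K hS
    by_contra hXK
    refine hXK (hcon X hX hpos _ c K hS hΦT ?_ ?_)
    · intro Y hY
      rcases mem_union.1 hY with hY | hY
      · exact z_arc_of_tg (fm_mem (tn_mem hp)) hY
      · exact z_arc_of_tg (fm_mem (tn_mem hq)) hY
    · intro Y hY
      rcases mem_union.1 hY with hY | hY
      · exact (z_mem_tg.1 hY).1
      · exact (z_mem_tg.1 hY).1
  · intro y hy hv hP X hX hpos hep i hi hXi h2 y' hy' hyy hP' hi' j hj hj' hij hadj hdis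
    obtain ⟨hXW, hXJ⟩ := mem_erase.1 (hI hX)
    exact rich_excl h hL hW hXJ hXW (hPT X hX) hy hy' hyy hP hP' hi hi' hj hj' hij hadj hdis hXi h2
      hep

theorem hh_nonpos (h : Setup0 μ s b U f 𝒜 r) {W X : ℕ} (hX : X ∈ 𝒜) (hXW : X ≠ W)
    (hna : ¬ arc μ U f W X) : hh μ U f 𝒜 W X ≤ 0 := by
  by_contra hcon
  exact hna (arc_of_hh_pos h hX hXW (by omega))

/-- the bound for the sum of the gains, all targets in `I'` -/
theorem sum_hh_le0 (h : Setup0 μ s b U f 𝒜 r) {W : ℕ} {I' : Finset ℕ}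
    (hI' : I' ⊆ 𝒜.erase W)
    (hout : ∀ X ∈ 𝒜, X ≠ W → arc μ U f W X → X ∈ I') :
    ∑ X ∈ 𝒜.erase W, hh μ U f 𝒜 W X ≤ ∑ X ∈ I' with 0 < hh μ U f 𝒜 W X, hh μ U f 𝒜 W X := by
  have h1 : I'.filter (fun X => 0 < hh μ U f 𝒜 W X) ⊆ 𝒜.erase W :=
    (filter_subset _ _).trans hI'
  rw [← sum_sdiff h1]
  have h2 : ∑ X ∈ (𝒜.erase W) \ (I'.filter (fun X => 0 < hh μ U f 𝒜 W X)), hh μ U f 𝒜 W X ≤ 0 := by
    apply sum_nonpos
    intro X hX
    obtain ⟨hX1, hX2⟩ := mem_sdiff.1 hX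
    obtain ⟨hXW, hXA⟩ := mem_erase.1 hX1
    by_contra hpos
    push Not at hpos
    exact hX2 (mem_filter.2 ⟨hout X hXA hXW (arc_of_hh_pos h hXA hXW hpos), hpos⟩)
  linarith

/-- the bound for the sum of the gains with the class `Q` -/
theorem sum_hh_le1 (h : Setup0 μ s b U f 𝒜 r) {W : ℕ} {I' : Finset ℕ}
    (hI' : I' ⊆ 𝒜.erase W) (hQ : Q ∈ 𝒜) (hQW : Q ≠ W)
    (hout : ∀ X ∈ 𝒜, X ≠ W → arc μ U f W X → X ∈ I' ∨ X = Q) :
    ∑ X ∈ 𝒜.erase W, hh μ U f 𝒜 W X ≤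
      ∑ X ∈ I' with 0 < hh μ U f 𝒜 W X, hh μ U f 𝒜 W X + 2 * (Fm μ U f 𝒜 W).card := by
  have h1 : (I'.filter (fun X => 0 < hh μ U f 𝒜 W X)) ⊆ 𝒜.erase W :=
    (filter_subset _ _).trans hI'
  rw [← sum_sdiff h1]
  have hQF : hh μ U f 𝒜 W Q ≤ 2 * (Fm μ U f 𝒜 W).card := by
    have h2 := hh_le_tg h hQ hQW
    have h3 : (((Fm μ U f 𝒜 W).filter (fun w => Q ∈ tg μ U f 𝒜 w)).card : ℤ) ≤
        (Fm μ U f 𝒜 W).card := by
      exact_mod_cast card_le_card (filter_subset _ _)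
    linarith
  have h2 : ∑ X ∈ (𝒜.erase W) \ (I'.filter (fun X => 0 < hh μ U f 𝒜 W X)), hh μ U f 𝒜 W X ≤
      2 * (Fm μ U f 𝒜 W).card := by
    by_cases hQm : Q ∈ (𝒜.erase W) \ (I'.filter (fun X => 0 < hh μ U f 𝒜 W X))
    · rw [← add_sum_erase _ _ hQm]
      have h4 : ∑ X ∈ ((𝒜.erase W) \ (I'.filter (fun X => 0 < hh μ U f 𝒜 W X))).erase Q,
          hh μ U f 𝒜 W X ≤ 0 := by
        apply sum_nonpos
        intro X hX
        obtain ⟨hXQ, hX⟩ := mem_erase.1 hX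
        obtain ⟨hX1, hX2⟩ := mem_sdiff.1 hX
        obtain ⟨hXW, hXA⟩ := mem_erase.1 hX1
        by_contra hpos
        push Not at hpos
        rcases hout X hXA hXW (arc_of_hh_pos h hXA hXW hpos) with h5 | h5
        · exact hX2 (mem_filter.2 ⟨h5, hpos⟩)
        · exact hXQ h5
      linarith
    · have h4 : ∑ X ∈ ((𝒜.erase W) \ (I'.filter (fun X => 0 < hh μ U f 𝒜 W X))),
          hh μ U f 𝒜 W X ≤ 0 := by
        apply sum_nonpos
        intro X hX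
        obtain ⟨hX1, hX2⟩ := mem_sdiff.1 hX
        obtain ⟨hXW, hXA⟩ := mem_erase.1 hX1
        by_contra hpos
        push Not at hpos
        rcases hout X hXA hXW (arc_of_hh_pos h hXA hXW hpos) with h5 | h5
        · exact hX2 (mem_filter.2 ⟨h5, hpos⟩)
        · exact hQm (h5 ▸ hX)
      have h5 : (0 : ℤ) ≤ 2 * (Fm μ U f 𝒜 W).card := by positivity
      linarith
  linarith

/-- heavy in the strong sense -/
def HvS (μ : V → V → ℕ) (U : Finset V) (f : V → ℕ) (𝒜 : Finset ℕ) (W : ℕ) (y : V) : Prop :=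
  (IsP0 μ U f 𝒜 W y ∨ IsQ0 μ U f 𝒜 W y) ∧ 2 ≤ (TS0 μ U f 𝒜 W y).card

/-- heavy in the weak sense -/
def HvW (μ : V → V → ℕ) (U : Finset V) (f : V → ℕ) (𝒜 : Finset ℕ) (I : Finset ℕ) (W : ℕ)
    (y : V) : Prop :=
  (IsP0 μ U f 𝒜 W y ∨ IsQ0 μ U f 𝒜 W y) ∧ 2 ≤ (TS0 μ U f 𝒜 W y).card ∧
    (TS0 μ U f 𝒜 W y ∩ I).Nonempty

theorem tg_card_le_TS {W : ℕ} {y w : V} (hw : w ∈ Tn0 μ U f 𝒜 W y) :
    tg μ U f 𝒜 w ⊆ TS0 μ U f 𝒜 W y := fun c hc => mem_biUnion.2 ⟨w, hw, hc⟩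

theorem lightS {W : ℕ} {y : V} (hn : ¬ HvS μ U f 𝒜 W y) (hP : IsP0 μ U f 𝒜 W y) :
    ∀ w ∈ Tn0 μ U f 𝒜 W y, (tg μ U f 𝒜 w).card ≤ 1 := by
  intro w hw
  have h1 : (TS0 μ U f 𝒜 W y).card ≤ 1 := by
    by_contra hcon
    exact hn ⟨Or.inl hP, by omega⟩
  exact (card_le_card (tg_card_le_TS hw)).trans h1

/-- the symmetric partner relation -/
def prt (μ : V → V → ℕ) (U : Finset V) (f : V → ℕ) (𝒜 : Finset ℕ) (W X : ℕ) : Prop :=
  X ≠ W ∧ (0 < hh μ U f 𝒜 W X ∨ 0 < hh μ U f 𝒜 X W)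

theorem prt_symm {W X : ℕ} (hp : prt μ U f 𝒜 W X) : prt μ U f 𝒜 X W :=
  ⟨hp.1.symm, hp.2.symm⟩

theorem prt_arc (h : Setup0 μ s b U f 𝒜 r) (hL : Loc (arc μ U f) 𝒜 r J Q) {W X : ℕ}
    (hW : W ∈ J) (hX : X ∈ J) (hp : prt μ U f 𝒜 W X) : arc μ U f W X := by
  rcases hp.2 with h1 | h1
  · exact arc_of_hh_pos h (hL.sub hX) hp.1 h1
  · exact arc_of_hh_pos' h (hL.sub hX) (hL.ne_r hX) (hL.sub hW) (hL.ne_r hW) hp.1.symm h1

/-- case (A') -/
theorem cleanA (h : Setup0 μ s b U f 𝒜 r) (hb : 2 ≤ b) (hL : Loc (arc μ U f) 𝒜 r J Q)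
    (hJ : J.card ≤ 2 * b) (hPT : ∀ W ∈ J, ∀ Z ∈ J, PT (arc μ U f) 𝒜 J W Z) :
    ∀ W ∈ J, ∀ y ∈ BB U f 𝒜, ¬ HvS μ U f 𝒜 W y := by
  classical
  apply clean_lemma0 (arc μ U f) J (prt μ U f 𝒜) (fun W => ∀ y ∈ BB U f 𝒜, ¬ HvS μ U f 𝒜 W y) b
    hL.min
  · intro W _ X _ hp
    exact prt_symm hp
  · intro W hW X hX hp
    exact ⟨hp.1.symm, prt_arc h hL hW hX hp⟩
  · exact hJ
  · intro W hW hclean
    have h1 := many_partners h hb (hL.sub hW) (hL.ne_r hW) (hL.term W hW) 1 (Or.inl le_rfl)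
      (fun y hy hP => lightS (hclean y hy) hP)
    have h2 : (𝒜.erase W).filter (fun X => 0 < hh μ U f 𝒜 W X) ⊆
        insert Q (J.filter (prt μ U f 𝒜 W)) := by
      intro X hX
      obtain ⟨hX1, hX2⟩ := mem_filter.1 hX
      obtain ⟨hXW, hXA⟩ := mem_erase.1 hX1
      rw [mem_insert, mem_filter]
      rcases hL.out W hW X hXA (arc_of_hh_pos h hXA hXW hX2) with h3 | h3
      · exact Or.inr ⟨h3, hXW, Or.inl hX2⟩
      · exact Or.inl h3
    have h3 := (card_le_card h2).trans (card_insert_le _ _)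
    omega
  · intro W hW hn
    obtain ⟨X, hX, hpos, T, c, K, hS, hT2, hTa, hTA, hXK⟩ := witness h hb hL hW
      (HvS μ U f 𝒜 W) (J.erase W) 1 1 Subset.rfl le_rfl (by omega) (fun _ => le_rfl)
      (fun T => 2 ≤ T.card) (fun T hT => hT) (by
        intro y hy hv
        refine ⟨hv.1, ?_⟩
        obtain ⟨p, hp, q, hq, hpq, h2, _⟩ := pair_of_TS
          (tn_card_ge h (hL.sub hW) (hL.ne_r hW) (hL.term W hW) hy hv.1) hv.2 (fun _ => True) (by
            obtain ⟨c, hc⟩ := card_pos.1 (show 0 < (TS0 μ U f 𝒜 W y).card by have := hv.2; omega)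
            exact ⟨c, hc, trivial⟩)
        exact ⟨p, hp, q, hq, hpq, h2⟩)
      (fun y hy hn hP => lightS hn hP)
      (by
        have := sum_hh_le1 (Q := Q) h (W := W) (I' := J.erase W)
          (Finset.erase_subset_erase _ hL.sub) hL.Q_mem (fun e => hL.Q_notMem (e ▸ hW))
          (fun X hXA hXW ha => by
            rcases hL.out W hW X hXA ha with h3 | h3
            · exact Or.inl (mem_erase.2 ⟨hXW, h3⟩)
            · exact Or.inr h3)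
        simpa using this)
      (fun X hX => hPT W hW X (mem_erase.1 hX).2) hn
    obtain ⟨hXW, hXJ⟩ := mem_erase.1 hX
    have hcQ : c = Q := by
      rcases hS.c_mem with hc | hc
      · exfalso
        have hKne : K.Nonempty := by
          rw [nonempty_iff_ne_empty]
          intro hK
          have := card_le_card hS.T_sub
          rw [hK] at this
          simp at this
          omega
        obtain ⟨x, hx, y, hyA, hyK, hyW, hyc, ha⟩ := hPT W hW c (mem_erase.1 hc).2 K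
          (hS.sub.trans (erase_subset _ _)) (fun hWK => (mem_erase.1 (hS.sub hWK)).1 rfl)
          hS.c_notMem hKne
        rcases hS.out x hx y hyA ha with h3 | h3 | h3
        · exact hyK h3
        · exact hyW h3
        · exact hyc h3
      · exact hc
    subst hcQ
    have hTK : T.erase c ⊆ K := by
      intro Y hY
      obtain ⟨hYc, hYT⟩ := mem_erase.1 hY
      exact (mem_insert.1 (hS.T_sub hYT)).resolve_left hYc
    refine ⟨T.erase c, hTK.trans hS.sub, ?_, fun Y hY => hTa Y (mem_of_mem_erase hY), X, hXJ,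
      ⟨hXW, Or.inl hpos⟩, K, hS.sub, hTK, hXK, ?_⟩
    · rw [← card_pos]
      have := pred_card_le_card_erase (s := T) (a := c)
      have hT2' : 2 ≤ T.card := hT2
      omega
    · intro Y hY Y' hY' ha
      obtain ⟨hY'W, hY'J⟩ := mem_erase.1 hY'
      rcases hS.out Y hY Y' (hL.sub hY'J) ha with h3 | h3 | h3
      · exact h3
      · exact absurd h3 hY'W
      · exact absurd (h3 ▸ hY'J) hL.Q_notMem

section regB

variable {I S : Finset ℕ}

theorem Reg.mem_J (hR : Reg (arc μ U f) 𝒜 J I S) {X : ℕ} (hX : X ∈ I ∪ S) : X ∈ J := by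
  rcases mem_union.1 hX with h | h
  · exact hR.I_sub h
  · exact hR.S_sub h

theorem Reg.card_add (hR : Reg (arc μ U f) 𝒜 J I S) : I.card + 2 ≤ J.card := by
  rw [← hR.cardS, ← card_union_of_disjoint hR.disj]
  exact card_le_card (union_subset hR.I_sub hR.S_sub)

theorem partnersB (h : Setup0 μ s b U f 𝒜 r) (hL : Loc (arc μ U f) 𝒜 r J Q)
    (hR : Reg (arc μ U f) 𝒜 J I S) {W : ℕ} (hW : W ∈ I) [DecidablePred (prt μ U f 𝒜 W)]
    [DecidablePred (fun X => 0 < hh μ U f 𝒜 W X)] :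
    (𝒜.erase W).filter (fun X => 0 < hh μ U f 𝒜 W X) ⊆ (I ∪ S).filter (prt μ U f 𝒜 W) := by
  intro X hX
  obtain ⟨hX1, hX2⟩ := mem_filter.1 hX
  obtain ⟨hXW, hXA⟩ := mem_erase.1 hX1
  rw [mem_filter, mem_union]
  exact ⟨hR.out W hW X hXA (arc_of_hh_pos h hXA hXW hX2), hXW, Or.inl hX2⟩

/-- case (B'), strong -/
theorem cleanS (h : Setup0 μ s b U f 𝒜 r) (hb : 2 ≤ b) (hL : Loc (arc μ U f) 𝒜 r J Q)
    (hR : Reg (arc μ U f) 𝒜 J I S) (hI : I.card ≤ b + 1) :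
    ∀ W ∈ I, ∀ y ∈ BB U f 𝒜, ¬ HvS μ U f 𝒜 W y := by
  classical
  apply strong_clean hL hR (prt μ U f 𝒜) (fun W => ∀ y ∈ BB U f 𝒜, ¬ HvS μ U f 𝒜 W y) b hI
  · intro W hW X hX hp
    have hWJ := hR.I_sub hW
    have hXJ := hR.mem_J hX
    exact ⟨hp.1.symm, prt_arc h hL hWJ hXJ hp, prt_arc h hL hXJ hWJ (prt_symm hp)⟩
  · intro W hW hclean
    have hWJ := hR.I_sub hW
    have h1 := many_partners h hb (hL.sub hWJ) (hL.ne_r hWJ) (hL.term W hWJ) 1 (Or.inl le_rfl)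
      (fun y hy hP => lightS (hclean y hy) hP)
    exact h1.trans (card_le_card (partnersB h hL hR hW))
  · intro W hW hn
    have hWJ := hR.I_sub hW
    obtain ⟨X, hX, hpos, T, c, K, hS, hT2, hTa, hTA, hXK⟩ := witness h hb hL hWJ
      (HvS μ U f 𝒜 W) ((I ∪ S).erase W) 0 1
      (Finset.erase_subset_erase _ (fun X hX => hR.mem_J hX)) (by omega) (by omega)
      (by omega) (fun T => 2 ≤ T.card) (fun T hT => hT) (by
        intro y hy hv
        refine ⟨hv.1, ?_⟩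
        obtain ⟨p, hp, q, hq, hpq, h2, _⟩ := pair_of_TS
          (tn_card_ge h (hL.sub hWJ) (hL.ne_r hWJ) (hL.term W hWJ) hy hv.1) hv.2 (fun _ => True)
          (by
            obtain ⟨c, hc⟩ := card_pos.1 (show 0 < (TS0 μ U f 𝒜 W y).card by have := hv.2; omega)
            exact ⟨c, hc, trivial⟩)
        exact ⟨p, hp, q, hq, hpq, h2⟩)
      (fun y hy hn hP => lightS hn hP)
      (by
        have := sum_hh_le0 h (W := W) (I' := (I ∪ S).erase W)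
          (Finset.erase_subset_erase _ (fun X hX => hL.sub (hR.mem_J hX)))
          (fun X hXA hXW ha => mem_erase.2 ⟨hXW, mem_union.2 (hR.out W hW X hXA ha)⟩)
        simpa using this)
      (fun X hX => hR.pt W hW X (mem_erase.1 hX).2) hn
    obtain ⟨hXW, hXJ⟩ := mem_erase.1 hX
    exact ⟨X, hXJ, ⟨hXW, Or.inl hpos⟩, T, c, K, hS, hT2, hTa, hTA, hXK⟩

/-- case (B'), weak -/
theorem cleanW (h : Setup0 μ s b U f 𝒜 r) (hb : 4 ≤ b) (hL : Loc (arc μ U f) 𝒜 r J Q)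
    (hR : Reg (arc μ U f) 𝒜 J I S) (hJ : J.card ≤ 2 * b) :
    ∀ W ∈ I, ∀ y ∈ BB U f 𝒜, ¬ HvW μ U f 𝒜 I W y := by
  classical
  have hTS : ∀ W ∈ I, ∀ y, TS0 μ U f 𝒜 W y ⊆ I ∪ S := by
    intro W hW y c hc
    obtain ⟨w, hw, hcw⟩ := mem_biUnion.1 hc
    exact mem_union.2 (hR.out W hW c (z_mem_tg.1 hcw).1 (z_arc_of_tg (fm_mem (tn_mem hw)) hcw))
  have hlight : ∀ W ∈ I, ∀ y, ¬ HvW μ U f 𝒜 I W y → IsP0 μ U f 𝒜 W y →
      ∀ w ∈ Tn0 μ U f 𝒜 W y, (tg μ U f 𝒜 w).card ≤ 2 := by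
    intro W hW y hn hP w hw
    have h0 : tg μ U f 𝒜 w ⊆ TS0 μ U f 𝒜 W y := tg_card_le_TS hw
    by_cases h2 : 2 ≤ (TS0 μ U f 𝒜 W y).card
    · have h3 : ¬ (TS0 μ U f 𝒜 W y ∩ I).Nonempty := fun hne => hn ⟨Or.inl hP, h2, hne⟩
      rw [not_nonempty_iff_eq_empty] at h3
      have h4 : TS0 μ U f 𝒜 W y ⊆ S := by
        intro c hc
        rcases mem_union.1 (hTS W hW y hc) with h5 | h5
        · exfalso
          have : c ∈ TS0 μ U f 𝒜 W y ∩ I := mem_inter.2 ⟨hc, h5⟩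
          rw [h3] at this
          exact notMem_empty _ this
        · exact h5
      exact (card_le_card (h0.trans h4)).trans hR.cardS.le
    · have := card_le_card h0
      omega
  have hcardI := hR.card_add
  apply clean_lemma0 (arc μ U f) I (prt μ U f 𝒜)
    (fun W => ∀ y ∈ BB U f 𝒜, ¬ HvW μ U f 𝒜 I W y) (b - 1) hR.min
  · intro W _ X _ hp
    exact prt_symm hp
  · intro W hW X hX hp
    exact ⟨hp.1.symm, prt_arc h hL (hR.I_sub hW) (hR.I_sub hX) hp⟩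
  · omega
  · intro W hW hclean
    have hWJ := hR.I_sub hW
    have h1 := many_partners h (by omega) (hL.sub hWJ) (hL.ne_r hWJ) (hL.term W hWJ) 2
      (Or.inr ⟨le_rfl, hb⟩) (fun y hy hP => hlight W hW y (hclean y hy) hP)
    have h2 := h1.trans (card_le_card (partnersB h hL hR hW))
    have h3 : (I ∪ S).filter (prt μ U f 𝒜 W) ⊆ I.filter (prt μ U f 𝒜 W) ∪ S := by
      intro X hX
      obtain ⟨hX1, hX2⟩ := mem_filter.1 hX
      rw [mem_union, mem_filter]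
      rcases mem_union.1 hX1 with h4 | h4
      · exact Or.inl ⟨h4, hX2⟩
      · exact Or.inr h4
    have h4 := (card_le_card h3).trans (card_union_le _ _)
    rw [hR.cardS] at h4
    omega
  · intro W hW hn
    have hWJ := hR.I_sub hW
    obtain ⟨X, hX, hpos, T, c, K, hS, ⟨hT2, hTI⟩, hTa, hTA, hXK⟩ := witness h (by omega) hL hWJ
      (HvW μ U f 𝒜 I W) ((I ∪ S).erase W) 0 2
      (Finset.erase_subset_erase _ (fun X hX => hR.mem_J hX)) (by omega) le_rfl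
      (by omega) (fun T => 2 ≤ T.card ∧ ∃ c ∈ T, c ∈ I) (fun T hT => hT.1) (by
        intro y hy hv
        refine ⟨hv.1, ?_⟩
        obtain ⟨p, hp, q, hq, hpq, h2, hc⟩ := pair_of_TS
          (tn_card_ge h (hL.sub hWJ) (hL.ne_r hWJ) (hL.term W hWJ) hy hv.1) hv.2.1
          (fun c => c ∈ I) (by
            obtain ⟨c, hc⟩ := hv.2.2
            exact ⟨c, (mem_inter.1 hc).1, (mem_inter.1 hc).2⟩)
        exact ⟨p, hp, q, hq, hpq, h2, hc⟩)
      (fun y hy hn hP => hlight W hW y hn hP)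
      (by
        have := sum_hh_le0 h (W := W) (I' := (I ∪ S).erase W)
          (Finset.erase_subset_erase _ (fun X hX => hL.sub (hR.mem_J hX)))
          (fun X hXA hXW ha => mem_erase.2 ⟨hXW, mem_union.2 (hR.out W hW X hXA ha)⟩)
        simpa using this)
      (fun X hX => hR.pt W hW X (mem_erase.1 hX).2) hn
    obtain ⟨hXW, hXIS⟩ := mem_erase.1 hX
    obtain ⟨hc, hSK, hTK⟩ := sep_in_reg hL hR hW hS hT2 hTa hTA
    have hXI : X ∈ I := by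
      rcases mem_union.1 hXIS with h3 | h3
      · exact h3
      · exact absurd (hSK h3) hXK
    have hsub : K ∩ I ⊆ I.erase W := by
      intro Y hY
      obtain ⟨hYK, hYI⟩ := mem_inter.1 hY
      exact mem_erase.2 ⟨(mem_erase.1 (hS.sub hYK)).1, hYI⟩
    have hTK' : T ∩ I ⊆ K ∩ I := by
      intro Y hY
      obtain ⟨hYT, hYI⟩ := mem_inter.1 hY
      exact mem_inter.2 ⟨hTK hYT, hYI⟩
    refine ⟨T ∩ I, hTK'.trans hsub, ?_, fun Y hY => hTa Y (mem_inter.1 hY).1, X, hXI,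
      ⟨hXW, Or.inl hpos⟩, K ∩ I, hsub, hTK', fun hX' => hXK (mem_inter.1 hX').1, ?_⟩
    · obtain ⟨c', hc', hc'I⟩ := hTI
      exact ⟨c', mem_inter.2 ⟨hc', hc'I⟩⟩
    · intro Y hY Y' hY' ha
      obtain ⟨hY'W, hY'I⟩ := mem_erase.1 hY'
      rcases hS.out Y (mem_inter.1 hY).1 Y' (hL.sub (hR.I_sub hY'I)) ha with h3 | h3 | h3
      · exact mem_inter.2 ⟨h3, hY'I⟩
      · exact absurd h3 hY'W
      · exact absurd (mem_union_left _ (h3 ▸ hY'I)) hc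

end regB

theorem no_setup (h : Setup0 μ s b U f 𝒜 r) : False := by
  classical
  obtain ⟨J, Q, hL⟩ := exists_loc (arc μ U f) 𝒜 r h.r_mem (two_le_card h) h.reach
  have hb1 : 1 ≤ b := by
    obtain ⟨y, hy⟩ := card_pos.1 (show 0 < (BB U f 𝒜).card by rw [h.card_B]; omega)
    have := EE_bound h hy
    omega
  rcases Nat.lt_or_ge b 2 with hb | hb
  · have : b = 1 := by omega
    subst this
    exact b_one h hL
  rcases Nat.lt_or_ge (2 * b) J.card with hJ | hJ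
  · exact certL h hb hL hJ
  rcases exists_reg h.reach hL with hPT | ⟨I, S, hR⟩
  · apply certA h hb hL hJ
    intro W hW y hy hPQ
    have := cleanA h hb hL hJ hPT W hW y hy
    by_contra hcon
    exact this ⟨hPQ, by omega⟩
  · have hcardI := hR.card_add
    rcases Nat.lt_or_ge (b + 1) I.card with hI | hI
    · have hcl := cleanW h (by omega) hL hR hJ
      apply certB h hb hL hJ hR (by omega)
      right
      refine ⟨hI, ?_⟩
      intro W hW y hy hPQ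
      by_contra hcon
      rw [not_or] at hcon
      obtain ⟨c, hc, hcS⟩ := not_subset.1 hcon.2
      refine hcl W hW y hy ⟨hPQ, by omega, c, mem_inter.2 ⟨hc, ?_⟩⟩
      obtain ⟨w, hw, hcw⟩ := mem_biUnion.1 hc
      exact (hR.out W hW c (z_mem_tg.1 hcw).1 (z_arc_of_tg (fm_mem (tn_mem hw)) hcw)).resolve_right
        hcS
    · have hcl := cleanS h hb hL hR hI
      have hcl' : ∀ W ∈ I, ∀ y ∈ BB U f 𝒜, IsP0 μ U f 𝒜 W y ∨ IsQ0 μ U f 𝒜 W y →
          (TS0 μ U f 𝒜 W y).card ≤ 1 := by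
        intro W hW y hy hPQ
        by_contra hcon
        exact hcl W hW y hy ⟨hPQ, by omega⟩
      refine certB h hb hL hJ hR ?_ (Or.inl hcl')
      obtain ⟨W, hW⟩ := hR.nonempty
      have hWJ := hR.I_sub hW
      have h1 := many_partners h hb (hL.sub hWJ) (hL.ne_r hWJ) (hL.term W hWJ) 1 (Or.inl le_rfl)
        (fun y hy hP => lightS (hcl W hW y hy) hP)
      have h2 := h1.trans (card_le_card (partnersB h hL hR hW))
      have h3 : (I ∪ S).filter (prt μ U f 𝒜 W) ⊆ (I ∪ S).erase W := by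
        intro X hX
        obtain ⟨hX1, hX2⟩ := mem_filter.1 hX
        exact mem_erase.2 ⟨hX2.1, hX1⟩
      have h4 := card_le_card h3
      rw [card_erase_of_mem (mem_union_left _ hW), card_union_of_disjoint hR.disj, hR.cardS] at h4
      omega

end Pool.Agent.H25.EB
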