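import Pool.Agent.H25.EB.Defs
import Pool.Agent.H25.EA.Choice

/-!
# Module D: choice of the region
-/

set_option autoImplicit false

namespace Pool.Agent.H25.EB

open Finset Pool.Agent.H25.EA

theorem exists_loc (ar : ℕ → ℕ → Prop) (𝒜 : Finset ℕ) (r : ℕ) (hr : r ∈ 𝒜) (h2 : 2 ≤ 𝒜.card)
    (hreach : NoCl ar 𝒜 r ∅) : ∃ J Q, Loc ar 𝒜 r J Q := by
  classical
  rw [noCl_iff] at hreach
  choose DS hDS hmax using exists_max_clo ar 𝒜 r
  have hNo : ∀ S, NoCl ar 𝒜 r S ↔ DS S = ∅ := by
    intro S
    rw [noCl_iff]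
    constructor
    · intro h
      exact h _ (hDS S)
    · intro h K hK
      have := hmax S K hK
      rw [h] at this
      exact subset_empty.1 this
  have hP : (𝒜.filter (fun Q => (DS {Q}).Nonempty)).Nonempty := by
    refine ⟨r, ?_⟩
    rw [mem_filter]
    refine ⟨hr, ?_⟩
    have hc : Clo ar 𝒜 r {r} (𝒜.erase r) := by
      refine ⟨erase_subset _ _, ?_, by simp, ?_⟩
      · rw [disjoint_singleton_right]; simp
      · intro x _ y hy _
        by_cases h : y = r
        · right; simp [h]
        · left; simp [h, hy]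
    have h1 : (𝒜.erase r).Nonempty := by
      rw [← card_pos, card_erase_of_mem hr]; omega
    exact h1.mono (hmax _ _ hc)
  obtain ⟨Q, hQ, hQmin⟩ := exists_min_image _ (fun Q : ℕ => (DS {Q}).card) hP
  rw [mem_filter] at hQ
  obtain ⟨hQA, hQne⟩ := hQ
  obtain ⟨D, hDdef⟩ : ∃ D, D = DS {Q} := ⟨_, rfl⟩
  have hD : Clo ar 𝒜 r {Q} D := hDdef ▸ hDS {Q}
  rw [← hDdef] at hQne
  obtain ⟨hDA, hDQ, hDr, hDout⟩ := hD
  rw [disjoint_singleton_right] at hDQ
  have key : ∀ S ⊆ D, DS S ⊆ D := by
    intro S hS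
    obtain ⟨h1, h2, h3, h4⟩ := hDS S
    by_cases hU : Q ∈ DS S
    · exfalso
      have := hreach (DS S ∪ D) ⟨union_subset h1 hDA, disjoint_empty_right _, by
        simp [h3, hDr], ?_⟩
      · have h5 : D ⊆ ∅ := this ▸ subset_union_right
        exact hQne.ne_empty (subset_empty.1 h5)
      · intro x hx y hy hxy
        left
        rw [mem_union] at hx ⊢
        rcases hx with hx | hx
        · rcases h4 x hx y hy hxy with h | h
          · exact Or.inl h
          · exact Or.inr (hS h)
        · rcases hDout x hx y hy hxy with h | h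
          · exact Or.inr h
          · rw [mem_singleton] at h
            rw [h]; exact Or.inl hU
    · have h5 : DS S ∪ D ⊆ D := by
        conv_rhs => rw [hDdef]
        apply hmax
        refine ⟨union_subset h1 hDA, ?_, by simp [h3, hDr], ?_⟩
        · rw [disjoint_singleton_right, mem_union]
          rintro (h | h)
          · exact hU h
          · exact hDQ h
        · intro x hx y hy hxy
          rw [mem_union] at hx
          rcases hx with hx | hx
          · rcases h4 x hx y hy hxy with h | h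
            · exact Or.inl (mem_union_left _ h)
            · exact Or.inl (mem_union_right _ (hS h))
          · rcases hDout x hx y hy hxy with h | h
            · exact Or.inl (mem_union_right _ h)
            · exact Or.inr h
      exact subset_union_left.trans h5
  have hterm : ∀ W ∈ D, NoCl ar 𝒜 r {W} := by
    intro W hW
    rw [hNo]
    by_contra hne
    have hne' := nonempty_iff_ne_empty.2 hne
    have h1 := hQmin W (by rw [mem_filter]; exact ⟨hDA hW, hne'⟩)
    simp only [← hDdef] at h1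
    have h2 := key {W} (by simpa using hW)
    have h3 : DS {W} ⊂ D := by
      refine ⟨h2, fun h => ?_⟩
      have := (hDS {W}).2.1
      rw [disjoint_singleton_right] at this
      exact this (h hW)
    exact absurd (card_lt_card h3) (not_lt.2 h1)
  obtain ⟨J, hJD, hJne, hJ, hJmin⟩ := exists_min_region ar 𝒜 r {Q} D
      ⟨hDA, by rwa [disjoint_singleton_right], hDr, hDout⟩ hQne
  have hQJ : Q ∉ J := fun h => hDQ (hJD h)
  refine ⟨J, Q, ⟨hJ.1, hQA, hQJ, fun h => hDr (hJD h), hJne, ?_, hJmin,
    fun W hW => hterm W (hJD hW), ?_⟩⟩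
  · intro W hW Y hY hWY
    simpa using hJ.2.2.2 W hW Y hY hWY
  · intro R hR hQR hrR hRJ
    by_contra hcon
    push Not at hcon
    have h5 := hreach (R ∪ J) ⟨union_subset hR hJ.1, disjoint_empty_right _, by
      simp [hrR, hJ.2.2.1], ?_⟩
    · have h6 : J ⊆ ∅ := h5 ▸ subset_union_right
      exact hJne.ne_empty (subset_empty.1 h6)
    · intro x hx y hy hxy
      left
      rw [mem_union] at hx ⊢
      rcases hx with hx | hx
      · by_contra hn
        push Not at hn
        exact hcon x hx y hy hn.1 hn.2 hxy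
      · rcases hJ.2.2.2 x hx y hy hxy with h | h
        · exact Or.inr h
        · rw [mem_singleton] at h
          rw [h]; exact Or.inl hQR

/-- `K` is a part of `J` which avoids `S`, and its arcs end in `K ∪ S` -/
def CJ (ar : ℕ → ℕ → Prop) (𝒜 J S K : Finset ℕ) : Prop :=
  K ⊆ J ∧ Disjoint K S ∧ ∀ x ∈ K, ∀ y ∈ 𝒜, ar x y → y ∈ K ∨ y ∈ S

theorem exists_max_cj (ar : ℕ → ℕ → Prop) (𝒜 J S : Finset ℕ) :
    ∃ D, CJ ar 𝒜 J S D ∧ ∀ K, CJ ar 𝒜 J S K → K ⊆ D := by
  classical
  refine ⟨(J.powerset.filter (CJ ar 𝒜 J S)).biUnion id, ⟨?_, ?_, ?_⟩, ?_⟩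
  · intro x hx
    simp only [mem_biUnion, mem_filter, mem_powerset, id] at hx
    obtain ⟨K, ⟨hK, _⟩, hx⟩ := hx
    exact hK hx
  · rw [disjoint_biUnion_left]
    intro K hK
    simp only [mem_filter] at hK
    exact hK.2.2.1
  · intro x hx y hy hxy
    simp only [mem_biUnion, mem_filter, mem_powerset, id] at hx ⊢
    obtain ⟨K, hK, hx⟩ := hx
    rcases hK.2.2.2 x hx y hy hxy with h | h
    · exact Or.inl ⟨K, hK, h⟩
    · exact Or.inr h
  · intro K hK x hx
    simp only [mem_biUnion, mem_filter, mem_powerset, id]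
    exact ⟨K, ⟨hK.1, hK⟩, hx⟩

theorem pt_iff {ar : ℕ → ℕ → Prop} {𝒜 J : Finset ℕ} {W Z : ℕ} :
    PT ar 𝒜 J W Z ↔ ∀ K, CJ ar 𝒜 J {W, Z} K → K = ∅ := by
  constructor
  · intro h K hK
    by_contra hne
    have hd := hK.2.1
    rw [disjoint_left] at hd
    obtain ⟨x, hx, y, hy, hyK, hyW, hyZ, hxy⟩ := h K hK.1 (fun h => hd h (by simp))
      (fun h => hd h (by simp)) (nonempty_iff_ne_empty.2 hne)
    rcases hK.2.2 x hx y hy hxy with h | h
    · exact hyK h
    · simp only [mem_insert, mem_singleton] at h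
      rcases h with h | h
      · exact hyW h
      · exact hyZ h
  · intro h K hK hWK hZK hne
    by_contra hcon
    push Not at hcon
    refine hne.ne_empty (h K ⟨hK, ?_, ?_⟩)
    · rw [disjoint_left]
      intro x hx hx'
      simp only [mem_insert, mem_singleton] at hx'
      rcases hx' with rfl | rfl
      · exact hWK hx
      · exact hZK hx
    · intro x hx y hy hxy
      by_cases hyK : y ∈ K
      · exact Or.inl hyK
      · right
        simp only [mem_insert, mem_singleton]
        by_contra hn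
        push Not at hn
        exact hcon x hx y hy hyK hn.1 hn.2 hxy

theorem exists_reg {ar : ℕ → ℕ → Prop} {𝒜 : Finset ℕ} {r : ℕ} {J : Finset ℕ} {Q : ℕ}
    (hreach : NoCl ar 𝒜 r ∅) (hL : Loc ar 𝒜 r J Q) :
    (∀ W ∈ J, ∀ Z ∈ J, PT ar 𝒜 J W Z) ∨ ∃ I S, Reg ar 𝒜 J I S := by
  classical
  by_cases hA : ∀ W ∈ J, ∀ Z ∈ J, PT ar 𝒜 J W Z
  · exact Or.inl hA
  right
  rw [noCl_iff] at hreach
  choose DS hDS hmax using exists_max_cj ar 𝒜 J
  have hNo : ∀ W Z, PT ar 𝒜 J W Z ↔ DS {W, Z} = ∅ := by
    intro W Z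
    rw [pt_iff]
    constructor
    · intro h
      exact h _ (hDS _)
    · intro h K hK
      have := hmax _ K hK
      rw [h] at this
      exact subset_empty.1 this
  push Not at hA
  obtain ⟨W0, hW0, Z0, hZ0, hWZ⟩ := hA
  have hP2 : ((J ×ˢ J).filter (fun p => (DS {p.1, p.2}).Nonempty)).Nonempty := by
    refine ⟨(W0, Z0), ?_⟩
    rw [mem_filter, mem_product]
    refine ⟨⟨hW0, hZ0⟩, nonempty_iff_ne_empty.2 ?_⟩
    rw [hNo] at hWZ
    exact hWZ
  obtain ⟨⟨S1, S2⟩, hS, hSmin⟩ := exists_min_image _ (fun p : ℕ × ℕ => (DS {p.1, p.2}).card) hP2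
  rw [mem_filter, mem_product] at hS
  obtain ⟨⟨hS1, hS2⟩, hSne⟩ := hS
  simp only at hS1 hS2 hSne
  -- a closed set up to one class of `J` is empty
  have hone : ∀ X ∈ J, ∀ K ⊆ J, X ∉ K → (∀ x ∈ K, ∀ y ∈ 𝒜, ar x y → y ∈ K ∨ y = X) → K = ∅ := by
    intro X hX K hK hXK hout
    have hT := hL.term X hX
    rw [noCl_iff] at hT
    apply hT
    refine ⟨hK.trans hL.sub, by rwa [disjoint_singleton_right], fun h => hL.r_notMem (hK h), ?_⟩
    intro x hx y hy hxy
    simpa using hout x hx y hy hxy
  have hzero : ∀ K ⊆ J, (∀ x ∈ K, ∀ y ∈ 𝒜, ar x y → y ∈ K) → K = ∅ := by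
    intro K hK hout
    apply hreach
    refine ⟨hK.trans hL.sub, disjoint_empty_right _, fun h => hL.r_notMem (hK h), ?_⟩
    intro x hx y hy hxy
    exact Or.inl (hout x hx y hy hxy)
  have hne12 : S1 ≠ S2 := by
    intro h
    rw [h, pair_eq_singleton] at hSne
    have h3 := hDS {S2}
    refine hSne.ne_empty (hone S2 hS2 _ h3.1 ?_ ?_)
    · have := h3.2.1
      rwa [disjoint_singleton_right] at this
    · intro x hx y hy hxy
      simpa using h3.2.2 x hx y hy hxy
  obtain ⟨E, hEdef⟩ : ∃ E, E = DS {S1, S2} := ⟨_, rfl⟩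
  have hE : CJ ar 𝒜 J {S1, S2} E := hEdef ▸ hDS {S1, S2}
  have hSJ : ({S1, S2} : Finset ℕ) ⊆ J := by
    intro x hx
    simp only [mem_insert, mem_singleton] at hx
    rcases hx with rfl | rfl
    · exact hS1
    · exact hS2
  have hEJ : E ⊆ J := hE.1
  have hS1E : S1 ∉ E := fun h => by
    have := hE.2.1
    rw [disjoint_left] at this
    exact this h (by simp)
  have hS2E : S2 ∉ E := fun h => by
    have := hE.2.1
    rw [disjoint_left] at this
    exact this h (by simp)
  -- all pairs
  have hpair : ∀ W ∈ E, ∀ Z ∈ J, Z ∈ E ∨ Z = S1 ∨ Z = S2 → PT ar 𝒜 J W Z := by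
    intro W hW Z hZJ hZ
    rw [hNo]
    by_contra hne
    have hne' := nonempty_iff_ne_empty.2 hne
    obtain ⟨K, hKdef⟩ : ∃ K, K = DS {W, Z} := ⟨_, rfl⟩
    have hK : CJ ar 𝒜 J {W, Z} K := hKdef ▸ hDS {W, Z}
    have hmin := hSmin (W, Z) (by
      rw [mem_filter, mem_product]
      exact ⟨⟨hEJ hW, hZJ⟩, hne'⟩)
    simp only [← hKdef, ← hEdef] at hmin
    have hWK : W ∉ K := fun h => by
      have := hK.2.1
      rw [disjoint_left] at this
      exact this h (by simp)
    -- the union
    have hout : ∀ x ∈ K ∪ E, ∀ y ∈ 𝒜, ar x y → y ∈ K ∪ E ∨ y = S1 ∨ y = S2 := by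
      intro x hx y hy hxy
      rw [mem_union] at hx ⊢
      rcases hx with hx | hx
      · rcases hK.2.2 x hx y hy hxy with h | h
        · exact Or.inl (Or.inl h)
        · simp only [mem_insert, mem_singleton] at h
          rcases h with rfl | rfl
          · exact Or.inl (Or.inr hW)
          · rcases hZ with hZ | hZ
            · exact Or.inl (Or.inr hZ)
            · exact Or.inr hZ
      · rcases hE.2.2 x hx y hy hxy with h | h
        · exact Or.inl (Or.inr h)
        · simp only [mem_insert, mem_singleton] at h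
          exact Or.inr h
    have hsub : K ∪ E ⊆ J := union_subset hK.1 hE.1
    have hneU : (K ∪ E) ≠ ∅ := by
      intro h
      have : E ⊆ ∅ := h ▸ subset_union_right
      rw [subset_empty] at this
      rw [this] at hW
      simp at hW
    by_cases h1 : S1 ∈ K
    · by_cases h2 : S2 ∈ K
      · apply hneU
        apply hzero _ hsub
        intro x hx y hy hxy
        rcases hout x hx y hy hxy with h | h | h
        · exact h
        · rw [h]; exact mem_union_left _ h1
        · rw [h]; exact mem_union_left _ h2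
      · apply hneU
        apply hone S2 hS2 _ hsub (by simp [h2, hS2E])
        intro x hx y hy hxy
        rcases hout x hx y hy hxy with h | h | h
        · exact Or.inl h
        · rw [h]; exact Or.inl (mem_union_left _ h1)
        · exact Or.inr h
    · by_cases h2 : S2 ∈ K
      · apply hneU
        apply hone S1 hS1 _ hsub (by simp [h1, hS1E])
        intro x hx y hy hxy
        rcases hout x hx y hy hxy with h | h | h
        · exact Or.inl h
        · exact Or.inr h
        · rw [h]; exact Or.inl (mem_union_left _ h2)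
      · have h3 : K ∪ E ⊆ E := by
          conv_rhs => rw [hEdef]
          apply hmax
          refine ⟨hsub, ?_, ?_⟩
          · rw [disjoint_left]
            intro x hx hx'
            simp only [mem_insert, mem_singleton] at hx'
            rcases hx' with rfl | rfl
            · simp [h1, hS1E] at hx
            · simp [h2, hS2E] at hx
          · intro x hx y hy hxy
            simpa using hout x hx y hy hxy
        have h4 : K ⊂ E := ⟨subset_union_left.trans h3, fun h => hWK (h hW)⟩
        exact absurd (card_lt_card h4) (not_lt.2 hmin)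
  have hEc : Clo ar 𝒜 r {S1, S2} E :=
    ⟨hEJ.trans hL.sub, hE.2.1, fun h => hL.r_notMem (hEJ h), hE.2.2⟩
  obtain ⟨I, hIE, hIne, hI, hImin⟩ := exists_min_region ar 𝒜 r {S1, S2} E hEc
    (hEdef ▸ hSne)
  refine ⟨I, {S1, S2}, ⟨hIE.trans hEJ, hSJ, hI.2.1, card_pair hne12, hIne, hI.2.2.2, hImin, ?_⟩⟩
  intro W hW Z hZ
  rw [mem_union] at hZ
  rcases hZ with hZ | hZ
  · exact hpair W (hIE hW) Z (hEJ (hIE hZ)) (Or.inl (hIE hZ))
  · exact hpair W (hIE hW) Z (hSJ hZ) (Or.inr (by simpa using hZ))

end Pool.Agent.H25.EB
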