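import Pool.Agent.H25.EA.Defs

/-!
# Equitable acyclic colourings, maximum degree `2k-1`: definitions

We reuse `MG`, `ee`, `Ac`, `cl`, `EC`, `mov`, `arc`, `AA`, `BB`, `NoCl`, `tg`, `Fm`, `Nm`, `ep`,
`EE` from `Pool.Agent.H25.EA.Defs`.
-/

set_option autoImplicit false

namespace Pool.Agent.H25.EB

open Finset Pool.Agent.H25.EA

variable {V : Type*} [DecidableEq V]

/-- The situation after the extremal choice of a nearly equitable colouring. `𝒜` is the set of the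
classes which reach the small class `r`. (As `EA.Setup`, but all degrees may be larger by one.) -/
structure Setup0 (μ : V → V → ℕ) (s b : ℕ) (U : Finset V) (f : V → ℕ) (𝒜 : Finset ℕ) (r : ℕ) :
    Prop where
  mg : MG μ
  deg : ∀ v ∈ U, ee μ v U + 1 ≤ 2 * (𝒜.card + b)
  r_mem : r ∈ 𝒜
  card_r : (cl U f r).card + 1 = s
  card_cl : ∀ c ∈ 𝒜, c ≠ r → (cl U f c).card = s
  ac : ∀ c ∈ 𝒜, Ac μ (cl U f c)
  card_B : (BB U f 𝒜).card = b * s + 1
  /-- no vertex of `B` can be moved to a class of `𝒜` -/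
  blocked : ∀ y ∈ BB U f 𝒜, ∀ c ∈ 𝒜, ¬ mov μ U f y c
  /-- every class of `𝒜` reaches `r` -/
  reach : NoCl (arc μ U f) 𝒜 r ∅
  /-- no set `A'` of the right size whose complement has small degrees is colourable -/
  noEC : ∀ A' ⊆ U, A'.card = 𝒜.card * s →
    (∀ v ∈ U \ A', ee μ v (U \ A') + 1 ≤ 2 * b) → ¬ EC μ s A' 𝒜
  /-- the swap rule: `W` is a terminal class, `z ∈ W` cannot be moved, and `z` may be exchanged
  with `y ∈ B` -/
  swap : ∀ W ∈ 𝒜, W ≠ r → NoCl (arc μ U f) 𝒜 r {W} →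
    ∀ z ∈ cl U f W, (∀ c ∈ 𝒜, c ≠ W → ¬ mov μ U f z c) →
    ∀ y ∈ BB U f 𝒜, Ac μ (insert y ((cl U f W).erase z)) →
      (∀ v ∈ insert z ((BB U f 𝒜).erase y),
        ee μ v (insert z ((BB U f 𝒜).erase y)) + 1 ≤ 2 * b) ∧
      ee μ y (AA U f 𝒜) ≤ ee μ z (AA U f 𝒜) + μ y z

/-! ### real edges -/

/-- the number of real edges between the outside vertex `v` and the vertex `w` of `W`: a simple
edge to a vertex `w` which is isolated in `W` is not real (wasted), all others are real -/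
def rm (μ : V → V → ℕ) (W : Finset V) (v w : V) : ℕ :=
  if μ v w = 1 ∧ ee μ w W = 0 then 0 else μ v w

/-- the number of real edges (with respect to `W`) from `v` to the part `S` of `W` -/
def rr (μ : V → V → ℕ) (W S : Finset V) (v : V) : ℕ := ∑ w ∈ S, rm μ W v w

/-- the number of real edges (with respect to `W`) from `w ∈ W` to the set `B` -/
def rB (μ : V → V → ℕ) (W B : Finset V) (w : V) : ℕ := ∑ y ∈ B, rm μ W y w

/-- the wasted neighbours of `v` in `W` -/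
def om (μ : V → V → ℕ) (W : Finset V) (v : V) : Finset V :=
  W.filter (fun w => μ v w = 1 ∧ ee μ w W = 0)

section X
variable (μ : V → V → ℕ) (U : Finset V) (f : V → ℕ) (𝒜 : Finset ℕ)

/-- type `P` (real edges): three real edges to movable vertices, none to the others -/
def IsP0 (W : ℕ) (y : V) : Prop :=
  rr μ (cl U f W) (Nm μ U f 𝒜 W) y = 0 ∧ rr μ (cl U f W) (Fm μ U f 𝒜 W) y = 3

/-- type `Q` (real edges) -/
def IsQ0 (W : ℕ) (y : V) : Prop :=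
  rr μ (cl U f W) (Nm μ U f 𝒜 W) y = 1 ∧ rr μ (cl U f W) (Fm μ U f 𝒜 W) y = 2

/-- the real movable neighbours of `y` in `W` -/
noncomputable def Tn0 (W : ℕ) (y : V) : Finset V :=
  (Fm μ U f 𝒜 W).filter (fun w => 0 < rm μ (cl U f W) y w)

/-- the targets of the real movable neighbours of `y` in `W` -/
noncomputable def TS0 (W : ℕ) (y : V) : Finset ℕ := (Tn0 μ U f 𝒜 W y).biUnion (tg μ U f 𝒜)

/-- the full isolated vertices of the class `W`: isolated in `W` and without a simple edge to `B` -/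
def Fu (W : ℕ) : Finset V :=
  (cl U f W).filter (fun w => ee μ w (cl U f W) = 0 ∧ ∀ y ∈ BB U f 𝒜, μ w y ≠ 1)

/-- the corrected deficiency of `w ∈ W` at the class `X` -/
def dl (W : ℕ) (w : V) (X : ℕ) : ℤ :=
  2 - (ee μ w (cl U f X) : ℤ) +
    if w ∈ Fu μ U f 𝒜 W ∧ ee μ w (cl U f X) % 2 = 1 then 1 else 0

/-- `Δ'(w)` -/
def Dl (W : ℕ) (w : V) : ℤ := ∑ X ∈ 𝒜.erase W, dl μ U f 𝒜 W w X

/-- `h(W,X)` -/
def hh (W X : ℕ) : ℤ := ∑ w ∈ cl U f W, dl μ U f 𝒜 W w X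

/-- `ρ*(x)`: the edges from `x` to `W` without the simple edges to `Fu W` -/
def rst (W : ℕ) (x : V) : ℕ :=
  ∑ w ∈ cl U f W, if w ∈ Fu μ U f 𝒜 W ∧ μ x w = 1 then 0 else μ x w

end X

/-! ### local structure of the digraph of classes -/

/-- `J` is a strongly connected set of terminal classes whose arcs leave `J` only to `Q` -/
structure Loc (ar : ℕ → ℕ → Prop) (𝒜 : Finset ℕ) (r : ℕ) (J : Finset ℕ) (Q : ℕ) : Prop where
  sub : J ⊆ 𝒜
  Q_mem : Q ∈ 𝒜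
  Q_notMem : Q ∉ J
  r_notMem : r ∉ J
  nonempty : J.Nonempty
  out : ∀ W ∈ J, ∀ Y ∈ 𝒜, ar W Y → Y ∈ J ∨ Y = Q
  min : ∀ K ⊆ J, K.Nonempty → (∀ W ∈ K, ∀ Y ∈ J, ar W Y → Y ∈ K) → K = J
  term : ∀ W ∈ J, NoCl ar 𝒜 r {W}
  /-- `Q` reaches `r` avoiding `J` (in cut form) -/
  Qr : ∀ R ⊆ 𝒜, Q ∈ R → r ∉ R → Disjoint R J → ∃ x ∈ R, ∃ y ∈ 𝒜, y ∉ R ∧ y ∉ J ∧ ar x y

/-- `(c, K)` separates the set `T` of classes from the rest of `J - W` -/
structure Sep (ar : ℕ → ℕ → Prop) (𝒜 J : Finset ℕ) (Q W : ℕ) (T : Finset ℕ) (c : ℕ)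
    (K : Finset ℕ) : Prop where
  sub : K ⊆ J.erase W
  c_mem : c ∈ J.erase W ∨ c = Q
  c_notMem : c ∉ K
  T_sub : T ⊆ insert c K
  out : ∀ x ∈ K, ∀ y ∈ 𝒜, ar x y → y ∈ K ∨ y = W ∨ y = c

/-- no nonempty set of classes of `J` is closed up to `W` and `Z` -/
def PT (ar : ℕ → ℕ → Prop) (𝒜 J : Finset ℕ) (W Z : ℕ) : Prop :=
  ∀ K ⊆ J, W ∉ K → Z ∉ K → K.Nonempty → ∃ x ∈ K, ∃ y ∈ 𝒜, y ∉ K ∧ y ≠ W ∧ y ≠ Z ∧ ar x y

/-- a region `I` of `J` which is closed up to the two classes of `S` -/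
structure Reg (ar : ℕ → ℕ → Prop) (𝒜 J I S : Finset ℕ) : Prop where
  I_sub : I ⊆ J
  S_sub : S ⊆ J
  disj : Disjoint I S
  cardS : S.card = 2
  nonempty : I.Nonempty
  out : ∀ W ∈ I, ∀ Y ∈ 𝒜, ar W Y → Y ∈ I ∨ Y ∈ S
  min : ∀ K ⊆ I, K.Nonempty → (∀ W ∈ K, ∀ Y ∈ I, ar W Y → Y ∈ K) → K = I
  pt : ∀ W ∈ I, ∀ Z ∈ I ∪ S, PT ar 𝒜 J W Z

end Pool.Agent.H25.EB
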