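import Pool.Agent.H25.EA.Result
import Pool.Agent.H25.EB.Defs

/-!
# The final theorem from the case `|U| = k s` (maximum degree at most `2k-1`)
-/

set_option autoImplicit false
set_option linter.unusedSectionVars false

namespace Pool.Agent.H25.EB

open Finset Pool.Agent.H25.EA

theorem result_of_main (hmain : ∀ (V : Type) [DecidableEq V] (μ : V → V → ℕ) (_ : MG μ) (s k : ℕ)
      (U : Finset V), U.card = k * s → (∀ v ∈ U, ee μ v U + 1 ≤ 2 * k) → EC μ s U (range k)) :
    ∀ (k : ℕ), 0 < k →
      ∀ (V : Type) [Fintype V] (μ : V → V → ℕ),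
        (∀ u v, μ u v = μ v u) →
        (∀ v, μ v v = 0) →
        (∀ u v, μ u v ≤ 2) →
        (∀ v, ∑ u, μ v u ≤ 2 * k - 1) →
        ∃ f : V → Fin k,
          (∀ i j : Fin k,
            (Finset.univ.filter (fun v => f v = i)).card ≤
              (Finset.univ.filter (fun v => f v = j)).card + 1) ∧
          (∀ u v, f u = f v → μ u v ≤ 1) ∧
          (SimpleGraph.fromRel (fun u v => f u = f v ∧ 0 < μ u v)).IsAcyclic := by
  intro k hk V _ μ hs hd h2 hdeg
  classical
  -- sizes
  obtain ⟨s, p, hsp, hpk⟩ : ∃ s p : ℕ, Fintype.card V + p = k * s ∧ p < k := by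
    have h1 := Nat.div_add_mod (Fintype.card V) k
    have h3 := Nat.mod_lt (Fintype.card V) hk
    by_cases h0 : Fintype.card V % k = 0
    · exact ⟨Fintype.card V / k, 0, by omega, hk⟩
    · refine ⟨Fintype.card V / k + 1, k - Fintype.card V % k, ?_, by omega⟩
      rw [mul_add, mul_one]
      omega
  have hμ' : MG (pad μ p) := by
    refine ⟨?_, ?_, ?_⟩
    · rintro (u | i) (v | j)
      · exact hs u v
      · rfl
      · rfl
      · simp only [pad, eq_comm]
    · rintro (u | i)
      · exact hd u
      · simp [pad]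
    · rintro (u | i) (v | j)
      · exact h2 u v
      · simp [pad]
      · simp [pad]
      · simp only [pad]; split_ifs <;> omega
  obtain ⟨f, f1, f2⟩ := hmain (V ⊕ Fin p) (pad μ p) hμ' s k univ
    (by rw [Finset.card_univ, Fintype.card_sum, Fintype.card_fin, hsp]) (by
      rintro (u | i) _
      · have h3 : ee (pad μ p) (Sum.inl u) univ = ∑ v, μ u v := by
          unfold ee
          rw [Fintype.sum_sum_type]
          simp [pad]
        have := hdeg u
        rw [h3]; omega
      · have h3 : ee (pad μ p) (Sum.inr i) univ = ∑ j : Fin p, if i = j then 0 else 2 := by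
          unfold ee
          rw [Fintype.sum_sum_type]
          simp [pad]
        have h4 : (∑ j : Fin p, if i = j then 0 else 2) + 2 = 2 * p := by
          have h5 : (∑ j : Fin p, if i = j then 0 else 2) + (∑ j : Fin p, if i = j then 2 else 0) = 2 * p := by
            rw [← Finset.sum_add_distrib]
            have : ∀ j : Fin p, (if i = j then 0 else 2) + (if i = j then 2 else 0) = 2 := by
              intro j; split_ifs <;> rfl
            simp only [this, Finset.sum_const, Finset.card_univ, Fintype.card_fin, smul_eq_mul]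
            ring
          rw [Finset.sum_ite_eq univ i (fun _ => 2), if_pos (Finset.mem_univ i)] at h5
          exact h5
        rw [h3]
        omega)
  have f3 : ∀ x, f x < k := fun x => Finset.mem_range.mp (f1 x (Finset.mem_univ x))
  -- class sizes
  have hsize : ∀ i : Fin k,
      (Finset.univ.filter (fun v : V => (⟨f (Sum.inl v), f3 _⟩ : Fin k) = i)).card ≤ s ∧
      s ≤ (Finset.univ.filter (fun v : V => (⟨f (Sum.inl v), f3 _⟩ : Fin k) = i)).card + 1 := by
    intro i
    obtain ⟨hcard, hac⟩ := f2 i (Finset.mem_range.mpr i.2)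
    set Si := Finset.univ.filter (fun v : V => (⟨f (Sum.inl v), f3 _⟩ : Fin k) = i) with hSi
    set Ri := Finset.univ.filter (fun j : Fin p => f (Sum.inr j) = i) with hRi
    have h3 : cl univ f i = Si.disjSum Ri := by
      ext x
      rw [mem_cl, Finset.mem_disjSum]
      rcases x with v | j
      · simp [hSi, Fin.ext_iff]
      · simp [hRi]
    have h4 : Ri.card ≤ 1 := by
      rw [Finset.card_le_one]
      intro j hj j' hj'
      by_contra hne
      have h5 : pad μ p (Sum.inr j) (Sum.inr j') ≤ 1 := by
        apply hac.mu_le_one hμ'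
        · rw [h3, Finset.mem_disjSum]; right; exact ⟨j, hj, rfl⟩
        · rw [h3, Finset.mem_disjSum]; right; exact ⟨j', hj', rfl⟩
      simp [pad, hne] at h5
    rw [h3, Finset.card_disjSum] at hcard
    omega
  refine ⟨fun v => ⟨f (Sum.inl v), f3 _⟩, ?_, ?_, ?_⟩
  · intro i j
    exact (hsize i).1.trans (hsize j).2
  · intro u v huv
    have huv' : f (Sum.inl u) = f (Sum.inl v) := by
      rw [Fin.ext_iff] at huv; exact huv
    have := (f2 (f (Sum.inl u)) (Finset.mem_range.mpr (f3 _))).2.mu_le_one hμ' (u := Sum.inl u)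
      (v := Sum.inl v) (mem_cl.mpr ⟨Finset.mem_univ _, rfl⟩) (mem_cl.mpr ⟨Finset.mem_univ _, huv'.symm⟩)
    exact this
  · apply isAcyclic_of_Ac _ _ hs
    intro T hne hT
    obtain ⟨u, hu⟩ := hne
    obtain ⟨w, hw, h1⟩ := (f2 (f (Sum.inl u)) (Finset.mem_range.mpr (f3 _))).2 (T.image Sum.inl) (by
      intro x hx
      rw [Finset.mem_image] at hx
      obtain ⟨v, hv, rfl⟩ := hx
      rw [mem_cl]
      refine ⟨Finset.mem_univ _, ?_⟩
      have := hT v hv u hu
      rw [Fin.ext_iff] at this
      exact this) ⟨Sum.inl u, Finset.mem_image_of_mem _ hu⟩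
    rw [Finset.mem_image] at hw
    obtain ⟨v, hv, rfl⟩ := hw
    refine ⟨v, hv, ?_⟩
    unfold ee at h1 ⊢
    rw [Finset.sum_image (fun a _ b _ hab => Sum.inl_injective hab)] at h1
    exact h1

end Pool.Agent.H25.EB
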