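import Pool.Agent.H25.EA.Setup1
import Pool.Agent.H25.EB.Defs

/-!
# Existence of the setup (maximum degree at most `2k-1`)
-/

set_option autoImplicit false
set_option linter.unusedSectionVars false

namespace Pool.Agent.H25.EB

open Finset Pool.Agent.H25.EA

section prep

variable {V : Type*} [DecidableEq V] {μ : V → V → ℕ} {U : Finset V} {f : V → ℕ}

/-- a class which receives at most one edge -/
theorem exists_cl_le_one0 {C : Finset ℕ} (hf : ∀ v ∈ U, f v ∈ C) {v : V}
    (hd : ee μ v U + 1 ≤ 2 * C.card) : ∃ c ∈ C, ee μ v (cl U f c) ≤ 1 := by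
  by_contra hno
  push Not at hno
  have h1 : ∑ c ∈ C, 2 ≤ ∑ c ∈ C, ee μ v (cl U f c) :=
    Finset.sum_le_sum fun c hc => hno c hc
  rw [ee_sum_cl hf, Finset.sum_const, smul_eq_mul] at h1
  omega

/-- the vertices outside `RA` have small degree outside -/
theorem NE0_deg_BB (hμ : MG μ) {s : ℕ} {C : Finset ℕ} {r : ℕ} (h : NE μ U s C f r) {b : ℕ}
    (hb : C.card = (RA μ U f C r).card + b) (hdeg : ∀ v ∈ U, ee μ v U + 1 ≤ 2 * C.card) :
    ∀ v ∈ BB U f (RA μ U f C r), ee μ v (BB U f (RA μ U f C r)) + 1 ≤ 2 * b := by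
  intro v hv
  have h1 : 2 * (RA μ U f C r).card ≤ ee μ v (AA U f (RA μ U f C r)) := by
    rw [← ee_sum_AA, mul_comm, ← smul_eq_mul, ← Finset.sum_const]
    exact Finset.sum_le_sum fun c hc =>
      two_le_of_not_ac hμ (h.ac c (RA_sub hc)) (h.blocked v hv c hc)
  have h2 := ee_AA_add_BB (μ := μ) (U := U) (f := f) (RA μ U f C r) v
  have h3 := hdeg v (BB_sub hv)
  omega

/-- the new colouring of the swap rule -/
theorem NE0_swap_col (hμ : MG μ) {s b : ℕ} {C : Finset ℕ} {r : ℕ} (h : NE μ U s C f r)
    (hno : ¬ EC μ s U C)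
    (hb : C.card = (RA μ U f C r).card + b) (hdeg : ∀ v ∈ U, ee μ v U + 1 ≤ 2 * C.card)
    (IH : ∀ U' : Finset V, U' ⊆ U → U'.card = b * s → (∀ v ∈ U', ee μ v U' + 1 ≤ 2 * b) →
      EC μ s U' (C \ RA μ U f C r))
    (hcB : (BB U f (RA μ U f C r)).card = b * s + 1)
    {W : ℕ} (hW : W ∈ RA μ U f C r) (hWr : W ≠ r) (ht : NoCl (arc μ U f) (RA μ U f C r) r {W})
    {z : V} (hz : z ∈ cl U f W) (hzm : ∀ c ∈ RA μ U f C r, c ≠ W → ¬ mov μ U f z c)
    {y : V} (hy : y ∈ BB U f (RA μ U f C r)) (hac : Ac μ (insert y ((cl U f W).erase z))) :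
    ∃ g : V → ℕ, NE μ U s C g r ∧ RA μ U f C r ⊆ RA μ U g C r ∧
      BB U g (RA μ U f C r) = insert z ((BB U f (RA μ U f C r)).erase y) ∧
      AA U g (RA μ U f C r) = insert y ((AA U f (RA μ U f C r)).erase z) := by
  set 𝒜 := RA μ U f C r with h𝒜
  have hzU : z ∈ U := (mem_cl.mp hz).1
  have hfz : f z = W := (mem_cl.mp hz).2
  have hyU : y ∈ U := BB_sub hy
  have hfy : f y ∉ 𝒜 := (mem_BB.mp hy).2
  have hzy : z ≠ y := by
    rintro rfl
    exact hfy (hfz ▸ hW)
  have hzB : z ∉ BB U f 𝒜 := by
    rw [mem_BB, hfz]; exact fun h1 => h1.2 hW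
  have hcW : Ac μ (cl U f W) := h.ac W (RA_sub hW)
  -- degree of z
  have hz1 : 2 ≤ ee μ z (cl U f W) + μ z y := by
    have h1 : insert z (insert y ((cl U f W).erase z)) = insert y (cl U f W) := by
      rw [Finset.insert_comm, Finset.insert_erase hz]
    have h2 : ¬ Ac μ (insert z (insert y ((cl U f W).erase z))) := by
      rw [h1]; exact h.blocked y hy W hW
    have h3 := two_le_of_not_ac hμ hac h2
    have hyW : y ∉ (cl U f W).erase z := by
      rw [Finset.mem_erase, mem_cl]
      rintro ⟨_, _, h4⟩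
      exact hfy (h4 ▸ hW)
    rw [ee_insert_of_notMem hyW] at h3
    have h4 := ee_erase_add (μ := μ) (v := z) hz
    omega
  have hz2 : 2 * 𝒜.card + ee μ z (cl U f W) ≤ ee μ z (AA U f 𝒜) + 2 := by
    rw [← ee_sum_AA, ← Finset.add_sum_erase _ _ hW]
    have h1 : 2 * (𝒜.erase W).card ≤ ∑ c ∈ 𝒜.erase W, ee μ z (cl U f c) := by
      rw [mul_comm, ← smul_eq_mul, ← Finset.sum_const]
      apply Finset.sum_le_sum
      intro c hc
      rw [Finset.mem_erase] at hc
      exact two_le_of_not_ac hμ (h.ac c (RA_sub hc.2)) (hzm c hc.2 hc.1)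
    have h2 : (𝒜.erase W).card + 1 = 𝒜.card := Finset.card_erase_add_one hW
    omega
  have hzBy : ee μ z ((BB U f 𝒜).erase y) + 1 ≤ 2 * b := by
    have h1 := ee_erase_add (μ := μ) (v := z) hy
    have h2 := ee_AA_add_BB (μ := μ) (U := U) (f := f) 𝒜 z
    have h3 := hdeg z hzU
    omega
  -- the colouring of B - y
  obtain ⟨h', hh1, hh2⟩ := IH ((BB U f 𝒜).erase y) ((Finset.erase_subset _ _).trans BB_sub)
    (by rw [Finset.card_erase_of_mem hy, hcB]; rfl) (by
      intro v hv
      have h1 := NE0_deg_BB hμ h hb hdeg v (Finset.mem_of_mem_erase hv)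
      rw [← h𝒜] at h1
      have h2 : ee μ v ((BB U f 𝒜).erase y) ≤ ee μ v (BB U f 𝒜) := ee_mono (Finset.erase_subset _ _)
      omega)
  have hcard : (C \ 𝒜).card = b := by
    rw [Finset.card_sdiff_of_subset RA_sub, hb, ← h𝒜]; omega
  obtain ⟨d, hd, hd1⟩ := exists_cl_le_one0 (μ := μ) (v := z) hh1 (by rw [hcard]; exact hzBy)
  have hdC : d ∈ C := (Finset.mem_sdiff.mp hd).1
  have hdA : d ∉ 𝒜 := (Finset.mem_sdiff.mp hd).2
  set g : V → ℕ := fun v => if v = z then d else if v = y then W else
    if v ∈ BB U f 𝒜 then h' v else f v with hg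
  have gz : g z = d := by simp [hg]
  have gy : g y = W := by simp [hg, Ne.symm hzy]
  have gB : ∀ v, v ≠ z → v ≠ y → v ∈ BB U f 𝒜 → g v = h' v := by
    intro v h1 h2 h3; simp [hg, h1, h2, h3]
  have gA : ∀ v, v ≠ z → v ∉ BB U f 𝒜 → g v = f v := by
    intro v h1 h3
    have h2 : v ≠ y := fun h4 => h3 (h4 ▸ hy)
    simp [hg, h1, h2, h3]
  have gB' : ∀ v, v ≠ z → v ≠ y → v ∈ BB U f 𝒜 → g v ∈ C \ 𝒜 := by
    intro v h1 h2 h3
    rw [gB v h1 h2 h3]
    exact hh1 v (Finset.mem_erase.mpr ⟨h2, h3⟩)
  have gA' : ∀ v ∈ U, v ∉ BB U f 𝒜 → f v ∈ 𝒜 := by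
    intro v h1 h2
    by_contra h3
    exact h2 (mem_BB.mpr ⟨h1, h3⟩)
  -- the classes
  have cA : ∀ c ∈ 𝒜, c ≠ W → cl U g c = cl U f c := by
    intro c hc hcW
    ext v
    rw [mem_cl, mem_cl]
    by_cases hvz : v = z
    · subst hvz
      rw [gz, hfz]
      constructor
      · rintro ⟨_, h2⟩; exact absurd (h2 ▸ hc) hdA
      · rintro ⟨_, h2⟩; exact absurd h2.symm hcW
    · by_cases hvy : v = y
      · subst hvy
        rw [gy]
        constructor
        · rintro ⟨_, h2⟩; exact absurd h2.symm hcW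
        · rintro ⟨_, h2⟩; exact absurd (h2 ▸ hc) hfy
      · by_cases hvB : v ∈ BB U f 𝒜
        · have h3 := gB' v hvz hvy hvB
          rw [Finset.mem_sdiff] at h3
          constructor
          · rintro ⟨_, h2⟩; exact absurd (h2 ▸ hc) h3.2
          · rintro ⟨_, h2⟩; exact absurd (h2 ▸ hc) (mem_BB.mp hvB).2
        · rw [gA v hvz hvB]
  have cW : cl U g W = insert y ((cl U f W).erase z) := by
    ext v
    rw [mem_cl, Finset.mem_insert, Finset.mem_erase, mem_cl]
    by_cases hvz : v = z
    · subst hvz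
      rw [gz]
      constructor
      · rintro ⟨_, h2⟩; exact absurd (h2 ▸ hW) hdA
      · rintro (h2 | h2)
        · exact absurd h2 hzy
        · exact absurd rfl h2.1
    · by_cases hvy : v = y
      · subst hvy
        rw [gy]; simp [hyU]
      · by_cases hvB : v ∈ BB U f 𝒜
        · have h3 := gB' v hvz hvy hvB
          rw [Finset.mem_sdiff] at h3
          constructor
          · rintro ⟨_, h2⟩; exact absurd (h2 ▸ hW) h3.2
          · rintro (h2 | h2)
            · exact absurd h2 hvy
            · exact absurd (h2.2.2 ▸ hW) (mem_BB.mp hvB).2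
        · rw [gA v hvz hvB]; simp [hvz, hvy]
  have cB : ∀ c ∈ C \ 𝒜, c ≠ d → cl U g c = cl ((BB U f 𝒜).erase y) h' c := by
    intro c hc hcd
    rw [Finset.mem_sdiff] at hc
    ext v
    rw [mem_cl, mem_cl, Finset.mem_erase]
    by_cases hvz : v = z
    · subst hvz
      rw [gz]
      constructor
      · rintro ⟨_, h2⟩; exact absurd h2.symm hcd
      · rintro ⟨h2, _⟩; exact absurd h2.2 hzB
    · by_cases hvy : v = y
      · subst hvy
        rw [gy]
        constructor
        · rintro ⟨_, h2⟩; exact absurd (h2 ▸ hW) hc.2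
        · rintro ⟨h2, _⟩; exact absurd rfl h2.1
      · by_cases hvB : v ∈ BB U f 𝒜
        · rw [gB v hvz hvy hvB]
          simp [hvy, hvB, BB_sub hvB]
        · rw [gA v hvz hvB]
          constructor
          · rintro ⟨h1, h2⟩
            exact absurd (h2 ▸ gA' v h1 hvB) hc.2
          · rintro ⟨h2, _⟩; exact absurd h2.2 hvB
  have cd : cl U g d = insert z (cl ((BB U f 𝒜).erase y) h' d) := by
    ext v
    rw [mem_cl, Finset.mem_insert, mem_cl, Finset.mem_erase]
    by_cases hvz : v = z
    · subst hvz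
      rw [gz]; simp [hzU]
    · by_cases hvy : v = y
      · subst hvy
        rw [gy]
        constructor
        · rintro ⟨_, h2⟩; exact absurd (h2 ▸ hW) hdA
        · rintro (h2 | ⟨h2, _⟩)
          · exact absurd h2 hvz
          · exact absurd rfl h2.1
      · by_cases hvB : v ∈ BB U f 𝒜
        · rw [gB v hvz hvy hvB]
          simp [hvz, hvy, hvB, BB_sub hvB]
        · rw [gA v hvz hvB]
          constructor
          · rintro ⟨h1, h2⟩
            exact absurd (h2 ▸ gA' v h1 hvB) hdA
          · rintro (h2 | ⟨h2, _⟩)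
            · exact absurd h2 hvz
            · exact absurd h2.2 hvB
  have hznot : z ∉ cl ((BB U f 𝒜).erase y) h' d := by
    rw [mem_cl, Finset.mem_erase]
    exact fun h1 => hzB h1.1.2
  have hynot : y ∉ (cl U f W).erase z := by
    rw [Finset.mem_erase, mem_cl]
    rintro ⟨_, _, h4⟩
    exact hfy (h4 ▸ hW)
  have hrA : r ∈ 𝒜 := r_mem_RA h.r_mem
  have hdr : d ≠ r := fun h1 => hdA (h1 ▸ hrA)
  have hcols := h.card_cl hno
  refine ⟨g, ⟨?_, ?_, h.r_mem, ?_, d, hdC, hdr, ?_, ?_⟩, ?_, ?_, ?_⟩
  · intro v hv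
    by_cases hvz : v = z
    · rw [hvz, gz]; exact hdC
    · by_cases hvy : v = y
      · rw [hvy, gy]; exact RA_sub hW
      · by_cases hvB : v ∈ BB U f 𝒜
        · exact (Finset.mem_sdiff.mp (gB' v hvz hvy hvB)).1
        · rw [gA v hvz hvB]; exact h.col v hv
  · intro c hc
    by_cases hcA : c ∈ 𝒜
    · by_cases hcW' : c = W
      · rw [hcW', cW]; exact hac
      · rw [cA c hcA hcW']; exact h.ac c hc
    · have hc' : c ∈ C \ 𝒜 := Finset.mem_sdiff.mpr ⟨hc, hcA⟩
      by_cases hcd : c = d
      · rw [hcd, cd]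
        exact Ac.insert hμ (hh2 d hd).2 hd1
      · rw [cB c hc' hcd]; exact (hh2 c hc').2
  · rw [cA r hrA (Ne.symm hWr)]; exact h.card_r
  · rw [cd, Finset.card_insert_of_notMem hznot, (hh2 d hd).1]
  · intro c hc hcr hcd
    by_cases hcA : c ∈ 𝒜
    · by_cases hcW' : c = W
      · rw [hcW', cW, Finset.card_insert_of_notMem hynot, Finset.card_erase_add_one hz]
        exact hcols W hW hWr
      · rw [cA c hcA hcW']; exact hcols c hcA hcr
    · have hc' : c ∈ C \ 𝒜 := Finset.mem_sdiff.mpr ⟨hc, hcA⟩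
      rw [cB c hc' hcd]; exact (hh2 c hc').1
  · -- every class still reaches r
    intro c hc
    rw [mem_RA]
    refine ⟨RA_sub hc, fun K hK hrK hcl hcK => ?_⟩
    by_cases hne : ((K ∩ 𝒜).erase W).Nonempty
    · obtain ⟨x, hx, x', hx'A, hx'K, hx'W, hne', w, hw, hm⟩ := ht ((K ∩ 𝒜).erase W)
        ((Finset.erase_subset _ _).trans Finset.inter_subset_right)
        (by rw [Finset.disjoint_singleton_right]; exact Finset.notMem_erase _ _)
        (fun h1 => hrK (Finset.mem_inter.mp (Finset.mem_of_mem_erase h1)).1) hne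
      rw [Finset.mem_erase, Finset.mem_inter] at hx
      rw [Finset.mem_singleton] at hx'W
      have h1 : arc μ U g x x' := by
        refine ⟨hne', w, ?_, ?_⟩
        · rw [cA x hx.2.2 hx.1]; exact hw
        · unfold mov; rw [cA x' hx'A hx'W]; exact hm
      have h2 := hcl x hx.2.1 x' (RA_sub hx'A) h1
      exact hx'K (Finset.mem_erase.mpr ⟨hx'W, Finset.mem_inter.mpr ⟨h2, hx'A⟩⟩)
    · have hcW' : c = W := by
        by_contra h1
        exact hne ⟨c, Finset.mem_erase.mpr ⟨h1, Finset.mem_inter.mpr ⟨hcK, hc⟩⟩⟩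
      subst hcW'
      obtain ⟨x, hx, x', hx'A, hx'K, _, hne', w, hw, hm⟩ := RA_reach (μ := μ) (U := U) (f := f)
        h.r_mem {c} (Finset.singleton_subset_iff.mpr hW) (Finset.disjoint_empty_right _)
        (by rw [Finset.mem_singleton]; exact Ne.symm hWr) (Finset.singleton_nonempty c)
      rw [Finset.mem_singleton] at hx
      subst hx
      rw [Finset.mem_singleton] at hx'K
      have hwz : w ≠ z := by
        rintro rfl
        exact hzm x' hx'A hx'K hm
      have h1 : arc μ U g x x' := by
        refine ⟨hne', w, ?_, ?_⟩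
        · rw [cW]; exact Finset.mem_insert_of_mem (Finset.mem_erase.mpr ⟨hwz, hw⟩)
        · unfold mov; rw [cA x' hx'A hx'K]; exact hm
      have h2 := hcl x hcK x' (RA_sub hx'A) h1
      exact hne ⟨x', Finset.mem_erase.mpr ⟨hx'K, Finset.mem_inter.mpr ⟨h2, hx'A⟩⟩⟩
  · ext v
    rw [mem_BB, Finset.mem_insert, Finset.mem_erase]
    by_cases hvz : v = z
    · subst hvz
      rw [gz]; simp [hzU, hdA]
    · by_cases hvy : v = y
      · subst hvy
        rw [gy]; simp [hvz, hW]
      · by_cases hvB : v ∈ BB U f 𝒜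
        · have h3 := gB' v hvz hvy hvB
          rw [Finset.mem_sdiff] at h3
          simp [hvy, hvB, BB_sub hvB, h3.2]
        · rw [gA v hvz hvB]
          constructor
          · rintro ⟨h1, h2⟩; exact absurd (gA' v h1 hvB) h2
          · rintro (h2 | h2)
            · exact absurd h2 hvz
            · exact absurd h2.2 hvB
  · ext v
    rw [mem_AA, Finset.mem_insert, Finset.mem_erase, mem_AA]
    by_cases hvz : v = z
    · subst hvz
      rw [gz]; simp [hdA, hzy]
    · by_cases hvy : v = y
      · subst hvy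
        rw [gy]; simp [hyU, hW]
      · by_cases hvB : v ∈ BB U f 𝒜
        · have h3 := gB' v hvz hvy hvB
          rw [Finset.mem_sdiff] at h3
          have h4 := (mem_BB.mp hvB).2
          simp [hvy, hvz, h3.2, h4]
        · rw [gA v hvz hvB]; simp [hvz, hvy]

/-- the setup of an extremal nearly equitable colouring -/
theorem exists_setup (hμ : MG μ) {s : ℕ} {C : Finset ℕ} (hno : ¬ EC μ s U C)
    (hdeg : ∀ v ∈ U, ee μ v U + 1 ≤ 2 * C.card) (hU : U.card = C.card * s)
    (IH : ∀ C' ⊆ C, C' ≠ C → ∀ U' : Finset V, U' ⊆ U → U'.card = C'.card * s →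
      (∀ v ∈ U', ee μ v U' + 1 ≤ 2 * C'.card) → EC μ s U' C')
    (hNE : ∃ f r, NE μ U s C f r) : ∃ b f 𝒜 r, Setup0 μ s b U f 𝒜 r := by
  -- the extremal choice
  obtain ⟨f, r, h, hmax⟩ : ∃ f r, NE μ U s C f r ∧
      ∀ f' r', NE μ U s C f' r' → meas μ U C f' r' ≤ meas μ U C f r := by
    classical
    obtain ⟨f0, r0, h0⟩ := hNE
    let P : ℕ → Prop := fun n => ∃ f r, NE μ U s C f r ∧ meas μ U C f r = n
    have hP0 : P (meas μ U C f0 r0) := ⟨f0, r0, h0, rfl⟩
    have hbd := meas_le (μ := μ) (U := U) C f0 r0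
    obtain ⟨f, r, h, hm⟩ := Nat.findGreatest_spec (P := P) hbd hP0
    refine ⟨f, r, h, fun f' r' h' => ?_⟩
    rw [hm]
    exact Nat.le_findGreatest (meas_le C f' r') ⟨f', r', h', rfl⟩
  set 𝒜 := RA μ U f C r with h𝒜
  have hrA : r ∈ 𝒜 := r_mem_RA h.r_mem
  have hsub : 𝒜 ⊆ C := RA_sub
  obtain ⟨b, hb⟩ : ∃ b, C.card = 𝒜.card + b := Nat.exists_eq_add_of_le (Finset.card_le_card hsub)
  have hcardB' : (C \ 𝒜).card = b := by
    rw [Finset.card_sdiff_of_subset hsub, hb]; omega
  have hne : C \ 𝒜 ≠ C := by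
    intro h1
    have := h.r_mem
    rw [← h1, Finset.mem_sdiff] at this
    exact this.2 hrA
  have hcols := h.card_cl hno
  have hcA : (AA U f 𝒜).card + 1 = 𝒜.card * s := by
    rw [← card_sum_AA, ← Finset.add_sum_erase _ _ hrA]
    have h1 : ∑ c ∈ 𝒜.erase r, (cl U f c).card = ∑ c ∈ 𝒜.erase r, s :=
      Finset.sum_congr rfl fun c hc => hcols c (Finset.mem_of_mem_erase hc) (Finset.ne_of_mem_erase hc)
    rw [h1, Finset.sum_const, smul_eq_mul]
    have h2 : (𝒜.erase r).card + 1 = 𝒜.card := Finset.card_erase_add_one hrA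
    have h3 := h.card_r
    rw [← h2, add_mul, one_mul]
    omega
  have hcB : (BB U f 𝒜).card = b * s + 1 := by
    have h1 := card_AA_add_BB (U := U) (f := f) 𝒜
    rw [hU, hb, add_mul] at h1
    omega
  have IH' : ∀ U' : Finset V, U' ⊆ U → U'.card = b * s → (∀ v ∈ U', ee μ v U' + 1 ≤ 2 * b) →
      EC μ s U' (C \ 𝒜) := by
    intro U' h1 h2 h3
    exact IH (C \ 𝒜) Finset.sdiff_subset hne U' h1 (by rw [hcardB', h2]) (by rw [hcardB']; exact h3)
  refine ⟨b, f, 𝒜, r, hμ, ?_, hrA, h.card_r, hcols, fun c hc => h.ac c (hsub hc), hcB,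
    h.blocked, RA_reach h.r_mem, ?_, ?_⟩
  · intro v hv
    rw [← hb]; exact hdeg v hv
  · intro A' hA' hA'c hd hEC
    have h1 : EC μ s (U \ A') (C \ 𝒜) := by
      apply IH' _ Finset.sdiff_subset _ hd
      rw [Finset.card_sdiff_of_subset hA', hU, hA'c, hb, add_mul]
      omega
    have h2 := EC.glue hA' hEC h1 Finset.disjoint_sdiff
    rw [Finset.union_sdiff_of_subset hsub] at h2
    exact hno h2
  · intro W hW hWr ht z hz hzm y hy hac
    obtain ⟨g, hg, hsubA, hBg, hAg⟩ := NE0_swap_col hμ h hno hb hdeg IH' hcB hW hWr ht hz hzm hy hac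
    have hm := hmax g r hg
    rw [← h𝒜] at hAg hBg hsubA
    -- the reachable classes are the same
    have hAeq : RA μ U g C r = 𝒜 := by
      by_contra hneq
      have h1 : 𝒜.card < (RA μ U g C r).card :=
        Finset.card_lt_card ⟨hsubA, fun h2 => hneq (Finset.Subset.antisymm h2 hsubA)⟩
      have h2 : ∑ v ∈ AA U f 𝒜, ee μ v (AA U f 𝒜) ≤ ∑ v ∈ U, ee μ v U := inner_le AA_sub
      have h3 : (𝒜.card + 1) * (∑ v ∈ U, ee μ v U + 1) ≤
          (RA μ U g C r).card * (∑ v ∈ U, ee μ v U + 1) := Nat.mul_le_mul_right _ h1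
      unfold meas at hm
      rw [add_mul, one_mul] at h3
      rw [← h𝒜] at hm
      omega
    constructor
    · have h1 := NE0_deg_BB hμ hg (b := b) (by rw [hAeq]; exact hb) hdeg
      rw [hAeq, hBg] at h1
      exact h1
    · have hzA : z ∈ AA U f 𝒜 := mem_AA.mpr ⟨(mem_cl.mp hz).1, (mem_cl.mp hz).2 ▸ hW⟩
      have hyA : y ∉ AA U f 𝒜 := fun h1 => (mem_BB.mp hy).2 (mem_AA.mp h1).2
      apply inner_swap hμ hzA hyA
      unfold meas at hm
      rw [hAeq, ← h𝒜, hAg] at hm
      omega

end prep

theorem main_aux (hcore : ∀ (V : Type) [DecidableEq V] (μ : V → V → ℕ) (s b : ℕ)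
      (U : Finset V) (f : V → ℕ) (𝒜 : Finset ℕ) (r : ℕ), ¬ Setup0 μ s b U f 𝒜 r)
    (V : Type) [DecidableEq V] (s : ℕ) : ∀ (k m : ℕ) (μ : V → V → ℕ) (U : Finset V) (C : Finset ℕ),
      MG μ → C.card = k → U.card = C.card * s → (∀ v ∈ U, ee μ v U + 1 ≤ 2 * C.card) →
      ∑ v ∈ U, ee μ v U = m → EC μ s U C := by
  intro k
  induction k using Nat.strong_induction_on with
  | _ k ihk =>
    intro m
    induction m using Nat.strong_induction_on with
    | _ m ihm =>
      intro μ U C hμ hC hU hdeg hm
      by_contra hno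
      by_cases hz : ∀ v ∈ U, ee μ v U = 0
      · obtain ⟨f, f1, f2⟩ := exists_equal_split s C U hU
        apply hno
        refine ⟨f, f1, fun c hc => ⟨f2 c hc, ?_⟩⟩
        intro T hT hne
        obtain ⟨v, hv⟩ := hne
        have hTU : T ⊆ U := hT.trans (Finset.filter_subset _ _)
        refine ⟨v, hv, ?_⟩
        have h1 := hz v (hTU hv)
        have h2 : ee μ v T ≤ ee μ v U := ee_mono hTU
        omega
      · push Not at hz
        obtain ⟨u, hu, hu0⟩ := hz
        -- delete the edges at u
        have hμ' : MG (cut μ u) := by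
          refine ⟨?_, ?_, ?_⟩
          · intro v w
            unfold cut
            by_cases h1 : v = u <;> by_cases h2 : w = u <;> simp [h1, h2, hμ.symm v w]
          · intro v
            unfold cut
            split_ifs
            · rfl
            · exact hμ.diag v
          · intro v w
            unfold cut
            split_ifs
            · omega
            · exact hμ.le_two v w
        have hcut_le : ∀ v (S : Finset V), ee (cut μ u) v S ≤ ee μ v S := by
          intro v S
          unfold ee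
          apply Finset.sum_le_sum
          intro w _
          unfold cut
          split_ifs
          · omega
          · exact le_refl _
        have hcut_u : ∀ S : Finset V, ee (cut μ u) u S = 0 := by
          intro S
          unfold ee
          apply Finset.sum_eq_zero
          intro w _
          unfold cut
          simp
        have hcut_eq : ∀ v (S : Finset V), v ≠ u → u ∉ S → ee (cut μ u) v S = ee μ v S := by
          intro v S hv hS
          unfold ee
          apply Finset.sum_congr rfl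
          intro w hw
          unfold cut
          rw [if_neg]
          rintro (h1 | h1)
          · exact hv h1
          · exact hS (h1 ▸ hw)
        have hAc_cut : ∀ S : Finset V, Ac (cut μ u) S → Ac μ (S.erase u) := by
          intro S hS T hT hne
          have hTS : T ⊆ S := hT.trans (Finset.erase_subset _ _)
          have huT : u ∉ T := fun h1 => Finset.notMem_erase u S (hT h1)
          obtain ⟨v, hv, h1⟩ := hS T hTS hne
          refine ⟨v, hv, ?_⟩
          rw [← hcut_eq v T (fun h2 => huT (h2 ▸ hv)) huT]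
          exact h1
        have hlt : ∑ v ∈ U, ee (cut μ u) v U < m := by
          rw [← hm]
          apply Finset.sum_lt_sum (fun v _ => hcut_le v U)
          exact ⟨u, hu, by rw [hcut_u]; omega⟩
        obtain ⟨f0, f1, f2⟩ := ihm _ hlt (cut μ u) U C hμ' hC hU (by
          intro v hv
          have h1 := hcut_le v U
          have h2 := hdeg v hv
          omega) rfl
        -- move u
        obtain ⟨d, hd, hd1⟩ := exists_cl_le_one0 (μ := μ) (v := u) f1 (hdeg u hu)
        have hfu : f0 u ∈ C := f1 u hu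
        have hclass : ∀ c ∈ C, c ≠ f0 u → Ac μ (cl U f0 c) := by
          intro c hc hcu
          have h1 := hAc_cut _ (f2 c hc).2
          rwa [Finset.erase_eq_of_notMem] at h1
          rw [mem_cl]
          exact fun h2 => hcu h2.2.symm
        have hclassu : Ac μ ((cl U f0 (f0 u)).erase u) := hAc_cut _ (f2 _ hfu).2
        have hucl : u ∈ cl U f0 (f0 u) := mem_cl.mpr ⟨hu, rfl⟩
        by_cases hdu : d = f0 u
        · apply hno
          refine ⟨f0, f1, fun c hc => ⟨(f2 c hc).1, ?_⟩⟩
          by_cases hcu : c = f0 u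
          · rw [hcu, ← Finset.insert_erase hucl]
            apply Ac.insert hμ hclassu
            rw [hdu] at hd1
            exact (ee_mono (Finset.erase_subset _ _)).trans hd1
          · exact hclass c hc hcu
        · have hNE : NE μ U s C (Function.update f0 u d) (f0 u) := by
            have c1 : cl U (Function.update f0 u d) (f0 u) = (cl U f0 (f0 u)).erase u := by
              ext v
              rw [mem_cl, Finset.mem_erase, mem_cl]
              by_cases hvu : v = u
              · rw [hvu, Function.update_self]; simp [hdu]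
              · rw [Function.update_of_ne hvu]; simp [hvu]
            have c2 : cl U (Function.update f0 u d) d = insert u (cl U f0 d) := by
              ext v
              rw [mem_cl, Finset.mem_insert, mem_cl]
              by_cases hvu : v = u
              · rw [hvu, Function.update_self]; simp [hu]
              · rw [Function.update_of_ne hvu]; simp [hvu]
            have c3 : ∀ c, c ≠ f0 u → c ≠ d → cl U (Function.update f0 u d) c = cl U f0 c := by
              intro c h1 h2
              ext v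
              rw [mem_cl, mem_cl]
              by_cases hvu : v = u
              · rw [hvu, Function.update_self]; simp [Ne.symm h1, Ne.symm h2]
              · rw [Function.update_of_ne hvu]
            have hud : u ∉ cl U f0 d := by
              rw [mem_cl]; exact fun h1 => hdu h1.2.symm
            refine ⟨?_, ?_, hfu, ?_, d, hd, hdu, ?_, ?_⟩
            · intro v hv
              by_cases hvu : v = u
              · rw [hvu, Function.update_self]; exact hd
              · rw [Function.update_of_ne hvu]; exact f1 v hv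
            · intro c hc
              by_cases h1 : c = f0 u
              · rw [h1, c1]; exact hclassu
              · by_cases h2 : c = d
                · rw [h2, c2]
                  exact Ac.insert hμ (hclass d hd hdu) hd1
                · rw [c3 c h1 h2]; exact hclass c hc h1
            · rw [c1, Finset.card_erase_add_one hucl]; exact (f2 _ hfu).1
            · rw [c2, Finset.card_insert_of_notMem hud, (f2 d hd).1]
            · intro c hc h1 h2
              rw [c3 c h1 h2]; exact (f2 c hc).1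
          obtain ⟨b, f, 𝒜, r, hS⟩ := exists_setup hμ hno hdeg hU (by
            intro C' hC' hne' U' _ hU' hdeg'
            have hlt' : C'.card < k := by
              rw [← hC]
              exact Finset.card_lt_card ⟨hC', fun h2 => hne' (Finset.Subset.antisymm hC' h2)⟩
            exact ihk _ hlt' _ μ U' C' hμ rfl hU' hdeg' rfl) ⟨_, _, hNE⟩
          exact hcore V μ s b U f 𝒜 r hS

theorem main_of_core (hcore : ∀ (V : Type) [DecidableEq V] (μ : V → V → ℕ) (s b : ℕ)
      (U : Finset V) (f : V → ℕ) (𝒜 : Finset ℕ) (r : ℕ), ¬ Setup0 μ s b U f 𝒜 r)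
    (V : Type) [DecidableEq V] (μ : V → V → ℕ) (hμ : MG μ) (s k : ℕ) (U : Finset V)
    (hU : U.card = k * s) (hdeg : ∀ v ∈ U, ee μ v U + 1 ≤ 2 * k) :
    EC μ s U (range k) :=
  main_aux hcore V s k _ μ U (range k) hμ (Finset.card_range k) (by rw [Finset.card_range]; exact hU)
    (by rw [Finset.card_range]; exact hdeg) rfl

end Pool.Agent.H25.EB
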